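import Pool.Agent.Lib_helper6.BB.Tame

open Filter Topology Set
open scoped ContDiff

namespace BB

variable {V W X : Type} [NormedAddCommGroup V] [NormedSpace ℝ V]
  [NormedAddCommGroup W] [NormedSpace ℝ W] [NormedAddCommGroup X] [NormedSpace ℝ X]

theorem TA1_pos : ∀ᶠ e in 𝓝[>] (0 : ℝ), 0 < e := self_mem_nhdsWithin

theorem TA1_ge (C : ℝ) {η : ℝ} (hη : 0 < η) : ∀ᶠ e in 𝓝[>] (0 : ℝ), C ≤ e ^ (-η) :=
  (tendsto_rpow_neg_nhdsGT_zero (by linarith : -η < 0)).eventually_ge_atTop C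

theorem TA1_absorb (C : ℝ) {η : ℝ} (hη : 0 < η) :
    ∀ᶠ e in 𝓝[>] (0 : ℝ), C * e ^ (-(η / 2)) ≤ e ^ (-η) := by
  filter_upwards [TA1_pos, TA1_ge C (half_pos hη)] with e he hC
  have h1 : e ^ (-η) = e ^ (-(η / 2)) * e ^ (-(η / 2)) := by
    rw [← Real.rpow_add he]; congr 1; ring
  rw [h1]
  exact mul_le_mul_of_nonneg_right hC (Real.rpow_nonneg he.le _)

theorem TA1_within {Ω : Set V} (hΩ : IsOpen Ω) (f : V → W) (n : ℕ) {x : V} (hx : x ∈ Ω) :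
    iteratedFDeriv ℝ n f x = iteratedFDerivWithin ℝ n f Ω x :=
  (iteratedFDerivWithin_of_isOpen n hΩ hx).symm

theorem Tame.isOpen {Ω : ℝ → Set V} {f : ℝ → V → W} (hf : Tame Ω f) :
    ∀ᶠ e in 𝓝[>] (0 : ℝ), IsOpen (Ω e) := hf.1.mono fun _ h => h.1

theorem Tame.bound0 {Ω : ℝ → Set V} {f : ℝ → V → W} (hf : Tame Ω f) {η : ℝ} (hη : 0 < η) :
    ∀ᶠ e in 𝓝[>] (0 : ℝ), ∀ x ∈ Ω e, ‖f e x‖ ≤ e ^ (-η) := by
  filter_upwards [hf.2 0 η hη] with e h x hx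
  have := h x hx
  rwa [norm_iteratedFDeriv_zero] at this

theorem Tame.congr {Ω : ℝ → Set V} {f g : ℝ → V → W} (hf : Tame Ω f)
    (h : ∀ᶠ e in 𝓝[>] (0 : ℝ), ∀ x ∈ Ω e, g e x = f e x) : Tame Ω g := by
  refine ⟨?_, fun n η hη => ?_⟩
  · filter_upwards [hf.1, h] with e h1 h2
    exact ⟨h1.1, h1.2.congr h2⟩
  · filter_upwards [hf.1, h, hf.2 n η hη] with e h1 h2 h3 x hx
    rw [TA1_within h1.1 _ n hx, iteratedFDerivWithin_congr (fun y hy => h2 y hy) hx n,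
      ← TA1_within h1.1 _ n hx]
    exact h3 x hx

theorem Tame.mono {Ω Ω' : ℝ → Set V} {f : ℝ → V → W} (hf : Tame Ω f)
    (h : ∀ᶠ e in 𝓝[>] (0 : ℝ), IsOpen (Ω' e) ∧ Ω' e ⊆ Ω e) : Tame Ω' f := by
  refine ⟨?_, fun n η hη => ?_⟩
  · filter_upwards [hf.1, h] with e h1 h2
    exact ⟨h2.1, h1.2.mono h2.2⟩
  · filter_upwards [h, hf.2 n η hη] with e h2 h3 x hx
    exact h3 x (h2.2 hx)

/-- it is enough to bound the derivatives by `C * e ^ (-η)` -/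
theorem Tame.of_const_mul {Ω : ℝ → Set V} {f : ℝ → V → W}
    (h1 : ∀ᶠ e in 𝓝[>] (0 : ℝ), IsOpen (Ω e) ∧ ContDiffOn ℝ ∞ (f e) (Ω e))
    (h2 : ∀ (n : ℕ) (η : ℝ), 0 < η → ∃ C : ℝ, ∀ᶠ e in 𝓝[>] (0 : ℝ), ∀ x ∈ Ω e,
      ‖iteratedFDeriv ℝ n (f e) x‖ ≤ C * e ^ (-η)) : Tame Ω f := by
  refine ⟨h1, fun n η hη => ?_⟩
  obtain ⟨C, hC⟩ := h2 n (η / 2) (half_pos hη)
  filter_upwards [hC, TA1_absorb C hη] with e h3 h4 x hx
  exact (h3 x hx).trans h4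

theorem TA1_const_bound (n : ℕ) (c : W) (x : V) :
    ‖iteratedFDeriv ℝ n (fun _ : V => c) x‖ ≤ ‖c‖ := by
  rcases Nat.eq_zero_or_pos n with h | h
  · subst h
    rw [norm_iteratedFDeriv_zero]
  · rw [iteratedFDeriv_const_of_ne h.ne' c]
    simp

theorem Tame.const {Ω : ℝ → Set V} (hΩ : ∀ᶠ e in 𝓝[>] (0 : ℝ), IsOpen (Ω e)) {c : ℝ → W}
    (hc : ∀ η : ℝ, 0 < η → ∀ᶠ e in 𝓝[>] (0 : ℝ), ‖c e‖ ≤ e ^ (-η)) :
    Tame Ω (fun e _ => c e) := by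
  refine ⟨hΩ.mono fun e h => ⟨h, contDiffOn_const⟩, fun n η hη => ?_⟩
  filter_upwards [hc η hη] with e h x _
  exact (TA1_const_bound n (c e) x).trans h

theorem Tame.constFix {Ω : ℝ → Set V} (hΩ : ∀ᶠ e in 𝓝[>] (0 : ℝ), IsOpen (Ω e)) (c : W) :
    Tame Ω (fun _ _ => c) :=
  Tame.const hΩ fun _ hη => TA1_ge ‖c‖ hη

theorem Tame.constReal {Ω : ℝ → Set V} (hΩ : ∀ᶠ e in 𝓝[>] (0 : ℝ), IsOpen (Ω e)) {c : ℝ → ℝ}
    (hc : Slow c) : Tame Ω (fun e _ => c e) :=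
  Tame.const hΩ fun η hη => by simpa [Real.norm_eq_abs] using hc η hη

theorem Tame.clm {Ω : ℝ → Set V} (hΩ : ∀ᶠ e in 𝓝[>] (0 : ℝ), IsOpen (Ω e)) (L : V →L[ℝ] W)
    (hb : ∀ η : ℝ, 0 < η → ∀ᶠ e in 𝓝[>] (0 : ℝ), ∀ x ∈ Ω e, ‖x‖ ≤ e ^ (-η)) :
    Tame Ω (fun _ x => L x) := by
  refine Tame.of_const_mul (hΩ.mono fun e h => ⟨h, L.contDiff.contDiffOn⟩) fun n η hη => ⟨‖L‖, ?_⟩
  rcases n with _ | n
  · filter_upwards [hb η hη] with e h x hx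
    rw [norm_iteratedFDeriv_zero]
    exact (L.le_opNorm x).trans (mul_le_mul_of_nonneg_left (h x hx) (norm_nonneg _))
  · filter_upwards [TA1_ge 1 hη] with e h x _
    rw [← norm_iteratedFDeriv_fderiv]
    have h1 : fderiv ℝ (fun x => L x) = fun _ : V => L := by
      funext y
      exact L.fderiv
    rw [h1]
    refine (TA1_const_bound n L x).trans ?_
    nlinarith [norm_nonneg L]

theorem Tame.add {Ω : ℝ → Set V} {f g : ℝ → V → W} (hf : Tame Ω f) (hg : Tame Ω g) :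
    Tame Ω (fun e x => f e x + g e x) := by
  refine Tame.of_const_mul ?_ fun n η hη => ⟨2, ?_⟩
  · filter_upwards [hf.1, hg.1] with e h1 h2
    exact ⟨h1.1, h1.2.add h2.2⟩
  · filter_upwards [hf.1, hg.1, hf.2 n η hη, hg.2 n η hη] with e h1 h2 h3 h4 x hx
    have hf1 : ContDiffAt ℝ n (f e) x :=
      (h1.2.contDiffAt (h1.1.mem_nhds hx)).of_le (by exact_mod_cast le_top)
    have hg1 : ContDiffAt ℝ n (g e) x :=
      (h2.2.contDiffAt (h1.1.mem_nhds hx)).of_le (by exact_mod_cast le_top)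
    have h5 : iteratedFDeriv ℝ n (fun y => f e y + g e y) x =
        iteratedFDeriv ℝ n (f e) x + iteratedFDeriv ℝ n (g e) x :=
      iteratedFDeriv_add_apply hf1 hg1
    rw [h5]
    refine (norm_add_le _ _).trans ?_
    have := h3 x hx; have := h4 x hx
    linarith

theorem Tame.clm_comp {Ω : ℝ → Set V} {f : ℝ → V → W} (hf : Tame Ω f) (L : W →L[ℝ] X) :
    Tame Ω (fun e x => L (f e x)) := by
  refine Tame.of_const_mul ?_ fun n η hη => ⟨‖L‖, ?_⟩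
  · filter_upwards [hf.1] with e h1
    exact ⟨h1.1, L.contDiff.comp_contDiffOn h1.2⟩
  · filter_upwards [hf.1, hf.2 n η hη] with e h1 h3 x hx
    have hf1 : ContDiffAt ℝ n (f e) x :=
      (h1.2.contDiffAt (h1.1.mem_nhds hx)).of_le (by exact_mod_cast le_top)
    have h5 : iteratedFDeriv ℝ n (fun y => L (f e y)) x =
        L.compContinuousMultilinearMap (iteratedFDeriv ℝ n (f e) x) :=
      L.iteratedFDeriv_comp_left hf1 le_rfl
    rw [h5]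
    refine (L.norm_compContinuousMultilinearMap_le _).trans ?_
    exact mul_le_mul_of_nonneg_left (h3 x hx) (norm_nonneg _)

theorem Tame.neg {Ω : ℝ → Set V} {f : ℝ → V → W} (hf : Tame Ω f) :
    Tame Ω (fun e x => - f e x) := by
  have := hf.clm_comp (-ContinuousLinearMap.id ℝ W)
  exact this

theorem Tame.sub {Ω : ℝ → Set V} {f g : ℝ → V → W} (hf : Tame Ω f) (hg : Tame Ω g) :
    Tame Ω (fun e x => f e x - g e x) := by
  have := hf.add hg.neg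
  simpa [sub_eq_add_neg] using this

theorem Tame.prodMk {Ω : ℝ → Set V} {f : ℝ → V → W} {g : ℝ → V → X} (hf : Tame Ω f)
    (hg : Tame Ω g) : Tame Ω (fun e x => (f e x, g e x)) := by
  have h1 := (hf.clm_comp (ContinuousLinearMap.inl ℝ W X)).add
    (hg.clm_comp (ContinuousLinearMap.inr ℝ W X))
  refine h1.congr (Eventually.of_forall fun e x _ => ?_)
  simp

theorem Tame.fst {Ω : ℝ → Set V} {f : ℝ → V → W × X} (hf : Tame Ω f) :
    Tame Ω (fun e x => (f e x).1) :=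
  hf.clm_comp (ContinuousLinearMap.fst ℝ W X)

theorem Tame.snd {Ω : ℝ → Set V} {f : ℝ → V → W × X} (hf : Tame Ω f) :
    Tame Ω (fun e x => (f e x).2) :=
  hf.clm_comp (ContinuousLinearMap.snd ℝ W X)

end BB
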