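import Pool.Agent.Lib_helper6.BB.Tame
import Pool.Agent.Lib_helper6.BB.W.TA1

open Filter Topology Set
open scoped ContDiff

namespace BB

variable {V W X Y : Type} [NormedAddCommGroup V] [NormedSpace ℝ V]
  [NormedAddCommGroup W] [NormedSpace ℝ W] [NormedAddCommGroup X] [NormedSpace ℝ X]
  [NormedAddCommGroup Y] [NormedSpace ℝ Y]

theorem TA2_pos : ∀ᶠ e in 𝓝[>] (0 : ℝ), (0 : ℝ) < e := self_mem_nhdsWithin

theorem TA2_lt_one : ∀ᶠ e in 𝓝[>] (0 : ℝ), e < (1 : ℝ) :=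
  Filter.Eventually.filter_mono nhdsWithin_le_nhds (gt_mem_nhds one_pos)

theorem TA2_big (C : ℝ) {η : ℝ} (hη : 0 < η) : ∀ᶠ e in 𝓝[>] (0 : ℝ), C ≤ e ^ (-η) :=
  (tendsto_rpow_neg_nhdsGT_zero (neg_neg_of_pos hη)).eventually_ge_atTop C

theorem TA2_half {e : ℝ} (he : 0 < e) (η : ℝ) : e ^ (-(η / 2)) * e ^ (-(η / 2)) = e ^ (-η) := by
  rw [← Real.rpow_add he]
  congr 1
  ring

theorem Tame.bilin {Ω : ℝ → Set V} {f : ℝ → V → W} {g : ℝ → V → X} (hf : Tame Ω f)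
    (hg : Tame Ω g) (B : W →L[ℝ] X →L[ℝ] Y) : Tame Ω (fun e x => B (f e x) (g e x)) := by
  refine Tame.of_const_mul ?_ ?_
  · filter_upwards [hf.1, hg.1] with e h1 h2
    exact ⟨h1.1, (B.isBoundedBilinearMap.contDiff.comp_contDiffOn (h1.2.prodMk h2.2))⟩
  · intro n η hη
    have hη2 : 0 < η / 2 := by linarith
    refine ⟨‖B‖ * ∑ i ∈ Finset.range (n + 1), (n.choose i : ℝ), ?_⟩
    have h3 : ∀ᶠ e in 𝓝[>] (0 : ℝ), ∀ i ∈ Finset.range (n + 1), ∀ x ∈ Ω e,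
        ‖iteratedFDeriv ℝ i (f e) x‖ ≤ e ^ (-(η / 2)) :=
      (Filter.eventually_all_finset _).2 fun i _ => hf.2 i (η / 2) hη2
    have h4 : ∀ᶠ e in 𝓝[>] (0 : ℝ), ∀ i ∈ Finset.range (n + 1), ∀ x ∈ Ω e,
        ‖iteratedFDeriv ℝ (n - i) (g e) x‖ ≤ e ^ (-(η / 2)) :=
      (Filter.eventually_all_finset _).2 fun i _ => hg.2 (n - i) (η / 2) hη2
    filter_upwards [hf.1, hg.1, h3, h4, TA2_pos] with e h1 h2 h5 h6 he x hx
    have h7 := B.norm_iteratedFDerivWithin_le_of_bilinear h1.2 h2.2 h1.1.uniqueDiffOn hx (n := n)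
      (by exact_mod_cast le_top)
    rw [iteratedFDerivWithin_of_isOpen n h1.1 hx] at h7
    refine h7.trans ?_
    rw [mul_assoc]
    refine mul_le_mul_of_nonneg_left ?_ (norm_nonneg B)
    rw [Finset.sum_mul]
    refine Finset.sum_le_sum fun i hi => ?_
    rw [iteratedFDerivWithin_of_isOpen i h1.1 hx, iteratedFDerivWithin_of_isOpen (n - i) h1.1 hx,
      mul_assoc]
    refine mul_le_mul_of_nonneg_left ?_ (Nat.cast_nonneg _)
    rw [← TA2_half he]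
    exact mul_le_mul (h5 i hi x hx) (h6 i hi x hx) (norm_nonneg _) (Real.rpow_nonneg he.le _)

theorem Tame.smul {Ω : ℝ → Set V} {f : ℝ → V → ℝ} {g : ℝ → V → W} (hf : Tame Ω f)
    (hg : Tame Ω g) : Tame Ω (fun e x => f e x • g e x) :=
  Tame.bilin hf hg (ContinuousLinearMap.lsmul ℝ ℝ)

theorem Tame.mul {Ω : ℝ → Set V} {f g : ℝ → V → ℝ} (hf : Tame Ω f)
    (hg : Tame Ω g) : Tame Ω (fun e x => f e x * g e x) :=
  Tame.bilin hf hg (ContinuousLinearMap.mul ℝ ℝ)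

theorem Tame.pow {Ω : ℝ → Set V} {f : ℝ → V → ℝ} (hf : Tame Ω f) (n : ℕ) :
    Tame Ω (fun e x => f e x ^ n) := by
  induction n with
  | zero => simpa using Tame.constFix hf.isOpen (1 : ℝ)
  | succ n ih => simpa [pow_succ] using ih.mul hf

theorem Tame.slow_smul {Ω : ℝ → Set V} {c : ℝ → ℝ} {f : ℝ → V → W} (hc : Slow c)
    (hf : Tame Ω f) : Tame Ω (fun e x => c e • f e x) :=
  (Tame.constReal hf.isOpen hc).smul hf

theorem Tame.slow_mul {Ω : ℝ → Set V} {c : ℝ → ℝ} {f : ℝ → V → ℝ} (hc : Slow c)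
    (hf : Tame Ω f) : Tame Ω (fun e x => c e * f e x) :=
  (Tame.constReal hf.isOpen hc).mul hf

theorem Tame.clm_apply {Ω : ℝ → Set V} {f : ℝ → V → (W →L[ℝ] X)} {g : ℝ → V → W}
    (hf : Tame Ω f) (hg : Tame Ω g) : Tame Ω (fun e x => f e x (g e x)) :=
  Tame.bilin hf hg (ContinuousLinearMap.id ℝ (W →L[ℝ] X))

theorem Slow.of_bounded {c : ℝ → ℝ} {C : ℝ} (h : ∀ᶠ e in 𝓝[>] (0 : ℝ), |c e| ≤ C) :
    Slow c := by
  intro η hη
  filter_upwards [h, TA2_big C hη] with e h1 h2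
  exact h1.trans h2

theorem Slow.const (c : ℝ) : Slow (fun _ => c) :=
  Slow.of_bounded (C := |c|) (Eventually.of_forall fun _ => le_rfl)

theorem Slow.sup {c : ℝ → ℝ} (h : ∀ η : ℝ, 0 < η → ∃ C : ℝ, ∀ᶠ e in 𝓝[>] (0 : ℝ), |c e| ≤ C * e ^ (-η)) :
    Slow c := by
  intro η hη
  have hη2 : 0 < η / 2 := by linarith
  obtain ⟨C, hC⟩ := h (η / 2) hη2
  filter_upwards [hC, TA2_big C hη2, TA2_pos] with e h1 h2 he
  rw [← TA2_half he]
  exact h1.trans (mul_le_mul_of_nonneg_right h2 (Real.rpow_nonneg he.le _))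

theorem Slow.add {c d : ℝ → ℝ} (hc : Slow c) (hd : Slow d) : Slow (fun e => c e + d e) := by
  refine Slow.sup fun η hη => ⟨2, ?_⟩
  filter_upwards [hc η hη, hd η hη] with e h1 h2
  have := abs_add_le (c e) (d e)
  linarith

theorem Slow.neg {c : ℝ → ℝ} (hc : Slow c) : Slow (fun e => - c e) := by
  intro η hη
  filter_upwards [hc η hη] with e h1
  rwa [abs_neg]

theorem Slow.mul {c d : ℝ → ℝ} (hc : Slow c) (hd : Slow d) : Slow (fun e => c e * d e) := by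
  intro η hη
  have hη2 : 0 < η / 2 := by linarith
  filter_upwards [hc _ hη2, hd _ hη2, TA2_pos] with e h1 h2 he
  rw [abs_mul, ← TA2_half he]
  exact mul_le_mul h1 h2 (abs_nonneg _) (Real.rpow_nonneg he.le _)

theorem Slow.pow {c : ℝ → ℝ} (hc : Slow c) (n : ℕ) : Slow (fun e => c e ^ n) := by
  induction n with
  | zero => simpa using Slow.const 1
  | succ n ih => simpa [pow_succ] using ih.mul hc

theorem Slow.of_le {c d : ℝ → ℝ} (hd : Slow d) (h : ∀ᶠ e in 𝓝[>] (0 : ℝ), |c e| ≤ |d e|) :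
    Slow c := by
  intro η hη
  filter_upwards [h, hd η hη] with e h1 h2
  exact h1.trans h2

theorem Fast.slow {m : ℝ → ℝ} (hm : Fast m) : Slow m := by
  obtain ⟨κ, hκ, h⟩ := hm
  refine Slow.of_bounded (C := 1) ?_
  filter_upwards [h, TA2_pos, TA2_lt_one] with e h1 h2 h3
  exact h1.trans (Real.rpow_le_one h2.le h3.le hκ.le)

theorem Fast.mul_slow {m c : ℝ → ℝ} (hm : Fast m) (hc : Slow c) : Fast (fun e => m e * c e) := by
  obtain ⟨κ, hκ, h⟩ := hm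
  have hκ2 : 0 < κ / 2 := by linarith
  refine ⟨κ / 2, hκ2, ?_⟩
  filter_upwards [h, hc _ hκ2, TA2_pos] with e h1 h2 he
  rw [abs_mul]
  calc |m e| * |c e| ≤ e ^ κ * e ^ (-(κ / 2)) :=
        mul_le_mul h1 h2 (abs_nonneg _) (Real.rpow_nonneg he.le _)
    _ = e ^ (κ / 2) := by
        rw [← Real.rpow_add he]
        congr 1
        ring

/-- a fast family times a slow one is eventually smaller than a fixed power -/
theorem Fast.lt_pow {m : ℝ → ℝ} (hm : Fast m) :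
    ∃ η : ℝ, 0 < η ∧ ∀ c : ℝ → ℝ, Slow c → ∀ᶠ e in 𝓝[>] (0 : ℝ), |m e| * |c e| < e ^ η := by
  obtain ⟨κ, hκ, h⟩ := hm
  have hκ2 : 0 < κ / 2 := by linarith
  refine ⟨κ / 4, by linarith, fun c hc => ?_⟩
  filter_upwards [h, hc _ hκ2, TA2_pos, TA2_lt_one] with e h1 h2 he he1
  calc |m e| * |c e| ≤ e ^ κ * e ^ (-(κ / 2)) :=
        mul_le_mul h1 h2 (abs_nonneg _) (Real.rpow_nonneg he.le _)
    _ = e ^ (κ / 2) := by
        rw [← Real.rpow_add he]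
        congr 1
        ring
    _ < e ^ (κ / 4) := Real.rpow_lt_rpow_of_exponent_gt he he1 (by linarith)

end BB
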