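import Pool.Agent.Lib_helper6.BB.Tame
import Pool.Agent.Lib_helper6.BB.W.TA1
import Pool.Agent.Lib_helper6.BB.W.TA2

open Filter Topology Set
open scoped ContDiff

namespace BB

variable {V W X : Type} [NormedAddCommGroup V] [NormedSpace ℝ V]
  [NormedAddCommGroup W] [NormedSpace ℝ W] [NormedAddCommGroup X] [NormedSpace ℝ X]

theorem TC_small : ∀ᶠ e in 𝓝[>] (0 : ℝ), 0 < e ∧ e < 1 := by
  have h1 : ∀ᶠ e in 𝓝[>] (0 : ℝ), 0 < e := eventually_mem_nhdsWithin
  have h2 : ∀ᶠ e in 𝓝[>] (0 : ℝ), e < 1 :=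
    mem_nhdsWithin_of_mem_nhds (Iio_mem_nhds one_pos)
  exact h1.and h2

theorem TC_one_le {e η : ℝ} (he : 0 < e) (he1 : e < 1) (hη : 0 < η) : 1 ≤ e ^ (-η) := by
  exact Real.one_le_rpow_of_pos_of_le_one_of_nonpos he he1.le (by linarith)

/-- composition: only the derivatives of `g` at the points `f e x` matter -/
theorem TC_gen {Ω : ℝ → Set V} {O : ℝ → Set W} {g : ℝ → W → X} {f : ℝ → V → W}
    (hO : ∀ᶠ e in 𝓝[>] (0 : ℝ), IsOpen (O e) ∧ ContDiffOn ℝ ∞ (g e) (O e))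
    (hgb : ∀ (n : ℕ) (η : ℝ), 0 < η → ∃ C : ℝ, ∀ᶠ e in 𝓝[>] (0 : ℝ), ∀ x ∈ Ω e,
      ‖iteratedFDeriv ℝ n (g e) (f e x)‖ ≤ C * e ^ (-η))
    (hf : Tame Ω f) (h : ∀ᶠ e in 𝓝[>] (0 : ℝ), MapsTo (f e) (Ω e) (O e)) :
    Tame Ω (fun e x => g e (f e x)) := by
  refine Tame.of_const_mul ?_ ?_
  · filter_upwards [hO, hf.1, h] with e h1 h2 h3
    exact ⟨h2.1, h1.2.comp h2.2 h3⟩
  · intro n η hη
    set η1 : ℝ := η / (n + 1) with hη1
    have hn : (0 : ℝ) < (n : ℝ) + 1 := by positivity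
    have hη1p : 0 < η1 := by positivity
    have hsum : η1 * (n + 1) = η := by rw [hη1]; field_simp
    choose C hC using fun i : ℕ => hgb i η1 hη1p
    set C0 : ℝ := ∑ i ∈ Finset.range (n + 1), |C i| with hC0
    have hC0n : 0 ≤ C0 := Finset.sum_nonneg fun i _ => abs_nonneg _
    refine ⟨(n.factorial : ℝ) * C0, ?_⟩
    have hgall : ∀ᶠ e in 𝓝[>] (0 : ℝ), ∀ i ∈ Finset.range (n + 1), ∀ x ∈ Ω e,
        ‖iteratedFDeriv ℝ i (g e) (f e x)‖ ≤ C i * e ^ (-η1) := by
      rw [Filter.eventually_all_finset]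
      intro i _
      exact hC i
    have hfall : ∀ᶠ e in 𝓝[>] (0 : ℝ), ∀ i ∈ Finset.range (n + 1), ∀ x ∈ Ω e,
        ‖iteratedFDeriv ℝ i (f e) x‖ ≤ e ^ (-η1) := by
      rw [Filter.eventually_all_finset]
      intro i _
      exact hf.2 i η1 hη1p
    filter_upwards [hgall, hfall, TC_small, hO, hf.1, h] with e hge hfe he hOe hΩe hme x hx
    obtain ⟨he0, he1⟩ := he
    have h1 : 1 ≤ e ^ (-η1) := TC_one_le he0 he1 hη1p
    have hkey := norm_iteratedFDerivWithin_comp_le (n := n) (N := ∞) (C := C0 * e ^ (-η1))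
      (D := e ^ (-η1)) hOe.2 hΩe.2 (by exact_mod_cast le_top) hOe.1.uniqueDiffOn
      hΩe.1.uniqueDiffOn hme hx ?_ ?_
    · rw [iteratedFDerivWithin_of_isOpen n hΩe.1 hx] at hkey
      have hpow : (n.factorial : ℝ) * (C0 * e ^ (-η1)) * (e ^ (-η1)) ^ n
          = (n.factorial : ℝ) * C0 * e ^ (-η) := by
        have h2 : e ^ (-η) = e ^ (-η1) * (e ^ (-η1)) ^ n := by
          rw [← Real.rpow_natCast (e ^ (-η1)) n, ← Real.rpow_mul he0.le, ← Real.rpow_add he0]
          congr 1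
          rw [← hsum]; ring
        rw [h2]; ring
      rw [hpow] at hkey
      exact hkey
    · intro i hi
      rw [iteratedFDerivWithin_of_isOpen i hOe.1 (hme hx)]
      have hmem : i ∈ Finset.range (n + 1) := Finset.mem_range.2 (by omega)
      refine (hge i hmem x hx).trans ?_
      have h3 : C i ≤ C0 := (le_abs_self _).trans
        (Finset.single_le_sum (f := fun i => |C i|) (fun i _ => abs_nonneg _) hmem)
      exact mul_le_mul_of_nonneg_right h3 (by positivity)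
    · intro i hi1 hi
      rw [iteratedFDerivWithin_of_isOpen i hΩe.1 hx]
      have hmem : i ∈ Finset.range (n + 1) := Finset.mem_range.2 (by omega)
      refine (hfe i hmem x hx).trans ?_
      exact le_self_pow₀ h1 (by omega)

/-- composition of tame families -/
theorem Tame.comp {Ω : ℝ → Set V} {Ω' : ℝ → Set W} {g : ℝ → W → X} {f : ℝ → V → W}
    (hg : Tame Ω' g) (hf : Tame Ω f) (h : ∀ᶠ e in 𝓝[>] (0 : ℝ), MapsTo (f e) (Ω e) (Ω' e)) :
    Tame Ω (fun e x => g e (f e x)) := by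
  refine TC_gen hg.1 ?_ hf h
  intro n η hη
  refine ⟨1, ?_⟩
  filter_upwards [hg.2 n η hη, h] with e h1 h2 x hx
  rw [one_mul]
  exact h1 _ (h2 hx)

/-- a fixed smooth function of a tame family with values in a compact set -/
theorem Tame.comp_fixed [FiniteDimensional ℝ W] {Ω : ℝ → Set V} {K O : Set W} (hK : IsCompact K)
    (hO : IsOpen O) (hKO : K ⊆ O) {g : W → X} (hg : ContDiffOn ℝ ∞ g O) {f : ℝ → V → W}
    (hf : Tame Ω f) (h : ∀ᶠ e in 𝓝[>] (0 : ℝ), ∀ x ∈ Ω e, f e x ∈ K) :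
    Tame Ω (fun e x => g (f e x)) := by
  refine TC_gen (O := fun _ => O) (g := fun _ => g) (Filter.Eventually.of_forall fun _ => ⟨hO, hg⟩)
    ?_ hf (h.mono fun e he x hx => hKO (he x hx))
  intro n η hη
  have hc : ContinuousOn (fun y => ‖iteratedFDerivWithin ℝ n g O y‖) K :=
    ((hg.continuousOn_iteratedFDerivWithin (by exact_mod_cast le_top) hO.uniqueDiffOn).mono
      hKO).norm
  obtain ⟨C, hC⟩ := (hK.image_of_continuousOn hc).bddAbove
  refine ⟨max C 0, ?_⟩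
  filter_upwards [h, TC_small] with e he hs x hx
  have h1 : ‖iteratedFDerivWithin ℝ n g O (f e x)‖ ≤ C := hC (mem_image_of_mem _ (he x hx))
  rw [iteratedFDerivWithin_of_isOpen n hO (hKO (he x hx))] at h1
  have h2 : 1 ≤ e ^ (-η) := TC_one_le hs.1 hs.2 hη
  calc ‖iteratedFDeriv ℝ n g (f e x)‖ ≤ max C 0 := h1.trans (le_max_left _ _)
    _ = max C 0 * 1 := by ring
    _ ≤ max C 0 * e ^ (-η) := mul_le_mul_of_nonneg_left h2 (le_max_right _ _)

/-- sine and cosine of tame families (no bound on the values is needed) -/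
theorem Tame.sin {Ω : ℝ → Set V} {f : ℝ → V → ℝ} (hf : Tame Ω f) :
    Tame Ω (fun e x => Real.sin (f e x)) := by
  refine TC_gen (O := fun _ => univ) (g := fun _ => Real.sin)
    (Filter.Eventually.of_forall fun _ => ⟨isOpen_univ, Real.contDiff_sin.contDiffOn⟩)
    ?_ hf (Filter.Eventually.of_forall fun e x _ => mem_univ _)
  intro n η hη
  refine ⟨1, ?_⟩
  filter_upwards [TC_small] with e hs x hx
  rw [one_mul, norm_iteratedFDeriv_eq_norm_iteratedDeriv, Real.norm_eq_abs]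
  exact (Real.abs_iteratedDeriv_sin_le_one n _).trans (TC_one_le hs.1 hs.2 hη)

theorem Tame.cos {Ω : ℝ → Set V} {f : ℝ → V → ℝ} (hf : Tame Ω f) :
    Tame Ω (fun e x => Real.cos (f e x)) := by
  refine TC_gen (O := fun _ => univ) (g := fun _ => Real.cos)
    (Filter.Eventually.of_forall fun _ => ⟨isOpen_univ, Real.contDiff_cos.contDiffOn⟩)
    ?_ hf (Filter.Eventually.of_forall fun e x _ => mem_univ _)
  intro n η hη
  refine ⟨1, ?_⟩
  filter_upwards [TC_small] with e hs x hx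
  rw [one_mul, norm_iteratedFDeriv_eq_norm_iteratedDeriv, Real.norm_eq_abs]
  exact (Real.abs_iteratedDeriv_cos_le_one n _).trans (TC_one_le hs.1 hs.2 hη)

/-- the inverse of a real tame family which is bounded below -/
theorem Tame.inv {Ω : ℝ → Set V} {f : ℝ → V → ℝ} (hf : Tame Ω f)
    (h : ∀ η : ℝ, 0 < η → ∀ᶠ e in 𝓝[>] (0 : ℝ), ∀ x ∈ Ω e, e ^ η ≤ |f e x|) :
    Tame Ω (fun e x => (f e x)⁻¹) := by
  refine TC_gen (O := fun _ => {0}ᶜ) (g := fun _ => Inv.inv)
    (Filter.Eventually.of_forall fun _ => ⟨isOpen_compl_singleton, ?_⟩) ?_ hf ?_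
  · intro y hy
    exact (contDiffAt_inv ℝ hy).contDiffWithinAt
  · intro n η hη
    refine ⟨|(-1) ^ n * (n.factorial : ℝ)|, ?_⟩
    have hη1p : 0 < η / (n + 1) := by positivity
    filter_upwards [h (η / (n + 1)) hη1p, TC_small] with e he hs x hx
    have h1 := he x hx
    have h0 : 0 < e ^ (η / (n + 1)) := Real.rpow_pos_of_pos hs.1 _
    rw [norm_iteratedFDeriv_eq_norm_iteratedDeriv, iteratedDeriv_eq_iterate, iter_deriv_inv,
      norm_mul, Real.norm_eq_abs, Real.norm_eq_abs]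
    have h2 : |f e x ^ (-1 - n : ℤ)| = (|f e x| ^ (n + 1))⁻¹ := by
      rw [abs_zpow, show (-1 - n : ℤ) = -((n + 1 : ℕ) : ℤ) by push_cast; ring, zpow_neg,
        zpow_natCast]
    rw [h2]
    have h3 : (e ^ (-η)) = ((e ^ (η / (n + 1))) ^ (n + 1))⁻¹ := by
      rw [← Real.rpow_natCast, ← Real.rpow_mul hs.1.le, Real.rpow_neg hs.1.le]
      congr 2
      push_cast
      field_simp
    rw [h3]
    have h4 : 0 < (e ^ (η / (n + 1))) ^ (n + 1) := pow_pos h0 _
    have h5 : (e ^ (η / (n + 1))) ^ (n + 1) ≤ |f e x| ^ (n + 1) := pow_le_pow_left₀ h0.le h1 _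
    exact mul_le_mul_of_nonneg_left (inv_anti₀ h4 h5) (abs_nonneg _)
  · filter_upwards [h 1 one_pos, TC_small] with e he hs x hx
    have h1 := he x hx
    have h0 : 0 < e ^ (1 : ℝ) := Real.rpow_pos_of_pos hs.1 _
    have : f e x ≠ 0 := abs_pos.1 (h0.trans_le h1)
    simpa using this

end BB
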