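import Pool.Agent.Lib_helper6.BB.Tame
import Pool.Agent.Lib_helper6.BB.W.TA1
import Pool.Agent.Lib_helper6.BB.W.TA2

open Filter Topology Set
open scoped ContDiff

namespace BB

variable {V W : Type} [NormedAddCommGroup V] [NormedSpace ℝ V]
  [NormedAddCommGroup W] [NormedSpace ℝ W]

theorem Tame.fd {Ω : ℝ → Set V} {f : ℝ → V → W} (hf : Tame Ω f) :
    Tame Ω (fun e x => _root_.fderiv ℝ (f e) x) := by
  refine ⟨?_, fun n η hη => ?_⟩
  · filter_upwards [hf.1] with e he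
    exact ⟨he.1, ((contDiffOn_infty_iff_fderiv_of_isOpen he.1).1 he.2).2⟩
  · filter_upwards [hf.2 (n + 1) η hη] with e he x hx
    have h : ‖iteratedFDeriv ℝ n (_root_.fderiv ℝ (f e)) x‖ = ‖iteratedFDeriv ℝ (n + 1) (f e) x‖ :=
      norm_iteratedFDeriv_fderiv
    exact h.le.trans (he x hx)

theorem Tame.dv {Ω : ℝ → Set ℝ} {f : ℝ → ℝ → W} (hf : Tame Ω f) :
    Tame Ω (fun e x => _root_.deriv (f e) x) := by
  have h := hf.fd.clm_comp (ContinuousLinearMap.apply ℝ W (1 : ℝ))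
  refine h.congr (Eventually.of_forall fun e x _ => ?_)
  rfl

/-- a family with tame derivative and slowly bounded values is tame -/
theorem Tame.of_fderiv {Ω : ℝ → Set V} {f : ℝ → V → W} {f' : ℝ → V → (V →L[ℝ] W)}
    (hd : ∀ᶠ e in 𝓝[>] (0 : ℝ), ∀ x ∈ Ω e, HasFDerivAt (f e) (f' e x) x) (hf' : Tame Ω f')
    (h0 : ∀ η : ℝ, 0 < η → ∀ᶠ e in 𝓝[>] (0 : ℝ), ∀ x ∈ Ω e, ‖f e x‖ ≤ e ^ (-η)) :
    Tame Ω f := by
  refine ⟨?_, fun n => ?_⟩
  · filter_upwards [hf'.1, hd] with e he hde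
    refine ⟨he.1, (contDiffOn_infty_iff_fderiv_of_isOpen he.1).2 ⟨?_, ?_⟩⟩
    · exact fun x hx => (hde x hx).differentiableAt.differentiableWithinAt
    · exact he.2.congr fun x hx => (hde x hx).fderiv
  · rcases n with _ | n
    · intro η hη
      filter_upwards [h0 η hη] with e he x hx
      rw [norm_iteratedFDeriv_zero]
      exact he x hx
    · intro η hη
      filter_upwards [hf'.1, hd, hf'.2 n η hη] with e he hde hb x hx
      have h1 : ‖iteratedFDeriv ℝ n (_root_.fderiv ℝ (f e)) x‖ =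
        ‖iteratedFDeriv ℝ (n + 1) (f e) x‖ := norm_iteratedFDeriv_fderiv
      have h2 : _root_.fderiv ℝ (f e) =ᶠ[𝓝 x] f' e := by
        filter_upwards [he.1.mem_nhds hx] with y hy
        exact (hde y hy).fderiv
      rw [← h1, (h2.iteratedFDeriv ℝ n).eq_of_nhds]
      exact hb x hx

theorem Tame.of_deriv {Ω : ℝ → Set ℝ} {f f' : ℝ → ℝ → W}
    (hd : ∀ᶠ e in 𝓝[>] (0 : ℝ), ∀ x ∈ Ω e, HasDerivAt (f e) (f' e x) x) (hf' : Tame Ω f')
    (h0 : ∀ η : ℝ, 0 < η → ∀ᶠ e in 𝓝[>] (0 : ℝ), ∀ x ∈ Ω e, ‖f e x‖ ≤ e ^ (-η)) :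
    Tame Ω f := by
  refine Tame.of_fderiv (f' := fun e x => ContinuousLinearMap.smulRightL ℝ ℝ W
    (1 : ℝ →L[ℝ] ℝ) (f' e x)) ?_ (hf'.clm_comp _) h0
  filter_upwards [hd] with e he x hx
  have h := (he x hx).hasFDerivAt
  have e1 : ContinuousLinearMap.smulRightL ℝ ℝ W (1 : ℝ →L[ℝ] ℝ) (f' e x) =
      ContinuousLinearMap.toSpanSingleton ℝ (f' e x) := by
    ext
    simp
  rw [e1]
  exact h

/-- tame families of one real variable: bounds for the iterated derivatives suffice -/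
theorem tame_real_iff {Ω : ℝ → Set ℝ} {f : ℝ → ℝ → W} :
    Tame Ω f ↔ (∀ᶠ e in 𝓝[>] (0 : ℝ), IsOpen (Ω e) ∧ ContDiffOn ℝ ∞ (f e) (Ω e)) ∧
      ∀ (n : ℕ) (η : ℝ), 0 < η → ∀ᶠ e in 𝓝[>] (0 : ℝ), ∀ x ∈ Ω e,
        ‖iteratedDeriv n (f e) x‖ ≤ e ^ (-η) := by
  simp only [Tame, norm_iteratedFDeriv_eq_norm_iteratedDeriv]

end BB
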