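import Pool.Agent.Lib_helper6.BB.Tame
import Pool.Agent.Lib_helper6.BB.W.TC
import Pool.Agent.Lib_helper6.BB.W.TD

open Filter Topology Set MeasureTheory
open scoped ContDiff

namespace BB

/-- the partial derivative in the first variable -/
noncomputable def TH_p {V W : Type} [NormedAddCommGroup V] [NormedSpace ℝ V]
    [NormedAddCommGroup W] [NormedSpace ℝ W] (g : V × ℝ → W) (z : V × ℝ) : V →L[ℝ] W :=
  (_root_.fderiv ℝ g z).comp (ContinuousLinearMap.inl ℝ V ℝ)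

theorem TH_has {V W : Type} [NormedAddCommGroup V] [NormedSpace ℝ V]
    [NormedAddCommGroup W] [NormedSpace ℝ W] [CompleteSpace W] {Ω : Set V} (hΩ : IsOpen Ω)
    {g : V × ℝ → W} (hg : ContDiffOn ℝ 1 g (Ω ×ˢ Ioo (-1 : ℝ) 2)) {x : V} (hx : x ∈ Ω) :
    HasFDerivAt (fun x => ∫ t in (0 : ℝ)..1, g (x, t))
      (∫ t in (0 : ℝ)..1, TH_p g (x, t)) x := by
  have hO : IsOpen (Ω ×ˢ Ioo (-1 : ℝ) 2) := hΩ.prod isOpen_Ioo
  have hgc : ContinuousOn g (Ω ×ˢ Ioo (-1 : ℝ) 2) := hg.continuousOn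
  have hfd : ContinuousOn (_root_.fderiv ℝ g) (Ω ×ˢ Ioo (-1 : ℝ) 2) :=
    hg.continuousOn_fderiv_of_isOpen hO le_rfl
  have hp : ContinuousOn (TH_p g) (Ω ×ˢ Ioo (-1 : ℝ) 2) :=
    hfd.clm_comp continuousOn_const
  have hI : ∀ t ∈ Icc (0 : ℝ) 1, t ∈ Ioo (-1 : ℝ) 2 := fun t ht =>
    ⟨by linarith [ht.1], by linarith [ht.2]⟩
  have hcomp : IsCompact (({x} : Set V) ×ˢ Icc (0 : ℝ) 1) := isCompact_singleton.prod isCompact_Icc
  have hsub : ({x} : Set V) ×ˢ Icc (0 : ℝ) 1 ⊆ Ω ×ˢ Ioo (-1 : ℝ) 2 := by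
    rintro ⟨y, t⟩ ⟨hy, ht⟩
    rw [mem_singleton_iff] at hy
    exact ⟨by rw [hy]; exact hx, hI t ht⟩
  obtain ⟨C, hC⟩ := hcomp.exists_bound_of_continuousOn (hp.mono hsub)
  -- the open set where the derivative is bounded
  have hU : IsOpen {z ∈ Ω ×ˢ Ioo (-1 : ℝ) 2 | ‖TH_p g z‖ < C + 1} := by
    have := hp.norm.isOpen_inter_preimage hO (isOpen_Iio (a := C + 1))
    exact this
  obtain ⟨u, v, hu, hv, hxu, hvI, huv⟩ := generalized_tube_lemma isCompact_singleton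
    isCompact_Icc hU (s := ({x} : Set V)) (t := Icc (0 : ℝ) 1) (by
      intro z hz
      refine ⟨hsub hz, ?_⟩
      have := hC z hz
      show ‖TH_p g z‖ < C + 1
      linarith)
  have hxu' : x ∈ u := hxu rfl
  have hmem : ∀ y ∈ u, ∀ t ∈ Icc (0 : ℝ) 1, (y, t) ∈ Ω ×ˢ Ioo (-1 : ℝ) 2 ∧
      ‖TH_p g (y, t)‖ < C + 1 := fun y hy t ht => huv ⟨hy, hvI ht⟩
  have hcont : ∀ y ∈ u, ContinuousOn (fun t => g (y, t)) (Icc (0 : ℝ) 1) := fun y hy =>
    hgc.comp (by fun_prop) fun t ht => (hmem y hy t ht).1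
  have hcontp : ContinuousOn (fun t => TH_p g (x, t)) (Icc (0 : ℝ) 1) :=
    hp.comp (by fun_prop) fun t ht => (hmem x hxu' t ht).1
  have hui : uIoc (0 : ℝ) 1 ⊆ Icc (0 : ℝ) 1 := by
    rw [uIoc_of_le zero_le_one]
    exact Ioc_subset_Icc_self
  refine intervalIntegral.hasFDerivAt_integral_of_dominated_of_fderiv_le
    (F := fun y t => g (y, t)) (F' := fun y t => TH_p g (y, t)) (bound := fun _ => C + 1)
    (s := u) (hu.mem_nhds hxu') ?_ ?_ ?_ ?_ ?_ ?_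
  · filter_upwards [hu.mem_nhds hxu'] with y hy
    exact ((hcont y hy).mono hui).aestronglyMeasurable measurableSet_uIoc
  · exact ContinuousOn.intervalIntegrable (by
      rw [uIcc_of_le zero_le_one]
      exact hcont x hxu')
  · exact (hcontp.mono hui).aestronglyMeasurable measurableSet_uIoc
  · exact ae_of_all _ fun t ht y hy => (hmem y hy t (hui ht)).2.le
  · exact intervalIntegrable_const
  · refine ae_of_all _ fun t ht y hy => ?_
    have h1 := hmem y hy t (hui ht)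
    have h2 : HasFDerivAt g (_root_.fderiv ℝ g (y, t)) (y, t) :=
      ((hg.contDiffAt (hO.mem_nhds h1.1)).differentiableAt one_ne_zero).hasFDerivAt
    exact h2.comp y (hasFDerivAt_prodMk_left y t)

theorem TH_contDiff (n : ℕ) : ∀ {V W : Type} [NormedAddCommGroup V] [NormedSpace ℝ V]
    [NormedAddCommGroup W] [NormedSpace ℝ W] [CompleteSpace W] {Ω : Set V} (_ : IsOpen Ω)
    {g : V × ℝ → W} (_ : ContDiffOn ℝ ∞ g (Ω ×ˢ Ioo (-1 : ℝ) 2)),
    ContDiffOn ℝ n (fun x => ∫ t in (0 : ℝ)..1, g (x, t)) Ω := by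
  induction n with
  | zero =>
    intro V W _ _ _ _ _ Ω hΩ g hg
    rw [Nat.cast_zero, contDiffOn_zero]
    exact fun x hx => (TH_has hΩ (hg.of_le (by exact_mod_cast le_top)) hx).continuousAt.continuousWithinAt
  | succ n ih =>
    intro V W _ _ _ _ _ Ω hΩ g hg
    have h1 : ∀ x ∈ Ω, HasFDerivAt (fun x => ∫ t in (0 : ℝ)..1, g (x, t))
      (∫ t in (0 : ℝ)..1, TH_p g (x, t)) x := fun x hx =>
      TH_has hΩ (hg.of_le (by exact_mod_cast le_top)) hx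
    rw [Nat.cast_succ, contDiffOn_succ_iff_fderiv_of_isOpen hΩ]
    refine ⟨fun x hx => (h1 x hx).differentiableAt.differentiableWithinAt, fun h => ?_, ?_⟩
    · exact absurd h (by simp)
    · have hO : IsOpen (Ω ×ˢ Ioo (-1 : ℝ) 2) := hΩ.prod isOpen_Ioo
      have h2 : ContDiffOn ℝ ∞ (TH_p g) (Ω ×ˢ Ioo (-1 : ℝ) 2) :=
        ((contDiffOn_infty_iff_fderiv_of_isOpen hO).1 hg).2.clm_comp contDiffOn_const
      exact (ih hΩ h2).congr fun x hx => (h1 x hx).fderiv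

theorem TH_bound (n : ℕ) : ∀ {V W : Type} [NormedAddCommGroup V] [NormedSpace ℝ V]
    [NormedAddCommGroup W] [NormedSpace ℝ W] [CompleteSpace W] {Ω : ℝ → Set V}
    (_ : ∀ᶠ e in 𝓝[>] (0 : ℝ), IsOpen (Ω e))
    {g : ℝ → V × ℝ → W} (_ : Tame (fun e => Ω e ×ˢ Ioo (-1 : ℝ) 2) g) (η : ℝ) (_ : 0 < η),
    ∀ᶠ e in 𝓝[>] (0 : ℝ), ∀ x ∈ Ω e,
      ‖iteratedFDeriv ℝ n (fun x => ∫ t in (0 : ℝ)..1, g e (x, t)) x‖ ≤ e ^ (-η) := by
  induction n with
  | zero =>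
    intro V W _ _ _ _ _ Ω hΩ g hg η hη
    filter_upwards [hg.2 0 η hη] with e he x hx
    rw [norm_iteratedFDeriv_zero]
    have h := intervalIntegral.norm_integral_le_of_norm_le_const (a := (0 : ℝ)) (b := 1)
      (f := fun t => g e (x, t)) (C := e ^ (-η)) (fun t ht => by
        rw [uIoc_of_le zero_le_one] at ht
        have h1 := he (x, t) ⟨hx, by linarith [ht.1], by linarith [ht.2]⟩
        rw [norm_iteratedFDeriv_zero] at h1
        exact h1)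
    simpa using h
  | succ n ih =>
    intro V W _ _ _ _ _ Ω hΩ g hg η hη
    have hp : Tame (fun e => Ω e ×ˢ Ioo (-1 : ℝ) 2) (fun e => TH_p (g e)) := by
      have h := hg.fd.clm_comp ((ContinuousLinearMap.compL ℝ V (V × ℝ) W).flip
        (ContinuousLinearMap.inl ℝ V ℝ))
      exact h
    filter_upwards [hΩ, hg.1, ih hΩ hp η hη] with e hΩe hge hb x hx
    have h1 : ‖iteratedFDeriv ℝ n (_root_.fderiv ℝ (fun x => ∫ t in (0 : ℝ)..1, g e (x, t))) x‖ =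
      ‖iteratedFDeriv ℝ (n + 1) (fun x => ∫ t in (0 : ℝ)..1, g e (x, t)) x‖ :=
      norm_iteratedFDeriv_fderiv
    have h2 : _root_.fderiv ℝ (fun x => ∫ t in (0 : ℝ)..1, g e (x, t)) =ᶠ[𝓝 x]
        fun x => ∫ t in (0 : ℝ)..1, TH_p (g e) (x, t) := by
      filter_upwards [hΩe.mem_nhds hx] with y hy
      exact (TH_has hΩe (hge.2.of_le (by exact_mod_cast le_top)) hy).fderiv
    rw [← h1, (h2.iteratedFDeriv ℝ n).eq_of_nhds]
    exact hb x hx

variable {V W : Type} [NormedAddCommGroup V] [NormedSpace ℝ V]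
  [NormedAddCommGroup W] [NormedSpace ℝ W] [CompleteSpace W]

/-- parameter integrals of tame families are tame -/
theorem Tame.integral {Ω : ℝ → Set V} {g : ℝ → V × ℝ → W}
    (hg : Tame (fun e => Ω e ×ˢ Ioo (-1 : ℝ) 2) g) :
    Tame Ω (fun e x => ∫ t in (0 : ℝ)..1, g e (x, t)) := by
  have hΩ : ∀ᶠ e in 𝓝[>] (0 : ℝ), IsOpen (Ω e) := by
    filter_upwards [hg.1] with e he
    have h1 : Ω e = (fun x => (x, (0 : ℝ))) ⁻¹' (Ω e ×ˢ Ioo (-1 : ℝ) 2) := by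
      ext x
      simp
    rw [h1]
    exact he.1.preimage (by fun_prop)
  refine ⟨?_, fun n η hη => TH_bound n hΩ hg η hη⟩
  filter_upwards [hΩ, hg.1] with e h1 h2
  exact ⟨h1, contDiffOn_infty.2 fun n => TH_contDiff n h1 h2.2⟩

end BB
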