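import Pool.Agent.Lib_helper6.BB.W.PL2
import Pool.Agent.Lib_helper6.BB.W.TH

open Filter Topology Set MeasureTheory
open scoped ContDiff

namespace BB

theorem PE1_small {c η : ℝ} (hc : 0 < c) (hη : 0 < η) : ∀ᶠ e in 𝓝[>] (0 : ℝ), e ^ η ≤ c := by
  have h1 : Tendsto (fun e : ℝ => e ^ η) (𝓝[>] 0) (𝓝 0) := by
    have h2 : Tendsto (fun e : ℝ => e ^ η) (𝓝 0) (𝓝 ((0:ℝ) ^ η)) :=
      (Real.continuousAt_rpow_const 0 η (Or.inr hη.le)).tendsto
    rw [Real.zero_rpow hη.ne'] at h2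
    exact h2.mono_left nhdsWithin_le_nhds
  filter_upwards [h1.eventually (gt_mem_nhds hc)] with e he
  exact he.le

theorem PE1_large (C : ℝ) {η : ℝ} (hη : 0 < η) : ∀ᶠ e in 𝓝[>] (0 : ℝ), C ≤ e ^ (-η) := by
  have h1 : 0 < max C 1 := lt_max_of_lt_right one_pos
  filter_upwards [PE1_small (inv_pos.2 h1) hη, self_mem_nhdsWithin] with e he he0
  have he0' : (0:ℝ) < e := he0
  rw [Real.rpow_neg he0'.le]
  refine (le_max_left C 1).trans ?_
  have h2 : 0 < e ^ η := Real.rpow_pos_of_pos he0' η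
  rw [le_inv_comm₀ h1 h2]
  exact he

/-- the family under the integral -/
theorem PE1_inner {L A B : ℝ} {b1 b2 δ : ℝ → ℝ} (hW : Walls L A B b1 b2) (hS : Scale b1 b2 δ)
    (k : ℝ) {a : ℝ} (ha : 0 < a) :
    Tame (fun _ => Ioo a k ×ˢ Ioo (-1 : ℝ) 2)
      (fun e p => (2 * Real.pi) * (Om L b1 b2 δ e (2 * Real.pi * p.2, p.1))⁻¹) := by
  have h1 : Tame (Win 13 a k) (fun e x => (Om L b1 b2 δ e x)⁻¹) := by
    refine Tame.inv (Om_tame hW hS 13 k ha) fun η hη => ?_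
    obtain ⟨c, hc, hlow⟩ := Om_lower hW hS k ha
    filter_upwards [hlow, PE1_small hc hη] with e he1 he2 x hx
    have h3 := he1 x hx.2.1 hx.2.2
    exact he2.trans (h3.trans (le_abs_self _))
  have hopen : ∀ᶠ e in 𝓝[>] (0 : ℝ), IsOpen (Ioo a k ×ˢ Ioo (-1 : ℝ) 2) :=
    Eventually.of_forall fun _ => isOpen_Ioo.prod isOpen_Ioo
  let ℓ : ℝ × ℝ →L[ℝ] ℝ × ℝ :=
    ((2 * Real.pi) • ContinuousLinearMap.snd ℝ ℝ ℝ).prod (ContinuousLinearMap.fst ℝ ℝ ℝ)
  have hℓ : Tame (fun _ => Ioo a k ×ˢ Ioo (-1 : ℝ) 2) (fun _ x => ℓ x) := by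
    refine Tame.clm hopen ℓ fun η hη => ?_
    filter_upwards [PE1_large (|a| + |k| + 2) hη] with e he x hx
    refine le_trans ?_ he
    rw [Prod.norm_def, Real.norm_eq_abs, Real.norm_eq_abs]
    obtain ⟨⟨h3, h4⟩, h5, h6⟩ := hx
    have e1 := neg_abs_le a
    have e2 := le_abs_self k
    have e3 := abs_nonneg a
    have e4 := abs_nonneg k
    apply max_le
    · rw [abs_le]
      constructor <;> linarith
    · rw [abs_le]
      constructor <;> linarith
  have h2 := Tame.comp h1 hℓ (Eventually.of_forall fun e => by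
    rintro ⟨x, t⟩ ⟨⟨h3, h4⟩, h5, h6⟩
    have hpi := Real.pi_lt_four
    have hpi0 := Real.pi_pos
    have hpi2 := Real.pi_lt_d2
    simp only at h3 h4 h5 h6
    refine ⟨⟨?_, ?_⟩, h3, h4⟩
    · show -13 < (2 * Real.pi) • t
      rw [smul_eq_mul]
      nlinarith
    · show (2 * Real.pi) • t < 13
      rw [smul_eq_mul]
      nlinarith)
  exact Tame.slow_mul (Slow.const (2 * Real.pi)) h2

theorem Per_tame {L A B : ℝ} {b1 b2 δ : ℝ → ℝ} (hW : Walls L A B b1 b2) (hS : Scale b1 b2 δ)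
    (k : ℝ) {a : ℝ} (ha : 0 < a) : Tame (fun _ => Ioo a k) (Per L b1 b2 δ) := by
  refine Tame.congr (Tame.integral (PE1_inner hW hS k ha)) (Eventually.of_forall fun e x _ => ?_)
  have h1 := intervalIntegral.mul_integral_comp_mul_left (a := 0) (b := 1)
    (f := fun s => 1 / Om L b1 b2 δ e (s, x)) (2 * Real.pi)
  rw [mul_zero, mul_one] at h1
  unfold Per
  rw [← h1, ← intervalIntegral.integral_const_mul]
  simp only [one_div]

theorem PE1_Rad_continuous {L A B : ℝ} {b1 b2 δ : ℝ → ℝ} (hW : Walls L A B b1 b2) {e : ℝ}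
    (he : 0 < e) (hd : 0 < δ e) {h : ℝ} (hh : 0 < h) :
    Continuous fun s => Rad L b1 b2 δ e (s, h) := by
  have hpol : Continuous pol := by unfold pol; fun_prop
  have hH : Continuous (HH L b1 b2 δ e) := (HH_contDiff hW e).continuous
  rw [continuous_iff_continuousAt]
  intro s0
  have hR0 : 0 < Rad L b1 b2 δ e (s0, h) := (Rad_spec hW he hd (q := (s0, h)) hh).1
  rw [Metric.continuousAt_iff']
  intro ε hε
  set R0 := Rad L b1 b2 δ e (s0, h) with hR0def
  set r1 := max (R0 - ε / 2) (R0 / 2) with hr1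
  have hr10 : 0 ≤ r1 := le_trans (by linarith) (le_max_right _ _)
  have hr1lt : r1 < R0 := max_lt (by linarith) (by linarith)
  have hr1ge : R0 - ε / 2 ≤ r1 := le_max_left _ _
  have h1 : HH L b1 b2 δ e (pol (s0, r1)) < h := (Rad_lt_iff hW he hd (q := (s0, h)) hh hr10).2 hr1lt
  have hR2 : 0 ≤ R0 + ε / 2 := by linarith
  have h2 : h < HH L b1 b2 δ e (pol (s0, R0 + ε / 2)) := by
    rcases lt_trichotomy (HH L b1 b2 δ e (pol (s0, R0 + ε / 2))) h with h3 | h3 | h3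
    · have := (Rad_lt_iff hW he hd (q := (s0, h)) hh hR2).1 h3
      linarith
    · have := Rad_unique hW he hd (q := (s0, h)) hh (R := R0 + ε / 2) (by linarith) h3
      linarith
    · exact h3
  have c1 : Continuous fun s : ℝ => HH L b1 b2 δ e (pol (s, r1)) :=
    hH.comp (hpol.comp (by fun_prop))
  have c2 : Continuous fun s : ℝ => HH L b1 b2 δ e (pol (s, R0 + ε / 2)) :=
    hH.comp (hpol.comp (by fun_prop))
  filter_upwards [c1.continuousAt.eventually (gt_mem_nhds h1),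
    c2.continuousAt.eventually (lt_mem_nhds h2)] with s hs1 hs2
  have h4 : r1 < Rad L b1 b2 δ e (s, h) := (Rad_lt_iff hW he hd (q := (s, h)) hh hr10).1 hs1
  have h5 : ¬ (R0 + ε / 2 < Rad L b1 b2 δ e (s, h)) := fun h6 =>
    absurd ((Rad_lt_iff hW he hd (q := (s, h)) hh hR2).2 h6) (not_lt.2 (le_of_lt hs2))
  rw [Real.dist_eq, abs_lt]
  push Not at h5
  constructor <;> linarith

theorem PE1_Vir_pos {L A B : ℝ} {b1 b2 δ : ℝ → ℝ} (hW : Walls L A B b1 b2) {e : ℝ}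
    (he : 0 < e) {p : ℝ × ℝ} (hp : 0 < HH L b1 b2 δ e p) : 0 < Vir L b1 b2 δ e p := by
  have h1 := Wp_mul_deriv (δ := δ) hW he p.1
  have h2 : 0 ≤ L * p.2 ^ 2 := mul_nonneg hW.L_pos.le (sq_nonneg _)
  unfold HH at hp
  unfold Vir
  nlinarith

theorem PE1_Om_continuous {L A B : ℝ} {b1 b2 δ : ℝ → ℝ} (hW : Walls L A B b1 b2) {e : ℝ}
    (he : 0 < e) (hd : 0 < δ e) {h : ℝ} (hh : 0 < h) :
    (Continuous fun s => Om L b1 b2 δ e (s, h)) ∧ ∀ s, 0 < Om L b1 b2 δ e (s, h) := by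
  have hR := PE1_Rad_continuous hW he hd hh
  have hR0 : ∀ s, 0 < Rad L b1 b2 δ e (s, h) := fun s => (Rad_spec hW he hd (q := (s, h)) hh).1
  have hpol : Continuous pol := by unfold pol; fun_prop
  have hK : Continuous fun s => Kp L b1 b2 δ e (s, h) := by
    unfold Kp
    exact hpol.comp (by fun_prop)
  have hw1 : Continuous (ww δ b1 e) := (ww_contDiff hW.smooth1 e).continuous
  have hw2 : Continuous (ww δ b2 e) := (ww_contDiff hW.smooth2 e).continuous
  have hV : Continuous (Vir L b1 b2 δ e) := by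
    unfold Vir
    fun_prop
  constructor
  · unfold Om
    refine Continuous.div (hV.comp hK) (hR.pow 2) fun s => (pow_pos (hR0 s) 2).ne'
  · intro s
    unfold Om
    refine div_pos (PE1_Vir_pos hW he ?_) (pow_pos (hR0 s) 2)
    rw [HH_Kp hW he hd (q := (s, h)) hh]
    exact hh

theorem Per_pos {L A B : ℝ} {b1 b2 δ : ℝ → ℝ} (hW : Walls L A B b1 b2) {e : ℝ} (he : 0 < e)
    (hd : 0 < δ e) {h : ℝ} (hh : 0 < h) : 0 < Per L b1 b2 δ e h := by
  obtain ⟨hc, hp⟩ := PE1_Om_continuous hW he hd hh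
  unfold Per
  have h2 : Continuous fun s => 1 / Om L b1 b2 δ e (s, h) :=
    continuous_const.div hc fun s => (hp s).ne'
  exact intervalIntegral.intervalIntegral_pos_of_pos (h2.intervalIntegrable _ _)
    (fun s => one_div_pos.2 (hp s)) (by have := Real.pi_pos; linarith)

end BB
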