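import Pool.Agent.Lib_helper6.BB.W.PB2
import Pool.Agent.Lib_helper6.BB.W.PE1

/-! # BB, block AC (helper73): the action variable -/

open Filter Topology Set MeasureTheory
open scoped ContDiff

namespace BB

theorem AC_slow {C : ℝ} {η : ℝ} (hη : 0 < η) : ∀ᶠ e in 𝓝[>] (0 : ℝ), C ≤ e ^ (-η) := by
  have h : Tendsto (fun e : ℝ => e ^ (-η)) (𝓝[>] (0 : ℝ)) atTop := by
    have h1 : Tendsto (fun e : ℝ => (e⁻¹) ^ η) (𝓝[>] (0 : ℝ)) atTop :=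
      (tendsto_rpow_atTop hη).comp tendsto_inv_nhdsGT_zero
    refine h1.congr' ?_
    filter_upwards [self_mem_nhdsWithin] with e he
    rw [Real.inv_rpow (le_of_lt he), Real.rpow_neg (le_of_lt he)]
  exact h.eventually_ge_atTop C

theorem AC_fast {C : ℝ} (hC : 0 < C) {η : ℝ} (hη : 0 < η) : ∀ᶠ e in 𝓝[>] (0 : ℝ), e ^ η ≤ C := by
  filter_upwards [AC_slow (C := C⁻¹) hη, self_mem_nhdsWithin] with e he hp
  have hp' : (0:ℝ) < e := hp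
  rw [Real.rpow_neg hp'.le] at he
  exact (inv_le_inv₀ hC (Real.rpow_pos_of_pos hp' _)).1 he

theorem exists_goodLam {L A B : ℝ} {b1 b2 δ : ℝ → ℝ} (hW : Walls L A B b1 b2)
    (hS : Scale b1 b2 δ) : ∃ lam : ℝ, GoodLam L b1 b2 δ lam := by
  obtain ⟨c, C, hc, _, h⟩ := Per_bounds hW hS (a := 1 / 5) (k := 4) (by norm_num)
  refine ⟨max 1 (2 / c), le_max_left _ _, ?_⟩
  filter_upwards [h] with e he x hx
  have h1 := (he x (by linarith [hx.1]) (by linarith [hx.2])).1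
  have h2 : 2 = 2 / c * c := by field_simp
  calc (2:ℝ) = 2 / c * c := h2
    _ ≤ max 1 (2 / c) * Per L b1 b2 δ e x :=
        mul_le_mul (le_max_right _ _) h1 hc.le (le_trans zero_le_one (le_max_left _ _))

/-- the period is interval integrable -/
theorem AC_integrable {L A B : ℝ} {b1 b2 δ : ℝ → ℝ} (hW : Walls L A B b1 b2) {e : ℝ}
    (he : 0 < e) (hd : 0 < δ e) {a b : ℝ} (ha : 0 < a) (hb : 0 < b) :
    IntervalIntegrable (Per L b1 b2 δ e) volume a b := by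
  have hpos : ∀ x ∈ uIcc a b, 0 < x := fun x hx => lt_of_lt_of_le (lt_min ha hb) hx.1
  refine intervalIntegral.intervalIntegrable_deriv_of_nonneg (g := areaS L b1 b2 δ e) ?_ ?_ ?_
  · intro x hx
    exact (areaS_hasDerivAt hW he hd (hpos x hx)).continuousAt.continuousWithinAt
  · intro x hx
    exact areaS_hasDerivAt hW he hd (hpos x ⟨hx.1.le, hx.2.le⟩)
  · intro x hx
    exact (Per_pos hW he hd (hpos x ⟨hx.1.le, hx.2.le⟩)).le

theorem AC_eq {L A B : ℝ} {b1 b2 δ : ℝ → ℝ} (hW : Walls L A B b1 b2) (lam : ℝ) {h0 : ℝ → ℝ} {e : ℝ}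
    (he : 0 < e) (hd : 0 < δ e) (hp : 0 < h0 e) {h : ℝ} (hh : 0 < h) :
    Act L b1 b2 δ lam h0 e h = lam * (areaS L b1 b2 δ e h - areaS L b1 b2 δ e (h0 e)) := by
  unfold Act
  rw [intervalIntegral.integral_eq_sub_of_hasDerivAt _ (AC_integrable hW he hd hp hh)]
  intro x hx
  exact areaS_hasDerivAt hW he hd (lt_of_lt_of_le (lt_min hp hh) hx.1)

theorem AC_hasDerivAt {L A B : ℝ} {b1 b2 δ : ℝ → ℝ} (hW : Walls L A B b1 b2) (lam : ℝ)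
    {h0 : ℝ → ℝ} {e : ℝ} (he : 0 < e) (hd : 0 < δ e) (hp : 0 < h0 e) {h : ℝ} (hh : 0 < h) :
    HasDerivAt (Act L b1 b2 δ lam h0 e) (lam * Per L b1 b2 δ e h) h := by
  have h1 := ((areaS_hasDerivAt hW he hd hh).sub_const (areaS L b1 b2 δ e (h0 e))).const_mul lam
  refine h1.congr_of_eventuallyEq ?_
  filter_upwards [Ioi_mem_nhds hh] with x hx
  exact AC_eq hW lam he hd hp hx

theorem Act_strictMono {L A B : ℝ} {b1 b2 δ : ℝ → ℝ} (hW : Walls L A B b1 b2)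
    {lam : ℝ} (hl : 0 < lam) (h0 : ℝ → ℝ) {e : ℝ} (he : 0 < e) (hd : 0 < δ e) (hp : 0 < h0 e) :
    StrictMonoOn (Act L b1 b2 δ lam h0 e) (Ioi 0) := by
  refine strictMonoOn_of_deriv_pos (convex_Ioi 0) ?_ ?_
  · intro x hx
    exact (AC_hasDerivAt hW lam he hd hp hx).continuousAt.continuousWithinAt
  · intro x hx
    rw [interior_Ioi] at hx
    rw [(AC_hasDerivAt hW lam he hd hp hx).deriv]
    exact mul_pos hl (Per_pos hW he hd hx)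

theorem Act_h0 (L : ℝ) (b1 b2 δ : ℝ → ℝ) (lam : ℝ) (h0 : ℝ → ℝ) (e : ℝ) :
    Act L b1 b2 δ lam h0 e (h0 e) = 0 := by
  unfold Act
  rw [intervalIntegral.integral_same, mul_zero]

/-- growth of the action -/
theorem AC_growth {L A B : ℝ} {b1 b2 δ : ℝ → ℝ} (hW : Walls L A B b1 b2) (lam : ℝ)
    {h0 : ℝ → ℝ} {e : ℝ} (he : 0 < e) (hd : 0 < δ e) (hp : 0 < h0 e)
    (hg : ∀ h ∈ Ioo (1 / 4 : ℝ) 3, 2 ≤ lam * Per L b1 b2 δ e h) {s t : ℝ}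
    (hs : s ∈ Ioo (1 / 4 : ℝ) 3) (ht : t ∈ Ioo (1 / 4 : ℝ) 3) (hst : s ≤ t) :
    2 * (t - s) ≤ Act L b1 b2 δ lam h0 e t - Act L b1 b2 δ lam h0 e s := by
  refine Convex.mul_sub_le_image_sub_of_le_deriv (convex_Ioo (1 / 4 : ℝ) 3) ?_ ?_ ?_ s hs t ht hst
  · intro x hx
    exact (AC_hasDerivAt hW lam he hd hp (by linarith [hx.1])).continuousAt.continuousWithinAt
  · intro x hx
    rw [interior_Ioo] at hx
    exact (AC_hasDerivAt hW lam he hd hp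
      (by linarith [hx.1])).differentiableAt.differentiableWithinAt
  · intro x hx
    rw [interior_Ioo] at hx
    rw [(AC_hasDerivAt hW lam he hd hp (by linarith [hx.1])).deriv]
    exact hg x hx

/-- what is used for a fixed `e` -/
structure ACgood (L : ℝ) (b1 b2 δ : ℝ → ℝ) (lam : ℝ) (h0 : ℝ → ℝ) (e : ℝ) : Prop where
  he : 0 < e
  hd : 0 < δ e
  hg : ∀ h ∈ Ioo (1 / 4 : ℝ) 3, 2 ≤ lam * Per L b1 b2 δ e h

theorem AC_ev {L : ℝ} {b1 b2 δ : ℝ → ℝ} (hS : Scale b1 b2 δ)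
    {lam : ℝ} (hl : GoodLam L b1 b2 δ lam) (h0 : ℝ → ℝ) :
    ∀ᶠ e in 𝓝[>] (0 : ℝ), ACgood L b1 b2 δ lam h0 e := by
  filter_upwards [self_mem_nhdsWithin, hS.pos, hl.2] with e he hd hg
  exact ⟨he, hd, hg⟩

theorem AC_spec {L A B : ℝ} {b1 b2 δ : ℝ → ℝ} (hW : Walls L A B b1 b2)
    {lam : ℝ} {h0 : ℝ → ℝ} {e : ℝ} (hh0 : h0 e ∈ Icc (3 / 4 : ℝ) (5 / 4))
    (G : ACgood L b1 b2 δ lam h0 e) {y : ℝ} (hy : y ∈ Ioo (-1 / 2 : ℝ) (1 / 2)) :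
    Hy L b1 b2 δ lam h0 e y ∈ Ioo (h0 e - 1 / 4) (h0 e + 1 / 4) ∧
      Act L b1 b2 δ lam h0 e (Hy L b1 b2 δ lam h0 e y) = y := by
  obtain ⟨ha, hb⟩ := hh0
  have hp : 0 < h0 e := by linarith
  have h1 := AC_growth hW lam G.he G.hd hp G.hg (s := h0 e) (t := h0 e + 1 / 4)
    ⟨by linarith, by linarith⟩ ⟨by linarith, by linarith⟩ (by linarith)
  have h2 := AC_growth hW lam G.he G.hd hp G.hg (s := h0 e - 1 / 4) (t := h0 e)
    ⟨by linarith, by linarith⟩ ⟨by linarith, by linarith⟩ (by linarith)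
  rw [Act_h0] at h1 h2
  have hc : ContinuousOn (Act L b1 b2 δ lam h0 e) (Icc (h0 e - 1 / 4) (h0 e + 1 / 4)) := by
    intro x hx
    exact (AC_hasDerivAt hW lam G.he G.hd hp
      (by linarith [hx.1])).continuousAt.continuousWithinAt
  have hex : ∃ s : ℝ, s ∈ Ioo (h0 e - 1 / 4) (h0 e + 1 / 4) ∧ Act L b1 b2 δ lam h0 e s = y := by
    have := intermediate_value_Ioo (by linarith : h0 e - 1 / 4 ≤ h0 e + 1 / 4) hc
    obtain ⟨s, hs, hs'⟩ := this (⟨by linarith [hy.1], by linarith [hy.2]⟩ :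
      y ∈ Ioo (Act L b1 b2 δ lam h0 e (h0 e - 1 / 4)) (Act L b1 b2 δ lam h0 e (h0 e + 1 / 4)))
    exact ⟨s, hs, hs'⟩
  unfold Hy
  rw [dif_pos hex]
  exact hex.choose_spec

/-- `Hy` is the inverse of `Act` -/
theorem AC_inv {L A B : ℝ} {b1 b2 δ : ℝ → ℝ} (hW : Walls L A B b1 b2)
    {lam : ℝ} (hl : 0 < lam) {h0 : ℝ → ℝ} {e : ℝ} (hh0 : h0 e ∈ Icc (3 / 4 : ℝ) (5 / 4))
    (he : 0 < e) (hd : 0 < δ e) {s : ℝ} (hs : s ∈ Ioo (h0 e - 1 / 4) (h0 e + 1 / 4)) :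
    Hy L b1 b2 δ lam h0 e (Act L b1 b2 δ lam h0 e s) = s := by
  obtain ⟨ha, hb⟩ := hh0
  have hp : 0 < h0 e := by linarith
  have hex : ∃ t : ℝ, t ∈ Ioo (h0 e - 1 / 4) (h0 e + 1 / 4) ∧
      Act L b1 b2 δ lam h0 e t = Act L b1 b2 δ lam h0 e s := ⟨s, hs, rfl⟩
  unfold Hy
  rw [dif_pos hex]
  have h1 := hex.choose_spec
  refine (Act_strictMono hW hl h0 he hd hp).injOn ?_ ?_ h1.2
  · show 0 < hex.choose
    linarith [h1.1.1]
  · show 0 < s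
    linarith [hs.1]

/-- the energy function of the action: `Act (Hy y) = y` for `|y| < 1/2` -/
theorem Hy_spec {L A B : ℝ} {b1 b2 δ : ℝ → ℝ} (hW : Walls L A B b1 b2) (hS : Scale b1 b2 δ)
    {lam : ℝ} (hl : GoodLam L b1 b2 δ lam) {h0 : ℝ → ℝ} (hh0 : ∀ e, h0 e ∈ Icc (3 / 4 : ℝ) (5 / 4)) :
    ∀ᶠ e in 𝓝[>] (0 : ℝ), ∀ y ∈ Ioo (-1 / 2 : ℝ) (1 / 2),
      Hy L b1 b2 δ lam h0 e y ∈ Ioo (h0 e - 1 / 4) (h0 e + 1 / 4) ∧
      Act L b1 b2 δ lam h0 e (Hy L b1 b2 δ lam h0 e y) = y := by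
  filter_upwards [AC_ev hS hl h0] with e G y hy
  exact AC_spec hW (hh0 e) G hy

theorem Hy_zero {L A B : ℝ} {b1 b2 δ : ℝ → ℝ} (hW : Walls L A B b1 b2) (hS : Scale b1 b2 δ)
    {lam : ℝ} (hl : GoodLam L b1 b2 δ lam) {h0 : ℝ → ℝ} (hh0 : ∀ e, h0 e ∈ Icc (3 / 4 : ℝ) (5 / 4)) :
    ∀ᶠ e in 𝓝[>] (0 : ℝ), Hy L b1 b2 δ lam h0 e 0 = h0 e := by
  filter_upwards [AC_ev hS hl h0] with e G
  have h := AC_inv hW (lt_of_lt_of_le one_pos hl.1) (hh0 e) G.he G.hd (s := h0 e)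
    ⟨by linarith, by linarith⟩
  rw [Act_h0] at h
  exact h

theorem Hy_strictMono {L A B : ℝ} {b1 b2 δ : ℝ → ℝ} (hW : Walls L A B b1 b2) (hS : Scale b1 b2 δ)
    {lam : ℝ} (hl : GoodLam L b1 b2 δ lam) {h0 : ℝ → ℝ} (hh0 : ∀ e, h0 e ∈ Icc (3 / 4 : ℝ) (5 / 4)) :
    ∀ᶠ e in 𝓝[>] (0 : ℝ), StrictMonoOn (Hy L b1 b2 δ lam h0 e) (Ioo (-1 / 2 : ℝ) (1 / 2)) := by
  filter_upwards [AC_ev hS hl h0] with e G y hy z hz hyz
  obtain ⟨h1, h2⟩ := AC_spec hW (hh0 e) G hy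
  obtain ⟨h3, h4⟩ := AC_spec hW (hh0 e) G hz
  have hp : 0 < h0 e := by linarith [(hh0 e).1]
  have hm := Act_strictMono hW (lt_of_lt_of_le one_pos hl.1) h0 G.he G.hd hp
  have h5 : Hy L b1 b2 δ lam h0 e y ∈ Ioi (0:ℝ) := by
    show 0 < Hy L b1 b2 δ lam h0 e y
    linarith [h1.1, (hh0 e).1]
  have h6 : Hy L b1 b2 δ lam h0 e z ∈ Ioi (0:ℝ) := by
    show 0 < Hy L b1 b2 δ lam h0 e z
    linarith [h3.1, (hh0 e).1]
  rw [← hm.lt_iff_lt h5 h6, h2, h4]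
  exact hyz

theorem AC_lip {L A B : ℝ} {b1 b2 δ : ℝ → ℝ} (hW : Walls L A B b1 b2)
    {lam : ℝ} {h0 : ℝ → ℝ} {e : ℝ} (hh0 : h0 e ∈ Icc (3 / 4 : ℝ) (5 / 4))
    (G : ACgood L b1 b2 δ lam h0 e) {y z : ℝ} (hy : y ∈ Ioo (-1 / 2 : ℝ) (1 / 2))
    (hz : z ∈ Ioo (-1 / 2 : ℝ) (1 / 2)) :
    |Hy L b1 b2 δ lam h0 e y - Hy L b1 b2 δ lam h0 e z| ≤ |y - z| := by
  obtain ⟨h1, h2⟩ := AC_spec hW hh0 G hy
  obtain ⟨h3, h4⟩ := AC_spec hW hh0 G hz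
  obtain ⟨ha, hb⟩ := hh0
  have hp : 0 < h0 e := by linarith
  have h5 : Hy L b1 b2 δ lam h0 e y ∈ Ioo (1 / 4 : ℝ) 3 :=
    ⟨by linarith [h1.1], by linarith [h1.2]⟩
  have h6 : Hy L b1 b2 δ lam h0 e z ∈ Ioo (1 / 4 : ℝ) 3 :=
    ⟨by linarith [h3.1], by linarith [h3.2]⟩
  rcases le_total (Hy L b1 b2 δ lam h0 e y) (Hy L b1 b2 δ lam h0 e z) with h | h
  · have h7 := AC_growth hW lam G.he G.hd hp G.hg h5 h6 h
    rw [h2, h4] at h7
    rw [abs_sub_comm, abs_of_nonneg (by linarith), abs_sub_comm]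
    refine le_trans ?_ (le_abs_self _)
    linarith
  · have h7 := AC_growth hW lam G.he G.hd hp G.hg h6 h5 h
    rw [h2, h4] at h7
    rw [abs_of_nonneg (by linarith)]
    refine le_trans ?_ (le_abs_self _)
    linarith

theorem AC_cont {L A B : ℝ} {b1 b2 δ : ℝ → ℝ} (hW : Walls L A B b1 b2)
    {lam : ℝ} {h0 : ℝ → ℝ} {e : ℝ} (hh0 : h0 e ∈ Icc (3 / 4 : ℝ) (5 / 4))
    (G : ACgood L b1 b2 δ lam h0 e) {y : ℝ} (hy : y ∈ Ioo (-1 / 2 : ℝ) (1 / 2)) :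
    ContinuousAt (Hy L b1 b2 δ lam h0 e) y := by
  rw [Metric.continuousAt_iff]
  intro ε hε
  obtain ⟨r, hr, hr'⟩ := Metric.isOpen_iff.1 isOpen_Ioo y hy
  refine ⟨min r ε, lt_min hr hε, fun {z} hz => ?_⟩
  rw [Real.dist_eq] at hz ⊢
  refine lt_of_le_of_lt (AC_lip hW hh0 G (hr' ?_) hy) (lt_of_lt_of_le hz (min_le_right _ _))
  rw [Metric.mem_ball, Real.dist_eq]
  exact lt_of_lt_of_le hz (min_le_left _ _)

theorem Hy_hasDerivAt {L A B : ℝ} {b1 b2 δ : ℝ → ℝ} (hW : Walls L A B b1 b2) (hS : Scale b1 b2 δ)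
    {lam : ℝ} (hl : GoodLam L b1 b2 δ lam) {h0 : ℝ → ℝ} (hh0 : ∀ e, h0 e ∈ Icc (3 / 4 : ℝ) (5 / 4)) :
    ∀ᶠ e in 𝓝[>] (0 : ℝ), ∀ y ∈ Ioo (-1 / 2 : ℝ) (1 / 2),
      HasDerivAt (Hy L b1 b2 δ lam h0 e)
        (1 / (lam * Per L b1 b2 δ e (Hy L b1 b2 δ lam h0 e y))) y := by
  filter_upwards [AC_ev hS hl h0] with e G y hy
  obtain ⟨h1, h2⟩ := AC_spec hW (hh0 e) G hy
  have hp : 0 < h0 e := by linarith [(hh0 e).1]
  have hq : 0 < Hy L b1 b2 δ lam h0 e y := by linarith [h1.1, (hh0 e).1]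
  rw [one_div]
  refine HasDerivAt.of_local_left_inverse (AC_cont hW (hh0 e) G hy)
    (AC_hasDerivAt hW lam G.he G.hd hp hq) ?_ ?_
  · exact (mul_pos (lt_of_lt_of_le one_pos hl.1) (Per_pos hW G.he G.hd hq)).ne'
  · filter_upwards [Ioo_mem_nhds hy.1 hy.2] with z hz
    exact (AC_spec hW (hh0 e) G hz).2

theorem Act_tame {L A B : ℝ} {b1 b2 δ : ℝ → ℝ} (hW : Walls L A B b1 b2) (hS : Scale b1 b2 δ)
    {lam : ℝ} (hl : GoodLam L b1 b2 δ lam) {h0 : ℝ → ℝ} (hh0 : ∀ e, h0 e ∈ Icc (3 / 4 : ℝ) (5 / 4)) :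
    Tame (fun _ => Ioo (1 / 4 : ℝ) 3) (Act L b1 b2 δ lam h0) := by
  have hT : Tame (fun _ => Ioo (1 / 4 : ℝ) 3) (fun e h => lam * Per L b1 b2 δ e h) :=
    Tame.slow_mul (c := fun _ => lam) (Slow.const lam) (Per_tame hW hS 3 (by norm_num))
  refine Tame.of_deriv (f' := fun e h => lam * Per L b1 b2 δ e h) ?_ hT ?_
  · filter_upwards [AC_ev hS hl h0] with e G x hx
    exact AC_hasDerivAt hW lam G.he G.hd (by linarith [(hh0 e).1]) (by linarith [hx.1])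
  · intro η hη
    obtain ⟨c, C, hc, hC, h⟩ := Per_bounds hW hS (a := 1 / 5) (k := 4) (by norm_num)
    have hl0 : 0 < lam := lt_of_lt_of_le one_pos hl.1
    filter_upwards [AC_ev hS hl h0, h, AC_slow (C := lam * (C * 3)) hη] with e G hb hs x hx
    refine le_trans ?_ hs
    unfold Act
    rw [norm_mul, Real.norm_of_nonneg hl0.le]
    refine mul_le_mul_of_nonneg_left ?_ hl0.le
    have h1 : ‖∫ s in (h0 e)..x, Per L b1 b2 δ e s‖ ≤ C * |x - h0 e| := by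
      refine intervalIntegral.norm_integral_le_of_norm_le_const fun s hs => ?_
      have hs1 : 1 / 5 < s := by
        have := hs.1
        have h2 : (1:ℝ) / 4 < min (h0 e) x := lt_min (by linarith [(hh0 e).1]) hx.1
        linarith
      have hs2 : s < 4 := by
        have := hs.2
        have h2 : max (h0 e) x < 3 := max_lt (by linarith [(hh0 e).2]) hx.2
        linarith
      obtain ⟨h3, h4⟩ := hb s hs1 hs2
      rw [Real.norm_of_nonneg (by linarith)]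
      exact h4
    refine h1.trans (mul_le_mul_of_nonneg_left ?_ hC.le)
    rw [abs_le]
    constructor
    · linarith [hx.1, (hh0 e).2]
    · linarith [hx.2, (hh0 e).1]

theorem AC_det (c : ℝ) : (((c • ContinuousLinearMap.fst ℝ ℝ ℝ)).prod
    (ContinuousLinearMap.snd ℝ ℝ ℝ)).det = c := by
  have h : ((c • ContinuousLinearMap.fst ℝ ℝ ℝ)).prod (ContinuousLinearMap.snd ℝ ℝ ℝ) =
      LinearMap.toContinuousLinearMap (Matrix.toLin (Module.Basis.finTwoProd ℝ)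
        (Module.Basis.finTwoProd ℝ) !![c, 0; 0, 1]) := by
    rw [Matrix.toLin_finTwoProd_toContinuousLinearMap]
    ext <;> simp
  rw [h, LinearMap.det_toContinuousLinearMap, LinearMap.det_toLin, Matrix.det_fin_two_of]
  ring

theorem Hy_tame {L A B : ℝ} {b1 b2 δ : ℝ → ℝ} (hW : Walls L A B b1 b2) (hS : Scale b1 b2 δ)
    {lam : ℝ} (hl : GoodLam L b1 b2 δ lam) {h0 : ℝ → ℝ} (hh0 : ∀ e, h0 e ∈ Icc (3 / 4 : ℝ) (5 / 4)) :
    Tame (fun _ => Ioo (-1 / 2 : ℝ) (1 / 2)) (Hy L b1 b2 δ lam h0) := by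
  have hl0 : 0 < lam := lt_of_lt_of_le one_pos hl.1
  have hO : ∀ᶠ e in 𝓝[>] (0 : ℝ), IsOpen (Ioo (h0 e - 1 / 4) (h0 e + 1 / 4) ×ˢ Ioo (-1 : ℝ) 1) :=
    Eventually.of_forall fun e => isOpen_Ioo.prod isOpen_Ioo
  have hnorm : ∀ η : ℝ, 0 < η → ∀ᶠ e in 𝓝[>] (0 : ℝ),
      ∀ x ∈ Ioo (h0 e - 1 / 4) (h0 e + 1 / 4) ×ˢ Ioo (-1 : ℝ) 1, ‖x‖ ≤ e ^ (-η) := by
    intro η hη
    filter_upwards [AC_slow (C := 2) hη] with e he x hx
    refine le_trans ?_ he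
    rw [Prod.norm_def]
    refine max_le ?_ ?_
    · rw [Real.norm_eq_abs, abs_le]
      constructor
      · linarith [hx.1.1, (hh0 e).1]
      · linarith [hx.1.2, (hh0 e).2]
    · rw [Real.norm_eq_abs, abs_le]
      constructor
      · linarith [hx.2.1]
      · linarith [hx.2.2]
  have hfst : Tame (fun e => Ioo (h0 e - 1 / 4) (h0 e + 1 / 4) ×ˢ Ioo (-1 : ℝ) 1)
      (fun _ p => p.1) := Tame.clm hO (ContinuousLinearMap.fst ℝ ℝ ℝ) hnorm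
  have hsnd : Tame (fun e => Ioo (h0 e - 1 / 4) (h0 e + 1 / 4) ×ˢ Ioo (-1 : ℝ) 1)
      (fun _ p => p.2) := Tame.clm hO (ContinuousLinearMap.snd ℝ ℝ ℝ) hnorm
  have hA : Tame (fun e => Ioo (h0 e - 1 / 4) (h0 e + 1 / 4) ×ˢ Ioo (-1 : ℝ) 1)
      (fun e p => Act L b1 b2 δ lam h0 e p.1) := by
    refine Tame.comp (Act_tame hW hS hl hh0) hfst ?_
    refine Eventually.of_forall fun e p hp => ?_
    exact ⟨by linarith [hp.1.1, (hh0 e).1], by linarith [hp.1.2, (hh0 e).2]⟩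
  have hP := Tame.prodMk hA hsnd
  have hI := Tame.inverse (Ψ := fun e p => (Hy L b1 b2 δ lam h0 e p.1, p.2)) hP ?_ ?_ hnorm
  · have hg : Tame (fun _ => Ioo (-1 / 2 : ℝ) (1 / 2)) (fun (_ : ℝ) (y : ℝ) => (y, (0:ℝ))) := by
      refine Tame.prodMk ?_ ?_
      · refine Tame.clm (Eventually.of_forall fun _ => isOpen_Ioo) (ContinuousLinearMap.id ℝ ℝ) ?_
        intro η hη
        filter_upwards [AC_slow (C := 1) hη] with e he x hx
        refine le_trans ?_ he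
        rw [Real.norm_eq_abs, abs_le]
        constructor
        · linarith [hx.1]
        · linarith [hx.2]
      · exact Tame.constFix (Eventually.of_forall fun _ => isOpen_Ioo) 0
    have hc := Tame.comp hI hg ?_
    · exact Tame.fst hc
    · filter_upwards [AC_ev hS hl h0] with e G y hy
      obtain ⟨h1, h2⟩ := AC_spec hW (hh0 e) G hy
      refine ⟨(Hy L b1 b2 δ lam h0 e y, 0), ⟨h1, by norm_num⟩, ?_⟩
      show (Act L b1 b2 δ lam h0 e (Hy L b1 b2 δ lam h0 e y), (0:ℝ)) = (y, 0)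
      rw [h2]
  · filter_upwards [AC_ev hS hl h0] with e G p hp
    show (Hy L b1 b2 δ lam h0 e (Act L b1 b2 δ lam h0 e p.1), p.2) = p
    rw [AC_inv hW hl0 (hh0 e) G.he G.hd hp.1]
  · intro η hη
    filter_upwards [AC_ev hS hl h0, AC_fast (C := 2) (by norm_num) hη] with e G he p hp
    have hp1 : 0 < p.1 := by linarith [hp.1.1, (hh0 e).1]
    have h1 := AC_hasDerivAt hW lam G.he G.hd (h0 := h0) (by linarith [(hh0 e).1]) hp1
    have h2 : HasFDerivAt (fun p : ℝ × ℝ => (Act L b1 b2 δ lam h0 e p.1, p.2))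
        ((((lam * Per L b1 b2 δ e p.1) • ContinuousLinearMap.fst ℝ ℝ ℝ)).prod
          (ContinuousLinearMap.snd ℝ ℝ ℝ)) p := by
      refine HasFDerivAt.prodMk ?_ hasFDerivAt_snd
      exact h1.comp_hasFDerivAt p hasFDerivAt_fst
    rw [h2.fderiv]
    have h3 : ((((lam * Per L b1 b2 δ e p.1) • ContinuousLinearMap.fst ℝ ℝ ℝ)).prod
          (ContinuousLinearMap.snd ℝ ℝ ℝ)).det = lam * Per L b1 b2 δ e p.1 :=
      AC_det _
    rw [h3]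
    have h4 := G.hg p.1 ⟨by linarith [hp.1.1, (hh0 e).1], by linarith [hp.1.2, (hh0 e).2]⟩
    rw [abs_of_nonneg (by linarith)]
    linarith

end BB
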