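import Pool.Agent.Lib_helper6.BB.W.PE1

open Filter Topology Set MeasureTheory
open scoped ContDiff

namespace BB

theorem AN_pot_cont {L A B : ℝ} {b1 b2 : ℝ → ℝ} (hW : Walls L A B b1 b2) :
    Continuous (pot b1 b2) := by
  unfold pot
  refine intervalIntegral.continuous_primitive (fun a b => ?_) 0
  exact (hW.smooth1.continuous.add hW.smooth2.continuous).intervalIntegrable a b

theorem AN_HH_cont {L A B : ℝ} {b1 b2 δ : ℝ → ℝ} (hW : Walls L A B b1 b2) (e : ℝ) :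
    Continuous (HH L b1 b2 δ e) := by
  unfold HH Wp
  have h1 : Continuous fun p : ℝ × ℝ => pot b1 b2 (δ e * p.1) :=
    (AN_pot_cont hW).comp (continuous_const.mul continuous_fst)
  exact (continuous_const.mul (continuous_snd.pow 2)).add
    (continuous_const.mul (h1.div_const e))

theorem AN_Vir_cont {L A B : ℝ} {b1 b2 δ : ℝ → ℝ} (hW : Walls L A B b1 b2) (e : ℝ) :
    Continuous (Vir L b1 b2 δ e) := by
  unfold Vir ww
  have h1 : Continuous fun p : ℝ × ℝ => b1 (δ e * p.1) :=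
    hW.smooth1.continuous.comp (continuous_const.mul continuous_fst)
  have h2 : Continuous fun p : ℝ × ℝ => b2 (δ e * p.1) :=
    hW.smooth2.continuous.comp (continuous_const.mul continuous_fst)
  exact (continuous_const.mul (continuous_snd.pow 2)).add
    ((continuous_const.mul continuous_fst).mul
      ((continuous_const.mul h1).add (continuous_const.mul h2)))

theorem AN_pol_cont (R : ℝ) : Continuous fun q : ℝ × ℝ => pol (q.1, R) := by
  unfold pol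
  exact (continuous_const.mul (Real.continuous_sin.comp continuous_fst)).prodMk
    (continuous_const.mul (Real.continuous_cos.comp continuous_fst))

theorem AN_Rad_cont {L A B : ℝ} {b1 b2 δ : ℝ → ℝ} (hW : Walls L A B b1 b2) {e : ℝ} (he : 0 < e)
    (hd : 0 < δ e) : ContinuousOn (Rad L b1 b2 δ e) {q | 0 < q.2} := by
  intro q0 hq0
  have hq0' : 0 < q0.2 := hq0
  refine ContinuousAt.continuousWithinAt ?_
  have hpos : ∀ᶠ q : ℝ × ℝ in 𝓝 q0, 0 < q.2 :=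
    continuous_snd.continuousAt.eventually (lt_mem_nhds hq0')
  have hc : ∀ R : ℝ, Continuous fun q : ℝ × ℝ => HH L b1 b2 δ e (pol (q.1, R)) := fun R =>
    (AN_HH_cont hW e).comp (AN_pol_cont R)
  obtain ⟨hR0, hH0⟩ := Rad_spec hW he hd hq0'
  refine tendsto_order.2 ⟨?_, ?_⟩
  · intro a ha
    by_cases ha0 : 0 ≤ a
    · have h1 := (Rad_lt_iff hW he hd hq0' ha0).2 ha
      have h2 : ∀ᶠ q : ℝ × ℝ in 𝓝 q0, HH L b1 b2 δ e (pol (q.1, a)) < q.2 :=
        (hc a).continuousAt.eventually_lt continuous_snd.continuousAt h1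
      filter_upwards [h2, hpos] with q h3 h4
      exact (Rad_lt_iff hW he hd h4 ha0).1 h3
    · filter_upwards [hpos] with q h4
      have := (Rad_spec hW he hd h4).1
      linarith
  · intro b hb
    have hb0 : 0 < b := hR0.trans hb
    have h1 : q0.2 < HH L b1 b2 δ e (pol (q0.1, b)) := by
      rcases lt_trichotomy (HH L b1 b2 δ e (pol (q0.1, b))) q0.2 with h | h | h
      · have := (Rad_lt_iff hW he hd hq0' hb0.le).1 h
        linarith
      · have := Rad_unique hW he hd hq0' hb0 h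
        linarith
      · exact h
    have h2 : ∀ᶠ q : ℝ × ℝ in 𝓝 q0, q.2 < HH L b1 b2 δ e (pol (q.1, b)) :=
      continuous_snd.continuousAt.eventually_lt (hc b).continuousAt h1
    filter_upwards [h2, hpos] with q h3 h4
    by_contra h5
    rw [not_lt] at h5
    rcases h5.lt_or_eq with h6 | h6
    · have := (Rad_lt_iff hW he hd h4 hb0.le).2 h6
      linarith
    · have := (Rad_spec hW he hd h4).2
      rw [← h6] at this
      linarith

theorem AN_Om_cont {L A B : ℝ} {b1 b2 δ : ℝ → ℝ} (hW : Walls L A B b1 b2) {e : ℝ} (he : 0 < e)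
    (hd : 0 < δ e) : ContinuousOn (Om L b1 b2 δ e) {q | 0 < q.2} := by
  have hR := AN_Rad_cont hW he hd
  have hK : ContinuousOn (Kp L b1 b2 δ e) {q | 0 < q.2} := by
    unfold Kp pol
    exact (hR.mul (Real.continuous_sin.comp continuous_fst).continuousOn).prodMk
      (hR.mul (Real.continuous_cos.comp continuous_fst).continuousOn)
  unfold Om
  refine ContinuousOn.div ((AN_Vir_cont hW e).comp_continuousOn hK) (hR.pow 2) ?_
  intro q hq
  have := (Rad_spec hW he hd (show 0 < q.2 from hq)).1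
  positivity

theorem AN_g_cont {L A B : ℝ} {b1 b2 δ : ℝ → ℝ} (hW : Walls L A B b1 b2) {e : ℝ} (he : 0 < e)
    (hd : 0 < δ e) {h : ℝ} (hh : 0 < h) : Continuous fun s => 1 / Om L b1 b2 δ e (s, h) := by
  refine continuous_const.div ?_ fun s => (Om_pos hW he hd (q := (s, h)) hh).ne'
  exact (AN_Om_cont hW he hd).comp_continuous (by fun_prop) fun s => hh

theorem Th_zero (L : ℝ) (b1 b2 δ : ℝ → ℝ) (e h : ℝ) : Th L b1 b2 δ e (0, h) = 0 := by
  unfold Th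
  simp

theorem Th_hasDerivAt {L A B : ℝ} {b1 b2 δ : ℝ → ℝ} (hW : Walls L A B b1 b2) {e : ℝ} (he : 0 < e)
    (hd : 0 < δ e) {h : ℝ} (hh : 0 < h) (s : ℝ) :
    HasDerivAt (fun s => Th L b1 b2 δ e (s, h))
      (1 / (Om L b1 b2 δ e (s, h) * Per L b1 b2 δ e h)) s := by
  have hc := AN_g_cont hW he hd hh
  have h1 := (intervalIntegral.integral_hasDerivAt_right (hc.intervalIntegrable 0 s)
    (hc.stronglyMeasurableAtFilter _ _) hc.continuousAt).div_const (Per L b1 b2 δ e h)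
  rw [div_div] at h1
  exact h1

theorem Th_strictMono {L A B : ℝ} {b1 b2 δ : ℝ → ℝ} (hW : Walls L A B b1 b2) {e : ℝ} (he : 0 < e)
    (hd : 0 < δ e) {h : ℝ} (hh : 0 < h) : StrictMono (fun s => Th L b1 b2 δ e (s, h)) := by
  refine strictMono_of_deriv_pos fun s => ?_
  rw [(Th_hasDerivAt hW he hd hh s).deriv]
  have h1 := Om_pos hW he hd (q := (s, h)) hh
  have h2 := Per_pos hW he hd hh
  positivity

theorem Th_add {L A B : ℝ} {b1 b2 δ : ℝ → ℝ} (hW : Walls L A B b1 b2) {e : ℝ} (he : 0 < e)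
    (hd : 0 < δ e) {h : ℝ} (hh : 0 < h) (s : ℝ) (n : ℤ) :
    Th L b1 b2 δ e (s + n * (2 * Real.pi), h) = Th L b1 b2 δ e (s, h) + n := by
  have hc := AN_g_cont hW he hd hh
  have hper : Function.Periodic (fun s => 1 / Om L b1 b2 δ e (s, h)) (2 * Real.pi) := by
    intro s
    show 1 / Om L b1 b2 δ e (s + 2 * Real.pi, h) = 1 / Om L b1 b2 δ e (s, h)
    rw [Om_periodic hW he hd (q := (s, h)) hh]
  have h1 := hper.intervalIntegral_add_zsmul_eq n s fun t₁ t₂ => hc.intervalIntegrable t₁ t₂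
  have h2 := hper.intervalIntegral_add_eq s 0
  rw [zero_add] at h2
  have hP := Per_pos hW he hd hh
  have h3 : ∫ x in (0 : ℝ)..(2 * Real.pi), 1 / Om L b1 b2 δ e (x, h) = Per L b1 b2 δ e h := rfl
  rw [h2, h3, zsmul_eq_mul, zsmul_eq_mul] at h1
  have h4 := intervalIntegral.integral_add_adjacent_intervals (hc.intervalIntegrable 0 s)
    (hc.intervalIntegrable (μ := volume) s (s + n * (2 * Real.pi)))
  unfold Th
  show (∫ x in (0 : ℝ)..(s + n * (2 * Real.pi)), 1 / Om L b1 b2 δ e (x, h)) / Per L b1 b2 δ e h =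
    (∫ x in (0 : ℝ)..s, 1 / Om L b1 b2 δ e (x, h)) / Per L b1 b2 δ e h + n
  rw [← h4, h1, add_div, mul_div_assoc, div_self hP.ne', mul_one]

theorem AN_surj {L A B : ℝ} {b1 b2 δ : ℝ → ℝ} (hW : Walls L A B b1 b2) {e : ℝ} (he : 0 < e)
    (hd : 0 < δ e) {h : ℝ} (hh : 0 < h) (x : ℝ) : ∃ s : ℝ, Th L b1 b2 δ e (s, h) = x ∧
      |s| ≤ 2 * Real.pi * (|x| + 1) := by
  have hc : Continuous fun s => Th L b1 b2 δ e (s, h) :=
    continuous_iff_continuousAt.2 fun s => (Th_hasDerivAt hW he hd hh s).continuousAt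
  set n : ℤ := ⌈|x|⌉ with hn
  have hn1 : |x| ≤ n := Int.le_ceil _
  have hn2 : (n : ℝ) < |x| + 1 := Int.ceil_lt_add_one _
  have h0 := Th_zero L b1 b2 δ e h
  have h1 := Th_add hW he hd hh 0 n
  have h2 := Th_add hW he hd hh 0 (-n)
  rw [h0, zero_add, zero_add] at h1 h2
  push_cast at h2
  have hpi := Real.pi_pos
  have hn0 : (0 : ℝ) ≤ n := (abs_nonneg x).trans hn1
  have hle : -(n : ℝ) * (2 * Real.pi) ≤ n * (2 * Real.pi) := by nlinarith
  obtain ⟨s, hs, hsx⟩ := intermediate_value_Icc hle hc.continuousOn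
    (show x ∈ Icc (Th L b1 b2 δ e (-(n : ℝ) * (2 * Real.pi), h))
      (Th L b1 b2 δ e (n * (2 * Real.pi), h)) by
      rw [h1, h2]
      exact ⟨by linarith [neg_abs_le x], by linarith [le_abs_self x]⟩)
  refine ⟨s, hsx, ?_⟩
  have h3 : (n : ℝ) * (2 * Real.pi) ≤ 2 * Real.pi * (|x| + 1) := by nlinarith
  rw [abs_le]
  constructor
  · have := hs.1
    linarith
  · exact hs.2.trans h3

/-- `Psi` is the inverse of `Th` in the angle -/
theorem Th_Psi {L A B : ℝ} {b1 b2 δ : ℝ → ℝ} (hW : Walls L A B b1 b2) {e : ℝ} (he : 0 < e)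
    (hd : 0 < δ e) {h : ℝ} (hh : 0 < h) (x : ℝ) :
    Th L b1 b2 δ e (Psi L b1 b2 δ e (x, h), h) = x := by
  obtain ⟨s, hs, _⟩ := AN_surj hW he hd hh x
  have hex : ∃ s : ℝ, Th L b1 b2 δ e (s, (x, h).2) = (x, h).1 := ⟨s, hs⟩
  unfold Psi
  rw [dif_pos hex]
  exact hex.choose_spec

theorem Psi_Th {L A B : ℝ} {b1 b2 δ : ℝ → ℝ} (hW : Walls L A B b1 b2) {e : ℝ} (he : 0 < e)
    (hd : 0 < δ e) {h : ℝ} (hh : 0 < h) (s : ℝ) :
    Psi L b1 b2 δ e (Th L b1 b2 δ e (s, h), h) = s :=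
  (Th_strictMono hW he hd hh).injective (Th_Psi hW he hd hh _)

theorem Psi_add {L A B : ℝ} {b1 b2 δ : ℝ → ℝ} (hW : Walls L A B b1 b2) {e : ℝ} (he : 0 < e)
    (hd : 0 < δ e) {h : ℝ} (hh : 0 < h) (x : ℝ) (n : ℤ) :
    Psi L b1 b2 δ e (x + n, h) = Psi L b1 b2 δ e (x, h) + n * (2 * Real.pi) := by
  apply (Th_strictMono hW he hd hh).injective
  show Th L b1 b2 δ e (Psi L b1 b2 δ e (x + n, h), h) =
    Th L b1 b2 δ e (Psi L b1 b2 δ e (x, h) + n * (2 * Real.pi), h)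
  rw [Th_add hW he hd hh, Th_Psi hW he hd hh, Th_Psi hW he hd hh]

/-- `|θ| < w` implies `|ψ| < 2π (w + 1)` -/
theorem Psi_abs {L A B : ℝ} {b1 b2 δ : ℝ → ℝ} (hW : Walls L A B b1 b2) {e : ℝ} (he : 0 < e)
    (hd : 0 < δ e) {h : ℝ} (hh : 0 < h) (x : ℝ) :
    |Psi L b1 b2 δ e (x, h)| ≤ 2 * Real.pi * (|x| + 1) := by
  obtain ⟨s, hs, hb⟩ := AN_surj hW he hd hh x
  have : Psi L b1 b2 δ e (x, h) = s := by
    rw [← hs]
    exact Psi_Th hW he hd hh s
  rw [this]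
  exact hb

/-! ## tameness -/

theorem AN_win_open (w a b : ℝ) : IsOpen (Ioo (-w) w ×ˢ Ioo a b : Set (ℝ × ℝ)) :=
  isOpen_Ioo.prod isOpen_Ioo

theorem AN_small {c : ℝ} (hc : 0 < c) {η : ℝ} (hη : 0 < η) :
    ∀ᶠ e in 𝓝[>] (0 : ℝ), e ^ η ≤ c := by
  have h1 : Tendsto (fun e : ℝ => e ^ η) (𝓝[>] (0 : ℝ)) (𝓝 0) := by
    have h2 := (Real.continuousAt_rpow_const (0 : ℝ) η (Or.inr hη.le)).tendsto
    rw [Real.zero_rpow hη.ne'] at h2
    exact h2.mono_left nhdsWithin_le_nhds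
  exact (h1.eventually (gt_mem_nhds hc)).mono fun e he => he.le

theorem AN_big (C : ℝ) {η : ℝ} (hη : 0 < η) :
    ∀ᶠ e in 𝓝[>] (0 : ℝ), C ≤ e ^ (-η) := by
  have h1 := AN_small (c := (|C| + 1)⁻¹) (by positivity) hη
  filter_upwards [h1, self_mem_nhdsWithin] with e h2 h3
  have h3' : (0 : ℝ) < e := h3
  have h4 : 0 < e ^ η := Real.rpow_pos_of_pos h3' η
  rw [Real.rpow_neg h3'.le]
  have h5 : |C| + 1 ≤ (e ^ η)⁻¹ := by
    rw [le_inv_comm₀ (by positivity) h4]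
    exact h2
  linarith [le_abs_self C]

/-- coordinate functions on bounded windows -/
theorem AN_coord {V : Type} [NormedAddCommGroup V] [NormedSpace ℝ V] {Ω : Set V} (hΩ : IsOpen Ω)
    {C : ℝ} (hC : ∀ x ∈ Ω, ‖x‖ ≤ C) (f : V →L[ℝ] ℝ) : Tame (fun _ => Ω) (fun _ x => f x) := by
  refine Tame.clm (Eventually.of_forall fun _ => hΩ) f ?_
  intro η hη
  filter_upwards [AN_big C hη] with e he x hx
  exact (hC x hx).trans he

theorem AN_win_norm {w a k : ℝ} {x : ℝ × ℝ} (hx : x ∈ (Ioo (-w) w ×ˢ Ioo a k : Set (ℝ × ℝ))) :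
    ‖x‖ ≤ |w| + |a| + |k| := by
  obtain ⟨⟨h1, h2⟩, h3, h4⟩ := hx
  rw [Prod.norm_def, max_le_iff, Real.norm_eq_abs, Real.norm_eq_abs, abs_le, abs_le]
  have e1 := le_abs_self w
  have e2 := neg_abs_le a
  have e3 := le_abs_self k
  have e4 := abs_nonneg w
  have e5 := abs_nonneg a
  have e6 := abs_nonneg k
  refine ⟨⟨by linarith, by linarith⟩, by linarith, by linarith⟩

theorem AN_ev (δ : ℝ → ℝ) {b1 b2 : ℝ → ℝ} (hS : Scale b1 b2 δ) :
    ∀ᶠ e in 𝓝[>] (0 : ℝ), 0 < e ∧ 0 < δ e :=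
  (show ∀ᶠ e in 𝓝[>] (0 : ℝ), 0 < e from self_mem_nhdsWithin).and hS.pos

/-- lower bound of the period -/
theorem AN_Per_lower {L A B : ℝ} {b1 b2 δ : ℝ → ℝ} (hW : Walls L A B b1 b2) (hS : Scale b1 b2 δ)
    (k : ℝ) {a : ℝ} (ha : 0 < a) {η : ℝ} (hη : 0 < η) :
    ∀ᶠ e in 𝓝[>] (0 : ℝ), ∀ h ∈ Ioo a k, e ^ η ≤ Per L b1 b2 δ e h := by
  have h1 := (Om_tame hW hS 7 k ha).bound0 hη
  filter_upwards [h1, AN_ev δ hS] with e h2 h3 h hh
  obtain ⟨he, hd⟩ := h3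
  have hh0 : 0 < h := ha.trans hh.1
  have hc := AN_g_cont hW he hd hh0
  have hpi := Real.pi_gt_three
  have hpi2 := Real.pi_lt_d2
  have h4 : ∀ s ∈ Icc (0 : ℝ) (2 * Real.pi), e ^ η ≤ 1 / Om L b1 b2 δ e (s, h) := by
    intro s hs
    have h5 := h2 (s, h) ⟨⟨by linarith [hs.1], by linarith [hs.2]⟩, hh⟩
    have h6 := Om_pos hW he hd (q := (s, h)) hh0
    rw [Real.norm_eq_abs, abs_of_pos h6] at h5
    have h7 : (e ^ (-η))⁻¹ = e ^ η := by
      rw [Real.rpow_neg he.le, inv_inv]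
    rw [← h7, one_div]
    exact inv_anti₀ h6 h5
  have h8 : ∫ s in (0 : ℝ)..(2 * Real.pi), e ^ η ≤ Per L b1 b2 δ e h := by
    unfold Per
    exact intervalIntegral.integral_mono_on (by positivity) intervalIntegrable_const
      (hc.intervalIntegrable _ _) h4
  rw [intervalIntegral.integral_const, smul_eq_mul, sub_zero] at h8
  have h9 : 0 < e ^ η := Real.rpow_pos_of_pos he η
  nlinarith

/-- the time integral -/
theorem AN_int_tame {L A B : ℝ} {b1 b2 δ : ℝ → ℝ} (hW : Walls L A B b1 b2) (hS : Scale b1 b2 δ)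
    {w : ℝ} (hw : 0 < w) (k : ℝ) {a : ℝ} (ha : 0 < a) :
    Tame (Win w a k) (fun e q => ∫ t in (0 : ℝ)..1, (Om L b1 b2 δ e (t * q.1, q.2))⁻¹) := by
  have hOm : Tame (Win (2 * w) a k) (fun e q => (Om L b1 b2 δ e q)⁻¹) := by
    refine (Om_tame hW hS (2 * w) k ha).inv ?_
    intro η hη
    obtain ⟨c, hc, hev⟩ := Om_lower hW hS k ha
    filter_upwards [hev, AN_small hc hη] with e h1 h2 q hq
    exact (h2.trans (h1 q hq.2.1 hq.2.2)).trans (le_abs_self _)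
  have hopen : IsOpen ((Ioo (-w) w ×ˢ Ioo a k) ×ˢ Ioo (-1 : ℝ) 2 : Set ((ℝ × ℝ) × ℝ)) :=
    (AN_win_open w a k).prod isOpen_Ioo
  have hbd : ∀ x ∈ ((Ioo (-w) w ×ˢ Ioo a k) ×ˢ Ioo (-1 : ℝ) 2 : Set ((ℝ × ℝ) × ℝ)),
      ‖x‖ ≤ |w| + |a| + |k| + 2 := by
    rintro ⟨x, t⟩ ⟨hx, ht⟩
    rw [Prod.norm_def, max_le_iff]
    have h1 := AN_win_norm hx
    have h2 : |t| ≤ 2 := abs_le.2 ⟨by linarith [ht.1], by linarith [ht.2]⟩
    refine ⟨by show ‖x‖ ≤ _; linarith, ?_⟩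
    show |t| ≤ _
    have := abs_nonneg w
    have := abs_nonneg a
    have := abs_nonneg k
    linarith
  have t1 : Tame (fun _ => ((Ioo (-w) w ×ˢ Ioo a k) ×ˢ Ioo (-1 : ℝ) 2 : Set ((ℝ × ℝ) × ℝ)))
      (fun _ x => x.2) := AN_coord hopen hbd (ContinuousLinearMap.snd ℝ (ℝ × ℝ) ℝ)
  have t2 : Tame (fun _ => ((Ioo (-w) w ×ˢ Ioo a k) ×ˢ Ioo (-1 : ℝ) 2 : Set ((ℝ × ℝ) × ℝ)))
      (fun _ x => x.1.1) := AN_coord hopen hbd
    ((ContinuousLinearMap.fst ℝ ℝ ℝ).comp (ContinuousLinearMap.fst ℝ (ℝ × ℝ) ℝ))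
  have t3 : Tame (fun _ => ((Ioo (-w) w ×ˢ Ioo a k) ×ˢ Ioo (-1 : ℝ) 2 : Set ((ℝ × ℝ) × ℝ)))
      (fun _ x => x.1.2) := AN_coord hopen hbd
    ((ContinuousLinearMap.snd ℝ ℝ ℝ).comp (ContinuousLinearMap.fst ℝ (ℝ × ℝ) ℝ))
  have t4 := hOm.comp ((t1.mul t2).prodMk t3) (Eventually.of_forall fun e => by
    rintro ⟨⟨x, h⟩, t⟩ ⟨⟨⟨h1, h2⟩, h3⟩, h4, h5⟩
    refine ⟨⟨?_, ?_⟩, h3⟩
    · show -(2 * w) < t * x
      have h1' : -w < x := h1
      have h2' : x < w := h2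
      have h4' : -1 < t := h4
      have h5' : t < 2 := h5
      rcases le_total 0 t with h6 | h6
      · nlinarith
      · nlinarith
    · show t * x < 2 * w
      have h1' : -w < x := h1
      have h2' : x < w := h2
      have h4' : -1 < t := h4
      have h5' : t < 2 := h5
      rcases le_total 0 t with h6 | h6
      · nlinarith
      · nlinarith)
  exact Tame.integral (Ω := Win w a k)
    (g := fun e x => (Om L b1 b2 δ e (x.2 * x.1.1, x.1.2))⁻¹) t4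

/-- tameness on windows -/
theorem AN_Th_tame {L A B : ℝ} {b1 b2 δ : ℝ → ℝ} (hW : Walls L A B b1 b2) (hS : Scale b1 b2 δ)
    {w : ℝ} (hw : 0 < w) (k : ℝ) {a : ℝ} (ha : 0 < a) : Tame (Win w a k) (Th L b1 b2 δ) := by
  have t1 := AN_int_tame hW hS hw k ha
  have t2 : Tame (Win w a k) (fun _ q => q.1) :=
    AN_coord (AN_win_open w a k) (fun x hx => AN_win_norm hx) (ContinuousLinearMap.fst ℝ ℝ ℝ)
  have t3 : Tame (Win w a k) (fun _ q => q.2) :=
    AN_coord (AN_win_open w a k) (fun x hx => AN_win_norm hx) (ContinuousLinearMap.snd ℝ ℝ ℝ)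
  have t4 : Tame (Win w a k) (fun e q => Per L b1 b2 δ e q.2) :=
    (Per_tame hW hS k ha).comp t3 (Eventually.of_forall fun e q hq => hq.2)
  have t5 : Tame (Win w a k) (fun e q => (Per L b1 b2 δ e q.2)⁻¹) := by
    refine t4.inv ?_
    intro η hη
    filter_upwards [AN_Per_lower hW hS k ha hη] with e h1 q hq
    exact (h1 q.2 hq.2).trans (le_abs_self _)
  refine ((t2.mul t1).mul t5).congr ?_
  filter_upwards [AN_ev δ hS] with e h1 q hq
  unfold Th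
  rw [div_eq_mul_inv]
  congr 1
  have h2 := intervalIntegral.smul_integral_comp_mul_left
    (a := 0) (b := 1) (fun s => 1 / Om L b1 b2 δ e (s, q.2)) q.1
  rw [mul_zero, mul_one, smul_eq_mul] at h2
  rw [← h2]
  congr 1
  refine intervalIntegral.integral_congr fun t _ => ?_
  show 1 / Om L b1 b2 δ e (q.1 * t, q.2) = (Om L b1 b2 δ e (t * q.1, q.2))⁻¹
  rw [one_div, mul_comm]

theorem Th_tame {L A B : ℝ} {b1 b2 δ : ℝ → ℝ} (hW : Walls L A B b1 b2) (hS : Scale b1 b2 δ)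
    (w k : ℝ) {a : ℝ} (ha : 0 < a) : Tame (Win w a k) (Th L b1 b2 δ) := by
  refine (AN_Th_tame hW hS (w := max w 1) (by positivity) k ha).mono ?_
  refine Eventually.of_forall fun e => ⟨AN_win_open w a k, ?_⟩
  refine Set.prod_mono ?_ le_rfl
  have := le_max_left w 1
  exact Ioo_subset_Ioo (by linarith) this

theorem AN_det (f : ℝ × ℝ →L[ℝ] ℝ) :
    (f.prod (ContinuousLinearMap.snd ℝ ℝ ℝ)).det = f (1, 0) := by
  have h1 : (f.prod (ContinuousLinearMap.snd ℝ ℝ ℝ)).det =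
      LinearMap.det ((f.prod (ContinuousLinearMap.snd ℝ ℝ ℝ) : ℝ × ℝ →L[ℝ] ℝ × ℝ) :
        ℝ × ℝ →ₗ[ℝ] ℝ × ℝ) := rfl
  rw [h1, ← LinearMap.det_toMatrix (Module.Basis.finTwoProd ℝ), Matrix.det_fin_two]
  simp [LinearMap.toMatrix_apply, Module.Basis.finTwoProd]

theorem AN_Psi_tame {L A B : ℝ} {b1 b2 δ : ℝ → ℝ} (hW : Walls L A B b1 b2) (hS : Scale b1 b2 δ)
    {w : ℝ} (hw : 0 < w) (k : ℝ) {a : ℝ} (ha : 0 < a) : Tame (Win w a k) (Psi L b1 b2 δ) := by
  set w' : ℝ := 2 * Real.pi * (w + 1) + 1 with hw'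
  have hpi := Real.pi_pos
  have hw'0 : 0 < w' := by positivity
  have t1 := AN_Th_tame hW hS hw'0 k ha
  have t3 : Tame (Win w' a k) (fun _ q => q.2) :=
    AN_coord (AN_win_open w' a k) (fun x hx => AN_win_norm hx) (ContinuousLinearMap.snd ℝ ℝ ℝ)
  have t4 := Tame.inverse (Ψ := fun e q => (Psi L b1 b2 δ e q, q.2)) (t1.prodMk t3) ?_ ?_ ?_
  · refine (Tame.fst t4).mono ?_
    filter_upwards [AN_ev δ hS] with e h1
    refine ⟨AN_win_open w a k, ?_⟩
    rintro ⟨x, h⟩ ⟨⟨hx1, hx2⟩, hh⟩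
    have hh0 : 0 < h := ha.trans hh.1
    refine ⟨(Psi L b1 b2 δ e (x, h), h), ⟨?_, hh⟩, ?_⟩
    · have h2 := Psi_abs hW h1.1 h1.2 hh0 x
      have h3 : |x| < w := abs_lt.2 ⟨hx1, hx2⟩
      have h4 : |Psi L b1 b2 δ e (x, h)| < w' := by
        refine lt_of_le_of_lt h2 ?_
        rw [hw']
        nlinarith
      exact abs_lt.1 h4
    · show (Th L b1 b2 δ e (Psi L b1 b2 δ e (x, h), h), h) = (x, h)
      rw [Th_Psi hW h1.1 h1.2 hh0]
  · filter_upwards [AN_ev δ hS] with e h1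
    rintro ⟨s, h⟩ hx
    have hh0 : 0 < h := ha.trans hx.2.1
    show (Psi L b1 b2 δ e (Th L b1 b2 δ e (s, h), h), h) = (s, h)
    rw [Psi_Th hW h1.1 h1.2 hh0]
  · intro η hη
    have hη2 : 0 < η / 2 := by linarith
    have b1' := (Om_tame hW hS w' k ha).bound0 hη2
    have b2' := (Per_tame hW hS k ha).bound0 hη2
    filter_upwards [AN_ev δ hS, b1', b2', t1.1] with e h1 h2 h3 h4
    rintro ⟨s, h⟩ hx
    have hh0 : 0 < h := ha.trans hx.2.1
    obtain ⟨he, hd⟩ := h1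
    have hdiff : DifferentiableAt ℝ (Th L b1 b2 δ e) (s, h) :=
      ((h4.2.differentiableOn (by norm_num)).differentiableAt (h4.1.mem_nhds hx))
    have hf : fderiv ℝ (fun q : ℝ × ℝ => (Th L b1 b2 δ e q, q.2)) (s, h) =
        (fderiv ℝ (Th L b1 b2 δ e) (s, h)).prod (ContinuousLinearMap.snd ℝ ℝ ℝ) :=
      (hdiff.hasFDerivAt.prodMk hasFDerivAt_snd).fderiv
    have hdT : fderiv ℝ (Th L b1 b2 δ e) (s, h) (1, 0) =
        1 / (Om L b1 b2 δ e (s, h) * Per L b1 b2 δ e h) := by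
      have e1 : HasDerivAt (fun s : ℝ => (s, h)) ((1 : ℝ), (0 : ℝ)) s :=
        (hasDerivAt_id s).prodMk (hasDerivAt_const s h)
      have e2 := hdiff.hasFDerivAt.comp_hasDerivAt s e1
      exact e2.unique (Th_hasDerivAt hW he hd hh0 s)
    have hO := Om_pos hW he hd (q := (s, h)) hh0
    have hP := Per_pos hW he hd hh0
    have g1 := h2 (s, h) hx
    have g2 := h3 h hx.2
    rw [Real.norm_eq_abs, abs_of_pos hO] at g1
    rw [Real.norm_eq_abs, abs_of_pos hP] at g2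
    have g3 : Om L b1 b2 δ e (s, h) * Per L b1 b2 δ e h ≤ e ^ (-η) := by
      calc Om L b1 b2 δ e (s, h) * Per L b1 b2 δ e h ≤ e ^ (-(η / 2)) * e ^ (-(η / 2)) :=
            mul_le_mul g1 g2 hP.le (Real.rpow_pos_of_pos he _).le
        _ = e ^ (-η) := by
            rw [← Real.rpow_add he]
            congr 1
            ring
    show e ^ η ≤ |(fderiv ℝ (fun q : ℝ × ℝ => (Th L b1 b2 δ e q, q.2)) (s, h)).det|
    rw [hf, AN_det, hdT, abs_of_pos (by positivity)]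
    have g4 : (e ^ (-η))⁻¹ = e ^ η := by rw [Real.rpow_neg he.le, inv_inv]
    rw [← g4, one_div]
    exact inv_anti₀ (by positivity) g3
  · intro η hη
    filter_upwards [AN_big (|w'| + |a| + |k|) hη] with e he x hx
    exact (AN_win_norm hx).trans he

theorem Psi_tame {L A B : ℝ} {b1 b2 δ : ℝ → ℝ} (hW : Walls L A B b1 b2) (hS : Scale b1 b2 δ)
    (w k : ℝ) {a : ℝ} (ha : 0 < a) : Tame (Win w a k) (Psi L b1 b2 δ) := by
  refine (AN_Psi_tame hW hS (w := max w 1) (by positivity) k ha).mono ?_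
  refine Eventually.of_forall fun e => ⟨AN_win_open w a k, ?_⟩
  refine Set.prod_mono ?_ le_rfl
  have := le_max_left w 1
  exact Ioo_subset_Ioo (by linarith) this

end BB
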