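import Mathlib

open Filter Topology Set
open scoped ContDiff

namespace BB

theorem AP1_sqrt5 : (2.236 : ℝ) < √5 ∧ √5 < 2.237 := by
  constructor
  · exact Real.lt_sqrt_of_sq_lt (by norm_num)
  · rw [Real.sqrt_lt' (by norm_num)]; norm_num

/-- the form `a² + a m - m²` has no zero -/
theorem AP1_form (a m : ℤ) (hm : m ≠ 0) : a ^ 2 + a * m - m ^ 2 ≠ 0 := by
  intro h
  have h1 : (2 * a + m) ^ 2 = 5 * m ^ 2 := by linear_combination 4 * h
  have h2 : Irrational (√5) := by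
    have := Nat.Prime.irrational_sqrt (p := 5) (by norm_num)
    exact_mod_cast this
  apply h2
  have hm' : (m : ℝ) ≠ 0 := by exact_mod_cast hm
  have h3 : ((2 * a + m : ℤ) : ℝ) ^ 2 = 5 * (m : ℝ) ^ 2 := by exact_mod_cast h1
  refine ⟨|((2 * a + m : ℤ) : ℚ) / (m : ℚ)|, ?_⟩
  symm
  rw [Real.sqrt_eq_iff_mul_self_eq (by norm_num) (by positivity)]
  push_cast
  rw [← abs_mul, abs_mul_self]
  field_simp
  push_cast at h3
  linarith

/-- rotation numbers with golden tail are Diophantine -/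
theorem golden_dio (n : ℕ) (hn : 1 ≤ n) (k j : ℤ) (hk : k ≠ 0) :
    (1 / ((n : ℝ) + (Real.sqrt 5 - 1) / 2)) / (4 * |(k : ℝ)|) ≤
      |(k : ℝ) * (1 / ((n : ℝ) + (Real.sqrt 5 - 1) / 2)) - j| := by
  obtain ⟨h5a, h5b⟩ := AP1_sqrt5
  set φ : ℝ := (Real.sqrt 5 - 1) / 2 with hφ
  have hφ1 : 0.618 < φ := by rw [hφ]; linarith
  have hφ2 : φ < 0.6185 := by rw [hφ]; linarith
  have hn' : (1 : ℝ) ≤ n := by exact_mod_cast hn
  have hb : 0 < (n : ℝ) + φ := by linarith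
  have hk1 : (1 : ℝ) ≤ |(k : ℝ)| := by exact_mod_cast Int.one_le_abs hk
  have hkp : 0 < |(k : ℝ)| := by linarith
  -- the linear form
  set a : ℤ := k - j * n with ha
  have e1 : (k : ℝ) * (1 / ((n : ℝ) + φ)) - j = (1 / ((n : ℝ) + φ)) * ((a : ℝ) - j * φ) := by
    rw [ha]; push_cast; field_simp; ring
  rw [e1, abs_mul, abs_of_pos (one_div_pos.2 hb), div_eq_mul_one_div (1 / ((n : ℝ) + φ))]
  apply mul_le_mul_of_nonneg_left _ (one_div_pos.2 hb).le
  by_cases hj : j = 0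
  · have : a = k := by rw [ha, hj]; ring
    rw [this, hj, Int.cast_zero, zero_mul, sub_zero, div_le_iff₀ (by positivity)]
    nlinarith
  · have hj1 : (1 : ℝ) ≤ |(j : ℝ)| := by exact_mod_cast Int.one_le_abs hj
    by_cases hbig : 1 / 4 ≤ |(a : ℝ) - j * φ|
    · refine le_trans ?_ hbig
      rw [div_le_div_iff₀ (by positivity) (by norm_num)]
      linarith
    · push Not at hbig
      -- the conjugate
      have hsq : √5 * √5 = 5 := Real.mul_self_sqrt (by norm_num)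
      have hprod : ((a : ℝ) - j * φ) * ((a : ℝ) + j * (φ + 1)) =
          ((a ^ 2 + a * j - j ^ 2 : ℤ) : ℝ) := by
        have : φ * (φ + 1) = 1 := by rw [hφ]; nlinarith
        push_cast
        linear_combination (-(j : ℝ) ^ 2) * this
      have h1 : (1 : ℝ) ≤ |(a : ℝ) - j * φ| * |(a : ℝ) + j * (φ + 1)| := by
        rw [← abs_mul, hprod]
        exact_mod_cast Int.one_le_abs (AP1_form a j hj)
      have h2 : |(a : ℝ) + j * (φ + 1)| ≤ 1 / 4 + |(j : ℝ)| * 2.24 := by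
        have e2 : (a : ℝ) + j * (φ + 1) = ((a : ℝ) - j * φ) + j * (2 * φ + 1) := by ring
        rw [e2]
        refine (abs_add_le _ _).trans (add_le_add hbig.le ?_)
        rw [abs_mul, abs_of_pos (by linarith : 0 < 2 * φ + 1)]
        apply mul_le_mul_of_nonneg_left _ (abs_nonneg _)
        linarith
      have h3 : |(j : ℝ)| * 1.618 - 1 / 4 ≤ |(k : ℝ)| := by
        have e3 : (k : ℝ) = j * (n + φ) + ((a : ℝ) - j * φ) := by rw [ha]; push_cast; ring
        have h4 : |(j : ℝ) * (n + φ)| ≤ |(k : ℝ)| + |(a : ℝ) - j * φ| := by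
          have e4 : (j : ℝ) * (n + φ) = k - ((a : ℝ) - j * φ) := by rw [e3]; ring
          rw [e4]
          exact abs_sub _ _
        rw [abs_mul, abs_of_pos hb] at h4
        have h5 : |(j : ℝ)| * 1.618 ≤ |(j : ℝ)| * (n + φ) :=
          mul_le_mul_of_nonneg_left (by linarith) (abs_nonneg _)
        linarith
      rw [div_le_iff₀ (by positivity)]
      have h6 := abs_nonneg ((a : ℝ) - j * φ)
      have h7 : 1 / 4 + |(j : ℝ)| * 2.24 ≤ 4 * |(k : ℝ)| := by linarith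
      calc (1 : ℝ) ≤ |(a : ℝ) - j * φ| * |(a : ℝ) + j * (φ + 1)| := h1
        _ ≤ |(a : ℝ) - j * φ| * (4 * |(k : ℝ)|) :=
          mul_le_mul_of_nonneg_left (h2.trans h7) h6

/-- between two nearby small numbers there is one with golden tail -/
theorem golden_dense {x y : ℝ} (hx : 0 < x) (hxy : x + 2 * y ^ 2 ≤ y) (hy : y ≤ 1 / 2) :
    ∃ n : ℕ, 1 ≤ n ∧ 1 / ((n : ℝ) + (Real.sqrt 5 - 1) / 2) ∈ Icc x y := by
  obtain ⟨h5a, h5b⟩ := AP1_sqrt5
  set φ : ℝ := (Real.sqrt 5 - 1) / 2 with hφ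
  have hφ1 : 0.618 < φ := by rw [hφ]; linarith
  have hφ2 : φ < 0.6185 := by rw [hφ]; linarith
  have hy0 : 0 < y := by nlinarith [sq_nonneg y]
  have hxy' : x ≤ y := by nlinarith [sq_nonneg y]
  have h1 : 2 ≤ 1 / y := by rw [le_div_iff₀ hy0]; linarith
  have h2 : 1 / y + 2 ≤ 1 / x := by
    rw [div_add' _ _ _ hy0.ne', div_le_div_iff₀ hy0 hx]
    nlinarith
  refine ⟨⌈1 / y - φ⌉₊, ?_, ?_⟩
  · rw [Nat.one_le_ceil_iff]
    linarith
  · have h3 : 1 / y - φ ≤ (⌈1 / y - φ⌉₊ : ℝ) := Nat.le_ceil _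
    have h4 : (⌈1 / y - φ⌉₊ : ℝ) < 1 / y - φ + 1 := Nat.ceil_lt_add_one (by linarith)
    have h5 : 0 < (⌈1 / y - φ⌉₊ : ℝ) + φ := by linarith
    constructor
    · rw [le_div_iff₀ h5]
      have h6 : (⌈1 / y - φ⌉₊ : ℝ) + φ ≤ 1 / x := by linarith
      calc x * ((⌈1 / y - φ⌉₊ : ℝ) + φ) ≤ x * (1 / x) := mul_le_mul_of_nonneg_left h6 hx.le
        _ = 1 := mul_one_div_cancel hx.ne'
    · rw [div_le_iff₀ h5]
      have h6 : 1 / y ≤ (⌈1 / y - φ⌉₊ : ℝ) + φ := by linarith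
      calc (1 : ℝ) = y * (1 / y) := (mul_one_div_cancel hy0.ne').symm
        _ ≤ y * ((⌈1 / y - φ⌉₊ : ℝ) + φ) := mul_le_mul_of_nonneg_left h6 hy0.le

end BB
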