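import Pool.Agent.Lib_helper6.BB.W.PE2

open Filter Topology Set MeasureTheory
open scoped ContDiff

namespace BB

/-- the radius of an energy curve is continuous in the direction -/
theorem PE3_Rad_continuous {L A B : ℝ} {b1 b2 δ : ℝ → ℝ} (hW : Walls L A B b1 b2) {e : ℝ}
    (he : 0 < e) (hd : 0 < δ e) {h : ℝ} (hh : 0 < h) :
    Continuous (fun s : ℝ => Rad L b1 b2 δ e (s, h)) := by
  rw [continuous_iff_continuousAt]
  intro s0
  have hHc : Continuous (HH L b1 b2 δ e) := (HH_contDiff (δ := δ) hW e).continuous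
  have hc : ∀ R : ℝ, Continuous (fun s : ℝ => HH L b1 b2 δ e (pol (s, R))) := by
    intro R
    refine hHc.comp ?_
    unfold pol
    fun_prop
  refine tendsto_order.2 ⟨fun a ha => ?_, fun b hb => ?_⟩
  · rcases lt_or_ge a 0 with ha0 | ha0
    · filter_upwards with s
      exact ha0.trans (Rad_spec hW he hd (q := (s, h)) hh).1
    · have h1 : HH L b1 b2 δ e (pol (s0, a)) < h :=
        (Rad_lt_iff hW he hd (q := (s0, h)) hh ha0).2 ha
      have h2 : ∀ᶠ s in 𝓝 s0, HH L b1 b2 δ e (pol (s, a)) < h :=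
        (hc a).continuousAt.eventually_lt continuousAt_const h1
      filter_upwards [h2] with s hs
      exact (Rad_lt_iff hW he hd (q := (s, h)) hh ha0).1 hs
  · have hR0 := (Rad_spec hW he hd (q := (s0, h)) hh).1
    have hb' : Rad L b1 b2 δ e (s0, h) < b := hb
    set c : ℝ := (Rad L b1 b2 δ e (s0, h) + b) / 2 with hcdef
    have hc1 : Rad L b1 b2 δ e (s0, h) < c := by rw [hcdef]; linarith
    have hc2 : c < b := by rw [hcdef]; linarith
    have hc0 : 0 < c := hR0.trans hc1
    have h1 : ¬ HH L b1 b2 δ e (pol (s0, c)) < h := by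
      intro hlt
      exact absurd ((Rad_lt_iff hW he hd (q := (s0, h)) hh hc0.le).1 hlt) (not_lt.2 hc1.le)
    have h2 : h < HH L b1 b2 δ e (pol (s0, c)) := by
      rcases lt_or_eq_of_le (not_lt.1 h1) with h3 | h3
      · exact h3
      · exact absurd (Rad_unique hW he hd (q := (s0, h)) hh hc0 h3.symm) hc1.ne'
    have h3 : ∀ᶠ s in 𝓝 s0, h < HH L b1 b2 δ e (pol (s, c)) :=
      continuousAt_const.eventually_lt (hc c).continuousAt h2
    filter_upwards [h3] with s hs
    have h4 : ¬ c < Rad L b1 b2 δ e (s, h) := by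
      intro hlt
      exact absurd ((Rad_lt_iff hW he hd (q := (s, h)) hh hc0.le).2 hlt) (not_lt.2 hs.le)
    exact (not_lt.1 h4).trans_lt hc2

/-- the radius is monotone in the energy -/
theorem PE3_Rad_mono {L A B : ℝ} {b1 b2 δ : ℝ → ℝ} (hW : Walls L A B b1 b2) {e : ℝ}
    (he : 0 < e) (hd : 0 < δ e) {h h' : ℝ} (hh : 0 < h) (hle : h ≤ h') (s : ℝ) :
    Rad L b1 b2 δ e (s, h) ≤ Rad L b1 b2 δ e (s, h') := by
  refine le_of_forall_lt fun c hc => ?_
  have hR' := (Rad_spec hW he hd (q := (s, h')) (hh.trans_le hle)).1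
  rcases lt_or_ge c 0 with h0 | h0
  · exact h0.trans hR'
  · have h1 : HH L b1 b2 δ e (pol (s, c)) < h :=
      (Rad_lt_iff hW he hd (q := (s, h)) hh h0).2 hc
    exact (Rad_lt_iff hW he hd (q := (s, h')) (hh.trans_le hle) h0).1 (h1.trans_le hle)

theorem PE3_Vir_continuous {L A B : ℝ} {b1 b2 δ : ℝ → ℝ} (hW : Walls L A B b1 b2) (e : ℝ) :
    Continuous (Vir L b1 b2 δ e) := by
  have h1 : Continuous (ww δ b1 e) := (ww_contDiff (δ := δ) hW.smooth1 e).continuous
  have h2 : Continuous (ww δ b2 e) := (ww_contDiff (δ := δ) hW.smooth2 e).continuous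
  unfold Vir
  fun_prop

/-- the derivative of the area is the period -/
theorem areaS_hasDerivAt {L A B : ℝ} {b1 b2 δ : ℝ → ℝ} (hW : Walls L A B b1 b2) {e : ℝ}
    (he : 0 < e) (hd : 0 < δ e) {h : ℝ} (hh : 0 < h) :
    HasDerivAt (areaS L b1 b2 δ e) (Per L b1 b2 δ e h) h := by
  have hpos : ∀ s x, 0 < x → 0 < Rad L b1 b2 δ e (s, x) := fun s x hx =>
    (Rad_spec hW he hd (q := (s, x)) hx).1
  have hKc : ∀ x, 0 < x → Continuous (fun s : ℝ => Kp L b1 b2 δ e (s, x)) := by
    intro x hx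
    have := PE3_Rad_continuous (δ := δ) hW he hd hx
    unfold Kp pol
    simp only
    fun_prop
  have hVpos : ∀ s x, 0 < x → x ≤ Vir L b1 b2 δ e (Kp L b1 b2 δ e (s, x)) := by
    intro s x hx
    have h1 := Vir_ge (δ := δ) hW he (Kp L b1 b2 δ e (s, x))
    rw [HH_Kp hW he hd (q := (s, x)) hx] at h1
    exact h1
  have hVc : ∀ x, 0 < x → Continuous (fun s : ℝ => Vir L b1 b2 δ e (Kp L b1 b2 δ e (s, x))) :=
    fun x hx => (PE3_Vir_continuous hW e).comp (hKc x hx)
  set F : ℝ → ℝ → ℝ := fun x s => 1 / 2 * Rad L b1 b2 δ e (s, x) ^ 2 with hF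
  set F' : ℝ → ℝ → ℝ := fun x s =>
    Rad L b1 b2 δ e (s, x) ^ 2 / Vir L b1 b2 δ e (Kp L b1 b2 δ e (s, x)) with hF'
  have hFc : ∀ x, 0 < x → Continuous (F x) := by
    intro x hx
    have := PE3_Rad_continuous (δ := δ) hW he hd hx
    rw [hF]
    simp only
    fun_prop
  have hFc' : ∀ x, 0 < x → Continuous (F' x) := by
    intro x hx
    rw [hF']
    simp only
    exact ((PE3_Rad_continuous (δ := δ) hW he hd hx).pow 2).div (hVc x hx)
      (fun s => (hx.trans_le (hVpos s x hx)).ne')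
  have hbc : Continuous (fun s : ℝ => Rad L b1 b2 δ e (s, 2 * h) ^ 2 / (h / 2)) :=
    ((PE3_Rad_continuous (δ := δ) hW he hd (by linarith : (0:ℝ) < 2 * h)).pow 2).div_const _
  have key := intervalIntegral.hasDerivAt_integral_of_dominated_loc_of_deriv_le
    (F := F) (F' := F') (x₀ := h) (s := Ioo (h / 2) (2 * h)) (μ := volume) (a := 0)
    (b := 2 * Real.pi) (bound := fun s => Rad L b1 b2 δ e (s, 2 * h) ^ 2 / (h / 2))
    (Ioo_mem_nhds (by linarith) (by linarith))
    (by
      filter_upwards [lt_mem_nhds hh] with x hx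
      exact (hFc x hx).aestronglyMeasurable)
    ((hFc h hh).intervalIntegrable _ _)
    (hFc' h hh).aestronglyMeasurable
    (by
      refine Eventually.of_forall fun s _ x hx => ?_
      have hx0 : 0 < x := lt_trans (by linarith) hx.1
      have h1 := hVpos s x hx0
      have h2 : 0 < Vir L b1 b2 δ e (Kp L b1 b2 δ e (s, x)) := hx0.trans_le h1
      rw [hF']
      simp only
      rw [Real.norm_eq_abs, abs_of_nonneg (by positivity)]
      have h3 := PE3_Rad_mono (δ := δ) hW he hd hx0 hx.2.le s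
      have h4 := (hpos s x hx0).le
      have h5 : Rad L b1 b2 δ e (s, x) ^ 2 ≤ Rad L b1 b2 δ e (s, 2 * h) ^ 2 :=
        pow_le_pow_left₀ h4 h3 2
      exact div_le_div₀ (by positivity) h5 (by linarith) (by linarith [hx.1]))
    (hbc.intervalIntegrable _ _)
    (by
      refine Eventually.of_forall fun s _ x hx => ?_
      have hx0 : 0 < x := lt_trans (by linarith) hx.1
      have h1 := Rad_hasDerivAt hW he hd (q := (s, x)) hx0
      have h2 := (h1.pow 2).const_mul (1 / 2 : ℝ)
      have h3 : HasDerivAt (fun x => F x s) (1 / 2 * (((2 : ℕ) : ℝ) *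
          Rad L b1 b2 δ e (s, x) ^ (2 - 1) * (Rad L b1 b2 δ e (s, x) /
            Vir L b1 b2 δ e (Kp L b1 b2 δ e (s, x))))) x := h2
      convert! h3 using 1
      rw [hF']
      simp only
      push_cast
      ring)
  have hres := key.2
  have hPer : Per L b1 b2 δ e h = ∫ s in (0 : ℝ)..(2 * Real.pi), F' h s := by
    unfold Per Om
    refine intervalIntegral.integral_congr fun s _ => ?_
    rw [hF']
    simp only
    rw [one_div_div]
  rw [hPer]
  refine hres.congr_of_eventuallyEq ?_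
  filter_upwards [lt_mem_nhds hh] with x hx
  rw [areaS_eq hW he hd hx, hF]
  simp only
  rw [intervalIntegral.integral_const_mul]

end BB
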