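import Pool.Agent.Lib_helper6.BB.W.TH

open Filter Topology Set
open scoped ContDiff

namespace BB

variable {V W X : Type} [NormedAddCommGroup V] [NormedSpace ℝ V]
  [NormedAddCommGroup W] [NormedSpace ℝ W] [NormedAddCommGroup X] [NormedSpace ℝ X]

/-- a positive power of `e` is eventually small -/
theorem TI_small {κ c : ℝ} (hκ : 0 < κ) (hc : 0 < c) : ∀ᶠ e in 𝓝[>] (0 : ℝ), e ^ κ < c := by
  have h1 : Tendsto (fun e : ℝ => e ^ κ) (𝓝[>] (0 : ℝ)) (𝓝 0) := by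
    have h2 : ContinuousAt (fun e : ℝ => e ^ κ) 0 :=
      Real.continuousAt_rpow_const 0 κ (Or.inr hκ.le)
    have h3 := h2.tendsto
    rw [Real.zero_rpow hκ.ne'] at h3
    exact h3.mono_left nhdsWithin_le_nhds
  exact h1.eventually (gt_mem_nhds hc)

theorem TI_pos : ∀ᶠ e in 𝓝[>] (0 : ℝ), 0 < e := eventually_nhdsWithin_of_forall fun _ h => h

/-- the points `z + m w` stay in the larger domain -/
theorem InsMap.maps {m : ℝ → ℝ} (hm : Fast m) {Ω : ℝ → Set V} {Ω' : ℝ → Set W}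
    {z w : ℝ → V → W} (hw : Tame Ω w) (hI : InsMap z Ω Ω') :
    ∀ᶠ e in 𝓝[>] (0 : ℝ), ∀ x ∈ Ω e, ∀ t ∈ Icc (-2 : ℝ) 2, z e x + (t * m e) • w e x ∈ Ω' e := by
  obtain ⟨κ, hκ, hm⟩ := hm
  filter_upwards [hm, hw.bound0 (η := κ / 4) (by positivity), hI (κ / 2) (by positivity),
    TI_small (κ := κ / 4) (c := 1 / 2) (by positivity) (by norm_num), TI_pos]
    with e h1 h2 h3 h4 he x hx t ht
  apply h3 x hx
  rw [Metric.mem_ball, dist_eq_norm, add_sub_cancel_left, norm_smul, Real.norm_eq_abs, abs_mul]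
  have ht2 : |t| ≤ 2 := abs_le.2 ⟨ht.1, ht.2⟩
  have h5 := h2 x hx
  have h6 : |t| * |m e| * ‖w e x‖ ≤ 2 * e ^ κ * e ^ (-(κ / 4)) := by
    have : |t| * |m e| ≤ 2 * e ^ κ := mul_le_mul ht2 h1 (abs_nonneg _) (by norm_num)
    exact mul_le_mul this h5 (norm_nonneg _) (by positivity)
  have h7 : 2 * e ^ κ * e ^ (-(κ / 4)) = 2 * e ^ (κ / 4) * e ^ (κ / 2) := by
    rw [mul_assoc, mul_assoc, ← Real.rpow_add he, ← Real.rpow_add he]
    congr 2
    ring
  have h8 : 2 * e ^ (κ / 4) * e ^ (κ / 2) < 1 * e ^ (κ / 2) := by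
    have : 0 < e ^ (κ / 2) := Real.rpow_pos_of_pos he _
    exact mul_lt_mul_of_pos_right (by linarith) this
  linarith

/-- composition with a linear map of norm at most `1` on the right -/
theorem TI_comp_clm {Ω : ℝ → Set V} {f : ℝ → V → X} (hf : Tame Ω f) (L : W →L[ℝ] V)
    (hL : ‖L‖ ≤ 1) : Tame (fun e => L ⁻¹' (Ω e)) (fun e p => f e (L p)) := by
  refine ⟨?_, ?_⟩
  · filter_upwards [hf.1] with e he
    exact ⟨he.1.preimage L.continuous, he.2.comp L.contDiff.contDiffOn (fun _ h => h)⟩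
  · intro n η hη
    filter_upwards [hf.1, hf.2 n η hη] with e he h1 p hp
    have ho : IsOpen (L ⁻¹' (Ω e)) := he.1.preimage L.continuous
    have h2 := L.iteratedFDerivWithin_comp_right he.2 he.1.uniqueDiffOn ho.uniqueDiffOn
      (x := p) hp (i := n) (by exact_mod_cast le_top)
    rw [iteratedFDerivWithin_of_isOpen n ho hp, iteratedFDerivWithin_of_isOpen n he.1 hp] at h2
    have h3 : (fun p => f e (L p)) = f e ∘ L := rfl
    rw [h3, h2]
    refine (ContinuousMultilinearMap.norm_compContinuousLinearMap_le _ _).trans ?_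
    have h4 : ∏ _i : Fin n, ‖L‖ ≤ 1 := by
      rw [Finset.prod_const]
      exact pow_le_one₀ (norm_nonneg _) hL
    calc ‖iteratedFDeriv ℝ n (f e) (L p)‖ * ∏ _i : Fin n, ‖L‖ ≤
          ‖iteratedFDeriv ℝ n (f e) (L p)‖ * 1 :=
            mul_le_mul_of_nonneg_left h4 (norm_nonneg _)
      _ = ‖iteratedFDeriv ℝ n (f e) (L p)‖ := mul_one _
      _ ≤ e ^ (-η) := h1 _ hp

/-- a tame family as a family of two variables -/
theorem TI_fst {Ω : ℝ → Set V} {f : ℝ → V → X} (hf : Tame Ω f) :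
    Tame (fun e => Ω e ×ˢ Ioo (-1 : ℝ) 2) (fun e p => f e p.1) := by
  refine (TI_comp_clm hf (ContinuousLinearMap.fst ℝ V ℝ)
    (ContinuousLinearMap.norm_fst_le ℝ V ℝ)).mono ?_
  filter_upwards [hf.1] with e he
  exact ⟨he.1.prod isOpen_Ioo, fun p hp => hp.1⟩

theorem TI_two {η : ℝ} (hη : 0 < η) : ∀ᶠ e in 𝓝[>] (0 : ℝ), (2 : ℝ) ≤ e ^ (-η) := by
  filter_upwards [TI_small (κ := η) (c := 1 / 2) hη (by norm_num), TI_pos] with e h1 he
  rw [Real.rpow_neg he.le]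
  have h2 : 0 < e ^ η := Real.rpow_pos_of_pos he _
  rw [le_inv_comm₀ (by norm_num) h2]
  linarith

/-- the second variable -/
theorem TI_snd {Ω : ℝ → Set V} (hΩ : ∀ᶠ e in 𝓝[>] (0 : ℝ), IsOpen (Ω e)) :
    Tame (fun e => Ω e ×ˢ Ioo (-1 : ℝ) 2) (fun _ p => p.2) := by
  have h1 : Tame (fun _ => Ioo (-1 : ℝ) 2) (fun (_ : ℝ) (t : ℝ) => t) := by
    have h2 := Tame.clm (Ω := fun _ => Ioo (-1 : ℝ) 2) (Eventually.of_forall fun _ => isOpen_Ioo)
      (ContinuousLinearMap.id ℝ ℝ) (by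
        intro η hη
        filter_upwards [TI_two hη] with e he t ht
        rw [Real.norm_eq_abs]
        exact (abs_le.2 ⟨by linarith [ht.1], by linarith [ht.2]⟩ : |t| ≤ 2).trans he)
    exact h2
  refine (TI_comp_clm h1 (ContinuousLinearMap.snd ℝ V ℝ)
    (ContinuousLinearMap.norm_snd_le ℝ V ℝ)).mono ?_
  filter_upwards [hΩ] with e he
  exact ⟨he.prod isOpen_Ioo, fun p hp => hp.2⟩

/-- the point `z + t m w` as a tame family of `(x, t)` -/
theorem TI_point {m : ℝ → ℝ} (hm : Fast m) {Ω : ℝ → Set V} {z w : ℝ → V → W} (hz : Tame Ω z)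
    (hw : Tame Ω w) : Tame (fun e => Ω e ×ˢ Ioo (-1 : ℝ) 2)
      (fun e p => z e p.1 + (p.2 * m e) • w e p.1) := by
  have h1 : Tame (fun e => Ω e ×ˢ Ioo (-1 : ℝ) 2) (fun e p => (m e) * p.2) :=
    Tame.slow_mul hm.slow (TI_snd hw.isOpen)
  have h2 := (TI_fst hz).add (h1.smul (TI_fst hw))
  refine h2.congr (Eventually.of_forall fun e p _ => ?_)
  rw [mul_comm]

theorem TI_mapsTo {m : ℝ → ℝ} (hm : Fast m) {Ω : ℝ → Set V} {Ω' : ℝ → Set W}
    {z w : ℝ → V → W} (hw : Tame Ω w) (hI : InsMap z Ω Ω') :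
    ∀ᶠ e in 𝓝[>] (0 : ℝ), MapsTo (fun p : V × ℝ => z e p.1 + (p.2 * m e) • w e p.1)
      (Ω e ×ˢ Ioo (-1 : ℝ) 2) (Ω' e) := by
  filter_upwards [InsMap.maps hm hw hI] with e h p hp
  exact h p.1 hp.1 p.2 ⟨by linarith [hp.2.1], by linarith [hp.2.2]⟩

theorem TI_int {Ω : ℝ → Set V} {G : ℝ → V × ℝ → X}
    (hG : Tame (fun e => Ω e ×ˢ Ioo (-1 : ℝ) 2) G) :
    ∀ᶠ e in 𝓝[>] (0 : ℝ), ∀ x ∈ Ω e,
      IntervalIntegrable (fun t => G e (x, t)) MeasureTheory.volume 0 1 := by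
  filter_upwards [hG.1] with e h x hx
  apply ContinuousOn.intervalIntegrable
  rw [uIcc_of_le zero_le_one]
  refine h.2.continuousOn.comp (Continuous.continuousOn (by fun_prop)) ?_
  intro t ht
  exact ⟨hx, ⟨by linarith [ht.1], by linarith [ht.2]⟩⟩

theorem TI_line (a b : W) (m t : ℝ) :
    HasDerivAt (fun t : ℝ => a + (t * m) • b) (m • b) t := by
  have h := (((hasDerivAt_id t).mul_const m).smul_const b).const_add a
  simpa using h

/-- first order Taylor formula: `g (z + m w) = g z + m * tame` -/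
theorem Tame.taylor1 [CompleteSpace X] {m : ℝ → ℝ} (hm : Fast m) {Ω : ℝ → Set V} {Ω' : ℝ → Set W}
    {g : ℝ → W → X} {z w : ℝ → V → W} (hg : Tame Ω' g) (hz : Tame Ω z) (hw : Tame Ω w)
    (hI : InsMap z Ω Ω') :
    ∃ k : ℝ → V → X, Tame Ω k ∧ ∀ᶠ e in 𝓝[>] (0 : ℝ), ∀ x ∈ Ω e,
      g e (z e x + m e • w e x) = g e (z e x) + m e • k e x := by
  have hG : Tame (fun e => Ω e ×ˢ Ioo (-1 : ℝ) 2)
      (fun e p => fderiv ℝ (g e) (z e p.1 + (p.2 * m e) • w e p.1) (w e p.1)) :=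
    (hg.fd.comp (TI_point hm hz hw) (TI_mapsTo hm hw hI)).clm_apply (TI_fst hw)
  refine ⟨_, hG.integral, ?_⟩
  filter_upwards [hg.1, InsMap.maps hm hw hI, TI_int hG] with e h1 h2 h3 x hx
  have hder : ∀ t ∈ uIcc (0 : ℝ) 1, HasDerivAt (fun t => g e (z e x + (t * m e) • w e x))
      (m e • fderiv ℝ (g e) (z e x + (t * m e) • w e x) (w e x)) t := by
    intro t ht
    rw [uIcc_of_le zero_le_one] at ht
    have hp := h2 x hx t ⟨by linarith [ht.1], by linarith [ht.2]⟩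
    have hd : HasFDerivAt (g e) (fderiv ℝ (g e) (z e x + (t * m e) • w e x))
        (z e x + (t * m e) • w e x) :=
      ((h1.2.contDiffAt (h1.1.mem_nhds hp)).differentiableAt (by simp)).hasFDerivAt
    have h4 := hd.comp_hasDerivAt t (TI_line (z e x) (w e x) (m e) t)
    rw [map_smul] at h4
    exact h4
  have h4 := intervalIntegral.integral_eq_sub_of_hasDerivAt hder ((h3 x hx).smul (m e))
  rw [intervalIntegral.integral_smul] at h4
  simp only [one_mul, zero_mul, zero_smul, add_zero] at h4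
  rw [h4]
  abel

theorem TI_der2 {g : W → X} {D : W → W →L[ℝ] X} {D2 : W →L[ℝ] W →L[ℝ] X} {a b : W} {m t : ℝ}
    (h1 : HasFDerivAt g (D (a + (t * m) • b)) (a + (t * m) • b))
    (h2 : HasFDerivAt D D2 (a + (t * m) • b)) :
    HasDerivAt (fun t => g (a + (t * m) • b) + (1 - t) • (m • D (a + (t * m) • b) b))
      (m ^ 2 • ((1 - t) • D2 b b)) t := by
  have h4 : HasDerivAt (fun t => g (a + (t * m) • b)) (D (a + (t * m) • b) (m • b)) t :=
    h1.comp_hasDerivAt t (TI_line a b m t)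
  have h5 : HasDerivAt (fun t => D (a + (t * m) • b)) (D2 (m • b)) t :=
    h2.comp_hasDerivAt t (TI_line a b m t)
  have h6 : HasDerivAt (fun t => D (a + (t * m) • b) b) (D2 (m • b) b) t := by
    have h7 := h5.clm_apply (hasDerivAt_const t b)
    simpa using h7
  have h8 : HasDerivAt (fun t : ℝ => 1 - t) (-1) t := (hasDerivAt_id t).const_sub 1
  have h9 := h4.add (h8.smul (h6.const_smul m))
  refine h9.congr_deriv ?_
  have e1 : D2 (m • b) b = m • D2 b b := by rw [map_smul]; rfl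
  rw [map_smul, Pi.smul_apply, e1]
  module

/-- second order Taylor formula: `g (z + m w) = g z + m Dg(z) w + m ^ 2 * tame` -/
theorem Tame.taylor2 [CompleteSpace X] {m : ℝ → ℝ} (hm : Fast m) {Ω : ℝ → Set V} {Ω' : ℝ → Set W}
    {g : ℝ → W → X} {z w : ℝ → V → W} (hg : Tame Ω' g) (hz : Tame Ω z) (hw : Tame Ω w)
    (hI : InsMap z Ω Ω') :
    ∃ k : ℝ → V → X, Tame Ω k ∧ ∀ᶠ e in 𝓝[>] (0 : ℝ), ∀ x ∈ Ω e,
      g e (z e x + m e • w e x) =
        g e (z e x) + m e • (fderiv ℝ (g e) (z e x) (w e x)) + (m e) ^ 2 • k e x := by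
  have hΩ := hw.isOpen
  have h0 : Tame (fun e => Ω e ×ˢ Ioo (-1 : ℝ) 2) (fun (_ : ℝ) (p : V × ℝ) => 1 - p.2) :=
    (Tame.constFix (hΩ.mono fun e he => he.prod isOpen_Ioo) (1 : ℝ)).sub (TI_snd hΩ)
  have hG : Tame (fun e => Ω e ×ˢ Ioo (-1 : ℝ) 2)
      (fun e p => (1 - p.2) • fderiv ℝ (fun y => fderiv ℝ (g e) y)
        (z e p.1 + (p.2 * m e) • w e p.1) (w e p.1) (w e p.1)) :=
    h0.smul (((hg.fd.fd.comp (TI_point hm hz hw) (TI_mapsTo hm hw hI)).clm_apply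
      (TI_fst hw)).clm_apply (TI_fst hw))
  refine ⟨_, hG.integral, ?_⟩
  filter_upwards [hg.1, hg.fd.1, InsMap.maps hm hw hI, TI_int hG] with e h1 h1' h2 h3 x hx
  have hder : ∀ t ∈ uIcc (0 : ℝ) 1, HasDerivAt (fun t => g e (z e x + (t * m e) • w e x) +
      (1 - t) • (m e • fderiv ℝ (g e) (z e x + (t * m e) • w e x) (w e x)))
      ((m e) ^ 2 • ((1 - t) • fderiv ℝ (fun y => fderiv ℝ (g e) y)
        (z e x + (t * m e) • w e x) (w e x) (w e x))) t := by
    intro t ht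
    rw [uIcc_of_le zero_le_one] at ht
    have hp := h2 x hx t ⟨by linarith [ht.1], by linarith [ht.2]⟩
    have hd : HasFDerivAt (g e) (fderiv ℝ (g e) (z e x + (t * m e) • w e x))
        (z e x + (t * m e) • w e x) :=
      ((h1.2.contDiffAt (h1.1.mem_nhds hp)).differentiableAt (by simp)).hasFDerivAt
    have hd2 : HasFDerivAt (fun y => fderiv ℝ (g e) y)
        (fderiv ℝ (fun y => fderiv ℝ (g e) y) (z e x + (t * m e) • w e x))
        (z e x + (t * m e) • w e x) :=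
      ((h1'.2.contDiffAt (h1'.1.mem_nhds hp)).differentiableAt (by simp)).hasFDerivAt
    exact TI_der2 hd hd2
  have h4 := intervalIntegral.integral_eq_sub_of_hasDerivAt hder ((h3 x hx).smul ((m e) ^ 2))
  rw [intervalIntegral.integral_smul] at h4
  simp only [one_mul, zero_mul, zero_smul, add_zero, sub_self, sub_zero, one_smul] at h4
  rw [h4]
  abel

end BB
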