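import Pool.Agent.Lib_helper6.BB.Tame
import Pool.Agent.Lib_helper6.BB.W.TI

/-!
# BB, block TJ: expansions `f = f0 + m f1 + O(m ^ 2)`
-/

open Filter Topology Set
open scoped ContDiff

namespace BB

variable {V W X : Type} [NormedAddCommGroup V] [NormedSpace ℝ V]
  [NormedAddCommGroup W] [NormedSpace ℝ W] [NormedAddCommGroup X] [NormedSpace ℝ X]

theorem TJ_pos : ∀ᶠ e in 𝓝[>] (0 : ℝ), 0 < e := self_mem_nhdsWithin

/-- the centre of the balls lies in the larger domain -/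
theorem TJ_insmap_maps {Ω : ℝ → Set V} {Ω' : ℝ → Set W} {z : ℝ → V → W} (hI : InsMap z Ω Ω') :
    ∀ᶠ e in 𝓝[>] (0 : ℝ), MapsTo (z e) (Ω e) (Ω' e) := by
  filter_upwards [hI 1 one_pos, TJ_pos] with e he hpos x hx
  exact he x hx (Metric.mem_ball_self (Real.rpow_pos_of_pos hpos 1))

/-- the points of the expansion stay in the larger domain -/
theorem TJ_maps {m : ℝ → ℝ} (hm : Fast m) {Ω : ℝ → Set V} {Ω' : ℝ → Set W}
    {z w : ℝ → V → W} (hw : Tame Ω w) (hI : InsMap z Ω Ω') :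
    ∀ᶠ e in 𝓝[>] (0 : ℝ), MapsTo (fun x => z e x + m e • w e x) (Ω e) (Ω' e) := by
  filter_upwards [hI.maps hm hw] with e he x hx
  have := he x hx 1 (by norm_num)
  rwa [one_mul] at this

theorem Exp.tame {m : ℝ → ℝ} (hm : Fast m) {Ω : ℝ → Set V} {f f0 f1 : ℝ → V → W}
    (h : Exp m Ω f f0 f1) : Tame Ω f := by
  obtain ⟨h0, h1, r, hr, hf⟩ := h
  exact ((h0.add (Tame.slow_smul hm.slow h1)).add
    (Tame.slow_smul (hm.slow.pow 2) hr)).congr hf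

theorem Exp.const {m : ℝ → ℝ} {Ω : ℝ → Set V} {f : ℝ → V → W} (hf : Tame Ω f) :
    Exp m Ω f f (fun _ _ => 0) := by
  have h0 : Tame Ω (fun (_ : ℝ) (_ : V) => (0 : W)) := Tame.constFix hf.isOpen 0
  refine ⟨hf, h0, fun _ _ => 0, h0, Eventually.of_forall fun e x _ => ?_⟩
  simp

theorem Exp.congr {m : ℝ → ℝ} {Ω : ℝ → Set V} {f f0 f1 g g0 g1 : ℝ → V → W}
    (h : Exp m Ω f f0 f1) (h1 : ∀ᶠ e in 𝓝[>] (0 : ℝ), ∀ x ∈ Ω e, g e x = f e x)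
    (h2 : ∀ᶠ e in 𝓝[>] (0 : ℝ), ∀ x ∈ Ω e, g0 e x = f0 e x)
    (h3 : ∀ᶠ e in 𝓝[>] (0 : ℝ), ∀ x ∈ Ω e, g1 e x = f1 e x) : Exp m Ω g g0 g1 := by
  obtain ⟨hf0, hf1, r, hr, hf⟩ := h
  refine ⟨hf0.congr h2, hf1.congr h3, r, hr, ?_⟩
  filter_upwards [h1, h2, h3, hf] with e e1 e2 e3 ef x hx
  rw [e1 x hx, e2 x hx, e3 x hx, ef x hx]

theorem Exp.mono {m : ℝ → ℝ} {Ω Ω' : ℝ → Set V} {f f0 f1 : ℝ → V → W} (h : Exp m Ω f f0 f1)
    (h' : ∀ᶠ e in 𝓝[>] (0 : ℝ), IsOpen (Ω' e) ∧ Ω' e ⊆ Ω e) : Exp m Ω' f f0 f1 := by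
  obtain ⟨hf0, hf1, r, hr, hf⟩ := h
  refine ⟨hf0.mono h', hf1.mono h', r, hr.mono h', ?_⟩
  filter_upwards [h', hf] with e e1 ef x hx
  exact ef x (e1.2 hx)

theorem Exp.add {m : ℝ → ℝ} {Ω : ℝ → Set V} {f f0 f1 g g0 g1 : ℝ → V → W}
    (hf : Exp m Ω f f0 f1) (hg : Exp m Ω g g0 g1) :
    Exp m Ω (fun e x => f e x + g e x) (fun e x => f0 e x + g0 e x)
      (fun e x => f1 e x + g1 e x) := by
  obtain ⟨hf0, hf1, r, hr, hf⟩ := hf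
  obtain ⟨hg0, hg1, s, hs, hg⟩ := hg
  refine ⟨hf0.add hg0, hf1.add hg1, fun e x => r e x + s e x, hr.add hs, ?_⟩
  filter_upwards [hf, hg] with e ef eg x hx
  rw [ef x hx, eg x hx, smul_add, smul_add]
  abel

/-- adding a term of order `m ^ 2` changes nothing -/
theorem Exp.add_sq {m : ℝ → ℝ} {Ω : ℝ → Set V} {f f0 f1 k : ℝ → V → W}
    (hf : Exp m Ω f f0 f1) (hk : Tame Ω k) :
    Exp m Ω (fun e x => f e x + (m e) ^ 2 • k e x) f0 f1 := by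
  obtain ⟨hf0, hf1, r, hr, hf⟩ := hf
  refine ⟨hf0, hf1, fun e x => r e x + k e x, hr.add hk, ?_⟩
  filter_upwards [hf] with e ef x hx
  rw [ef x hx, smul_add]
  abel

theorem Exp.mul {m : ℝ → ℝ} (hm : Fast m) {Ω : ℝ → Set V} {f f0 f1 g g0 g1 : ℝ → V → ℝ}
    (hf : Exp m Ω f f0 f1) (hg : Exp m Ω g g0 g1) :
    Exp m Ω (fun e x => f e x * g e x) (fun e x => f0 e x * g0 e x)
      (fun e x => f1 e x * g0 e x + f0 e x * g1 e x) := by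
  obtain ⟨hf0, hf1, r, hr, hf⟩ := hf
  obtain ⟨hg0, hg1, s, hs, hg⟩ := hg
  refine ⟨hf0.mul hg0, (hf1.mul hg0).add (hf0.mul hg1),
    fun e x => (f0 e x * s e x + f1 e x * g1 e x) + r e x * g0 e x
      + m e * (f1 e x * s e x + r e x * g1 e x) + (m e) ^ 2 * (r e x * s e x),
    ((((hf0.mul hs).add (hf1.mul hg1)).add (hr.mul hg0)).add
      (Tame.slow_mul hm.slow ((hf1.mul hs).add (hr.mul hg1)))).add
      (Tame.slow_mul (hm.slow.pow 2) (hr.mul hs)), ?_⟩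
  filter_upwards [hf, hg] with e ef eg x hx
  rw [ef x hx, eg x hx]
  simp only [smul_eq_mul]
  ring

theorem Exp.prodMk {m : ℝ → ℝ} {Ω : ℝ → Set V} {f f0 f1 : ℝ → V → W} {g g0 g1 : ℝ → V → X}
    (hf : Exp m Ω f f0 f1) (hg : Exp m Ω g g0 g1) :
    Exp m Ω (fun e x => (f e x, g e x)) (fun e x => (f0 e x, g0 e x))
      (fun e x => (f1 e x, g1 e x)) := by
  obtain ⟨hf0, hf1, r, hr, hf⟩ := hf
  obtain ⟨hg0, hg1, s, hs, hg⟩ := hg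
  refine ⟨hf0.prodMk hg0, hf1.prodMk hg1, fun e x => (r e x, s e x), hr.prodMk hs, ?_⟩
  filter_upwards [hf, hg] with e ef eg x hx
  rw [ef x hx, eg x hx]
  simp only [Prod.smul_mk, Prod.mk_add_mk]

theorem Exp.fst {m : ℝ → ℝ} {Ω : ℝ → Set V} {f f0 f1 : ℝ → V → W × X}
    (hf : Exp m Ω f f0 f1) :
    Exp m Ω (fun e x => (f e x).1) (fun e x => (f0 e x).1) (fun e x => (f1 e x).1) := by
  obtain ⟨hf0, hf1, r, hr, hf⟩ := hf
  refine ⟨hf0.fst, hf1.fst, fun e x => (r e x).1, hr.fst, ?_⟩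
  filter_upwards [hf] with e ef x hx
  rw [ef x hx]
  simp only [Prod.fst_add, Prod.smul_fst]

theorem Exp.snd {m : ℝ → ℝ} {Ω : ℝ → Set V} {f f0 f1 : ℝ → V → W × X}
    (hf : Exp m Ω f f0 f1) :
    Exp m Ω (fun e x => (f e x).2) (fun e x => (f0 e x).2) (fun e x => (f1 e x).2) := by
  obtain ⟨hf0, hf1, r, hr, hf⟩ := hf
  refine ⟨hf0.snd, hf1.snd, fun e x => (r e x).2, hr.snd, ?_⟩
  filter_upwards [hf] with e ef x hx
  rw [ef x hx]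
  simp only [Prod.snd_add, Prod.smul_snd]

/-- eventually `f` maps `Ω` into `Ω'` -/
theorem Exp.maps {m : ℝ → ℝ} (hm : Fast m) {Ω : ℝ → Set V} {Ω' : ℝ → Set W}
    {f f0 f1 : ℝ → V → W} (hf : Exp m Ω f f0 f1) (hI : InsMap f0 Ω Ω') :
    ∀ᶠ e in 𝓝[>] (0 : ℝ), MapsTo (f e) (Ω e) (Ω' e) := by
  obtain ⟨hf0, hf1, r, hr, hf⟩ := hf
  have hw : Tame Ω (fun e x => f1 e x + m e • r e x) := hf1.add (Tame.slow_smul hm.slow hr)
  filter_upwards [hf, TJ_maps hm hw hI] with e ef he x hx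
  have h1 : f e x = f0 e x + m e • (f1 e x + m e • r e x) := by
    rw [ef x hx, smul_add, smul_smul, ← pow_two, add_assoc]
  rw [h1]
  exact he hx

/-- composition -/
theorem Exp.comp [CompleteSpace X] {m : ℝ → ℝ} (hm : Fast m) {Ω : ℝ → Set V} {Ω' : ℝ → Set W}
    {g g0 g1 : ℝ → W → X} {f f0 f1 : ℝ → V → W} (hg : Exp m Ω' g g0 g1)
    (hf : Exp m Ω f f0 f1) (hI : InsMap f0 Ω Ω') :
    Exp m Ω (fun e x => g e (f e x)) (fun e x => g0 e (f0 e x))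
      (fun e x => fderiv ℝ (g0 e) (f0 e x) (f1 e x) + g1 e (f0 e x)) := by
  have hmaps : ∀ᶠ e in 𝓝[>] (0 : ℝ), MapsTo (f e) (Ω e) (Ω' e) := Exp.maps hm hf hI
  have hmaps0 : ∀ᶠ e in 𝓝[>] (0 : ℝ), MapsTo (f0 e) (Ω e) (Ω' e) := TJ_insmap_maps hI
  have hft : Tame Ω f := Exp.tame hm hf
  obtain ⟨hf0, hf1, r, hr, hf⟩ := hf
  obtain ⟨hg0, hg1, s, hs, hg⟩ := hg
  have hw : Tame Ω (fun e x => f1 e x + m e • r e x) := hf1.add (Tame.slow_smul hm.slow hr)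
  obtain ⟨k, hk, hk'⟩ := Tame.taylor2 hm hg0 hf0 hw hI
  obtain ⟨k1, hk1, hk1'⟩ := Tame.taylor1 hm hg1 hf0 hw hI
  have hD : Tame Ω (fun e x => fderiv ℝ (g0 e) (f0 e x)) := Tame.comp hg0.fd hf0 hmaps0
  refine ⟨Tame.comp hg0 hf0 hmaps0, (hD.clm_apply hf1).add (Tame.comp hg1 hf0 hmaps0),
    fun e x => fderiv ℝ (g0 e) (f0 e x) (r e x) + k e x + k1 e x + s e (f e x),
    (((hD.clm_apply hr).add hk).add hk1).add (Tame.comp hs hft hmaps), ?_⟩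
  filter_upwards [hf, hg, hk', hk1', hmaps] with e ef eg ek ek1 em x hx
  have h1 : f e x = f0 e x + m e • (f1 e x + m e • r e x) := by
    rw [ef x hx, smul_add, smul_smul, ← pow_two, add_assoc]
  have h2 := ek x hx
  have h3 := ek1 x hx
  rw [← h1] at h2 h3
  rw [eg _ (em hx), h2, h3]
  simp only [map_add, map_smul, smul_add, smul_smul, pow_two]
  abel

end BB
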