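import Pool.Agent.Lib_helper6.BB.W.LT
import Pool.Agent.Lib_helper6.BB.W.TJ

open Filter Topology Set MeasureTheory
open scoped ContDiff

namespace BB

/-! ### powers of `e` -/

theorem GP_pow {η : ℝ} (hη : 0 < η) : Tendsto (fun e : ℝ => e ^ η) (𝓝[>] 0) (𝓝 0) := by
  have h1 : ContinuousAt (fun e : ℝ => e ^ η) 0 := Real.continuousAt_rpow_const 0 η (Or.inr hη.le)
  have h2 := h1.tendsto
  rw [Real.zero_rpow hη.ne'] at h2
  exact h2.mono_left nhdsWithin_le_nhds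

theorem GP_lt {η c : ℝ} (hη : 0 < η) (hc : 0 < c) : ∀ᶠ e in 𝓝[>] (0 : ℝ), e ^ η < c :=
  (GP_pow hη).eventually (gt_mem_nhds hc)

theorem GP_pos : ∀ᶠ e in 𝓝[>] (0 : ℝ), 0 < e := self_mem_nhdsWithin

theorem GP_big {η : ℝ} (hη : 0 < η) (C : ℝ) : ∀ᶠ e in 𝓝[>] (0 : ℝ), C ≤ e ^ (-η) := by
  filter_upwards [GP_lt hη (c := (|C| + 1)⁻¹) (by positivity), GP_pos] with e h1 h2
  rw [Real.rpow_neg h2.le]
  have h3 : 0 < e ^ η := Real.rpow_pos_of_pos h2 _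
  have h4 : |C| + 1 ≤ (e ^ η)⁻¹ := by
    rw [le_inv_comm₀ (by positivity) h3]
    exact h1.le
  have := le_abs_self C
  linarith

/-! ### variation of the scaled potential -/

theorem GP_W {L A B : ℝ} {b1 b2 δ : ℝ → ℝ} (hW : Walls L A B b1 b2) (hS : Scale b1 b2 δ)
    (k : ℝ) {η ε : ℝ} (hη : 0 < η) (hε : 0 < ε) : ∀ᶠ e in 𝓝[>] (0 : ℝ),
      ∀ X ∈ Iset b1 b2 δ k e, ∀ X' : ℝ, |X' - X| < e ^ η →
        |Wp δ b1 b2 e X' - Wp δ b1 b2 e X| < ε := by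
  obtain ⟨t1, t2⟩ := ww_tame hW hS (k + 1)
  filter_upwards [t1.bound0 (half_pos hη), t2.bound0 (half_pos hη), GP_pos,
    GP_lt (half_pos hη) (c := min ε (1 / 2) / 2) (by positivity)] with e h1 h2 he h3
  intro X hX X' hXX
  have hconv : Convex ℝ (Iset b1 b2 δ (k + 1) e) := (Iset_ordConnected hW (k + 1) he).convex
  have hX1 : X ∈ Iset b1 b2 δ (k + 1) e := by
    have h4 : Wp δ b1 b2 e X < k := hX
    show Wp δ b1 b2 e X < k + 1
    linarith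
  have key : ∀ Y ∈ Iset b1 b2 δ (k + 1) e, |Y - X| < e ^ η →
      |Wp δ b1 b2 e Y - Wp δ b1 b2 e X| < min ε (1 / 2) := by
    intro Y hY hYX
    have h4 := hconv.norm_image_sub_le_of_norm_hasDerivWithin_le
      (f := Wp δ b1 b2 e) (f' := fun x => ww δ b1 e x + ww δ b2 e x) (C := 2 * e ^ (-(η / 2)))
      (fun x _ => (Wp_hasDerivAt hW e x).hasDerivWithinAt)
      (fun x hx => by
        refine (norm_add_le _ _).trans ?_
        have := h1 x hx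
        have := h2 x hx
        linarith) hX1 hY
    rw [Real.norm_eq_abs, Real.norm_eq_abs] at h4
    have h5 : 0 < e ^ (-(η / 2)) := Real.rpow_pos_of_pos he _
    have h6 : e ^ (-(η / 2)) * e ^ η = e ^ (η / 2) := by
      rw [← Real.rpow_add he]
      congr 1
      ring
    calc |Wp δ b1 b2 e Y - Wp δ b1 b2 e X| ≤ 2 * e ^ (-(η / 2)) * |Y - X| := h4
      _ ≤ 2 * e ^ (-(η / 2)) * e ^ η := by
          have := hYX.le
          gcongr
      _ = 2 * e ^ (η / 2) := by rw [mul_assoc, h6]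
      _ < min ε (1 / 2) := by linarith
  have hX' : X' ∈ Iset b1 b2 δ (k + 1) e := by
    by_contra hcon
    have h4 : k + 1 ≤ Wp δ b1 b2 e X' := not_lt.1 hcon
    have h5 : Wp δ b1 b2 e X < k := hX
    have h6 := intermediate_value_uIcc (a := X) (b := X')
      (Wp_contDiff hW e).continuous.continuousOn (f := Wp δ b1 b2 e)
    have h7 : k + 1 / 2 ∈ uIcc (Wp δ b1 b2 e X) (Wp δ b1 b2 e X') := by
      rw [uIcc_of_le (by linarith)]
      exact ⟨by linarith, by linarith⟩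
    obtain ⟨Y, hY1, hY2⟩ := h6 h7
    have h8 : |Y - X| < e ^ η := (abs_sub_left_of_mem_uIcc hY1).trans_lt hXX
    have h9 : Y ∈ Iset b1 b2 δ (k + 1) e := by
      show Wp δ b1 b2 e Y < k + 1
      rw [hY2]
      linarith
    have h10 := key Y h9 h8
    rw [hY2] at h10
    have h11 := (abs_lt.1 h10).2
    have h12 : min ε (1 / 2) ≤ 1 / 2 := min_le_right _ _
    linarith
  exact (key X' hX' hXX).trans_le (min_le_left _ _)

/-- gap lemma: the sublevel sets of the scaled potential are nested with a slow margin -/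
theorem Iset_ins {L A B : ℝ} {b1 b2 δ : ℝ → ℝ} (hW : Walls L A B b1 b2) (hS : Scale b1 b2 δ)
    {k k' : ℝ} (h : k < k') : Ins (Iset b1 b2 δ k) (Iset b1 b2 δ k') := by
  intro η hη
  filter_upwards [GP_W hW hS k hη (sub_pos.2 h)] with e h1
  intro X hX X' hX'
  have h2 := h1 X hX X' (by rw [← Real.dist_eq]; exact hX')
  have h3 : Wp δ b1 b2 e X < k := hX
  have h4 := (abs_lt.1 h2).2
  show Wp δ b1 b2 e X' < k'
  linarith

theorem Reg_bound {L A B : ℝ} {b1 b2 δ : ℝ → ℝ} (hW : Walls L A B b1 b2) (hS : Scale b1 b2 δ)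
    (k : ℝ) : ∃ C : ℝ, 0 < C ∧ ∀ᶠ e in 𝓝[>] (0 : ℝ), ∀ p ∈ Reg L b1 b2 δ k e, ‖p‖ ≤ C := by
  refine ⟨max (max 1 (k / 2)) (Real.sqrt (k / L)), by positivity, ?_⟩
  filter_upwards [Iset_bound hW hS (le_max_left 1 (k / 2)), GP_pos] with e h1 h2 p hp
  obtain ⟨h3, h4⟩ := Reg_sub hW h2 hp
  rw [Prod.norm_def]
  apply max_le_max
  · apply h1
    have h5 : Wp δ b1 b2 e p.1 < k / 2 := h3
    exact lt_of_lt_of_le h5 (le_max_right _ _)
  · exact h4.le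

theorem GP_Box_bound {L A B : ℝ} {b1 b2 δ : ℝ → ℝ} (hW : Walls L A B b1 b2)
    (hS : Scale b1 b2 δ) (k r : ℝ) :
    ∃ C : ℝ, ∀ᶠ e in 𝓝[>] (0 : ℝ), ∀ p ∈ Box b1 b2 δ k r e, ‖p‖ ≤ C := by
  refine ⟨max (max 1 k) r, ?_⟩
  filter_upwards [Iset_bound hW hS (le_max_left 1 k), GP_pos] with e h1 h2 p hp
  obtain ⟨h3, h4⟩ := hp
  rw [Prod.norm_def]
  apply max_le_max
  · apply h1
    have h5 : Wp δ b1 b2 e p.1 < k := h3
    exact lt_of_lt_of_le h5 (le_max_right _ _)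
  · rw [Real.norm_eq_abs]
    exact abs_le.2 ⟨h4.1.le, h4.2.le⟩

theorem GP_id {Ω : ℝ → Set (ℝ × ℝ)} (hΩ : ∀ᶠ e in 𝓝[>] (0 : ℝ), IsOpen (Ω e)) {C : ℝ}
    (hC : ∀ᶠ e in 𝓝[>] (0 : ℝ), ∀ p ∈ Ω e, ‖p‖ ≤ C) : Tame Ω (fun _ p => p) := by
  refine Tame.clm hΩ (ContinuousLinearMap.id ℝ (ℝ × ℝ)) fun η hη => ?_
  filter_upwards [hC, GP_big hη C] with e h1 h2 p hp
  exact (h1 p hp).trans h2

theorem id_tame_Reg {L A B : ℝ} {b1 b2 δ : ℝ → ℝ} (hW : Walls L A B b1 b2) (hS : Scale b1 b2 δ)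
    (k : ℝ) : Tame (Reg L b1 b2 δ k) (fun _ p => p) := by
  obtain ⟨C, -, hC⟩ := Reg_bound hW hS k
  exact GP_id (Eventually.of_forall fun e => Reg_open hW k e) hC

theorem id_tame_Box {L A B : ℝ} {b1 b2 δ : ℝ → ℝ} (hW : Walls L A B b1 b2) (hS : Scale b1 b2 δ)
    (k r : ℝ) : Tame (Box b1 b2 δ k r) (fun _ p => p) := by
  obtain ⟨C, hC⟩ := GP_Box_bound hW hS k r
  exact GP_id (Eventually.of_forall fun e => (Iset_open hW k e).prod isOpen_Ioo) hC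

theorem HH_tame {L A B : ℝ} {b1 b2 δ : ℝ → ℝ} (hW : Walls L A B b1 b2) (hS : Scale b1 b2 δ)
    (k : ℝ) : Tame (Reg L b1 b2 δ k) (HH L b1 b2 δ) := by
  have h1 := id_tame_Reg hW hS k
  have hΩ : ∀ᶠ e in 𝓝[>] (0 : ℝ), IsOpen (Reg L b1 b2 δ k e) :=
    Eventually.of_forall fun e => Reg_open hW k e
  have h2 : Tame (Reg L b1 b2 δ k) (fun _ (p : ℝ × ℝ) => p.2) := h1.snd
  have h3 : Tame (Reg L b1 b2 δ k) (fun _ (p : ℝ × ℝ) => p.1) := h1.fst
  have h4 : Tame (Reg L b1 b2 δ k) (fun e (p : ℝ × ℝ) => Wp δ b1 b2 e p.1) := by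
    refine Tame.comp (Wp_tame hW hS (k / 2)) h3 ?_
    filter_upwards [GP_pos] with e he p hp
    exact (Reg_sub hW he hp).1
  have h5 := (((Tame.constFix hΩ L).mul (h2.pow 2)).add ((Tame.constFix hΩ (2 : ℝ)).mul h4))
  exact h5

theorem Reg_ins {L A B : ℝ} {b1 b2 δ : ℝ → ℝ} (hW : Walls L A B b1 b2) (hS : Scale b1 b2 δ)
    {k k' : ℝ} (h : k < k') : Ins (Reg L b1 b2 δ k) (Reg L b1 b2 δ k') := by
  intro η hη
  have hL := hW.L_pos
  set s := Real.sqrt (k / L) with hs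
  have hs0 : 0 ≤ s := Real.sqrt_nonneg _
  have hkk : 0 < k' - k := sub_pos.2 h
  filter_upwards [GP_W hW hS (k / 2) hη (ε := (k' - k) / 4) (by linarith), GP_pos,
    GP_lt hη (c := min 1 ((k' - k) / 2 / (L * (2 * s + 1)))) (by positivity)] with e h1 he h2
  intro p hp q hq
  obtain ⟨h3, h4⟩ := Reg_sub hW he hp
  rw [Metric.mem_ball, Prod.dist_eq, max_lt_iff, Real.dist_eq, Real.dist_eq] at hq
  have h5 := (abs_lt.1 (h1 p.1 h3 q.1 hq.1)).2
  have h6 : HH L b1 b2 δ e p < k := hp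
  show HH L b1 b2 δ e q < k'
  unfold HH at h6 ⊢
  have he1 : e ^ η < 1 := h2.trans_le (min_le_left _ _)
  have he2 : e ^ η * (L * (2 * s + 1)) < (k' - k) / 2 := by
    rw [← lt_div_iff₀ (by positivity)]
    exact h2.trans_le (min_le_right _ _)
  have h7 : q.2 ^ 2 - p.2 ^ 2 ≤ e ^ η * (2 * s + 1) := by
    have h8 : q.2 ^ 2 - p.2 ^ 2 = (q.2 - p.2) * (q.2 + p.2) := by ring
    have h9 : |q.2 + p.2| ≤ 2 * s + 1 := by
      have h10 : q.2 + p.2 = (q.2 - p.2) + 2 * p.2 := by ring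
      rw [h10]
      refine (abs_add_le _ _).trans ?_
      rw [abs_mul, abs_two]
      linarith [hq.2, h4.le]
    rw [h8]
    refine (le_abs_self _).trans ?_
    rw [abs_mul]
    exact mul_le_mul hq.2.le h9 (abs_nonneg _) ((abs_nonneg _).trans hq.2.le)
  have h8 : L * (q.2 ^ 2 - p.2 ^ 2) ≤ L * (e ^ η * (2 * s + 1)) :=
    mul_le_mul_of_nonneg_left h7 hL.le
  nlinarith

/-- `Reg k ⋐ Iset k' × (-r, r)` if `k / 2 < k'` and `sqrt (k / L) < r` -/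
theorem Reg_ins_Box {L A B : ℝ} {b1 b2 δ : ℝ → ℝ} (hW : Walls L A B b1 b2) (hS : Scale b1 b2 δ)
    {k k' r : ℝ} (h : k / 2 < k') (hr : Real.sqrt (k / L) < r) :
    Ins (Reg L b1 b2 δ k) (Box b1 b2 δ k' r) := by
  intro η hη
  filter_upwards [Iset_ins hW hS h η hη, GP_pos, GP_lt hη (sub_pos.2 hr)] with e h1 he h2
  intro p hp q hq
  obtain ⟨h3, h4⟩ := Reg_sub hW he hp
  have hq' := hq
  rw [Metric.mem_ball, Prod.dist_eq, max_lt_iff] at hq'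
  refine ⟨h1 p.1 h3 (Metric.mem_ball.2 hq'.1), ?_⟩
  have h5 := hq'.2
  rw [Real.dist_eq] at h5
  have h6 : |q.2| < r := by
    have h7 : q.2 = (q.2 - p.2) + p.2 := by ring
    rw [h7]
    refine (abs_add_le _ _).trans_lt ?_
    linarith
  exact abs_lt.1 h6

end BB
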