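import Pool.Agent.Lib_helper6.BB.Tame
import Pool.Agent.Lib_helper6.BB.W.TC
import Pool.Agent.Lib_helper6.BB.W.TD

open Filter Topology Set
open scoped ContDiff

namespace BB

/-! ### two by two matrices -/

noncomputable def TG_a : (ℝ × ℝ →L[ℝ] ℝ × ℝ) →L[ℝ] ℝ :=
  (ContinuousLinearMap.fst ℝ ℝ ℝ).comp (ContinuousLinearMap.apply ℝ (ℝ × ℝ) ((1 : ℝ), (0 : ℝ)))

noncomputable def TG_b : (ℝ × ℝ →L[ℝ] ℝ × ℝ) →L[ℝ] ℝ :=
  (ContinuousLinearMap.fst ℝ ℝ ℝ).comp (ContinuousLinearMap.apply ℝ (ℝ × ℝ) ((0 : ℝ), (1 : ℝ)))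

noncomputable def TG_c : (ℝ × ℝ →L[ℝ] ℝ × ℝ) →L[ℝ] ℝ :=
  (ContinuousLinearMap.snd ℝ ℝ ℝ).comp (ContinuousLinearMap.apply ℝ (ℝ × ℝ) ((1 : ℝ), (0 : ℝ)))

noncomputable def TG_d : (ℝ × ℝ →L[ℝ] ℝ × ℝ) →L[ℝ] ℝ :=
  (ContinuousLinearMap.snd ℝ ℝ ℝ).comp (ContinuousLinearMap.apply ℝ (ℝ × ℝ) ((0 : ℝ), (1 : ℝ)))

theorem TG_apply (L : ℝ × ℝ →L[ℝ] ℝ × ℝ) (v : ℝ × ℝ) :
    L v = (TG_a L * v.1 + TG_b L * v.2, TG_c L * v.1 + TG_d L * v.2) := by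
  have hv : v = v.1 • ((1 : ℝ), (0 : ℝ)) + v.2 • ((0 : ℝ), (1 : ℝ)) := by
    ext <;> simp
  conv_lhs => rw [hv]
  rw [map_add, map_smul, map_smul]
  ext
  · simp [TG_a, TG_b]; ring
  · simp [TG_c, TG_d]; ring

theorem TG_det (L : ℝ × ℝ →L[ℝ] ℝ × ℝ) : L.det = TG_a L * TG_d L - TG_b L * TG_c L := by
  have h : L.det = LinearMap.det (L : ℝ × ℝ →ₗ[ℝ] ℝ × ℝ) := rfl
  rw [h, ← LinearMap.det_toMatrix (Module.Basis.finTwoProd ℝ), Matrix.det_fin_two]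
  simp [LinearMap.toMatrix_apply, TG_a, TG_b, TG_c, TG_d]

/-- the adjugate -/
noncomputable def TG_adj : (ℝ × ℝ →L[ℝ] ℝ × ℝ) →L[ℝ] (ℝ × ℝ →L[ℝ] ℝ × ℝ) :=
  (TG_a + TG_d).smulRight (ContinuousLinearMap.id ℝ (ℝ × ℝ)) -
    ContinuousLinearMap.id ℝ (ℝ × ℝ →L[ℝ] ℝ × ℝ)

theorem TG_adj_apply (L : ℝ × ℝ →L[ℝ] ℝ × ℝ) (v : ℝ × ℝ) :
    TG_adj L v = (TG_d L * v.1 - TG_b L * v.2, - TG_c L * v.1 + TG_a L * v.2) := by
  have h : TG_adj L v = (TG_a L + TG_d L) • v - L v := rfl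
  rw [h, TG_apply L v]
  ext
  · simp; ring
  · simp; ring

/-- the inverse -/
noncomputable def TG_inv (L : ℝ × ℝ →L[ℝ] ℝ × ℝ) : ℝ × ℝ →L[ℝ] ℝ × ℝ :=
  (TG_a L * TG_d L - TG_b L * TG_c L)⁻¹ • TG_adj L

theorem TG_inv_left {L : ℝ × ℝ →L[ℝ] ℝ × ℝ} (h : L.det ≠ 0) (v : ℝ × ℝ) :
    TG_inv L (L v) = v := by
  rw [TG_det] at h
  have h1 : TG_inv L (L v) = (TG_a L * TG_d L - TG_b L * TG_c L)⁻¹ • TG_adj L (L v) := rfl
  rw [h1, TG_adj_apply, TG_apply L v]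
  ext
  · simp only [Prod.smul_fst, smul_eq_mul]
    rw [inv_mul_eq_iff_eq_mul₀ h]; ring
  · simp only [Prod.smul_snd, smul_eq_mul]
    rw [inv_mul_eq_iff_eq_mul₀ h]; ring

theorem TG_inv_right {L : ℝ × ℝ →L[ℝ] ℝ × ℝ} (h : L.det ≠ 0) (v : ℝ × ℝ) :
    L (TG_inv L v) = v := by
  rw [TG_det] at h
  have h1 : TG_inv L v = (TG_a L * TG_d L - TG_b L * TG_c L)⁻¹ • TG_adj L v := rfl
  rw [h1, map_smul, TG_apply L (TG_adj L v), TG_adj_apply]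
  ext
  · simp only [Prod.smul_fst, smul_eq_mul]
    rw [inv_mul_eq_iff_eq_mul₀ h]; ring
  · simp only [Prod.smul_snd, smul_eq_mul]
    rw [inv_mul_eq_iff_eq_mul₀ h]; ring

noncomputable def TG_equiv (L : ℝ × ℝ →L[ℝ] ℝ × ℝ) (h : L.det ≠ 0) : (ℝ × ℝ) ≃L[ℝ] (ℝ × ℝ) :=
  ContinuousLinearEquiv.equivOfInverse L (TG_inv L) (TG_inv_left h) (TG_inv_right h)

theorem TG_equiv_coe (L : ℝ × ℝ →L[ℝ] ℝ × ℝ) (h : L.det ≠ 0) :
    ((TG_equiv L h : (ℝ × ℝ) ≃L[ℝ] (ℝ × ℝ)) : ℝ × ℝ →L[ℝ] ℝ × ℝ) = L := by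
  ext <;> rfl

theorem TG_equiv_symm_coe (L : ℝ × ℝ →L[ℝ] ℝ × ℝ) (h : L.det ≠ 0) :
    ((TG_equiv L h).symm : ℝ × ℝ →L[ℝ] ℝ × ℝ) = TG_inv L := by
  ext <;> rfl

/-! ### one map -/

/-- the inverse of a smooth map with invertible derivatives -/
theorem TG_one {U : Set (ℝ × ℝ)} {φ ψ : ℝ × ℝ → ℝ × ℝ} (hU : IsOpen U)
    (hφ : ContDiffOn ℝ ∞ φ U) (hinj : ∀ x ∈ U, ψ (φ x) = x)
    (hdet : ∀ x ∈ U, (fderiv ℝ φ x).det ≠ 0) :
    IsOpen (φ '' U) ∧ ContDiffOn ℝ ∞ ψ (φ '' U) ∧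
      ∀ x ∈ U, HasFDerivAt ψ (TG_inv (fderiv ℝ φ x)) (φ x) := by
  have hat : ∀ x ∈ U, ContDiffAt ℝ ∞ φ x := fun x hx => hφ.contDiffAt (hU.mem_nhds hx)
  have hder : ∀ x (hx : x ∈ U),
      HasStrictFDerivAt φ (TG_equiv (fderiv ℝ φ x) (hdet x hx) : ℝ × ℝ →L[ℝ] ℝ × ℝ) x := by
    intro x hx
    rw [TG_equiv_coe]
    exact (hat x hx).hasStrictFDerivAt (by simp)
  have hmap : ∀ x ∈ U, map φ (𝓝 x) = 𝓝 (φ x) := fun x hx => (hder x hx).map_nhds_eq_of_equiv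
  have himg : ∀ V ⊆ U, IsOpen V → IsOpen (φ '' V) := by
    intro V hVU hV
    rw [isOpen_iff_mem_nhds]
    rintro _ ⟨x, hx, rfl⟩
    rw [← hmap x (hVU hx)]
    exact image_mem_map (hV.mem_nhds hx)
  have hopen : IsOpen (φ '' U) := himg U subset_rfl hU
  have hcont : ContinuousOn ψ (φ '' U) := by
    rintro _ ⟨x, hx, rfl⟩
    refine ContinuousAt.continuousWithinAt ?_
    intro V hV
    rw [hinj x hx] at hV
    obtain ⟨V', hV'V, hV'o, hxV'⟩ := mem_nhds_iff.1 hV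
    have h1 : φ '' (V' ∩ U) ∈ 𝓝 (φ x) :=
      (himg _ inter_subset_right (hV'o.inter hU)).mem_nhds ⟨x, ⟨hxV', hx⟩, rfl⟩
    rw [Filter.mem_map]
    refine Filter.mem_of_superset h1 ?_
    rintro _ ⟨z, hz, rfl⟩
    show ψ (φ z) ∈ V
    rw [hinj z hz.2]
    exact hV'V hz.1
  let P : OpenPartialHomeomorph (ℝ × ℝ) (ℝ × ℝ) :=
    { toFun := φ
      invFun := ψ
      source := U
      target := φ '' U
      map_source' := fun x hx => mem_image_of_mem φ hx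
      map_target' := by
        rintro _ ⟨x, hx, rfl⟩
        rw [hinj x hx]; exact hx
      left_inv' := fun x hx => hinj x hx
      right_inv' := by
        rintro _ ⟨x, hx, rfl⟩
        rw [hinj x hx]
      open_source := hU
      open_target := hopen
      continuousOn_toFun := hφ.continuousOn
      continuousOn_invFun := hcont }
  refine ⟨hopen, ?_, ?_⟩
  · rintro _ ⟨x, hx, rfl⟩
    refine ContDiffAt.contDiffWithinAt ?_
    have h1 : P.symm (φ x) = x := hinj x hx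
    refine P.contDiffAt_symm (f₀' := TG_equiv (fderiv ℝ φ x) (hdet x hx))
      (mem_image_of_mem φ hx) ?_ ?_
    · rw [h1]; exact (hder x hx).hasFDerivAt
    · rw [h1]; exact hat x hx
  · intro x hx
    have h2 : HasFDerivAt ψ ((TG_equiv (fderiv ℝ φ x) (hdet x hx)).symm :
        ℝ × ℝ →L[ℝ] ℝ × ℝ) (φ x) := by
      refine HasFDerivAt.of_local_left_inverse (f := φ)
        (hcont.continuousAt (hopen.mem_nhds (mem_image_of_mem φ hx))) ?_ ?_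
      · rw [hinj x hx]; exact (hder x hx).hasFDerivAt
      · filter_upwards [hopen.mem_nhds (mem_image_of_mem φ hx)] with y hy
        obtain ⟨z, hz, rfl⟩ := hy
        rw [hinj z hz]
    rw [TG_equiv_symm_coe] at h2
    exact h2

theorem TG_small : ∀ᶠ e in 𝓝[>] (0 : ℝ), 0 < e ∧ e < 1 := by
  have h1 : ∀ᶠ e in 𝓝[>] (0 : ℝ), 0 < e := eventually_mem_nhdsWithin
  have h2 : ∀ᶠ e in 𝓝[>] (0 : ℝ), e < 1 :=
    mem_nhdsWithin_of_mem_nhds (Iio_mem_nhds one_pos)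
  exact h1.and h2

/-- the inverse derivatives form a tame family -/
theorem TG_tame {Ω : ℝ → Set (ℝ × ℝ)} {Φ : ℝ → ℝ × ℝ → ℝ × ℝ} (hΦ : Tame Ω Φ)
    (hdet : ∀ η : ℝ, 0 < η → ∀ᶠ e in 𝓝[>] (0 : ℝ), ∀ x ∈ Ω e,
      e ^ η ≤ |(fderiv ℝ (Φ e) x).det|) :
    Tame Ω (fun e x => TG_inv (fderiv ℝ (Φ e) x)) := by
  have hd := hΦ.fd
  have h1 : Tame Ω (fun e x => TG_a (fderiv ℝ (Φ e) x) * TG_d (fderiv ℝ (Φ e) x) -
      TG_b (fderiv ℝ (Φ e) x) * TG_c (fderiv ℝ (Φ e) x)) :=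
    ((hd.clm_comp TG_a).mul (hd.clm_comp TG_d)).sub ((hd.clm_comp TG_b).mul (hd.clm_comp TG_c))
  have h2 := h1.inv (fun η hη => (hdet η hη).mono fun e he x hx => by
    rw [← TG_det]; exact he x hx)
  exact h2.smul (hd.clm_comp TG_adj)

/-- the inverse of a tame injective map of plane domains whose Jacobian is not small is tame -/
theorem Tame.inverse {Ω : ℝ → Set (ℝ × ℝ)} {Φ Ψ : ℝ → ℝ × ℝ → ℝ × ℝ} (hΦ : Tame Ω Φ)
    (hinj : ∀ᶠ e in 𝓝[>] (0 : ℝ), ∀ x ∈ Ω e, Ψ e (Φ e x) = x)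
    (hdet : ∀ η : ℝ, 0 < η → ∀ᶠ e in 𝓝[>] (0 : ℝ), ∀ x ∈ Ω e,
      e ^ η ≤ |(fderiv ℝ (Φ e) x).det|)
    (hb : ∀ η : ℝ, 0 < η → ∀ᶠ e in 𝓝[>] (0 : ℝ), ∀ x ∈ Ω e, ‖x‖ ≤ e ^ (-η)) :
    Tame (fun e => Φ e '' Ω e) Ψ := by
  have hH := TG_tame hΦ hdet
  have hone : ∀ᶠ e in 𝓝[>] (0 : ℝ), IsOpen (Φ e '' Ω e) ∧ ContDiffOn ℝ ∞ (Ψ e) (Φ e '' Ω e) ∧
      ∀ x ∈ Ω e, HasFDerivAt (Ψ e) (TG_inv (fderiv ℝ (Φ e) x)) (Φ e x) := by
    filter_upwards [hΦ.1, hinj, hdet 1 one_pos, TG_small] with e h1 h2 h3 h4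
    refine TG_one h1.1 h1.2 h2 ?_
    intro x hx hzero
    have h5 := h3 x hx
    rw [hzero, abs_zero] at h5
    exact absurd (Real.rpow_pos_of_pos h4.1 1) (not_lt.2 h5)
  refine ⟨hone.mono fun e h => ⟨h.1, h.2.1⟩, ?_⟩
  intro n
  induction n using Nat.strong_induction_on with
  | _ n ih =>
    rcases n with _ | n
    · intro η hη
      filter_upwards [hb η hη, hinj] with e h1 h2
      rintro _ ⟨x, hx, rfl⟩
      rw [norm_iteratedFDeriv_zero, h2 x hx]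
      exact h1 x hx
    · intro η hη
      -- the derivative of `Ψ` is `H ∘ Ψ`
      set η1 : ℝ := η / (n + 2) with hη1
      have hη1p : 0 < η1 := by positivity
      have hsum : η1 * (n + 2) = η := by rw [hη1]; field_simp
      have hC : ∀ᶠ e in 𝓝[>] (0 : ℝ), ∀ i ∈ Finset.range (n + 1), ∀ x ∈ Ω e,
          ‖iteratedFDeriv ℝ i (fun x => TG_inv (fderiv ℝ (Φ e) x)) x‖ ≤ e ^ (-η1) := by
        rw [Filter.eventually_all_finset]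
        intro i _
        exact hH.2 i η1 hη1p
      have hD : ∀ᶠ e in 𝓝[>] (0 : ℝ), ∀ i ∈ Finset.range (n + 1), ∀ y ∈ Φ e '' Ω e,
          ‖iteratedFDeriv ℝ i (Ψ e) y‖ ≤ e ^ (-η1) := by
        rw [Filter.eventually_all_finset]
        intro i hi
        exact ih i (Finset.mem_range.1 hi) η1 hη1p
      have hfac : ∀ᶠ e in 𝓝[>] (0 : ℝ), (n.factorial : ℝ) ≤ e ^ (-η1) := by
        have ht : Tendsto (fun e : ℝ => e ^ (-η1)) (𝓝[>] 0) atTop :=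
          tendsto_rpow_neg_nhdsGT_zero (by linarith)
        exact ht.eventually_ge_atTop _
      filter_upwards [hC, hD, hfac, hone, hinj, hH.1, TG_small] with e hCe hDe hfe ho hi hHe hs
      intro y hy
      have h1 : 1 ≤ e ^ (-η1) :=
        Real.one_le_rpow_of_pos_of_le_one_of_nonpos hs.1 hs.2.le (by linarith)
      have hmaps : MapsTo (Ψ e) (Φ e '' Ω e) (Ω e) := by
        rintro _ ⟨x, hx, rfl⟩
        rw [hi x hx]; exact hx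
      have hfd : EqOn (fderiv ℝ (Ψ e)) ((fun x => TG_inv (fderiv ℝ (Φ e) x)) ∘ Ψ e)
          (Φ e '' Ω e) := by
        rintro _ ⟨x, hx, rfl⟩
        rw [(ho.2.2 x hx).fderiv]
        show _ = TG_inv (fderiv ℝ (Φ e) (Ψ e (Φ e x)))
        rw [hi x hx]
      rw [← norm_iteratedFDeriv_fderiv,
        (hfd.eventuallyEq_of_mem (ho.1.mem_nhds hy)).iteratedFDeriv ℝ n |>.self_of_nhds]
      have hkey := norm_iteratedFDerivWithin_comp_le (n := n) (N := ∞) (C := e ^ (-η1))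
        (D := e ^ (-η1)) hHe.2 ho.2.1 (by exact_mod_cast le_top) hHe.1.uniqueDiffOn
        ho.1.uniqueDiffOn hmaps hy ?_ ?_
      · rw [iteratedFDerivWithin_of_isOpen n ho.1 hy] at hkey
        refine hkey.trans ?_
        have h2 : e ^ (-η) = e ^ (-η1) * e ^ (-η1) * (e ^ (-η1)) ^ n := by
          rw [← Real.rpow_natCast (e ^ (-η1)) n, ← Real.rpow_mul hs.1.le, ← Real.rpow_add hs.1,
            ← Real.rpow_add hs.1]
          congr 1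
          rw [← hsum]; ring
        rw [h2]
        have h3 : 0 ≤ e ^ (-η1) := by linarith
        gcongr
      · intro i hin
        rw [iteratedFDerivWithin_of_isOpen i hHe.1 (hmaps hy)]
        exact hCe i (Finset.mem_range.2 (by omega)) _ (hmaps hy)
      · intro i hi1 hin
        rw [iteratedFDerivWithin_of_isOpen i ho.1 hy]
        exact (hDe i (Finset.mem_range.2 (by omega)) y hy).trans (le_self_pow₀ h1 (by omega))

end BB
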