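import Pool.Agent.Lib_helper6.BB.W.PL1
import Pool.Agent.Lib_helper6.BB.W.GP
import Pool.Agent.Lib_helper6.BB.W.TG

open Filter Topology Set MeasureTheory
open scoped ContDiff

namespace BB

private theorem PL2_small {c : ℝ} (hc : 0 < c) {η : ℝ} (hη : 0 < η) :
    ∀ᶠ e in 𝓝[>] (0 : ℝ), e ^ η ≤ c := by
  have h1 : Tendsto (fun e : ℝ => e ^ η) (𝓝[>] 0) (𝓝 0) := by
    have h2 := (Real.continuousAt_rpow_const 0 η (Or.inr hη.le)).tendsto
    rw [Real.zero_rpow hη.ne'] at h2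
    exact h2.mono_left nhdsWithin_le_nhds
  exact (h1.eventually_lt_const hc).mono fun e he => he.le

private theorem PL2_big (c : ℝ) {η : ℝ} (hη : 0 < η) :
    ∀ᶠ e in 𝓝[>] (0 : ℝ), c ≤ e ^ (-η) := by
  filter_upwards [PL2_small (c := (|c| + 1)⁻¹) (by positivity) hη, self_mem_nhdsWithin]
    with e h1 he
  have he' : 0 < e := he
  have h2 : 0 < e ^ η := Real.rpow_pos_of_pos he' η
  rw [Real.rpow_neg he'.le]
  have h3 : |c| + 1 ≤ (e ^ η)⁻¹ := by
    rw [le_inv_comm₀ (by positivity) h2]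
    exact h1
  have := le_abs_self c
  linarith

private theorem PL2_pol_norm (x : ℝ × ℝ) (hx : 0 ≤ x.2) : ‖pol x‖ ≤ x.2 := by
  unfold pol
  rw [Prod.norm_mk]
  apply max_le
  · rw [Real.norm_eq_abs, abs_mul, abs_of_nonneg hx]
    exact mul_le_of_le_one_right hx (Real.abs_sin_le_one _)
  · rw [Real.norm_eq_abs, abs_mul, abs_of_nonneg hx]
    exact mul_le_of_le_one_right hx (Real.abs_cos_le_one _)

private theorem PL2_mem {L A B : ℝ} {b1 b2 δ : ℝ → ℝ} (hW : Walls L A B b1 b2) {e : ℝ}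
    (he : 0 < e) (hd : 0 < δ e) {k : ℝ} {q : ℝ × ℝ} (hq : 0 < q.2) (hqk : q.2 < k) :
    Kp L b1 b2 δ e q ∈ Reg L b1 b2 δ k e := by
  show HH L b1 b2 δ e (Kp L b1 b2 δ e q) < k
  rw [HH_Kp hW he hd hq]
  exact hqk

theorem Rad_upper {L A B : ℝ} {b1 b2 δ : ℝ → ℝ} (hW : Walls L A B b1 b2) (hS : Scale b1 b2 δ)
    (k : ℝ) : ∃ C : ℝ, 0 < C ∧ ∀ᶠ e in 𝓝[>] (0 : ℝ), ∀ q : ℝ × ℝ, 0 < q.2 → q.2 < k →
      Rad L b1 b2 δ e q ≤ C := by
  obtain ⟨C, hC, h⟩ := Reg_bound (L := L) hW hS k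
  refine ⟨2 * C, by positivity, ?_⟩
  filter_upwards [h, hS.pos, self_mem_nhdsWithin] with e h1 hd he q hq hqk
  have he' : 0 < e := he
  have h2 := h1 _ (PL2_mem hW he' hd hq hqk)
  obtain ⟨h3, -⟩ := Rad_spec (δ := δ) hW he' hd hq
  have h4 := (norm_fst_le (Kp L b1 b2 δ e q)).trans h2
  have h5 := (norm_snd_le (Kp L b1 b2 δ e q)).trans h2
  rw [Real.norm_eq_abs] at h4 h5
  unfold Kp pol at h4 h5
  simp only at h4 h5
  set R := Rad L b1 b2 δ e q with hR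
  have h6 : (R * Real.sin q.1) ^ 2 ≤ C ^ 2 := sq_le_sq' (abs_le.1 h4).1 (abs_le.1 h4).2
  have h7 : (R * Real.cos q.1) ^ 2 ≤ C ^ 2 := sq_le_sq' (abs_le.1 h5).1 (abs_le.1 h5).2
  have h8 : R ^ 2 = (R * Real.sin q.1) ^ 2 + (R * Real.cos q.1) ^ 2 := by
    rw [mul_pow, mul_pow, ← mul_add, Real.sin_sq_add_cos_sq, mul_one]
  have h9 : R ^ 2 ≤ (2 * C) ^ 2 := by nlinarith
  exact (pow_le_pow_iff_left₀ h3.le (by positivity) two_ne_zero).1 h9

theorem Rad_lower {L A B : ℝ} {b1 b2 δ : ℝ → ℝ} (hW : Walls L A B b1 b2) (hS : Scale b1 b2 δ)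
    {a : ℝ} (ha : 0 < a) (k : ℝ) {η : ℝ} (hη : 0 < η) :
    ∀ᶠ e in 𝓝[>] (0 : ℝ), ∀ q : ℝ × ℝ, a < q.2 → q.2 < k → e ^ η ≤ Rad L b1 b2 δ e q := by
  have hη2 : 0 < η / 2 := by linarith
  filter_upwards [(HH_tame (L := L) hW hS k).2 1 (η / 2) hη2, hS.pos, self_mem_nhdsWithin,
    PL2_small ha hη2] with e h1 hd he hsm q hq hqk
  have he' : 0 < e := he
  have hq0 : 0 < q.2 := ha.trans hq
  obtain ⟨h3, -⟩ := Rad_spec (δ := δ) hW he' hd hq0
  set R := Rad L b1 b2 δ e q with hR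
  have hmem := PL2_mem (δ := δ) hW he' hd hq0 hqk
  have h0mem : (0 : ℝ × ℝ) ∈ Reg L b1 b2 δ k e := by
    show HH L b1 b2 δ e 0 < k
    rw [HH_zero]
    linarith
  have hdiff : ∀ x ∈ Reg L b1 b2 δ k e, DifferentiableAt ℝ (HH L b1 b2 δ e) x := fun x _ =>
    ((HH_contDiff (δ := δ) hW e).differentiable (by simp)) x
  have hbd : ∀ x ∈ Reg L b1 b2 δ k e, ‖fderiv ℝ (HH L b1 b2 δ e) x‖ ≤ e ^ (-(η / 2)) := by
    intro x hx
    have := h1 x hx
    rwa [norm_iteratedFDeriv_one] at this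
  have h4 := (Reg_convex (L := L) hW k he').norm_image_sub_le_of_norm_fderiv_le hdiff hbd
    h0mem hmem
  rw [HH_zero, sub_zero, sub_zero, HH_Kp hW he' hd hq0, Real.norm_of_nonneg hq0.le] at h4
  have h5 : ‖Kp L b1 b2 δ e q‖ ≤ R := PL2_pol_norm (q.1, R) h3.le
  have h6 : 0 < e ^ (η / 2) := Real.rpow_pos_of_pos he' _
  have h7 : a < e ^ (-(η / 2)) * R :=
    hq.trans_le (h4.trans (mul_le_mul_of_nonneg_left h5 (Real.rpow_nonneg he'.le _)))
  rw [Real.rpow_neg he'.le, inv_mul_eq_div, lt_div_iff₀ h6] at h7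
  have h8 : e ^ η = e ^ (η / 2) * e ^ (η / 2) := by
    rw [← Real.rpow_add he']
    congr 1
    ring
  rw [h8]
  nlinarith

/-- the derivative of the energy in the radial direction -/
private theorem PL2_vir {L A B : ℝ} {b1 b2 δ : ℝ → ℝ} (hW : Walls L A B b1 b2) (e : ℝ)
    (p : ℝ × ℝ) : fderiv ℝ (HH L b1 b2 δ e) p p = Vir L b1 b2 δ e p := by
  have h1 := Wp_hasDerivAt (δ := δ) hW e p.1
  have h2 : HasFDerivAt (fun p : ℝ × ℝ => Wp δ b1 b2 e p.1)
      ((ww δ b1 e p.1 + ww δ b2 e p.1) • ContinuousLinearMap.fst ℝ ℝ ℝ) p :=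
    h1.comp_hasFDerivAt p (hasFDerivAt_fst (p := p))
  have h3 : HasFDerivAt (fun p : ℝ × ℝ => p.2 ^ 2)
      ((2 * p.2) • ContinuousLinearMap.snd ℝ ℝ ℝ) p := by
    have h4 : HasFDerivAt (fun p : ℝ × ℝ => p.2) (ContinuousLinearMap.snd ℝ ℝ ℝ) p :=
      hasFDerivAt_snd
    have h6 : HasFDerivAt (fun p : ℝ × ℝ => p.2 ^ 2)
        (((2 : ℕ) * p.2 ^ (2 - 1) : ℝ) • ContinuousLinearMap.snd ℝ ℝ ℝ) p :=
      (hasDerivAt_pow 2 p.2).comp_hasFDerivAt p h4
    simpa using h6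
  have h5 : HasFDerivAt (HH L b1 b2 δ e) (L • ((2 * p.2) • ContinuousLinearMap.snd ℝ ℝ ℝ) +
      (2 : ℝ) • ((ww δ b1 e p.1 + ww δ b2 e p.1) • ContinuousLinearMap.fst ℝ ℝ ℝ)) p :=
    (h3.const_mul L).add (h2.const_mul 2)
  rw [h5.fderiv]
  unfold Vir
  simp
  ring

private theorem PL2_det (T : ℝ × ℝ →L[ℝ] ℝ × ℝ) :
    T.det = (T (1, 0)).1 * (T (0, 1)).2 - (T (0, 1)).1 * (T (1, 0)).2 := by
  have h1 : T.det = LinearMap.det (T : ℝ × ℝ →ₗ[ℝ] ℝ × ℝ) := rfl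
  rw [h1, ← LinearMap.det_toMatrix (Module.Basis.finTwoProd ℝ), Matrix.det_fin_two]
  simp [LinearMap.toMatrix_apply]

private theorem PL2_pol_deriv (x : ℝ × ℝ) :
    ∃ D : ℝ × ℝ →L[ℝ] ℝ × ℝ, HasFDerivAt pol D x ∧ D (0, 1) = (Real.sin x.1, Real.cos x.1) := by
  have h1 := (hasFDerivAt_snd (𝕜 := ℝ) (E := ℝ) (F := ℝ) (p := x)).mul
    ((hasFDerivAt_fst (𝕜 := ℝ) (E := ℝ) (F := ℝ) (p := x)).sin)
  have h2 := (hasFDerivAt_snd (𝕜 := ℝ) (E := ℝ) (F := ℝ) (p := x)).mul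
    ((hasFDerivAt_fst (𝕜 := ℝ) (E := ℝ) (F := ℝ) (p := x)).cos)
  refine ⟨_, h1.prodMk h2, ?_⟩
  simp

/-- coordinates on the windows -/
private theorem PL2_id (w a k : ℝ) : Tame (Win w a k) (fun _ x => x) := by
  have h := Tame.clm (Ω := Win w a k)
    (Eventually.of_forall fun _ => isOpen_Ioo.prod isOpen_Ioo) (ContinuousLinearMap.id ℝ (ℝ × ℝ))
    (by
      intro η hη
      filter_upwards [PL2_big (max |w| (max |a| |k|)) hη] with e he x hx
      refine le_trans ?_ he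
      obtain ⟨⟨h1, h2⟩, h3, h4⟩ := hx
      have e1 : |x.1| ≤ |w| := by
        rw [abs_le]
        constructor <;> linarith [le_abs_self w]
      have e2 : |x.2| ≤ max |a| |k| := by
        rw [abs_le]
        constructor
        · have := neg_abs_le a
          have := le_max_left |a| |k|
          linarith
        · have := le_abs_self k
          have := le_max_right |a| |k|
          linarith
      rw [Prod.norm_def]
      exact max_le (e1.trans (le_max_left _ _)) (e2.trans (le_max_right _ _)))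
  exact h

theorem Rad_tame {L A B : ℝ} {b1 b2 δ : ℝ → ℝ} (hW : Walls L A B b1 b2) (hS : Scale b1 b2 δ)
    (w k : ℝ) {a : ℝ} (ha : 0 < a) : Tame (Win w a k) (Rad L b1 b2 δ) := by
  obtain ⟨C, hC, hup⟩ := Rad_upper (L := L) hW hS k
  have hpc : Continuous pol := by
    unfold pol
    fun_prop
  set Ω : ℝ → Set (ℝ × ℝ) := fun e => {x | (x.1 ∈ Ioo (-w) w ∧ 0 < x.2) ∧
    (a < HH L b1 b2 δ e (pol x) ∧ HH L b1 b2 δ e (pol x) < k)} with hΩ
  have hcont : ∀ e, Continuous fun x : ℝ × ℝ => HH L b1 b2 δ e (pol x) := fun e =>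
    (HH_contDiff (δ := δ) hW e).continuous.comp hpc
  have hopen : ∀ e, IsOpen (Ω e) := by
    intro e
    refine ((isOpen_Ioo.preimage continuous_fst).inter
      (isOpen_lt continuous_const continuous_snd)).inter
      ((isOpen_lt continuous_const (hcont e)).inter (isOpen_lt (hcont e) continuous_const))
  -- the radius is bounded on `Ω`
  have hRad : ∀ᶠ e in 𝓝[>] (0 : ℝ), ∀ x ∈ Ω e,
      Rad L b1 b2 δ e (x.1, HH L b1 b2 δ e (pol x)) = x.2 ∧ x.2 ≤ C := by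
    filter_upwards [hup, hS.pos, self_mem_nhdsWithin] with e h1 hd he x hx
    have he' : 0 < e := he
    obtain ⟨⟨h2, h3⟩, h4, h5⟩ := hx
    have h6 : x.2 = Rad L b1 b2 δ e (x.1, HH L b1 b2 δ e (pol x)) :=
      Rad_unique hW he' hd (q := (x.1, HH L b1 b2 δ e (pol x))) (ha.trans h4) h3 rfl
    refine ⟨h6.symm, ?_⟩
    rw [h6]
    exact h1 _ (ha.trans h4) h5
  have hnorm : ∀ η : ℝ, 0 < η → ∀ᶠ e in 𝓝[>] (0 : ℝ), ∀ x ∈ Ω e, ‖x‖ ≤ e ^ (-η) := by
    intro η hη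
    filter_upwards [PL2_big (max |w| C) hη, hRad] with e h1 h2 x hx
    refine le_trans ?_ h1
    obtain ⟨h3, h4⟩ := h2 x hx
    obtain ⟨⟨h5, h6⟩, -⟩ := hx
    rw [Prod.norm_def]
    refine max_le ?_ ?_
    · refine le_trans ?_ (le_max_left _ _)
      rw [Real.norm_eq_abs, abs_le]
      constructor <;> linarith [h5.1, h5.2, le_abs_self w]
    · refine le_trans ?_ (le_max_right _ _)
      rw [Real.norm_eq_abs, abs_of_pos h6]
      exact h4
  have hid : Tame Ω (fun _ x => x) :=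
    Tame.clm (Eventually.of_forall hopen) (ContinuousLinearMap.id ℝ (ℝ × ℝ)) hnorm
  have hpol : Tame Ω (fun _ x => pol x) :=
    (hid.snd.mul hid.fst.sin).prodMk (hid.snd.mul hid.fst.cos)
  have hG : Tame Ω (fun e x => HH L b1 b2 δ e (pol x)) :=
    (HH_tame (L := L) hW hS k).comp hpol (Eventually.of_forall fun e x hx => hx.2.2)
  set Φ : ℝ → ℝ × ℝ → ℝ × ℝ := fun e x => (x.1, HH L b1 b2 δ e (pol x)) with hΦ
  have hΦt : Tame Ω Φ := hid.fst.prodMk hG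
  have hinv := Tame.inverse (Ψ := fun e q => (q.1, Rad L b1 b2 δ e q)) hΦt
    (by
      filter_upwards [hRad] with e h1 x hx
      exact Prod.ext rfl (h1 x hx).1)
    (by
      intro η hη
      filter_upwards [hRad, PL2_small (c := a / C) (by positivity) hη, self_mem_nhdsWithin]
        with e h1 h2 he x hx
      have he' : 0 < e := he
      refine h2.trans ?_
      obtain ⟨h3, h4⟩ := h1 x hx
      obtain ⟨⟨h5, h6⟩, h7, h8⟩ := hx
      obtain ⟨D, hD, hD1⟩ := PL2_pol_deriv x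
      have hHd : HasFDerivAt (HH L b1 b2 δ e) (fderiv ℝ (HH L b1 b2 δ e) (pol x)) (pol x) :=
        (((HH_contDiff (δ := δ) hW e).differentiable (by simp)) _).hasFDerivAt
      have hcomp : HasFDerivAt (fun x => HH L b1 b2 δ e (pol x))
          ((fderiv ℝ (HH L b1 b2 δ e) (pol x)).comp D) x := hHd.comp x hD
      have hΦd : HasFDerivAt (Φ e) ((ContinuousLinearMap.fst ℝ ℝ ℝ).prod
          ((fderiv ℝ (HH L b1 b2 δ e) (pol x)).comp D)) x :=
        (hasFDerivAt_fst (p := x)).prodMk hcomp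
      have hdet : (fderiv ℝ (Φ e) x).det =
          fderiv ℝ (HH L b1 b2 δ e) (pol x) (Real.sin x.1, Real.cos x.1) := by
        rw [hΦd.fderiv, PL2_det]
        simp [hD1]
      have hrad : x.2 * fderiv ℝ (HH L b1 b2 δ e) (pol x) (Real.sin x.1, Real.cos x.1) =
          Vir L b1 b2 δ e (pol x) := by
        rw [← PL2_vir hW, ← smul_eq_mul, ← map_smul]
        congr 1
      have hV := Vir_ge (δ := δ) hW he' (pol x)
      rw [hdet]
      refine le_trans ?_ (le_abs_self _)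
      rw [div_le_iff₀ hC]
      have h9 : a ≤ x.2 * fderiv ℝ (HH L b1 b2 δ e) (pol x) (Real.sin x.1, Real.cos x.1) := by
        rw [hrad]
        linarith
      have h10 : 0 < fderiv ℝ (HH L b1 b2 δ e) (pol x) (Real.sin x.1, Real.cos x.1) := by
        by_contra hcon
        push Not at hcon
        have := mul_nonpos_of_nonneg_of_nonpos h6.le hcon
        linarith
      calc a ≤ x.2 * fderiv ℝ (HH L b1 b2 δ e) (pol x) (Real.sin x.1, Real.cos x.1) := h9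
        _ ≤ C * fderiv ℝ (HH L b1 b2 δ e) (pol x) (Real.sin x.1, Real.cos x.1) :=
          mul_le_mul_of_nonneg_right h4 h10.le
        _ = _ := mul_comm _ _)
    hnorm
  have hwin : Tame (Win w a k) (fun e q => (q.1, Rad L b1 b2 δ e q)) := by
    refine hinv.mono ?_
    filter_upwards [hS.pos, self_mem_nhdsWithin] with e hd he
    refine ⟨isOpen_Ioo.prod isOpen_Ioo, ?_⟩
    intro q hq
    obtain ⟨h1, h2, h3⟩ := hq
    obtain ⟨h4, h5⟩ := Rad_spec (δ := δ) hW he hd (q := q) (ha.trans h2)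
    refine ⟨(q.1, Rad L b1 b2 δ e q), ⟨⟨h1, h4⟩, ?_⟩, ?_⟩
    · rw [h5]
      exact ⟨h2, h3⟩
    · exact Prod.ext rfl h5
  exact hwin.snd

theorem Kp_tame {L A B : ℝ} {b1 b2 δ : ℝ → ℝ} (hW : Walls L A B b1 b2) (hS : Scale b1 b2 δ)
    (w k : ℝ) {a : ℝ} (ha : 0 < a) : Tame (Win w a k) (Kp L b1 b2 δ) := by
  have hR := Rad_tame (L := L) hW hS w k ha
  have hid := PL2_id w a k
  exact (hR.mul hid.fst.sin).prodMk (hR.mul hid.fst.cos)

theorem Om_tame {L A B : ℝ} {b1 b2 δ : ℝ → ℝ} (hW : Walls L A B b1 b2) (hS : Scale b1 b2 δ)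
    (w k : ℝ) {a : ℝ} (ha : 0 < a) : Tame (Win w a k) (Om L b1 b2 δ) := by
  have hR := Rad_tame (L := L) hW hS w k ha
  have hV : Tame (Reg L b1 b2 δ k) (Vir L b1 b2 δ) :=
    ((HH_tame (L := L) hW hS k).fd.clm_apply (id_tame_Reg (L := L) hW hS k)).congr
      (Eventually.of_forall fun e x _ => (PL2_vir hW e x).symm)
  have hVK : Tame (Win w a k) (fun e q => Vir L b1 b2 δ e (Kp L b1 b2 δ e q)) := by
    refine hV.comp (Kp_tame (L := L) hW hS w k ha) ?_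
    filter_upwards [hS.pos, self_mem_nhdsWithin] with e hd he q hq
    exact PL2_mem hW he hd (ha.trans hq.2.1) hq.2.2
  have hinv : Tame (Win w a k) (fun e q => (Rad L b1 b2 δ e q ^ 2)⁻¹) := by
    refine (hR.pow 2).inv ?_
    intro η hη
    filter_upwards [Rad_lower (L := L) hW hS ha k (half_pos hη), self_mem_nhdsWithin]
      with e h1 he q hq
    have he' : 0 < e := he
    have h2 := h1 q hq.2.1 hq.2.2
    have h3 : e ^ η = (e ^ (η / 2)) ^ 2 := by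
      rw [← Real.rpow_natCast, ← Real.rpow_mul he'.le]
      congr 1
      push_cast
      ring
    rw [h3]
    refine le_trans ?_ (le_abs_self _)
    exact pow_le_pow_left₀ (Real.rpow_nonneg he'.le _) h2 2
  refine (hVK.mul hinv).congr (Eventually.of_forall fun e q _ => ?_)
  unfold Om
  exact div_eq_mul_inv _ _

theorem Om_lower {L A B : ℝ} {b1 b2 δ : ℝ → ℝ} (hW : Walls L A B b1 b2) (hS : Scale b1 b2 δ)
    (k : ℝ) {a : ℝ} (ha : 0 < a) : ∃ c : ℝ, 0 < c ∧ ∀ᶠ e in 𝓝[>] (0 : ℝ), ∀ q : ℝ × ℝ,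
      a < q.2 → q.2 < k → c ≤ Om L b1 b2 δ e q := by
  obtain ⟨C, hC, hup⟩ := Rad_upper (L := L) hW hS k
  refine ⟨a / C ^ 2, by positivity, ?_⟩
  filter_upwards [hup, hS.pos, self_mem_nhdsWithin] with e h1 hd he q hq hqk
  have he' : 0 < e := he
  have hq0 : 0 < q.2 := ha.trans hq
  obtain ⟨h2, -⟩ := Rad_spec (δ := δ) hW he' hd hq0
  have h3 := h1 q hq0 hqk
  have h4 := Vir_ge (δ := δ) hW he' (Kp L b1 b2 δ e q)
  rw [HH_Kp hW he' hd hq0] at h4
  unfold Om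
  have h5 : Rad L b1 b2 δ e q ^ 2 ≤ C ^ 2 := pow_le_pow_left₀ h2.le h3 2
  have h6 : 0 < Rad L b1 b2 δ e q ^ 2 := by positivity
  exact div_le_div₀ (by linarith) (by linarith) h6 h5

end BB
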