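import Pool.Agent.Lib_helper6.BB.W.PB1
import Pool.Agent.Lib_helper6.BB.W.PE3
import Pool.Agent.Lib_helper6.BB.W.PL2

open Filter Topology Set MeasureTheory
open scoped ContDiff

namespace BB

/-- the area of a sublevel set is bounded from below -/
theorem PB2_areaS_lower {L A B : ℝ} {b1 b2 δ : ℝ → ℝ} (hW : Walls L A B b1 b2)
    (hS : Scale b1 b2 δ) {a : ℝ} (ha : 0 < a) :
    ∃ c : ℝ, 0 < c ∧ ∀ᶠ e in 𝓝[>] (0 : ℝ), c ≤ areaS L b1 b2 δ e a := by
  have hL := hW.L_pos
  set m : ℝ := min 1 (a / 4) with hm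
  have hm0 : 0 < m := by
    rw [hm]
    positivity
  have hm1 : m ≤ 1 := min_le_left _ _
  have hma : m ≤ a / 4 := min_le_right _ _
  set r : ℝ := Real.sqrt (a / (2 * L)) with hr
  have hr0 : 0 < r := Real.sqrt_pos.2 (by positivity)
  refine ⟨m * (2 * r), by positivity, ?_⟩
  obtain ⟨C, hC, hCb⟩ := Reg_bound (δ := δ) hW hS a
  filter_upwards [Iset_reach (δ := δ) hW hS, hCb, self_mem_nhdsWithin] with e ⟨s, hs, hst⟩ hb he
  have hfin : volume (Reg L b1 b2 δ a e) ≠ ⊤ := by
    have h1 : Reg L b1 b2 δ a e ⊆ Metric.closedBall 0 C := by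
      intro p hp
      simpa using hb p hp
    exact ne_of_lt ((measure_mono h1).trans_lt measure_closedBall_lt_top)
  -- the box
  set I : Set ℝ := if s = 1 then Ioo 0 m else Ioo (-m) 0 with hI
  have hvI : volume I = ENNReal.ofReal m := by
    rw [hI]
    split_ifs
    · rw [Real.volume_Ioo]
      simp
    · rw [Real.volume_Ioo]
      simp
  have hsub : I ×ˢ Ioo (-r) r ⊆ Reg L b1 b2 δ a e := by
    rintro ⟨x, p⟩ ⟨hx, hp⟩
    have hx2 : ∃ t ∈ Icc (0 : ℝ) 1, t < m ∧ x = s * t := by
      rw [hI] at hx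
      simp only at hx
      split_ifs at hx with h1
      · exact ⟨x, ⟨hx.1.le, hx.2.le.trans hm1⟩, hx.2, by rw [h1]; ring⟩
      · have h2 : s = -1 := by
          rcases hs with h | h
          · exact absurd h h1
          · exact h
        exact ⟨-x, ⟨by linarith [hx.2], by linarith [hx.1]⟩, by linarith [hx.1], by rw [h2]; ring⟩
    obtain ⟨t, ht, htm, hxt⟩ := hx2
    have h3 := hst t ht
    have h4 : p ^ 2 < a / (2 * L) := by
      have h5 : |p| < r := abs_lt.2 hp
      have h6 : p ^ 2 < r ^ 2 := by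
        rw [← sq_abs p]
        exact pow_lt_pow_left₀ h5 (abs_nonneg _) two_ne_zero
      rwa [hr, Real.sq_sqrt (by positivity)] at h6
    have h7 : L * p ^ 2 < a / 2 := by
      calc L * p ^ 2 < L * (a / (2 * L)) := by gcongr
        _ = a / 2 := by field_simp
    change L * p ^ 2 + 2 * Wp δ b1 b2 e x < a
    rw [hxt]
    linarith
  have hv : volume (I ×ˢ Ioo (-r) r) = ENNReal.ofReal (m * (2 * r)) := by
    rw [Measure.volume_eq_prod, Measure.prod_prod, hvI, Real.volume_Ioo,
      ← ENNReal.ofReal_mul hm0.le]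
    congr 1
    ring
  unfold areaS
  rw [← ENNReal.ofReal_le_iff_le_toReal hfin, ← hv]
  exact measure_mono hsub

/-- uniform bounds for the period -/
theorem Per_bounds {L A B : ℝ} {b1 b2 δ : ℝ → ℝ} (hW : Walls L A B b1 b2) (hS : Scale b1 b2 δ)
    {a k : ℝ} (ha : 0 < a) : ∃ c C : ℝ, 0 < c ∧ 0 < C ∧ ∀ᶠ e in 𝓝[>] (0 : ℝ), ∀ h : ℝ,
      a < h → h < k → c ≤ Per L b1 b2 δ e h ∧ Per L b1 b2 δ e h ≤ C := by
  obtain ⟨c0, hc0, hc0e⟩ := PB2_areaS_lower (δ := δ) hW hS ha
  obtain ⟨c1, hc1, hc1e⟩ := Om_lower (δ := δ) hW hS k ha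
  refine ⟨c0 / (2 * max k 1), 1 / c1 * (2 * Real.pi), by positivity, by positivity, ?_⟩
  filter_upwards [hc0e, hc1e, hS.pos, self_mem_nhdsWithin] with e h0 h1 hd he h hah hhk
  have hh : 0 < h := ha.trans hah
  constructor
  · -- lower bound
    have hder := areaS_hasDerivAt (δ := δ) hW he hd hh
    have hsq : HasDerivAt (fun y => Real.sqrt (y / h) * areaS L b1 b2 δ e h)
        (1 / h / (2 * Real.sqrt (h / h)) * areaS L b1 b2 δ e h) h := by
      have h2 : HasDerivAt (fun y : ℝ => y / h) (1 / h) h := (hasDerivAt_id h).div_const h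
      exact (h2.sqrt (by rw [div_self hh.ne']; exact one_ne_zero)).mul_const _
    have hle : 1 / h / (2 * Real.sqrt (h / h)) * areaS L b1 b2 δ e h ≤ Per L b1 b2 δ e h := by
      by_contra hcon
      push Not at hcon
      have hsub := hder.sub hsq
      have hneg : Per L b1 b2 δ e h - 1 / h / (2 * Real.sqrt (h / h)) * areaS L b1 b2 δ e h < 0 := by
        linarith
      have h3 : ∀ᶠ y in 𝓝[>] h, (areaS L b1 b2 δ e y - Real.sqrt (y / h) * areaS L b1 b2 δ e h) -
          (areaS L b1 b2 δ e h - Real.sqrt (h / h) * areaS L b1 b2 δ e h) < 0 := by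
        have h4 := hsub.hasDerivWithinAt (s := Ioi h)
        rw [hasDerivWithinAt_iff_tendsto_slope' (by simp)] at h4
        have h5 := h4.eventually (gt_mem_nhds hneg)
        filter_upwards [h5, self_mem_nhdsWithin] with y hy hyh
        have h6 : 0 < y - h := sub_pos.2 hyh
        rw [slope_def_field, div_lt_iff₀ h6, zero_mul] at hy
        exact hy
      obtain ⟨y, hy, hyh⟩ := (h3.and self_mem_nhdsWithin).exists
      have h7 := areaS_mono (δ := δ) hW he hd hh (le_of_lt hyh)
      rw [div_self hh.ne', Real.sqrt_one] at hy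
      linarith
    rw [div_self hh.ne', Real.sqrt_one, mul_one] at hle
    have h8 := areaS_mono (δ := δ) hW he hd ha hah.le
    have h9 : 1 ≤ Real.sqrt (h / a) := by
      rw [Real.one_le_sqrt, one_le_div ha]
      exact hah.le
    have h10 : c0 ≤ areaS L b1 b2 δ e h := by
      calc c0 = 1 * c0 := (one_mul _).symm
        _ ≤ Real.sqrt (h / a) * areaS L b1 b2 δ e a :=
          mul_le_mul h9 h0 hc0.le (Real.sqrt_nonneg _)
        _ ≤ _ := h8
    calc c0 / (2 * max k 1) ≤ c0 / (2 * h) := by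
          apply div_le_div_of_nonneg_left hc0.le (by positivity)
          have : h ≤ max k 1 := hhk.le.trans (le_max_left _ _)
          linarith
      _ = 1 / h / 2 * c0 := by
          field_simp
      _ ≤ 1 / h / 2 * areaS L b1 b2 δ e h := by gcongr
      _ ≤ _ := hle
  · -- upper bound
    have h2 : ∀ s ∈ Set.uIoc (0 : ℝ) (2 * Real.pi), ‖1 / Om L b1 b2 δ e (s, h)‖ ≤ 1 / c1 := by
      intro s _
      have h3 := h1 (s, h) hah hhk
      have h31 : 0 < Om L b1 b2 δ e (s, h) := hc1.trans_le h3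
      rw [Real.norm_eq_abs, abs_of_pos (one_div_pos.2 h31)]
      exact one_div_le_one_div_of_le hc1 h3
    have h4 := intervalIntegral.norm_integral_le_of_norm_le_const h2
    rw [sub_zero, abs_of_pos (by positivity)] at h4
    exact (le_abs_self _).trans h4

end BB
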