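import Pool.Agent.Lib_helper6.BB.Defs

open Filter Topology Set MeasureTheory
open scoped ContDiff

namespace BB

theorem PT_int_nonneg {f : ℝ → ℝ} (hf : Monotone f) (hc : Continuous f) (h0 : f 0 = 0) (x : ℝ) :
    0 ≤ ∫ s in (0 : ℝ)..x, f s := by
  rcases le_total 0 x with hx | hx
  · refine intervalIntegral.integral_nonneg hx fun s hs => ?_
    rw [← h0]
    exact hf hs.1
  · rw [intervalIntegral.integral_symm, neg_nonneg]
    have h1 : (∫ s in x..(0:ℝ), f s) ≤ ∫ s in x..(0:ℝ), (0:ℝ) := by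
      refine intervalIntegral.integral_mono_on hx (hc.intervalIntegrable _ _)
        (by simp) fun s hs => ?_
      rw [← h0]
      exact hf hs.2
    simpa using h1

theorem PT_cont {L A B : ℝ} {b1 b2 : ℝ → ℝ} (hW : Walls L A B b1 b2) :
    Continuous (fun s => b1 s + b2 s) :=
  hW.smooth1.continuous.add hW.smooth2.continuous

theorem PT_mono {L A B : ℝ} {b1 b2 : ℝ → ℝ} (hW : Walls L A B b1 b2) :
    Monotone (fun s => b1 s + b2 s) := fun _ _ h => add_le_add (hW.mono1 h) (hW.mono2 h)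

theorem pot_hasDerivAt {L A B : ℝ} {b1 b2 : ℝ → ℝ} (hW : Walls L A B b1 b2) (x : ℝ) :
    HasDerivAt (pot b1 b2) (b1 x + b2 x) x :=
  ((PT_cont hW).integral_hasStrictDerivAt 0 x).hasDerivAt

theorem pot_contDiff {L A B : ℝ} {b1 b2 : ℝ → ℝ} (hW : Walls L A B b1 b2) :
    ContDiff ℝ ∞ (pot b1 b2) := by
  rw [contDiff_infty_iff_deriv]
  refine ⟨fun x => (pot_hasDerivAt hW x).differentiableAt, ?_⟩
  have h : deriv (pot b1 b2) = fun x => b1 x + b2 x := by
    funext x
    exact (pot_hasDerivAt hW x).deriv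
  rw [h]
  exact hW.smooth1.add hW.smooth2

theorem pot_zero (b1 b2 : ℝ → ℝ) : pot b1 b2 0 = 0 := by
  unfold pot
  exact intervalIntegral.integral_same

theorem pot_nonneg {L A B : ℝ} {b1 b2 : ℝ → ℝ} (hW : Walls L A B b1 b2) (x : ℝ) :
    0 ≤ pot b1 b2 x :=
  PT_int_nonneg (PT_mono hW) (PT_cont hW) (by simp [hW.zero1, hW.zero2]) x

theorem pot_convex {L A B : ℝ} {b1 b2 : ℝ → ℝ} (hW : Walls L A B b1 b2) :
    ConvexOn ℝ univ (pot b1 b2) := by
  refine Monotone.convexOn_univ_of_deriv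
    (fun x => (pot_hasDerivAt hW x).differentiableAt) ?_
  have h : deriv (pot b1 b2) = fun x => b1 x + b2 x := by
    funext x
    exact (pot_hasDerivAt hW x).deriv
  rw [h]
  exact PT_mono hW

theorem pot_scale {L A B : ℝ} {b1 b2 : ℝ → ℝ} (hW : Walls L A B b1 b2) {t : ℝ} (ht : t ∈ Icc (0 : ℝ) 1)
    (x : ℝ) : pot b1 b2 (t * x) ≤ t * pot b1 b2 x := by
  have h := (pot_convex hW).2 (mem_univ x) (mem_univ (0:ℝ)) ht.1 (sub_nonneg.2 ht.2)
    (by ring : t + (1 - t) = 1)
  simp only [smul_eq_mul, mul_zero, add_zero, pot_zero] at h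
  exact h

theorem pot_mul_deriv {L A B : ℝ} {b1 b2 : ℝ → ℝ} (hW : Walls L A B b1 b2) (x : ℝ) :
    pot b1 b2 x ≤ x * (b1 x + b2 x) := by
  unfold pot
  rcases le_total 0 x with hx | hx
  · have h1 : (∫ s in (0:ℝ)..x, (b1 s + b2 s)) ≤ ∫ s in (0:ℝ)..x, (b1 x + b2 x) :=
      intervalIntegral.integral_mono_on hx ((PT_cont hW).intervalIntegrable _ _) (by simp)
        fun s hs => PT_mono hW hs.2
    rw [intervalIntegral.integral_const, smul_eq_mul, sub_zero] at h1
    exact h1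
  · rw [intervalIntegral.integral_symm]
    have h1 : (∫ s in x..(0:ℝ), (b1 x + b2 x)) ≤ ∫ s in x..(0:ℝ), (b1 s + b2 s) :=
      intervalIntegral.integral_mono_on hx (by simp) ((PT_cont hW).intervalIntegrable _ _)
        fun s hs => PT_mono hW hs.1
    rw [intervalIntegral.integral_const, smul_eq_mul] at h1
    linarith

/-- each wall contributes a nonnegative part -/
theorem part_nonneg {L A B : ℝ} {b1 b2 : ℝ → ℝ} (hW : Walls L A B b1 b2) (x : ℝ) :
    0 ≤ (∫ s in (0 : ℝ)..x, b1 s) ∧ 0 ≤ (∫ s in (0 : ℝ)..x, b2 s) ∧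
      pot b1 b2 x = (∫ s in (0 : ℝ)..x, b1 s) + ∫ s in (0 : ℝ)..x, b2 s := by
  refine ⟨PT_int_nonneg hW.mono1 hW.smooth1.continuous hW.zero1 x,
    PT_int_nonneg hW.mono2 hW.smooth2.continuous hW.zero2 x, ?_⟩
  unfold pot
  exact intervalIntegral.integral_add (hW.smooth1.continuous.intervalIntegrable _ _)
    (hW.smooth2.continuous.intervalIntegrable _ _)

theorem PT_step {f : ℝ → ℝ} (hf : ContDiff ℝ ∞ f) (h0 : f 0 = 0) {K x : ℝ}
    (hb : ∀ y, |y| ≤ |x| → |deriv f y| ≤ K) : |f x| ≤ K * |x| := by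
  have h1 := Convex.norm_image_sub_le_of_norm_deriv_le (f := f) (s := Icc (-|x|) |x|) (C := K)
    (x := 0) (y := x) (fun y _ => (hf.differentiable (by simp)).differentiableAt)
    (fun y hy => by
      rw [Real.norm_eq_abs]
      exact hb y (abs_le.2 hy)) (convex_Icc _ _)
    ⟨by linarith [abs_nonneg x], abs_nonneg x⟩ ⟨neg_abs_le x, le_abs_self x⟩
  rw [h0, sub_zero, sub_zero, Real.norm_eq_abs, Real.norm_eq_abs] at h1
  exact h1

/-- flatness: `b1' ≥ 0` vanishes at `0`, so `b1'' (0) = 0` and `U = O (x ^ 4)` -/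
theorem pot_flat {L A B : ℝ} {b1 b2 : ℝ → ℝ} (hW : Walls L A B b1 b2) :
    ∃ C : ℝ, 0 < C ∧ ∀ x ∈ Icc (-1 : ℝ) 1, pot b1 b2 x ≤ C * x ^ 4 := by
  set g : ℝ → ℝ := fun s => b1 s + b2 s with hg
  have g0 : ContDiff ℝ ∞ g := hW.smooth1.add hW.smooth2
  have g1 : ContDiff ℝ ∞ (deriv g) := (contDiff_infty_iff_deriv.1 g0).2
  have g2 : ContDiff ℝ ∞ (deriv (deriv g)) := (contDiff_infty_iff_deriv.1 g1).2
  have g3 : ContDiff ℝ ∞ (deriv (deriv (deriv g))) := (contDiff_infty_iff_deriv.1 g2).2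
  have z0 : g 0 = 0 := by simp [hg, hW.zero1, hW.zero2]
  have z1 : deriv g 0 = 0 := by
    have h1 : HasDerivAt b1 (deriv b1 0) 0 :=
      ((hW.smooth1.differentiable (by simp)).differentiableAt).hasDerivAt
    have h2 : HasDerivAt b2 (deriv b2 0) 0 :=
      ((hW.smooth2.differentiable (by simp)).differentiableAt).hasDerivAt
    have h3 : HasDerivAt g (deriv b1 0 + deriv b2 0) 0 := h1.add h2
    rw [h3.deriv, hW.flat1, hW.flat2, add_zero]
  have z2 : deriv (deriv g) 0 = 0 := by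
    have h1 : IsLocalMin (deriv g) 0 := by
      refine Eventually.of_forall fun y => ?_
      rw [z1]
      exact (PT_mono hW).deriv_nonneg
    exact h1.deriv_eq_zero
  obtain ⟨M, hM⟩ := (isCompact_Icc (a := (-1:ℝ)) (b := 1)).exists_bound_of_continuousOn
    (g3.continuous.continuousOn)
  have hM' : ∀ y ∈ Icc (-1:ℝ) 1, |deriv (deriv (deriv g)) y| ≤ |M| + 1 := by
    intro y hy
    have := hM y hy
    rw [Real.norm_eq_abs] at this
    linarith [le_abs_self M]
  refine ⟨|M| + 1, by positivity, ?_⟩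
  intro x hx
  have hx1 : |x| ≤ 1 := abs_le.2 hx
  have k2 : ∀ y, |y| ≤ |x| → |deriv (deriv g) y| ≤ (|M| + 1) * |x| := by
    intro y hy
    refine (PT_step g2 z2 (K := |M| + 1) fun z hz => ?_).trans
      (mul_le_mul_of_nonneg_left hy (by positivity))
    exact hM' z (abs_le.1 ((hz.trans hy).trans hx1))
  have k1 : ∀ y, |y| ≤ |x| → |deriv g y| ≤ (|M| + 1) * |x| * |x| := by
    intro y hy
    refine (PT_step g1 z1 (K := (|M| + 1) * |x|) fun z hz => ?_).trans
      (mul_le_mul_of_nonneg_left hy (by positivity))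
    exact k2 z (hz.trans hy)
  have k0 : |g x| ≤ (|M| + 1) * |x| * |x| * |x| := PT_step g0 z0 k1
  calc pot b1 b2 x ≤ x * g x := pot_mul_deriv hW x
    _ ≤ |x * g x| := le_abs_self _
    _ = |x| * |g x| := abs_mul _ _
    _ ≤ |x| * ((|M| + 1) * |x| * |x| * |x|) := mul_le_mul_of_nonneg_left k0 (abs_nonneg x)
    _ = (|M| + 1) * x ^ 4 := by
      have h2 : x ^ 4 = |x| ^ 4 := by
        rw [← abs_pow, abs_of_nonneg (by positivity)]
      rw [h2]
      ring

/-- the potential is positive outside `(-A, B)`, uniformly -/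
theorem pot_barrier {L A B : ℝ} {b1 b2 : ℝ → ℝ} (hW : Walls L A B b1 b2) :
    ∃ c : ℝ, 0 < c ∧ ∀ x : ℝ, pot b1 b2 x < c → x ∈ Ioo (-A) B := by
  have key : ∀ x, b1 x + b2 x ≠ 0 → 0 < pot b1 b2 x := by
    intro x hx
    by_contra hneg
    have h1 : IsLocalMin (pot b1 b2) x := by
      refine Eventually.of_forall fun y => ?_
      exact (not_lt.1 hneg).trans (pot_nonneg hW y)
    have h2 := h1.deriv_eq_zero
    rw [(pot_hasDerivAt hW x).deriv] at h2
    exact hx h2
  refine ⟨min (pot b1 b2 B) (pot b1 b2 (-A)),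
    lt_min (key B hW.posB.ne') (key (-A) hW.posA.ne), ?_⟩
  intro x hx
  obtain ⟨hB, hA⟩ := lt_min_iff.1 hx
  have hA0 := hW.A_pos
  have hB0 := hW.B_pos
  constructor
  · by_contra hneg
    have hle : x ≤ -A := not_lt.1 hneg
    have hx0 : x < 0 := by linarith
    have ht : (-A) / x ∈ Icc (0:ℝ) 1 := by
      constructor
      · exact div_nonneg_of_nonpos (by linarith) hx0.le
      · rw [div_le_one_of_neg hx0]
        exact hle
    have h1 := pot_scale hW ht x
    rw [div_mul_cancel₀ _ hx0.ne] at h1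
    have h2 : (-A) / x * pot b1 b2 x ≤ 1 * pot b1 b2 x :=
      mul_le_mul_of_nonneg_right ht.2 (pot_nonneg hW x)
    linarith
  · by_contra hneg
    have hle : B ≤ x := not_lt.1 hneg
    have hx0 : 0 < x := by linarith
    have ht : B / x ∈ Icc (0:ℝ) 1 := by
      constructor
      · positivity
      · rw [div_le_one hx0]
        exact hle
    have h1 := pot_scale hW ht x
    rw [div_mul_cancel₀ _ hx0.ne'] at h1
    have h2 : B / x * pot b1 b2 x ≤ 1 * pot b1 b2 x :=
      mul_le_mul_of_nonneg_right ht.2 (pot_nonneg hW x)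
    linarith

end BB
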