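import Pool.Agent.Lib_helper6.BB.Defs
import Pool.Agent.Lib_helper6.BB.W.PT

/-!
# BB, block SC: the length scale
-/

open Filter Topology Set MeasureTheory
open scoped ContDiff

namespace BB

theorem SC_ev_pos : ∀ᶠ e in 𝓝[>] (0 : ℝ), 0 < e := self_mem_nhdsWithin

theorem SC_ev_lt {c : ℝ} (hc : 0 < c) : ∀ᶠ e in 𝓝[>] (0 : ℝ), e < c :=
  mem_nhdsWithin_of_mem_nhds (Iio_mem_nhds hc)

theorem SC_ev_rpow_le {η c : ℝ} (hη : 0 < η) (hc : 0 < c) :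
    ∀ᶠ e in 𝓝[>] (0 : ℝ), e ^ η ≤ c := by
  have h1 : Tendsto (fun e : ℝ => e ^ η) (𝓝[>] (0 : ℝ)) (𝓝 0) := by
    have h2 : ContinuousAt (fun e : ℝ => e ^ η) 0 := Real.continuousAt_rpow_const 0 η (Or.inr hη.le)
    have h3 : Tendsto (fun e : ℝ => e ^ η) (𝓝 (0 : ℝ)) (𝓝 ((0 : ℝ) ^ η)) := h2
    rw [Real.zero_rpow hη.ne'] at h3
    exact h3.mono_left nhdsWithin_le_nhds
  exact (h1.eventually (gt_mem_nhds hc)).mono fun e he => he.le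

theorem SC_ev_le_rpow_neg {η : ℝ} (hη : 0 < η) (C : ℝ) :
    ∀ᶠ e in 𝓝[>] (0 : ℝ), C ≤ e ^ (-η) := by
  have hC : 0 < (|C| + 1)⁻¹ := by positivity
  filter_upwards [SC_ev_rpow_le hη hC, SC_ev_pos] with e he he0
  have h1 : 0 < e ^ η := Real.rpow_pos_of_pos he0 η
  rw [Real.rpow_neg he0.le]
  have h2 : |C| + 1 ≤ (e ^ η)⁻¹ := by
    rw [le_inv_comm₀ (by positivity) h1]
    exact he
  exact (le_abs_self C).trans ((by linarith : |C| ≤ |C| + 1).trans h2)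

theorem SC_choice {L A B : ℝ} {b1 b2 : ℝ → ℝ} (hW : Walls L A B b1 b2) {c : ℝ}
    (hc : ∀ x : ℝ, pot b1 b2 x < c → x ∈ Ioo (-A) B) (e : ℝ) (he : 0 < e) (hec : e < c) :
    ∃ x0 : ℝ, pot b1 b2 x0 ≤ e ∧ ∀ x : ℝ, pot b1 b2 x ≤ e → |x| ≤ |x0| := by
  have hcont : Continuous (pot b1 b2) := (pot_contDiff hW).continuous
  have hcl : IsClosed {x : ℝ | pot b1 b2 x ≤ e} := isClosed_le hcont continuous_const
  have hsub : {x : ℝ | pot b1 b2 x ≤ e} ⊆ Icc (-A) B := fun x hx =>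
    Ioo_subset_Icc_self (hc x (lt_of_le_of_lt hx hec))
  have hcomp : IsCompact {x : ℝ | pot b1 b2 x ≤ e} := isCompact_Icc.of_isClosed_subset hcl hsub
  have hne : ({x : ℝ | pot b1 b2 x ≤ e}).Nonempty := ⟨0, by
    show pot b1 b2 0 ≤ e
    rw [pot_zero]; exact he.le⟩
  obtain ⟨x0, hx0, hmax⟩ := hcomp.exists_isMaxOn hne continuous_abs.continuousOn
  exact ⟨x0, hx0, fun x hx => hmax hx⟩

theorem SC_between {L A B : ℝ} {b1 b2 : ℝ → ℝ} (hW : Walls L A B b1 b2) {e t x0 : ℝ}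
    (h0 : pot b1 b2 x0 ≤ e) (ht : t ∈ Icc (0 : ℝ) 1) : pot b1 b2 (t * x0) ≤ e := by
  have h1 := pot_scale hW ht x0
  have h2 := pot_nonneg hW x0
  have h3 : t * pot b1 b2 x0 ≤ 1 * pot b1 b2 x0 := mul_le_mul_of_nonneg_right ht.2 h2
  linarith

theorem exists_scale {L A B : ℝ} {b1 b2 : ℝ → ℝ} (hW : Walls L A B b1 b2) :
    ∃ δ : ℝ → ℝ, Scale b1 b2 δ := by
  obtain ⟨c, hc0, hc⟩ := pot_barrier hW
  obtain ⟨C, hC0, hC⟩ := pot_flat hW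
  have key : ∀ e : ℝ, ∃ x0 : ℝ, 0 < e → e < c →
      (pot b1 b2 x0 ≤ e ∧ ∀ x : ℝ, pot b1 b2 x ≤ e → |x| ≤ |x0|) := by
    intro e
    by_cases he : 0 < e ∧ e < c
    · obtain ⟨x0, h1, h2⟩ := SC_choice hW hc e he.1 he.2
      exact ⟨x0, fun _ _ => ⟨h1, h2⟩⟩
    · exact ⟨0, fun h1 h2 => absurd ⟨h1, h2⟩ he⟩
  choose ξ hξ using key
  have hlow : ∀ᶠ e in 𝓝[>] (0 : ℝ), C ^ (-(1 / 4 : ℝ)) * e ^ (1 / 4 : ℝ) ≤ |ξ e| := by
    filter_upwards [SC_ev_pos, SC_ev_lt hc0, SC_ev_lt hC0] with e he hec heC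
    have h1 : (0 : ℝ) < e / C := by positivity
    have hx0 : 0 ≤ (e / C) ^ (1 / 4 : ℝ) := Real.rpow_nonneg h1.le _
    have hx1 : (e / C) ^ (1 / 4 : ℝ) ≤ 1 := by
      apply Real.rpow_le_one h1.le _ (by norm_num)
      rw [div_le_one hC0]; exact heC.le
    have h4 : ((e / C) ^ (1 / 4 : ℝ)) ^ 4 = e / C := by
      rw [← Real.rpow_natCast, ← Real.rpow_mul h1.le]
      norm_num
    have h5 : pot b1 b2 ((e / C) ^ (1 / 4 : ℝ)) ≤ e := by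
      refine (hC _ ⟨by linarith, hx1⟩).trans ?_
      rw [h4]
      exact (mul_div_cancel₀ e hC0.ne').le
    have h6 := (hξ e he hec).2 _ h5
    rw [abs_of_nonneg hx0] at h6
    have h7 : (e / C) ^ (1 / 4 : ℝ) = C ^ (-(1 / 4 : ℝ)) * e ^ (1 / 4 : ℝ) := by
      rw [Real.div_rpow he.le hC0.le, Real.rpow_neg hC0.le, div_eq_inv_mul]
    rw [← h7]; exact h6
  refine ⟨fun e => |ξ e|, ?_, ⟨A + B, ?_⟩, ⟨C ^ (-(1 / 4 : ℝ)), Real.rpow_pos_of_pos hC0 _, hlow⟩,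
    ?_, ?_⟩
  · filter_upwards [hlow, SC_ev_pos] with e he he0
    have h1 : 0 < C ^ (-(1 / 4 : ℝ)) * e ^ (1 / 4 : ℝ) :=
      mul_pos (Real.rpow_pos_of_pos hC0 _) (Real.rpow_pos_of_pos he0 _)
    exact lt_of_lt_of_le h1 he
  · filter_upwards [SC_ev_pos, SC_ev_lt hc0] with e he hec
    have h1 := hc _ (lt_of_le_of_lt (hξ e he hec).1 hec)
    have hA := hW.A_pos
    have hB := hW.B_pos
    rw [abs_le]
    exact ⟨by linarith [h1.1], by linarith [h1.2]⟩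
  · filter_upwards [SC_ev_pos, SC_ev_lt hc0] with e he hec
    exact (hξ e he hec).2
  · filter_upwards [SC_ev_pos, SC_ev_lt hc0] with e he hec
    have h0 := (hξ e he hec).1
    rcases lt_trichotomy (ξ e) 0 with hneg | hz | hpos
    · right
      intro x hx
      rw [abs_of_neg hneg, neg_neg] at hx
      have h1 := SC_between hW (t := x / ξ e) h0 ⟨div_nonneg_of_nonpos hx.2 hneg.le, by
        rw [div_le_one_of_neg hneg]; exact hx.1⟩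
      rwa [div_mul_cancel₀ x hneg.ne] at h1
    · left
      intro x hx
      rw [hz, abs_zero] at hx
      have hx' : x = 0 := le_antisymm hx.2 hx.1
      rw [hx', pot_zero]; exact he.le
    · left
      intro x hx
      rw [abs_of_pos hpos] at hx
      have h1 := SC_between hW (t := x / ξ e) h0 ⟨div_nonneg hx.1 hpos.le, by
        rw [div_le_one hpos]; exact hx.2⟩
      rwa [div_mul_cancel₀ x hpos.ne'] at h1

theorem SC_mu_le {b1 b2 δ : ℝ → ℝ} (hS : Scale b1 b2 δ) :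
    ∀ᶠ e in 𝓝[>] (0 : ℝ), 0 < mu δ e ∧ mu δ e ≤ e ^ (1 / 8 : ℝ) := by
  obtain ⟨c, hc, hlow⟩ := hS.lower
  filter_upwards [hlow, hS.pos, SC_ev_pos, SC_ev_rpow_le (η := 1 / 8) (by norm_num) hc]
    with e he hδ he0 hs
  have hq : 0 < e ^ (1 / 4 : ℝ) := Real.rpow_pos_of_pos he0 _
  have h8 : 0 < e ^ (1 / 8 : ℝ) := Real.rpow_pos_of_pos he0 _
  refine ⟨div_pos (Real.sqrt_pos.2 he0) hδ, ?_⟩
  unfold mu
  rw [div_le_iff₀ hδ]
  have h1 : Real.sqrt e = e ^ (1 / 8 : ℝ) * (e ^ (1 / 8 : ℝ) * e ^ (1 / 4 : ℝ)) := by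
    rw [Real.sqrt_eq_rpow, ← Real.rpow_add he0, ← Real.rpow_add he0]
    norm_num
  rw [h1]
  refine mul_le_mul_of_nonneg_left ?_ h8.le
  calc e ^ (1 / 8 : ℝ) * e ^ (1 / 4 : ℝ) ≤ c * e ^ (1 / 4 : ℝ) :=
        mul_le_mul_of_nonneg_right hs hq.le
    _ ≤ δ e := he

theorem mu_fast {b1 b2 δ : ℝ → ℝ} (hS : Scale b1 b2 δ) : Fast (mu δ) := by
  refine ⟨1 / 8, by norm_num, ?_⟩
  filter_upwards [SC_mu_le hS] with e he
  rw [abs_of_pos he.1]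
  exact he.2

theorem mu_pos {b1 b2 δ : ℝ → ℝ} (hS : Scale b1 b2 δ) :
    ∀ᶠ e in 𝓝[>] (0 : ℝ), 0 < mu δ e ∧ mu δ e ≤ 1 := by
  filter_upwards [SC_mu_le hS, SC_ev_rpow_le (η := 1 / 8) (by norm_num) one_pos] with e he h1
  exact ⟨he.1, he.2.trans h1⟩

/-- `√e ≤ C μ` -/
theorem sqrt_le_mu {b1 b2 δ : ℝ → ℝ} (hS : Scale b1 b2 δ) :
    ∃ C : ℝ, 0 < C ∧ ∀ᶠ e in 𝓝[>] (0 : ℝ), Real.sqrt e ≤ C * mu δ e := by
  obtain ⟨C, hC⟩ := hS.upper
  refine ⟨|C| + 1, by positivity, ?_⟩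
  filter_upwards [hC, hS.pos] with e he hδ
  unfold mu
  rw [mul_div_assoc', le_div_iff₀ hδ, mul_comm]
  refine mul_le_mul_of_nonneg_right ?_ (Real.sqrt_nonneg e)
  exact he.trans ((le_abs_self C).trans (by linarith))

theorem delta_slow {b1 b2 δ : ℝ → ℝ} (hS : Scale b1 b2 δ) : Slow δ := by
  intro η hη
  obtain ⟨C, hC⟩ := hS.upper
  filter_upwards [hC, hS.pos, SC_ev_le_rpow_neg hη C] with e he hδ hb
  rw [abs_of_pos hδ]
  exact he.trans hb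

/-- the ratio `√e / μ` is slow (it is bounded) -/
theorem ratio_slow {b1 b2 δ : ℝ → ℝ} (hS : Scale b1 b2 δ) :
    Slow (fun e => Real.sqrt e / mu δ e) := by
  intro η hη
  filter_upwards [delta_slow hS η hη, hS.pos, SC_ev_pos] with e he hδ he0
  have hs : Real.sqrt e ≠ 0 := (Real.sqrt_pos.2 he0).ne'
  have h1 : Real.sqrt e / mu δ e = δ e := by
    unfold mu
    field_simp
  rw [h1]
  exact he

end BB
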