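import Pool.Agent.Lib_helper6.BB.W.PB1
import Pool.Agent.Lib_helper6.BB.W.PE3
import Pool.Agent.Lib_helper6.BB.W.PE1
import Pool.Agent.Lib_helper6.BB.W.SC

open Filter Topology Set MeasureTheory
open scoped ContDiff

namespace BB

/-- the area of a sublevel set is bounded from below -/
theorem PB3_areaS_lower {L A B : ℝ} {b1 b2 δ : ℝ → ℝ} (hW : Walls L A B b1 b2)
    (hS : Scale b1 b2 δ) {a : ℝ} (ha : 0 < a) :
    ∃ c : ℝ, 0 < c ∧ ∀ᶠ e in 𝓝[>] (0 : ℝ), c ≤ areaS L b1 b2 δ e a := by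
  have hL := hW.L_pos
  set m : ℝ := min 1 (a / 4) with hm
  have hm0 : 0 < m := by
    rw [hm]
    positivity
  have hm1 : m ≤ 1 := min_le_left _ _
  have hma : m ≤ a / 4 := min_le_right _ _
  set r : ℝ := Real.sqrt (a / (2 * L)) with hr
  have hr0 : 0 < r := Real.sqrt_pos.2 (by positivity)
  refine ⟨m * (2 * r), by positivity, ?_⟩
  obtain ⟨C, hC, hCb⟩ := Reg_bound (δ := δ) hW hS a
  filter_upwards [Iset_reach (δ := δ) hW hS, hCb, self_mem_nhdsWithin] with e ⟨s, hs, hst⟩ hb he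
  have hfin : volume (Reg L b1 b2 δ a e) ≠ ⊤ := by
    have h1 : Reg L b1 b2 δ a e ⊆ Metric.closedBall 0 C := by
      intro p hp
      simpa using hb p hp
    exact ne_of_lt ((measure_mono h1).trans_lt measure_closedBall_lt_top)
  -- the box
  set I : Set ℝ := if s = 1 then Ioo 0 m else Ioo (-m) 0 with hI
  have hvI : volume I = ENNReal.ofReal m := by
    rw [hI]
    split_ifs
    · rw [Real.volume_Ioo]
      simp
    · rw [Real.volume_Ioo]
      simp
  have hsub : I ×ˢ Ioo (-r) r ⊆ Reg L b1 b2 δ a e := by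
    rintro ⟨x, p⟩ ⟨hx, hp⟩
    have hx2 : ∃ t ∈ Icc (0 : ℝ) 1, t < m ∧ x = s * t := by
      rw [hI] at hx
      simp only at hx
      split_ifs at hx with h1
      · exact ⟨x, ⟨hx.1.le, hx.2.le.trans hm1⟩, hx.2, by rw [h1]; ring⟩
      · have h2 : s = -1 := by
          rcases hs with h | h
          · exact absurd h h1
          · exact h
        exact ⟨-x, ⟨by linarith [hx.2], by linarith [hx.1]⟩, by linarith [hx.1], by rw [h2]; ring⟩
    obtain ⟨t, ht, htm, hxt⟩ := hx2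
    have h3 := hst t ht
    have h4 : p ^ 2 < a / (2 * L) := by
      have h5 : |p| < r := abs_lt.2 hp
      have h6 : p ^ 2 < r ^ 2 := by
        rw [← sq_abs p]
        exact pow_lt_pow_left₀ h5 (abs_nonneg _) two_ne_zero
      rwa [hr, Real.sq_sqrt (by positivity)] at h6
    have h7 : L * p ^ 2 < a / 2 := by
      calc L * p ^ 2 < L * (a / (2 * L)) := by gcongr
        _ = a / 2 := by field_simp
    change L * p ^ 2 + 2 * Wp δ b1 b2 e x < a
    rw [hxt]
    linarith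
  have hv : volume (I ×ˢ Ioo (-r) r) = ENNReal.ofReal (m * (2 * r)) := by
    rw [Measure.volume_eq_prod, Measure.prod_prod, hvI, Real.volume_Ioo,
      ← ENNReal.ofReal_mul hm0.le]
    congr 1
    ring
  unfold areaS
  rw [← ENNReal.ofReal_le_iff_le_toReal hfin, ← hv]
  exact measure_mono hsub

/-- the area in terms of the scaled area -/
theorem PB3_area_eq {L A B : ℝ} {b1 b2 δ : ℝ → ℝ} (hW : Walls L A B b1 b2) {e : ℝ} (he : 0 < e)
    (hd : 0 < δ e) (E : ℝ) :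
    area L b1 b2 E = δ e * Real.sqrt e * areaS L b1 b2 δ e (E / e) := by
  rw [areaS_scale (δ := δ) hW he hd (E / e), mul_div_cancel₀ _ he.ne']
  have h1 : 0 < Real.sqrt e := Real.sqrt_pos.2 he
  field_simp

theorem PB3_area_hasDerivAt {L A B : ℝ} {b1 b2 δ : ℝ → ℝ} (hW : Walls L A B b1 b2) {e : ℝ}
    (he : 0 < e) (hd : 0 < δ e) {E : ℝ} (hE : 0 < E) :
    HasDerivAt (area L b1 b2) (δ e * Real.sqrt e / e * Per L b1 b2 δ e (E / e)) E := by
  have h1 : HasDerivAt (fun y : ℝ => y / e) (1 / e) E := (hasDerivAt_id E).div_const e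
  have h2 := areaS_hasDerivAt (δ := δ) hW he hd (div_pos hE he)
  have h3 := (HasDerivAt.comp E h2 h1).const_mul (δ e * Real.sqrt e)
  have h4 : area L b1 b2 = fun E => δ e * Real.sqrt e * ((areaS L b1 b2 δ e) ∘ fun y => y / e) E := by
    funext E
    exact PB3_area_eq hW he hd E
  rw [h4]
  refine h3.congr_deriv ?_
  ring

/-- the twist condition holds for arbitrarily small `e` -/
theorem twist {L A B : ℝ} {b1 b2 δ : ℝ → ℝ} (hW : Walls L A B b1 b2) (hS : Scale b1 b2 δ) :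
    ∃ᶠ e in 𝓝[>] (0 : ℝ), deriv (Per L b1 b2 δ e) 1 ≤ -(1 / 8) * Per L b1 b2 δ e 1 := by
  by_contra hcon
  rw [Filter.not_frequently] at hcon
  obtain ⟨c0, hc0, hc0e⟩ := PB3_areaS_lower (δ := δ) hW hS (a := 1) one_pos
  obtain ⟨c1, hc1, hc1e⟩ := hS.lower
  have hall := hcon.and ((Per_tame (δ := δ) hW hS 2 (a := 1 / 2) (by norm_num)).1.and
    (hS.pos.and (hc0e.and hc1e)))
  obtain ⟨ε, hε, hsub⟩ := (mem_nhdsGT_iff_exists_Ioo_subset).1 hall
  have hε0 : (0 : ℝ) < ε := hε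
  set D : ℝ → ℝ := deriv (area L b1 b2) with hD
  -- first and second derivative of the area
  have hD1 : ∀ e ∈ Ioo 0 ε, ∀ E : ℝ, 0 < E →
      D E = δ e * Real.sqrt e / e * Per L b1 b2 δ e (E / e) := by
    intro e he E hE
    exact (PB3_area_hasDerivAt (δ := δ) hW he.1 (hsub he).2.2.1 hE).deriv
  have hA1 : ∀ E ∈ Ioo 0 ε, HasDerivAt (area L b1 b2) (D E) E := by
    intro E hE
    have h1 := PB3_area_hasDerivAt (δ := δ) hW hE.1 (hsub hE).2.2.1 hE.1
    rwa [← hD1 E hE E hE.1] at h1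
  have hD2 : ∀ e ∈ Ioo 0 ε, HasDerivAt D
      (δ e * Real.sqrt e / e * (deriv (Per L b1 b2 δ e) 1 / e)) e := by
    intro e he
    have hdiff : DifferentiableAt ℝ (Per L b1 b2 δ e) 1 := by
      have h1 := (hsub he).2.1.2
      have h2 : Ioo (1 / 2 : ℝ) 2 ∈ 𝓝 (1 : ℝ) := Ioo_mem_nhds (by norm_num) (by norm_num)
      exact (h1.contDiffAt h2).differentiableAt (by simp)
    have h3 : HasDerivAt (fun y : ℝ => y / e) (1 / e) e := (hasDerivAt_id e).div_const e
    have h4 : HasDerivAt (Per L b1 b2 δ e) (deriv (Per L b1 b2 δ e) 1) ((fun y : ℝ => y / e) e) := by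
      simp only
      rw [div_self he.1.ne']
      exact hdiff.hasDerivAt
    have h5 := (HasDerivAt.comp (h := fun y : ℝ => y / e) e h4 h3).const_mul
      (δ e * Real.sqrt e / e)
    have h6 : D =ᶠ[𝓝 e] fun E => δ e * Real.sqrt e / e *
        ((Per L b1 b2 δ e) ∘ fun y => y / e) E := by
      filter_upwards [lt_mem_nhds he.1] with E hE
      exact hD1 e he E hE
    refine (h5.congr_of_eventuallyEq h6).congr_deriv ?_
    ring
  -- `E ^ (1/8) * D E` is increasing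
  have hG : MonotoneOn (fun E : ℝ => E ^ (1 / 8 : ℝ) * D E) (Ioo 0 ε) := by
    have hder : ∀ E ∈ Ioo 0 ε, HasDerivAt (fun E : ℝ => E ^ (1 / 8 : ℝ) * D E)
        ((1 / 8 : ℝ) * E ^ ((1 / 8 : ℝ) - 1) * D E +
          E ^ (1 / 8 : ℝ) * (δ E * Real.sqrt E / E * (deriv (Per L b1 b2 δ E) 1 / E))) E := by
      intro E hE
      exact (Real.hasDerivAt_rpow_const (Or.inl hE.1.ne')).mul (hD2 E hE)
    refine monotoneOn_of_deriv_nonneg (convex_Ioo 0 ε)
      (fun E hE => (hder E hE).continuousAt.continuousWithinAt) ?_ ?_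
    · rw [interior_Ioo]
      exact fun E hE => (hder E hE).differentiableAt.differentiableWithinAt
    · rw [interior_Ioo]
      intro E hE
      rw [(hder E hE).deriv]
      have h1 := (hsub hE).1
      have h1' : -(1 / 8) * Per L b1 b2 δ E 1 < deriv (Per L b1 b2 δ E) 1 := not_le.1 h1
      have hd := (hsub hE).2.2.1
      have hE0 := hE.1
      have hs : 0 < Real.sqrt E := Real.sqrt_pos.2 hE0
      have h2 : D E = δ E * Real.sqrt E / E * Per L b1 b2 δ E 1 := by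
        rw [hD1 E hE E hE0, div_self hE0.ne']
      have h3 : E ^ ((1 / 8 : ℝ) - 1) = E ^ (1 / 8 : ℝ) / E := by
        rw [Real.rpow_sub hE0, Real.rpow_one]
      rw [h2, h3]
      have h4 : (1 / 8 : ℝ) * (E ^ (1 / 8 : ℝ) / E) * (δ E * Real.sqrt E / E * Per L b1 b2 δ E 1) +
          E ^ (1 / 8 : ℝ) * (δ E * Real.sqrt E / E * (deriv (Per L b1 b2 δ E) 1 / E)) =
          E ^ (1 / 8 : ℝ) * (δ E * Real.sqrt E / E) / E *
            (deriv (Per L b1 b2 δ E) 1 + 1 / 8 * Per L b1 b2 δ E 1) := by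
        ring
      rw [h4]
      have h5 : 0 ≤ deriv (Per L b1 b2 δ E) 1 + 1 / 8 * Per L b1 b2 δ E 1 := by linarith
      have hd' : 0 < δ E := hd
      positivity
  set E1 : ℝ := ε / 2 with hE1
  have hE1m : E1 ∈ Ioo 0 ε := ⟨by positivity, by linarith⟩
  have hE1p : 0 < E1 := hE1m.1
  set C : ℝ := E1 ^ (1 / 8 : ℝ) * D E1 with hC
  have hDle : ∀ E ∈ Ioc 0 E1, D E ≤ C * E ^ (-(1 / 8) : ℝ) := by
    intro E hE
    have h1 := hG ⟨hE.1, hE.2.trans_lt hE1m.2⟩ hE1m hE.2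
    simp only at h1
    have h2 : E ^ (1 / 8 : ℝ) * E ^ (-(1 / 8) : ℝ) = 1 := by
      rw [← Real.rpow_add hE.1]
      norm_num
    have h3 : 0 < E ^ (-(1 / 8) : ℝ) := Real.rpow_pos_of_pos hE.1 _
    calc D E = E ^ (1 / 8 : ℝ) * D E * E ^ (-(1 / 8) : ℝ) := by
          rw [mul_right_comm, h2, one_mul]
      _ ≤ C * E ^ (-(1 / 8) : ℝ) := by
          exact mul_le_mul_of_nonneg_right h1 h3.le
  -- `area E - (8/7) C E ^ (7/8)` is decreasing
  have hF : AntitoneOn (fun E : ℝ => area L b1 b2 E - 8 / 7 * C * E ^ (7 / 8 : ℝ)) (Ioo 0 E1) := by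
    have hder : ∀ E ∈ Ioo 0 E1, HasDerivAt
        (fun E : ℝ => area L b1 b2 E - 8 / 7 * C * E ^ (7 / 8 : ℝ))
        (D E - 8 / 7 * C * ((7 / 8 : ℝ) * E ^ ((7 / 8 : ℝ) - 1))) E := by
      intro E hE
      exact (hA1 E ⟨hE.1, hE.2.trans hE1m.2⟩).sub
        ((Real.hasDerivAt_rpow_const (Or.inl hE.1.ne')).const_mul _)
    refine antitoneOn_of_deriv_nonpos (convex_Ioo 0 E1)
      (fun E hE => (hder E hE).continuousAt.continuousWithinAt) ?_ ?_
    · rw [interior_Ioo]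
      exact fun E hE => (hder E hE).differentiableAt.differentiableWithinAt
    · rw [interior_Ioo]
      intro E hE
      rw [(hder E hE).deriv]
      have h1 := hDle E ⟨hE.1, hE.2.le⟩
      have h2 : ((7 / 8 : ℝ) - 1) = -(1 / 8) := by norm_num
      rw [h2]
      linarith
  -- the area tends to zero
  have hzero : ∀ E ∈ Ioo 0 E1, area L b1 b2 E ≤ Real.sqrt (E / E1) * area L b1 b2 E1 := by
    intro E hE
    have he := hE1m
    have hd := (hsub he).2.2.1
    have hd' : 0 < δ E1 := hd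
    have h1 := areaS_mono (δ := δ) hW hE1p hd (h := E / E1) (h' := 1) (div_pos hE.1 hE1p)
      ((div_le_one hE1p).2 hE.2.le)
    have h2 := PB3_area_eq (δ := δ) hW hE1p hd E
    have h3 := PB3_area_eq (δ := δ) hW hE1p hd E1
    rw [div_self hE1p.ne'] at h3
    have hs : 0 < Real.sqrt (E / E1) := Real.sqrt_pos.2 (div_pos hE.1 hE1p)
    have h4 : Real.sqrt (1 / (E / E1)) = (Real.sqrt (E / E1))⁻¹ := by
      rw [one_div, Real.sqrt_inv]
    rw [h4] at h1
    have h5 : areaS L b1 b2 δ E1 (E / E1) ≤ Real.sqrt (E / E1) * areaS L b1 b2 δ E1 1 := by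
      have h6 := mul_le_mul_of_nonneg_left h1 hs.le
      rwa [← mul_assoc, mul_inv_cancel₀ hs.ne', one_mul] at h6
    rw [h2, h3]
    have h7 : 0 ≤ δ E1 * Real.sqrt E1 := by positivity
    calc δ E1 * Real.sqrt E1 * areaS L b1 b2 δ E1 (E / E1) ≤
        δ E1 * Real.sqrt E1 * (Real.sqrt (E / E1) * areaS L b1 b2 δ E1 1) :=
          mul_le_mul_of_nonneg_left h5 h7
      _ = _ := by ring
  have hFle : ∀ E ∈ Ioo 0 E1, area L b1 b2 E - 8 / 7 * C * E ^ (7 / 8 : ℝ) ≤ 0 := by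
    intro E hE
    have hlim : Tendsto (fun x : ℝ => Real.sqrt (x / E1) * area L b1 b2 E1 -
        8 / 7 * C * x ^ (7 / 8 : ℝ)) (𝓝[>] 0) (𝓝 0) := by
      have h1 : ContinuousAt (fun x : ℝ => Real.sqrt (x / E1) * area L b1 b2 E1 -
        8 / 7 * C * x ^ (7 / 8 : ℝ)) 0 := by
        have h2 : ContinuousAt (fun x : ℝ => x ^ (7 / 8 : ℝ)) 0 :=
          Real.continuousAt_rpow_const 0 (7 / 8) (Or.inr (by norm_num))
        have h3 : ContinuousAt (fun x : ℝ => Real.sqrt (x / E1)) 0 := by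
          have : Continuous (fun x : ℝ => Real.sqrt (x / E1)) := by fun_prop
          exact this.continuousAt
        exact (h3.mul continuousAt_const).sub (continuousAt_const.mul h2)
      have h4 := h1.tendsto
      rw [zero_div, Real.sqrt_zero, Real.zero_rpow (by norm_num)] at h4
      simp only [zero_mul, mul_zero, sub_zero] at h4
      exact h4.mono_left nhdsWithin_le_nhds
    refine ge_of_tendsto hlim ?_
    filter_upwards [Ioo_mem_nhdsGT hE.1] with x hx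
    have h5 := hF ⟨hx.1, hx.2.trans hE.2⟩ hE hx.2.le
    simp only at h5
    have h6 := hzero x ⟨hx.1, hx.2.trans hE.2⟩
    linarith
  -- lower bound of the area
  have hlow : ∀ E ∈ Ioo 0 E1, c1 * c0 * E ^ (3 / 4 : ℝ) ≤ area L b1 b2 E := by
    intro E hE
    have hE' : E ∈ Ioo 0 ε := ⟨hE.1, hE.2.trans hE1m.2⟩
    have h1 := PB3_area_eq (δ := δ) hW hE.1 (hsub hE').2.2.1 E
    rw [div_self hE.1.ne'] at h1
    have h2 : c0 ≤ areaS L b1 b2 δ E 1 := (hsub hE').2.2.2.1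
    have h3 : c1 * E ^ (1 / 4 : ℝ) ≤ δ E := (hsub hE').2.2.2.2
    have h4 : E ^ (3 / 4 : ℝ) = E ^ (1 / 4 : ℝ) * Real.sqrt E := by
      rw [Real.sqrt_eq_rpow, ← Real.rpow_add hE.1]
      norm_num
    rw [h1, h4]
    have h5 : 0 ≤ E ^ (1 / 4 : ℝ) := (Real.rpow_pos_of_pos hE.1 _).le
    have h6 : 0 ≤ δ E * Real.sqrt E :=
      mul_nonneg ((mul_nonneg hc1.le h5).trans h3) (Real.sqrt_nonneg _)
    calc c1 * c0 * (E ^ (1 / 4 : ℝ) * Real.sqrt E) = c1 * E ^ (1 / 4 : ℝ) * Real.sqrt E * c0 := by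
          ring
      _ ≤ δ E * Real.sqrt E * areaS L b1 b2 δ E 1 := by
          gcongr
  -- contradiction
  have hfin : ∀ᶠ E in 𝓝[>] (0 : ℝ), c1 * c0 ≤ 8 / 7 * C * E ^ (1 / 8 : ℝ) := by
    filter_upwards [Ioo_mem_nhdsGT hE1p] with E hE
    have h1 := hFle E hE
    have h2 := hlow E hE
    have h3 : E ^ (7 / 8 : ℝ) = E ^ (1 / 8 : ℝ) * E ^ (3 / 4 : ℝ) := by
      rw [← Real.rpow_add hE.1]
      norm_num
    have h4 : 0 < E ^ (3 / 4 : ℝ) := Real.rpow_pos_of_pos hE.1 _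
    rw [h3] at h1
    have h5 : c1 * c0 * E ^ (3 / 4 : ℝ) ≤ 8 / 7 * C * E ^ (1 / 8 : ℝ) * E ^ (3 / 4 : ℝ) := by
      linarith
    exact le_of_mul_le_mul_right h5 h4
  have hlim2 : Tendsto (fun E : ℝ => 8 / 7 * C * E ^ (1 / 8 : ℝ)) (𝓝[>] 0) (𝓝 0) := by
    have h2 : ContinuousAt (fun x : ℝ => 8 / 7 * C * x ^ (1 / 8 : ℝ)) 0 :=
      continuousAt_const.mul (Real.continuousAt_rpow_const 0 (1 / 8) (Or.inr (by norm_num)))
    have h4 := h2.tendsto
    rw [Real.zero_rpow (by norm_num), mul_zero] at h4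
    exact h4.mono_left nhdsWithin_le_nhds
  have h1 := ge_of_tendsto hlim2 hfin
  have h2 : 0 < c1 * c0 := mul_pos hc1 hc0
  linarith

end BB
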