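import Pool.Agent.Lib_helper6.BB.W.AP1
import Pool.Agent.Lib_helper6.BB.W.PB2
import Pool.Agent.Lib_helper6.BB.W.PB3

open Filter Topology Set MeasureTheory
open scoped ContDiff

namespace BB

theorem ap2_tendsto_rpow {κ : ℝ} (hκ : 0 < κ) {c : ℝ} (hc : 0 < c) :
    ∀ᶠ e in 𝓝[>] (0 : ℝ), e ^ κ ≤ c := by
  have h : Tendsto (fun e : ℝ => e ^ κ) (𝓝[>] (0 : ℝ)) (𝓝 0) := by
    have h1 : ContinuousAt (fun e : ℝ => e ^ κ) 0 := by
      apply Real.continuousAt_rpow_const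
      right
      exact hκ.le
    have h2 : Tendsto (fun e : ℝ => e ^ κ) (𝓝[>] (0 : ℝ)) (𝓝 ((0 : ℝ) ^ κ)) :=
      h1.tendsto.mono_left nhdsWithin_le_nhds
    rwa [Real.zero_rpow hκ.ne'] at h2
  exact (h.eventually (ge_mem_nhds hc))

/-- the deterministic step at one twist energy -/
theorem ap2_step {P : ℝ → ℝ} {m t c0 C0 D : ℝ}
    (hP : ContDiffOn ℝ ∞ P (Ioo (1 / 2) 2)) (ht0 : 0 < t) (ht : t ≤ 1 / 4)
    (hD : ∀ h ∈ Ioo (1 / 2 : ℝ) 2, ‖iteratedFDeriv ℝ 2 P h‖ ≤ D)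
    (hDt : D * t ≤ c0 / 16) (hc0 : 0 < c0)
    (hb : ∀ h ∈ Ioo (1 / 2 : ℝ) 2, c0 ≤ P h ∧ P h ≤ C0)
    (htw : deriv P 1 ≤ -(1 / 8) * P 1)
    (hm : 0 < m) (hmc : m ≤ c0 / 2) (hmt : 32 * C0 ^ 2 * m ≤ c0 ^ 3 * t) :
    ∃ h ∈ Icc (3 / 4 : ℝ) (5 / 4), (∃ n : ℕ, 1 ≤ n ∧
        m / P h = 1 / ((n : ℝ) + (Real.sqrt 5 - 1) / 2)) ∧
        c0 / 16 ≤ |deriv P h| := by
  have hopen : IsOpen (Ioo (1 / 2 : ℝ) 2) := isOpen_Ioo
  have hdP : ContDiffOn ℝ ∞ (deriv P) (Ioo (1 / 2) 2) := by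
    have := (contDiffOn_infty_iff_deriv_of_isOpen hopen).1 hP
    exact this.2
  have hdiff : ∀ h ∈ Ioo (1 / 2 : ℝ) 2, DifferentiableAt ℝ P h := fun h hh =>
    (hP.differentiableOn (by simp)).differentiableAt (hopen.mem_nhds hh)
  have hdiff2 : ∀ h ∈ Ioo (1 / 2 : ℝ) 2, DifferentiableAt ℝ (deriv P) h := fun h hh =>
    (hdP.differentiableOn (by simp)).differentiableAt (hopen.mem_nhds hh)
  have hdd : ∀ h ∈ Ioo (1 / 2 : ℝ) 2, ‖deriv (deriv P) h‖ ≤ D := by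
    intro h hh
    have h1 := hD h hh
    have h2 : ‖iteratedDeriv 2 P h‖ = ‖iteratedFDeriv ℝ 2 P h‖ := norm_iteratedFDeriv_eq_norm_iteratedDeriv.symm
    rw [← h2] at h1
    rwa [iteratedDeriv_succ, iteratedDeriv_one] at h1
  have hsub : Icc (1 : ℝ) (1 + t) ⊆ Ioo (1 / 2 : ℝ) 2 := by
    intro x hx
    constructor <;> linarith [hx.1, hx.2]
  have h1mem : (1 : ℝ) ∈ Ioo (1 / 2 : ℝ) 2 := by constructor <;> norm_num
  have htmem : (1 + t : ℝ) ∈ Ioo (1 / 2 : ℝ) 2 := by constructor <;> linarith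
  -- derivative on `[1, 1 + t]`
  have hder : ∀ h ∈ Icc (1 : ℝ) (1 + t), deriv P h ≤ -(c0 / 16) := by
    intro h hh
    have hconv : Convex ℝ (Icc (1 : ℝ) (1 + t)) := convex_Icc _ _
    have hlip : ‖deriv P h - deriv P 1‖ ≤ D * ‖h - 1‖ := by
      apply hconv.norm_image_sub_le_of_norm_deriv_le (f := deriv P)
      · intro x hx
        exact hdiff2 x (hsub hx)
      · intro x hx
        exact hdd x (hsub hx)
      · exact ⟨le_rfl, by linarith⟩
      · exact hh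
    have hD0 : 0 ≤ D := le_trans (norm_nonneg _) (hD 1 h1mem)
    have h3 : D * ‖h - 1‖ ≤ D * t := by
      apply mul_le_mul_of_nonneg_left _ hD0
      rw [Real.norm_eq_abs, abs_of_nonneg (by linarith [hh.1])]
      linarith [hh.2]
    have h4 := abs_le.1 (by simpa [Real.norm_eq_abs] using hlip.trans h3)
    have h5 := (hb 1 h1mem).1
    linarith [h4.2]
  -- decrease of `P`
  have hdec : P (1 + t) ≤ P 1 - c0 / 16 * t := by
    have hcont : ContinuousOn P (Icc 1 (1 + t)) := fun x hx =>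
      (hdiff x (hsub hx)).continuousAt.continuousWithinAt
    have hsub2 : interior (Icc (1 : ℝ) (1 + t)) ⊆ Icc (1 : ℝ) (1 + t) := interior_subset
    have h7 := (convex_Icc (1 : ℝ) (1 + t)).image_sub_le_mul_sub_of_deriv_le hcont
      (fun x hx => (hdiff x (hsub (hsub2 hx))).differentiableWithinAt)
      (fun x hx => hder x (hsub2 hx)) 1 ⟨le_rfl, by linarith⟩ (1 + t) ⟨by linarith, le_rfl⟩
      (by linarith)
    linarith
  have hP1 := hb 1 h1mem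
  have hPt := hb (1 + t) htmem
  have hP1p : 0 < P 1 := lt_of_lt_of_le hc0 hP1.1
  have hPtp : 0 < P (1 + t) := lt_of_lt_of_le hc0 hPt.1
  have hC0 : 0 < C0 := lt_of_lt_of_le hP1p hP1.2
  have hx : 0 < m / P 1 := div_pos hm hP1p
  have hy : m / P (1 + t) ≤ 1 / 2 := by
    rw [div_le_iff₀ hPtp]
    linarith [hPt.1]
  have hxy : m / P 1 + 2 * (m / P (1 + t)) ^ 2 ≤ m / P (1 + t) := by
    have h8 : m / P (1 + t) - (m / P 1 + 2 * (m / P (1 + t)) ^ 2) =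
        m * ((P 1 - P (1 + t)) * P (1 + t) - 2 * m * P 1) / (P 1 * P (1 + t) ^ 2) := by
      field_simp
      ring
    have h9 : c0 / 16 * t * c0 ≤ (P 1 - P (1 + t)) * P (1 + t) := by
      apply mul_le_mul (by linarith) hPt.1 hc0.le
      have : 0 ≤ c0 / 16 * t := by positivity
      linarith
    have hcC : c0 ≤ C0 := hP1.1.trans hP1.2
    have h10 : 32 * C0 * m ≤ c0 ^ 2 * t := by
      have h11 : C0 * (32 * C0 * m) ≤ C0 * (c0 ^ 2 * t) := by
        calc C0 * (32 * C0 * m) = 32 * C0 ^ 2 * m := by ring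
          _ ≤ c0 ^ 3 * t := hmt
          _ = c0 * (c0 ^ 2 * t) := by ring
          _ ≤ C0 * (c0 ^ 2 * t) := mul_le_mul_of_nonneg_right hcC (by positivity)
      exact le_of_mul_le_mul_left h11 hC0
    have h12 : 2 * m * P 1 ≤ 2 * m * C0 := mul_le_mul_of_nonneg_left hP1.2 (by positivity)
    have h13 : 0 ≤ m * ((P 1 - P (1 + t)) * P (1 + t) - 2 * m * P 1) / (P 1 * P (1 + t) ^ 2) := by
      apply div_nonneg _ (by positivity)
      apply mul_nonneg hm.le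
      nlinarith
    linarith
  obtain ⟨n, hn1, hn2⟩ := golden_dense hx hxy hy
  have hcont : ContinuousOn (fun h => m / P h) (Icc 1 (1 + t)) := by
    apply ContinuousOn.div continuousOn_const
    · intro x hx
      exact (hdiff x (hsub hx)).continuousAt.continuousWithinAt
    · intro x hx
      exact (lt_of_lt_of_le hc0 (hb x (hsub hx)).1).ne'
  have hivt := intermediate_value_Icc (by linarith : (1 : ℝ) ≤ 1 + t) hcont
  obtain ⟨h, hh, hhe⟩ := hivt hn2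
  refine ⟨h, ⟨by linarith [hh.1], by linarith [hh.2]⟩, ⟨n, hn1, hhe⟩, ?_⟩
  have h6 := hder h hh
  rw [abs_of_neg (by linarith)]
  linarith

/-- choice of the energy `h0 e` of the invariant curve -/
theorem exists_h0 {L A B : ℝ} {b1 b2 δ : ℝ → ℝ} (hW : Walls L A B b1 b2) (hS : Scale b1 b2 δ) :
    ∃ (h0 : ℝ → ℝ) (c : ℝ), (∀ e, h0 e ∈ Icc (3 / 4 : ℝ) (5 / 4)) ∧ 0 < c ∧
      ∃ᶠ e in 𝓝[>] (0 : ℝ), (∃ n : ℕ, 1 ≤ n ∧
        mu δ e / Per L b1 b2 δ e (h0 e) = 1 / ((n : ℝ) + (Real.sqrt 5 - 1) / 2)) ∧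
        c ≤ |deriv (Per L b1 b2 δ e) (h0 e)| := by
  classical
  obtain ⟨κ, hκ, hfast⟩ := mu_fast hS
  obtain ⟨c0, C0, hc0, hC0, hbd⟩ := Per_bounds (L := L) (A := A) (B := B) (a := 1 / 2) (k := 2) hW hS (by norm_num)
  have htame := Per_tame (L := L) (A := A) (B := B) hW hS 2 (a := 1 / 2) (by norm_num)
  have hreg := htame.1
  have hd2 := htame.2 2 (κ / 4) (by linarith)
  have key : ∀ᶠ e in 𝓝[>] (0 : ℝ), deriv (Per L b1 b2 δ e) 1 ≤ -(1 / 8) * Per L b1 b2 δ e 1 →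
      ∃ h ∈ Icc (3 / 4 : ℝ) (5 / 4), (∃ n : ℕ, 1 ≤ n ∧
        mu δ e / Per L b1 b2 δ e h = 1 / ((n : ℝ) + (Real.sqrt 5 - 1) / 2)) ∧
        c0 / 16 ≤ |deriv (Per L b1 b2 δ e) h| := by
    have e1 := ap2_tendsto_rpow (κ := κ / 2) (by linarith) (c := 1 / 4) (by norm_num)
    have e2 := ap2_tendsto_rpow (κ := κ / 4) (by linarith) (c := c0 / 16) (by linarith)
    have e3 := ap2_tendsto_rpow (κ := κ) hκ (c := c0 / 2) (by linarith)
    have e4 := ap2_tendsto_rpow (κ := κ / 2) (by linarith) (c := c0 ^ 3 / (32 * C0 ^ 2)) (by positivity)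
    filter_upwards [e1, e2, e3, e4, hfast, mu_pos hS, hbd, hreg, hd2, self_mem_nhdsWithin] with
      e e1 e2 e3 e4 hfast hmu hbd hreg hd2 he htw
    have he0 : (0 : ℝ) < e := he
    have hmu1 : mu δ e ≤ e ^ κ := (le_abs_self _).trans hfast
    have hkk : e ^ κ = e ^ (κ / 2) * e ^ (κ / 2) := by
      rw [← Real.rpow_add he0]; congr 1; ring
    refine ap2_step (P := Per L b1 b2 δ e) (m := mu δ e) (t := e ^ (κ / 2)) (c0 := c0) (C0 := C0)
      (D := e ^ (-(κ / 4))) hreg.2 (Real.rpow_pos_of_pos he0 _) e1 hd2 ?_ hc0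
      (fun h hh => hbd h hh.1 hh.2) htw hmu.1 (hmu1.trans e3) ?_
    · rw [← Real.rpow_add he0]
      have : -(κ / 4) + κ / 2 = κ / 4 := by ring
      rw [this]
      exact e2
    · have h7 : 32 * C0 ^ 2 * mu δ e ≤ 32 * C0 ^ 2 * (e ^ (κ / 2) * e ^ (κ / 2)) := by
        rw [← hkk]
        exact mul_le_mul_of_nonneg_left hmu1 (by positivity)
      have h8 : 32 * C0 ^ 2 * e ^ (κ / 2) ≤ c0 ^ 3 := by
        rw [le_div_iff₀ (by positivity)] at e4
        linarith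
      have h9 : 32 * C0 ^ 2 * (e ^ (κ / 2) * e ^ (κ / 2)) ≤ c0 ^ 3 * e ^ (κ / 2) := by
        have := mul_le_mul_of_nonneg_right h8 (Real.rpow_pos_of_pos he0 (κ / 2)).le
        linarith
      exact h7.trans h9
  let h0 : ℝ → ℝ := fun e => if h : ∃ h ∈ Icc (3 / 4 : ℝ) (5 / 4), (∃ n : ℕ, 1 ≤ n ∧
        mu δ e / Per L b1 b2 δ e h = 1 / ((n : ℝ) + (Real.sqrt 5 - 1) / 2)) ∧
        c0 / 16 ≤ |deriv (Per L b1 b2 δ e) h| then h.choose else 1
  refine ⟨h0, c0 / 16, ?_, by linarith, ?_⟩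
  · intro e
    simp only [h0]
    split_ifs with h
    · exact h.choose_spec.1
    · constructor <;> norm_num
  · refine ((twist hW hS).and_eventually key).mono ?_
    rintro e ⟨h1, h2⟩
    have h := h2 h1
    simp only [h0, dif_pos h]
    exact h.choose_spec.2

end BB
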