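import Pool.Agent.Lib_helper6.BB.W.HC1

open Filter Topology Set MeasureTheory
open scoped ContDiff

namespace BB

/-- the two wall map is the composition of the scaled one wall maps -/
theorem Fs_eq {L A B : ℝ} {b1 b2 δ : ℝ → ℝ} (hS : Scale b1 b2 δ) :
    ∀ᶠ e in 𝓝[>] (0 : ℝ), ∀ p : ℝ × ℝ, Fs L A B b1 b2 δ e p = Ss L A B δ b1 e (Ss L A B δ b2 e p) := by
  filter_upwards [hS.pos, self_mem_nhdsWithin] with e h1 h2 p
  have he : (0 : ℝ) < e := h2
  have h3 : 0 < Real.sqrt e := Real.sqrt_pos.2 he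
  have h4 : ∀ q : ℝ × ℝ, sc δ e (sci δ e q) = q := by
    intro q
    unfold sc sci
    ext
    · show δ e * (q.1 / δ e) = q.1
      field_simp
    · show Real.sqrt e * (q.2 / Real.sqrt e) = q.2
      field_simp
  unfold Fs Ss Fmap
  rw [h4]

/-- expansion of the scaled two wall map -/
theorem Fs_exp {L A B : ℝ} {b1 b2 δ : ℝ → ℝ} (hW : Walls L A B b1 b2)
    (hS : Scale b1 b2 δ) (k : ℝ) :
    Exp (mu δ) (Reg L b1 b2 δ k) (Fs L A B b1 b2 δ)
      (fun _ p => p) (fun e p => (2 * L * p.2, -(2 * (ww δ b1 e p.1 + ww δ b2 e p.1)))) := by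
  have h1 := Ss_exp hW hS (Or.inl rfl : b1 = b1 ∨ b1 = b2) (k + 1)
  have h2 := Ss_exp hW hS (Or.inr rfl : b2 = b1 ∨ b2 = b2) k
  have h3 : InsMap (fun _ (p : ℝ × ℝ) => p) (Reg L b1 b2 δ k) (Reg L b1 b2 δ (k + 1)) :=
    Reg_ins hW hS (by linarith)
  have h4 := Exp.comp (mu_fast hS) h1 h2 h3
  refine h4.congr ?_ ?_ ?_
  · filter_upwards [Fs_eq (L := L) (A := A) (B := B) hS] with e he p _
    exact he p
  · exact Eventually.of_forall fun e x _ => rfl
  · refine Eventually.of_forall fun e x _ => ?_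
    have h5 : fderiv ℝ (fun p : ℝ × ℝ => p) x = ContinuousLinearMap.id ℝ (ℝ × ℝ) := fderiv_fun_id
    rw [h5]
    simp only [ContinuousLinearMap.id_apply, Prod.mk_add_mk, Prod.mk.injEq]
    constructor <;> ring

theorem HC2_Smap {L A B : ℝ} {b1 b2 b : ℝ → ℝ} (hW : Walls L A B b1 b2) (hb : b = b1 ∨ b = b2) :
    Smap L A B b 0 = 0 := by
  have hb0 : b 0 = 0 := by
    rcases hb with rfl | rfl
    · exact hW.zero1
    · exact hW.zero2
  have hx0 : hx b 0 = 0 := by unfold hx; simp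
  have hf0 : hf b 0 = 0 := by unfold hf; simp
  have hm0 : mm 0 = 0 := by unfold mm; simp
  have h1 : IsHit L A B b 0 0 := by
    refine ⟨⟨by have := hW.A_pos; linarith, hW.B_pos⟩, ?_⟩
    show hx b 0 = 0 + (L - hf b 0) * mm 0
    rw [hx0, hf0, hm0]
    ring
  have h2 : ∃ t, IsHit L A B b 0 t := ⟨0, h1⟩
  have h3 : hit L A B b 0 = 0 := by
    unfold hit
    rw [dif_pos h2]
    exact hit_unique hW hb (by simp) h2.choose_spec h1
  unfold Smap outLine
  rw [h3]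
  have h4 : refl b 0 (0 : ℝ × ℝ).2 = 0 := by
    unfold refl
    rw [hb0]
    simp
  rw [h4, hx0, hf0]
  simp

theorem Ss_zero {L A B : ℝ} {b1 b2 δ b : ℝ → ℝ} (hW : Walls L A B b1 b2) (hb : b = b1 ∨ b = b2)
    (e : ℝ) : Ss L A B δ b e 0 = 0 := by
  unfold Ss
  have h1 : sc δ e 0 = 0 := by
    unfold sc
    simp
  rw [h1, HC2_Smap hW hb]
  unfold sci
  simp

theorem Fs_zero {L A B : ℝ} {b1 b2 δ : ℝ → ℝ} (hW : Walls L A B b1 b2)
    (e : ℝ) : Fs L A B b1 b2 δ e 0 = 0 := by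
  unfold Fs Fmap
  have h1 : sc δ e 0 = 0 := by
    unfold sc
    simp
  rw [h1, HC2_Smap hW (Or.inr rfl), HC2_Smap hW (Or.inl rfl)]
  unfold sci
  simp

end BB
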