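import Pool.Agent.Lib_helper6.BB.W.HC2

open Filter Topology Set MeasureTheory
open scoped ContDiff

namespace BB

theorem HD_det (T : (ℝ × ℝ) →L[ℝ] (ℝ × ℝ)) :
    T.det = (T (1, 0)).1 * (T (0, 1)).2 - (T (0, 1)).1 * (T (1, 0)).2 := by
  rw [ContinuousLinearMap.det, ← LinearMap.det_toMatrix (Module.Basis.finTwoProd ℝ),
    Matrix.det_fin_two]
  simp [LinearMap.toMatrix_apply]

theorem HD_det_comp (T S : (ℝ × ℝ) →L[ℝ] (ℝ × ℝ)) : (T.comp S).det = T.det * S.det := by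
  simp only [ContinuousLinearMap.det]
  rw [← LinearMap.det_comp]
  rfl

theorem HD_diff_of_det {f : ℝ × ℝ → ℝ × ℝ} {p : ℝ × ℝ} (h : (fderiv ℝ f p).det = 1) :
    DifferentiableAt ℝ f p := by
  by_contra hcon
  rw [fderiv_zero_of_not_differentiableAt hcon, HD_det] at h
  simp at h

theorem HD_hx {b : ℝ → ℝ} (hb : Continuous b) (t : ℝ) : HasDerivAt (hx b) (Real.cos (b t)) t := by
  have hc : Continuous fun s => Real.cos (b s) := Real.continuous_cos.comp hb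
  exact intervalIntegral.integral_hasDerivAt_right (hc.intervalIntegrable _ _)
    (hc.stronglyMeasurableAtFilter _ _) hc.continuousAt

theorem HD_hf {b : ℝ → ℝ} (hb : Continuous b) (t : ℝ) : HasDerivAt (hf b) (Real.sin (b t)) t := by
  have hc : Continuous fun s => Real.sin (b s) := Real.continuous_sin.comp hb
  exact intervalIntegral.integral_hasDerivAt_right (hc.intervalIntegrable _ _)
    (hc.stronglyMeasurableAtFilter _ _) hc.continuousAt

theorem HD_sq_lt {q : ℝ} (h : |q| ≤ 1 / 2) : q ^ 2 < 1 := by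
  rw [← sq_abs]
  nlinarith [abs_nonneg q]

theorem HD_sqrt {q : ℝ} (hq : q ^ 2 < 1) :
    HasDerivAt (fun q : ℝ => Real.sqrt (1 - q ^ 2)) (-mm q) q := by
  have h0 : (1 : ℝ) - q ^ 2 ≠ 0 := by linarith
  have h1 : HasDerivAt (fun q : ℝ => 1 - q ^ 2) (-(2 * q)) q := by
    have := (hasDerivAt_pow 2 q).const_sub 1
    simpa using this
  have h2 := h1.sqrt h0
  refine h2.congr_deriv ?_
  unfold mm
  have hs : 0 < Real.sqrt (1 - q ^ 2) := Real.sqrt_pos.mpr (by linarith)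
  field_simp

theorem HD_mm {q : ℝ} (hq : q ^ 2 < 1) : DifferentiableAt ℝ mm q := by
  unfold mm
  refine DifferentiableAt.div differentiableAt_id (HD_sqrt hq).differentiableAt ?_
  exact (Real.sqrt_pos.mpr (by linarith)).ne'

/-- the trigonometric identity -/
theorem HD_trig {q β : ℝ} (hq : |q| ≤ 1 / 2) (hβ : |β| ≤ 1 / 10) :
    let q1 := q * Real.cos (2 * β) - Real.sqrt (1 - q ^ 2) * Real.sin (2 * β)
    q1 ^ 2 < 1 ∧ 0 < Real.cos β + mm q * Real.sin β ∧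
    (Real.cos β - mm q1 * Real.sin β) * (Real.cos (2 * β) + mm q * Real.sin (2 * β)) =
      Real.cos β + mm q * Real.sin β := by
  intro q1
  obtain ⟨s, hs⟩ : ∃ s, s = Real.sqrt (1 - q ^ 2) := ⟨_, rfl⟩
  have hq2 : q ^ 2 ≤ 1 / 4 := by
    rw [← sq_abs]
    have := pow_le_pow_left₀ (abs_nonneg q) hq 2
    norm_num at this ⊢
    exact this
  have hs2 : s ^ 2 = 1 - q ^ 2 := by rw [hs, Real.sq_sqrt (by linarith)]
  have hs0 : 0 < s := by rw [hs]; exact Real.sqrt_pos.mpr (by linarith)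
  have hs8 : 4 / 5 ≤ s := by
    by_contra hcon
    push Not at hcon
    nlinarith
  have hq1 : q1 = q * Real.cos (2 * β) - s * Real.sin (2 * β) := by rw [hs]
  -- bounds for sine and cosine
  have hc2 : 19 / 20 ≤ Real.cos (2 * β) := by
    have h1 := Real.one_sub_sq_div_two_le_cos (x := 2 * β)
    have h2 : β ^ 2 ≤ 1 / 100 := by
      rw [← sq_abs]
      have := pow_le_pow_left₀ (abs_nonneg β) hβ 2
      norm_num at this ⊢
      exact this
    nlinarith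
  have hc1 : 19 / 20 ≤ Real.cos β := by
    have h1 := Real.one_sub_sq_div_two_le_cos (x := β)
    have h2 : β ^ 2 ≤ 1 / 100 := by
      rw [← sq_abs]
      have := pow_le_pow_left₀ (abs_nonneg β) hβ 2
      norm_num at this ⊢
      exact this
    nlinarith
  have hsin2 : |Real.sin (2 * β)| ≤ 1 / 5 := by
    have h1 := Real.abs_sin_le_abs (x := 2 * β)
    rw [abs_mul] at h1
    norm_num at h1
    linarith
  have hsin1 : |Real.sin β| ≤ 1 / 10 := (Real.abs_sin_le_abs (x := β)).trans hβ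
  obtain ⟨s1, hs1⟩ : ∃ s1, s1 = s * Real.cos (2 * β) + q * Real.sin (2 * β) := ⟨_, rfl⟩
  have hsc := Real.sin_sq_add_cos_sq (2 * β)
  have hs1pos : 0 < s1 := by
    have h1 : |q * Real.sin (2 * β)| ≤ 1 / 2 * (1 / 5) := by
      rw [abs_mul]
      exact mul_le_mul hq hsin2 (abs_nonneg _) (by norm_num)
    have h2 := (abs_le.mp h1).1
    have h3 : 4 / 5 * (19 / 20) ≤ s * Real.cos (2 * β) :=
      mul_le_mul hs8 hc2 (by norm_num) hs0.le
    rw [hs1]
    linarith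
  have hs1sq : s1 ^ 2 = 1 - q1 ^ 2 := by
    rw [hs1, hq1]
    linear_combination (Real.sin (2 * β) ^ 2 + Real.cos (2 * β) ^ 2) * hs2 + hsc
  have hq1lt : q1 ^ 2 < 1 := by
    have : 0 < s1 ^ 2 := by positivity
    linarith
  have hsqrt1 : Real.sqrt (1 - q1 ^ 2) = s1 := by
    rw [← hs1sq]
    exact Real.sqrt_sq hs1pos.le
  have hm1 : mm q1 = q1 / s1 := by unfold mm; rw [hsqrt1]
  have hm : mm q = q / s := by unfold mm; rw [← hs]
  refine ⟨hq1lt, ?_, ?_⟩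
  · rw [hm]
    have h1 : |q / s * Real.sin β| ≤ (1 / 2) / (4 / 5) * (1 / 10) := by
      rw [abs_mul, abs_div, abs_of_pos hs0]
      gcongr
    have h2 := (abs_le.mp h1).1
    norm_num at h2
    linarith
  · rw [hm1, hm]
    have hd1 : Real.cos (2 * β) = 1 - 2 * Real.sin β ^ 2 := by
      rw [Real.cos_two_mul]
      have := Real.sin_sq_add_cos_sq β
      linarith
    have hd2 := Real.sin_two_mul β
    have hb1 := Real.sin_sq_add_cos_sq β
    have k1 : Real.cos (2 * β) + q / s * Real.sin (2 * β) = s1 / s := by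
      rw [hs1]; field_simp
    have k2 : s1 * Real.cos β - q1 * Real.sin β = s * Real.cos β + q * Real.sin β := by
      rw [hs1, hq1, hd1, hd2]
      linear_combination (2 * s * Real.cos β * Real.sin β ^ 2 * 0 + 2 * q * Real.sin β) * hb1
    rw [k1]
    have k3 : (Real.cos β - q1 / s1 * Real.sin β) * (s1 / s) =
        (s1 * Real.cos β - q1 * Real.sin β) / s := by field_simp
    rw [k3, k2]
    field_simp

/-- the map in the coordinates of the wall point -/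
noncomputable def HD_G (δ b : ℝ → ℝ) (e : ℝ) (p : ℝ × ℝ) : ℝ × ℝ :=
  sci δ e (outLine b (δ e * p.1) (Real.sqrt e * p.2))

theorem HD_eq {L A B : ℝ} {b1 b2 δ b : ℝ → ℝ} (hW : Walls L A B b1 b2)
    (hb : b = b1 ∨ b = b2) {e : ℝ} (hd : 0 < δ e) {p : ℝ × ℝ}
    (h1 : δ e * p.1 ∈ Ioo (-A) B) (h2 : |Real.sqrt e * p.2| ≤ 1 / 2) :
    Ss L A B δ b e (Nl L δ b e p) = HD_G δ b e p := by
  have hsc : sc δ e (Nl L δ b e p) = (hx b (δ e * p.1) -
      (L - hf b (δ e * p.1)) * mm (Real.sqrt e * p.2), Real.sqrt e * p.2) := by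
    unfold sc Nl
    simp only
    congr 1
    field_simp
  have hit0 : IsHit L A B b (sc δ e (Nl L δ b e p)) (δ e * p.1) := by
    refine ⟨h1, ?_⟩
    rw [hsc]
    simp
  have hex : ∃ t, IsHit L A B b (sc δ e (Nl L δ b e p)) t := ⟨_, hit0⟩
  have hh : hit L A B b (sc δ e (Nl L δ b e p)) = δ e * p.1 := by
    unfold hit
    rw [dif_pos hex]
    exact hit_unique hW hb (by rw [hsc]; exact h2) hex.choose_spec hit0
  unfold Ss Smap HD_G
  rw [hh, hsc]

/-- the Jacobian of the coordinate change -/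
theorem HD_Nl {L : ℝ} {δ b : ℝ → ℝ} (hb : Continuous b) {e : ℝ} (hd : 0 < δ e)
    {p : ℝ × ℝ} (h2 : |Real.sqrt e * p.2| ≤ 1 / 2) :
    DifferentiableAt ℝ (Nl L δ b e) p ∧ (fderiv ℝ (Nl L δ b e) p).det =
      Real.cos (b (δ e * p.1)) + mm (Real.sqrt e * p.2) * Real.sin (b (δ e * p.1)) := by
  have hq : (Real.sqrt e * p.2) ^ 2 < 1 := HD_sq_lt h2
  have d1 : HasDerivAt (fun Y : ℝ => δ e * Y) (δ e) p.1 := by
    simpa using (hasDerivAt_id p.1).const_mul (δ e)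
  have d2 : HasDerivAt (fun P : ℝ => Real.sqrt e * P) (Real.sqrt e) p.2 := by
    simpa using (hasDerivAt_id p.2).const_mul (Real.sqrt e)
  have hX : HasFDerivAt (fun r : ℝ × ℝ => hx b (δ e * r.1))
      ((Real.cos (b (δ e * p.1)) * δ e) • ContinuousLinearMap.fst ℝ ℝ ℝ) p :=
    HasDerivAt.comp_hasFDerivAt (h₂ := fun Y => hx b (δ e * Y)) p
      (HasDerivAt.comp p.1 (HD_hx hb (δ e * p.1)) d1) hasFDerivAt_fst
  have hF : HasFDerivAt (fun r : ℝ × ℝ => hf b (δ e * r.1))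
      ((Real.sin (b (δ e * p.1)) * δ e) • ContinuousLinearMap.fst ℝ ℝ ℝ) p :=
    HasDerivAt.comp_hasFDerivAt (h₂ := fun Y => hf b (δ e * Y)) p
      (HasDerivAt.comp p.1 (HD_hf hb (δ e * p.1)) d1) hasFDerivAt_fst
  have hM : HasFDerivAt (fun r : ℝ × ℝ => mm (Real.sqrt e * r.2))
      ((deriv mm (Real.sqrt e * p.2) * Real.sqrt e) • ContinuousLinearMap.snd ℝ ℝ ℝ) p :=
    HasDerivAt.comp_hasFDerivAt (h₂ := fun P => mm (Real.sqrt e * P)) p
      (HasDerivAt.comp p.2 (HD_mm hq).hasDerivAt d2) hasFDerivAt_snd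
  have h1 := ((hX.sub ((hF.const_sub L).mul hM)).mul_const ((δ e)⁻¹)).prodMk
    (hasFDerivAt_snd (𝕜 := ℝ) (E := ℝ) (F := ℝ) (p := p))
  have h3 : HasFDerivAt (Nl L δ b e) _ p := h1.congr_of_eventuallyEq
    (Eventually.of_forall fun r => by unfold Nl; simp [div_eq_mul_inv])
  refine ⟨h3.differentiableAt, ?_⟩
  rw [h3.fderiv, HD_det]
  simp
  field_simp

/-- the Jacobian of `HD_G` -/
theorem HD_GJ {δ b : ℝ → ℝ} (hb : Differentiable ℝ b) {e : ℝ} (he : 0 < e) (hd : 0 < δ e)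
    {p : ℝ × ℝ} (h2 : |Real.sqrt e * p.2| ≤ 1 / 2) (h3 : |b (δ e * p.1)| ≤ 1 / 10) :
    (fderiv ℝ (HD_G δ b e) p).det =
      (Real.cos (b (δ e * p.1)) - mm (refl b (δ e * p.1) (Real.sqrt e * p.2)) *
        Real.sin (b (δ e * p.1))) * (Real.cos (2 * b (δ e * p.1)) + mm (Real.sqrt e * p.2) *
        Real.sin (2 * b (δ e * p.1))) := by
  have hq : (Real.sqrt e * p.2) ^ 2 < 1 := HD_sq_lt h2
  have hse : 0 < Real.sqrt e := Real.sqrt_pos.mpr he
  have hq1 : (refl b (δ e * p.1) (Real.sqrt e * p.2)) ^ 2 < 1 := (HD_trig h2 h3).1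
  have d1 : HasDerivAt (fun Y : ℝ => δ e * Y) (δ e) p.1 := by
    simpa using (hasDerivAt_id p.1).const_mul (δ e)
  have d2 : HasDerivAt (fun P : ℝ => Real.sqrt e * P) (Real.sqrt e) p.2 := by
    simpa using (hasDerivAt_id p.2).const_mul (Real.sqrt e)
  have hX : HasFDerivAt (fun r : ℝ × ℝ => hx b (δ e * r.1))
      ((Real.cos (b (δ e * p.1)) * δ e) • ContinuousLinearMap.fst ℝ ℝ ℝ) p :=
    HasDerivAt.comp_hasFDerivAt (h₂ := fun Y => hx b (δ e * Y)) p
      (HasDerivAt.comp p.1 (HD_hx hb.continuous (δ e * p.1)) d1) hasFDerivAt_fst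
  have hF : HasFDerivAt (fun r : ℝ × ℝ => hf b (δ e * r.1))
      ((Real.sin (b (δ e * p.1)) * δ e) • ContinuousLinearMap.fst ℝ ℝ ℝ) p :=
    HasDerivAt.comp_hasFDerivAt (h₂ := fun Y => hf b (δ e * Y)) p
      (HasDerivAt.comp p.1 (HD_hf hb.continuous (δ e * p.1)) d1) hasFDerivAt_fst
  -- the reflected direction
  have hS : DifferentiableAt ℝ (fun r : ℝ × ℝ => Real.sqrt (1 - (Real.sqrt e * r.2) ^ 2)) p := by
    have h4 := HasDerivAt.comp_hasFDerivAt (h₂ := fun P => Real.sqrt (1 - (Real.sqrt e * P) ^ 2)) p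
      (HasDerivAt.comp (h₂ := fun q : ℝ => Real.sqrt (1 - q ^ 2)) p.2 (HD_sqrt hq) d2)
      (hasFDerivAt_snd (𝕜 := ℝ) (E := ℝ) (F := ℝ) (p := p))
    exact h4.differentiableAt
  have hR : DifferentiableAt ℝ
      (fun r : ℝ × ℝ => refl b (δ e * r.1) (Real.sqrt e * r.2)) p := by
    unfold refl
    have hb' : DifferentiableAt ℝ (fun r : ℝ × ℝ => b (δ e * r.1)) p := by
      have := (hb (δ e * p.1)).hasDerivAt
      exact (HasDerivAt.comp_hasFDerivAt (h₂ := fun Y => b (δ e * Y)) p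
        (HasDerivAt.comp p.1 this d1) hasFDerivAt_fst).differentiableAt
    refine DifferentiableAt.sub (DifferentiableAt.mul ?_ ?_) (DifferentiableAt.mul hS ?_)
    · exact differentiableAt_snd.const_mul _
    · exact (hb'.const_mul 2).cos
    · exact (hb'.const_mul 2).sin
  obtain ⟨Q, hQ⟩ : ∃ Q, Q = fderiv ℝ
      (fun r : ℝ × ℝ => refl b (δ e * r.1) (Real.sqrt e * r.2)) p := ⟨_, rfl⟩
  have hRd := hR.hasFDerivAt
  rw [← hQ] at hRd
  have hQ01 : Q (0, 1) = Real.sqrt e * (Real.cos (2 * b (δ e * p.1)) +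
      mm (Real.sqrt e * p.2) * Real.sin (2 * b (δ e * p.1))) := by
    have h1 : HasDerivAt (fun P : ℝ => (p.1, P)) ((0 : ℝ), (1 : ℝ)) p.2 :=
      (hasDerivAt_const p.2 p.1).prodMk (hasDerivAt_id p.2)
    have h4 : HasDerivAt (fun P : ℝ => refl b (δ e * p.1) (Real.sqrt e * P)) (Q (0, 1)) p.2 :=
      HasFDerivAt.comp_hasDerivAt (f := fun P : ℝ => (p.1, P)) p.2 hRd h1
    have h5 : HasDerivAt (fun P : ℝ => refl b (δ e * p.1) (Real.sqrt e * P))
        (Real.sqrt e * Real.cos (2 * b (δ e * p.1)) -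
          (-mm (Real.sqrt e * p.2) * Real.sqrt e) * Real.sin (2 * b (δ e * p.1))) p.2 := by
      unfold refl
      exact (d2.mul_const _).sub ((HasDerivAt.comp (h₂ := fun q : ℝ => Real.sqrt (1 - q ^ 2))
      p.2 (HD_sqrt hq) d2).mul_const _)
    rw [h4.unique h5]
    ring
  have hM : HasFDerivAt
      (fun r : ℝ × ℝ => mm (refl b (δ e * r.1) (Real.sqrt e * r.2)))
      (deriv mm (refl b (δ e * p.1) (Real.sqrt e * p.2)) • Q) p :=
    HasDerivAt.comp_hasFDerivAt (h₂ := mm) p (HD_mm hq1).hasDerivAt hRd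
  have h1 := ((hX.sub (hF.mul hM)).mul_const ((δ e)⁻¹)).prodMk
    (hRd.mul_const ((Real.sqrt e)⁻¹))
  have h4 : HasFDerivAt (HD_G δ b e) _ p := h1.congr_of_eventuallyEq
    (Eventually.of_forall fun r => by unfold HD_G sci outLine; simp [div_eq_mul_inv])
  rw [h4.fderiv, HD_det]
  simp only [ContinuousLinearMap.prod_apply, smul_apply,
    sub_apply, add_apply, smul_eq_mul,
    ContinuousLinearMap.coe_fst', hQ01]
  field_simp
  ring

/-- the one wall map preserves the area of the space of lines -/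
theorem Ss_det {L A B : ℝ} {b1 b2 δ b : ℝ → ℝ} (hW : Walls L A B b1 b2)
    (hS : Scale b1 b2 δ) (hb : b = b1 ∨ b = b2) (k : ℝ) :
    ∀ᶠ e in 𝓝[>] (0 : ℝ), ∀ p ∈ Reg L b1 b2 δ k e, (fderiv ℝ (Ss L A B δ b e) p).det = 1 := by
  have hbs : ContDiff ℝ ∞ b := by
    rcases hb with rfl | rfl
    · exact hW.smooth1
    · exact hW.smooth2
  have hbd : Differentiable ℝ b := hbs.differentiable (by simp)
  obtain ⟨r, hr⟩ : ∃ r, r = Real.sqrt (k / L) + 1 := ⟨_, rfl⟩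
  have hrpos : 0 < r := by rw [hr]; positivity
  have hsmall : ∀ᶠ e in 𝓝[>] (0 : ℝ), Real.sqrt e * r ≤ 1 / 2 := by
    have h1 : Tendsto (fun e : ℝ => Real.sqrt e * r) (𝓝[>] 0) (𝓝 (Real.sqrt 0 * r)) :=
      ((Real.continuous_sqrt.tendsto 0).mul_const r).mono_left nhdsWithin_le_nhds
    rw [Real.sqrt_zero, zero_mul] at h1
    exact h1.eventually_le_const (by norm_num)
  filter_upwards [hS.pos, self_mem_nhdsWithin, hit_scaled hW hS hb k, hsmall,
    Iset_in hW (δ := δ) (k / 2 + 1), (Exp.tame (mu_fast hS) (Ss_exp hW hS hb k)).1] with e hd he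
    hhit hsm hIn hdiff p hp
  obtain ⟨-, hbox, hNl⟩ := hhit p hp
  rw [← hr] at hbox
  obtain ⟨y, hy⟩ : ∃ y : ℝ × ℝ, y = (hit L A B b (sc δ e p) / δ e, p.2) := ⟨_, rfl⟩
  rw [← hy] at hbox hNl
  have hboxP : ∀ z ∈ Box b1 b2 δ (k / 2 + 1) r e, |Real.sqrt e * z.2| ≤ 1 / 2 := by
    intro z hz
    rw [abs_mul, abs_of_nonneg (Real.sqrt_nonneg e)]
    have h1 : |z.2| ≤ r := (abs_lt.mpr hz.2).le
    exact le_trans (mul_le_mul_of_nonneg_left h1 (Real.sqrt_nonneg e)) hsm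
  have hboxY : ∀ z ∈ Box b1 b2 δ (k / 2 + 1) r e, δ e * z.1 ∈ Ioo (-A) B := fun z hz =>
    hIn _ hz.1
  have hopen : IsOpen (Box b1 b2 δ (k / 2 + 1) r e) := (Iset_open hW _ _).prod isOpen_Ioo
  have heq : (fun z => Ss L A B δ b e (Nl L δ b e z)) =ᶠ[𝓝 y] HD_G δ b e := by
    filter_upwards [hopen.mem_nhds hbox] with z hz
    exact HD_eq hW hb hd (hboxY z hz) (hboxP z hz)
  have hN := HD_Nl (L := L) hbd.continuous hd (hboxP y hbox)
  have hSd : DifferentiableAt ℝ (Ss L A B δ b e) (Nl L δ b e y) := by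
    rw [hNl]
    exact (hdiff.2.contDiffAt (hdiff.1.mem_nhds hp)).differentiableAt (by simp)
  have hsm' : |b (δ e * y.1)| ≤ 1 / 10 := by
    have h1 := hboxY y hbox
    have h2 := hW.small (δ e * y.1) ⟨h1.1.le, h1.2.le⟩
    rcases hb with rfl | rfl
    · exact h2.1
    · exact h2.2
  have hchain : fderiv ℝ (fun z => Ss L A B δ b e (Nl L δ b e z)) y =
      (fderiv ℝ (Ss L A B δ b e) (Nl L δ b e y)).comp (fderiv ℝ (Nl L δ b e) y) :=
    fderiv_fun_comp y hSd hN.1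
  rw [heq.fderiv_eq] at hchain
  have h5 := congrArg ContinuousLinearMap.det hchain
  rw [HD_det_comp, HD_GJ hbd he hd (hboxP y hbox) hsm', hN.2, hNl] at h5
  obtain ⟨-, hpos, hid⟩ := HD_trig (hboxP y hbox) hsm'
  have h6 : (fderiv ℝ (Ss L A B δ b e) p).det * (Real.cos (b (δ e * y.1)) +
      mm (Real.sqrt e * y.2) * Real.sin (b (δ e * y.1))) = 1 * (Real.cos (b (δ e * y.1)) +
      mm (Real.sqrt e * y.2) * Real.sin (b (δ e * y.1))) := by
    rw [← h5, one_mul, ← hid]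
    rfl
  exact mul_right_cancel₀ hpos.ne' h6

theorem Fs_det {L A B : ℝ} {b1 b2 δ : ℝ → ℝ} (hW : Walls L A B b1 b2)
    (hS : Scale b1 b2 δ) (k : ℝ) :
    ∀ᶠ e in 𝓝[>] (0 : ℝ), ∀ p ∈ Reg L b1 b2 δ k e, (fderiv ℝ (Fs L A B b1 b2 δ e) p).det = 1 := by
  have hmaps : ∀ᶠ e in 𝓝[>] (0 : ℝ), MapsTo (Ss L A B δ b2 e) (Reg L b1 b2 δ k e)
      (Reg L b1 b2 δ (k + 1) e) :=
    Exp.maps (mu_fast hS) (Ss_exp hW hS (Or.inr rfl) k) (Reg_ins hW hS (by linarith))
  filter_upwards [hmaps, Ss_det hW hS (Or.inl rfl) (k + 1), Ss_det hW hS (Or.inr rfl) k,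
    Fs_eq (L := L) (A := A) (B := B) hS] with e hm h1 h2 hF p hp
  have e1 : Fs L A B b1 b2 δ e = fun p => Ss L A B δ b1 e (Ss L A B δ b2 e p) := funext hF
  have d2 := h2 p hp
  have d1 := h1 _ (hm hp)
  rw [e1, fderiv_fun_comp p (HD_diff_of_det d1) (HD_diff_of_det d2), HD_det_comp, d1, d2, one_mul]

end BB
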