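import Pool.Agent.Lib_helper6.BB.W.ZC
import Pool.Agent.Lib_helper6.BB.W.HC2

open Filter Topology Set MeasureTheory
open scoped ContDiff

namespace BB

theorem TM2_small {η c : ℝ} (hη : 0 < η) (hc : 0 < c) : ∀ᶠ e in 𝓝[>] (0 : ℝ), e ^ η < c := by
  have h : Tendsto (fun e : ℝ => e ^ η) (𝓝[>] (0 : ℝ)) (𝓝 0) := by
    have h1 := (Real.continuousAt_rpow_const (0 : ℝ) η (Or.inr hη.le)).tendsto
    rw [Real.zero_rpow hη.ne'] at h1
    exact h1.mono_left nhdsWithin_le_nhds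
  exact h.eventually (gt_mem_nhds hc)

/-- a family with an expansion is close to its first term -/
theorem TM2_close {V W : Type} [NormedAddCommGroup V] [NormedSpace ℝ V]
    [NormedAddCommGroup W] [NormedSpace ℝ W] {m : ℝ → ℝ} (hm : Fast m) {Ω : ℝ → Set V}
    {f f0 f1 : ℝ → V → W} (h : Exp m Ω f f0 f1) :
    ∃ η : ℝ, 0 < η ∧ ∀ᶠ e in 𝓝[>] (0 : ℝ), ∀ x ∈ Ω e, ‖f e x - f0 e x‖ ≤ e ^ η := by
  obtain ⟨κ, hκ, hmκ⟩ := hm
  obtain ⟨_, h1, r, hr, he⟩ := h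
  refine ⟨κ / 4, by positivity, ?_⟩
  have hb1 := h1.bound0 (η := κ / 2) (by positivity)
  have hb2 := hr.bound0 (η := κ / 2) (by positivity)
  filter_upwards [hmκ, he, hb1, hb2, TM2_small (η := κ) (c := 1) hκ one_pos,
    TM2_small (η := κ / 4) (c := 1 / 2) (by positivity) (by norm_num), eventually_mem_nhdsWithin]
    with e a1 a2 a3 a4 a5 a6 a7 x hx
  have he0 : (0 : ℝ) < e := a7
  rw [a2 x hx]
  have e1 : f0 e x + m e • f1 e x + m e ^ 2 • r e x - f0 e x = m e • f1 e x + m e ^ 2 • r e x := by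
    abel
  rw [e1]
  have hP : 0 < e ^ κ := Real.rpow_pos_of_pos he0 _
  have hQ : 0 < e ^ (-(κ / 2)) := Real.rpow_pos_of_pos he0 _
  have b1 : ‖m e • f1 e x‖ ≤ e ^ κ * e ^ (-(κ / 2)) := by
    rw [norm_smul]
    exact mul_le_mul a1 (a3 x hx) (norm_nonneg _) hP.le
  have b2 : ‖m e ^ 2 • r e x‖ ≤ e ^ κ * e ^ (-(κ / 2)) := by
    rw [norm_smul]
    have c1 : ‖m e ^ 2‖ ≤ e ^ κ := by
      rw [norm_pow, Real.norm_eq_abs]
      have c2 : |m e| ^ 2 ≤ (e ^ κ) ^ 2 := pow_le_pow_left₀ (abs_nonneg _) a1 2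
      nlinarith
    exact mul_le_mul c1 (a4 x hx) (norm_nonneg _) hP.le
  have b3 : e ^ κ * e ^ (-(κ / 2)) = e ^ (κ / 4) * e ^ (κ / 4) := by
    rw [← Real.rpow_add he0, ← Real.rpow_add he0]
    congr 1
    ring
  have hR : 0 < e ^ (κ / 4) := Real.rpow_pos_of_pos he0 _
  calc ‖m e • f1 e x + m e ^ 2 • r e x‖ ≤ ‖m e • f1 e x‖ + ‖m e ^ 2 • r e x‖ := norm_add_le _ _
    _ ≤ e ^ κ * e ^ (-(κ / 2)) + e ^ κ * e ^ (-(κ / 2)) := add_le_add b1 b2
    _ = 2 * e ^ (κ / 4) * e ^ (κ / 4) := by rw [b3]; ring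
    _ ≤ 1 * e ^ (κ / 4) := by
        apply mul_le_mul_of_nonneg_right _ hR.le
        linarith
    _ = e ^ (κ / 4) := one_mul _

/-- polar coordinates of a point with a positive scalar product with a given point -/
theorem TM2_polar {s R : ℝ} (hR : 0 < R) (p' : ℝ × ℝ)
    (hdot : 0 < (pol (s, R)).1 * p'.1 + (pol (s, R)).2 * p'.2) :
    ∃ R' : ℝ, 0 < R' ∧ pol (s + dang (pol (s, R)) p', R') = p' := by
  obtain ⟨a, b⟩ := p'
  simp only [pol] at hdot ⊢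
  set S := Real.sin s with hS
  set C := Real.cos s with hC
  have hSC : S ^ 2 + C ^ 2 = 1 := Real.sin_sq_add_cos_sq s
  set D := R * S * a + R * C * b with hD
  set X := R * C * a - R * S * b with hX
  have hL : D ^ 2 + X ^ 2 = R ^ 2 * (a ^ 2 + b ^ 2) := by
    have : D ^ 2 + X ^ 2 = R ^ 2 * (S ^ 2 + C ^ 2) * (a ^ 2 + b ^ 2) := by
      rw [hD, hX]; ring
    rw [this, hSC, mul_one]
  have hab : 0 < a ^ 2 + b ^ 2 := by
    by_contra hc
    have h1 : a ^ 2 + b ^ 2 = 0 := le_antisymm (not_lt.mp hc) (by positivity)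
    rw [h1, mul_zero] at hL
    nlinarith [sq_nonneg X, sq_nonneg D]
  have hR' : 0 < Real.sqrt (a ^ 2 + b ^ 2) := Real.sqrt_pos.mpr hab
  have hR'2 : Real.sqrt (a ^ 2 + b ^ 2) ^ 2 = a ^ 2 + b ^ 2 := Real.sq_sqrt hab.le
  set N := Real.sqrt (a ^ 2 + b ^ 2) with hN
  have hsq : Real.sqrt (1 + (X / D) ^ 2) = R * N / D := by
    rw [Real.sqrt_eq_iff_mul_self_eq (by positivity) (by positivity)]
    field_simp
    nlinarith
  have hcos : Real.cos (dang (R * S, R * C) (a, b)) = D / (R * N) := by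
    have : dang (R * S, R * C) (a, b) = Real.arctan (X / D) := rfl
    rw [this, Real.cos_arctan, hsq]
    field_simp
  have hsin : Real.sin (dang (R * S, R * C) (a, b)) = X / (R * N) := by
    have : dang (R * S, R * C) (a, b) = Real.arctan (X / D) := rfl
    rw [this, Real.sin_arctan, hsq]
    field_simp
  refine ⟨N, hR', ?_⟩
  rw [Real.sin_add, Real.cos_add, hcos, hsin, ← hS, ← hC, Prod.ext_iff]
  constructor
  · show N * (S * (D / (R * N)) + C * (X / (R * N))) = a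
    have : N * (S * (D / (R * N)) + C * (X / (R * N))) = (S * D + C * X) / R := by
      field_simp
    rw [this, div_eq_iff hR.ne', hD, hX]
    have : S * (R * S * a + R * C * b) + C * (R * C * a - R * S * b) =
      a * R * (S ^ 2 + C ^ 2) := by ring
    rw [this, hSC, mul_one]
  · show N * (C * (D / (R * N)) - S * (X / (R * N))) = b
    have : N * (C * (D / (R * N)) - S * (X / (R * N))) = (C * D - S * X) / R := by
      field_simp
    rw [this, div_eq_iff hR.ne', hD, hX]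
    have : C * (R * S * a + R * C * b) - S * (R * C * a - R * S * b) =
      b * R * (S ^ 2 + C ^ 2) := by ring
    rw [this, hSC, mul_one]

theorem TM2_dot {s R t : ℝ} (hR : 0 < R) (p' : ℝ × ℝ) (h : ‖p' - pol (s, R)‖ ≤ t)
    (ht : 4 * t < R) : 0 < (pol (s, R)).1 * p'.1 + (pol (s, R)).2 * p'.2 := by
  obtain ⟨a, b⟩ := p'
  simp only [pol] at h ⊢
  have hSC : Real.sin s ^ 2 + Real.cos s ^ 2 = 1 := Real.sin_sq_add_cos_sq s
  rw [Prod.norm_def, max_le_iff] at h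
  obtain ⟨h1, h2⟩ := h
  simp only [Prod.fst_sub, Prod.snd_sub, Real.norm_eq_abs] at h1 h2
  have hs := Real.abs_sin_le_one s
  have hc := Real.abs_cos_le_one s
  have k1 : |Real.sin s * (a - R * Real.sin s)| ≤ t := by
    rw [abs_mul]
    calc |Real.sin s| * |a - R * Real.sin s| ≤ 1 * |a - R * Real.sin s| :=
          mul_le_mul_of_nonneg_right hs (abs_nonneg _)
      _ ≤ t := by rw [one_mul]; exact h1
  have k2 : |Real.cos s * (b - R * Real.cos s)| ≤ t := by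
    rw [abs_mul]
    calc |Real.cos s| * |b - R * Real.cos s| ≤ 1 * |b - R * Real.cos s| :=
          mul_le_mul_of_nonneg_right hc (abs_nonneg _)
      _ ≤ t := by rw [one_mul]; exact h2
  have ht0 : 0 ≤ t := le_trans (abs_nonneg _) h1
  rw [abs_le] at k1 k2
  have e1 : R * Real.sin s * a + R * Real.cos s * b = R * (R * (Real.sin s ^ 2 + Real.cos s ^ 2) +
      Real.sin s * (a - R * Real.sin s) + Real.cos s * (b - R * Real.cos s)) := by ring
  rw [e1, hSC, mul_one]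
  apply mul_pos hR
  linarith [k1.1, k2.1]

/-- `Tm` represents `Fs` in the coordinates `Zc` -/
theorem Tm_spec {L A B : ℝ} {b1 b2 δ : ℝ → ℝ} (hW : Walls L A B b1 b2) (hS : Scale b1 b2 δ)
    {lam : ℝ} (hl : GoodLam L b1 b2 δ lam) {h0 : ℝ → ℝ} (hh0 : ∀ e, h0 e ∈ Icc (3 / 4 : ℝ) (5 / 4)) :
    ∀ᶠ e in 𝓝[>] (0 : ℝ), ∀ q ∈ (univ ×ˢ Ioo (-3 / 8 : ℝ) (3 / 8) : Set (ℝ × ℝ)),
      Tm L A B b1 b2 δ lam h0 e q ∈ Str ∧
      Zc L b1 b2 δ lam h0 e (Tm L A B b1 b2 δ lam h0 e q) =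
        Fs L A B b1 b2 δ e (Zc L b1 b2 δ lam h0 e q) ∧
      Tm L A B b1 b2 δ lam h0 e (q.1 + 1, q.2) =
        ((Tm L A B b1 b2 δ lam h0 e q).1 + 1, (Tm L A B b1 b2 δ lam h0 e q).2) := by
  have hm : Fast (mu δ) := mu_fast hS
  have hF := Fs_exp hW hS 2
  have hHF := Exp.comp hm (Exp.const (m := mu δ) (HH_tame hW hS 3)) hF
    (Reg_ins hW hS (show (2 : ℝ) < 3 by norm_num))
  have hΩo : ∀ e, IsOpen {p : ℝ × ℝ | 3 / 8 < HH L b1 b2 δ e p ∧ HH L b1 b2 δ e p < 2} := by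
    intro e
    have hc : Continuous (HH L b1 b2 δ e) := (HH_contDiff hW e).continuous
    exact (isOpen_lt continuous_const hc).inter (isOpen_lt hc continuous_const)
  have hHF' := hHF.mono (Ω' := fun e => {p : ℝ × ℝ | 3 / 8 < HH L b1 b2 δ e p ∧
    HH L b1 b2 δ e p < 2}) (Eventually.of_forall fun e => ⟨hΩo e, fun p hp => hp.2⟩)
  have hIns : InsMap (fun e p => HH L b1 b2 δ e p) (fun e => {p : ℝ × ℝ |
      3 / 8 < HH L b1 b2 δ e p ∧ HH L b1 b2 δ e p < 2}) (fun _ => Ioo (1 / 4 : ℝ) 3) := by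
    intro η hη
    filter_upwards [TM2_small hη (show (0 : ℝ) < 1 / 8 by norm_num)] with e he p hp x hx
    rw [Metric.mem_ball, Real.dist_eq, abs_lt] at hx
    have h1 := hp.1
    have h2 := hp.2
    exact ⟨by linarith [hx.1], by linarith [hx.2]⟩
  have hAF := Exp.comp hm (Exp.const (m := mu δ) (Act_tame hW hS hl hh0)) hHF' hIns
  obtain ⟨η1, hη1, c1⟩ := TM2_close hm hF
  obtain ⟨η2, hη2, c2⟩ := TM2_close hm hHF
  obtain ⟨η3, hη3, c3⟩ := TM2_close hm hAF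
  have hRl := Rad_lower hW hS (show (0 : ℝ) < 1 / 4 by norm_num) 2
    (show (0 : ℝ) < η1 / 2 by positivity)
  filter_upwards [Zc_spec hW hS hl hh0, Hy_spec hW hS hl hh0, c1, c2, c3, hRl,
    TM2_small hη2 (show (0 : ℝ) < 1 / 8 by norm_num),
    TM2_small hη3 (show (0 : ℝ) < 1 / 8 by norm_num),
    TM2_small (show (0 : ℝ) < η1 / 2 by positivity) (show (0 : ℝ) < 1 / 4 by norm_num),
    eventually_mem_nhdsWithin, hS.pos] with e hZ hH k1 k2 k3 hR s2 s3 s1 he0 hd q hq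
  have he : 0 < e := he0
  obtain ⟨z1, z2, _, _, _⟩ := hZ
  have hq2 := hq.2
  rw [mem_Ioo] at hq2
  have hqS : q ∈ Str := ⟨mem_univ _, by rw [mem_Ioo]; constructor <;> linarith [hq2.1, hq2.2]⟩
  have hqI : q.2 ∈ Ioo (-1 / 2 : ℝ) (1 / 2) := hqS.2
  obtain ⟨y1, y2⟩ := hH q.2 hqI
  rw [mem_Ioo] at y1
  have hh := hh0 e
  rw [mem_Icc] at hh
  set h := Hy L b1 b2 δ lam h0 e q.2 with hhdef
  set ψ := Psi L b1 b2 δ e (q.1, h) with hψ
  set p := Zc L b1 b2 δ lam h0 e q with hp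
  have hpH : HH L b1 b2 δ e p = h := z1 q hqS
  have hpK : p = pol (ψ, Rad L b1 b2 δ e (ψ, h)) := rfl
  have hpos : 0 < h := by linarith
  obtain ⟨hRpos, _⟩ := Rad_spec hW he hd (q := (ψ, h)) hpos
  have hRlow := hR (ψ, h) (show (1 : ℝ) / 4 < h by linarith) (show h < 2 by linarith)
  set R := Rad L b1 b2 δ e (ψ, h) with hRdef
  have hpReg : p ∈ Reg L b1 b2 δ 2 e := by
    show HH L b1 b2 δ e p < 2
    rw [hpH]; linarith
  set p' := Fs L A B b1 b2 δ e p with hp'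
  have d1 : ‖p' - p‖ ≤ e ^ η1 := k1 p hpReg
  have d2 := k2 p hpReg
  rw [Real.norm_eq_abs] at d2
  have d2' : |HH L b1 b2 δ e p' - h| ≤ e ^ η2 := by rw [← hpH]; exact d2
  have d3 := k3 p ⟨by rw [hpH]; linarith, by rw [hpH]; linarith⟩
  rw [Real.norm_eq_abs] at d3
  have d3' : |Act L b1 b2 δ lam h0 e (HH L b1 b2 δ e p') - q.2| ≤ e ^ η3 := by
    have : Act L b1 b2 δ lam h0 e (HH L b1 b2 δ e p) = q.2 := by rw [hpH]; exact y2
    rw [← this]
    exact d3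
  rw [abs_le] at d2' d3'
  have hh'pos : 0 < HH L b1 b2 δ e p' := by linarith [d2'.1]
  set h' := HH L b1 b2 δ e p' with hh'
  have hy' : Act L b1 b2 δ lam h0 e h' ∈ Ioo (-1 / 2 : ℝ) (1 / 2) :=
    ⟨by linarith [d3'.1, hq2.1], by linarith [d3'.2, hq2.2]⟩
  obtain ⟨w1, w2⟩ := hH _ hy'
  rw [mem_Ioo] at w1
  have hinj := (Act_strictMono hW (lt_of_lt_of_le one_pos hl.1) h0 he hd
    (by linarith [hh.1] : 0 < h0 e)).injOn
  have hHy : Hy L b1 b2 δ lam h0 e (Act L b1 b2 δ lam h0 e h') = h' :=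
    hinj (show (0 : ℝ) < _ by linarith [w1.1]) hh'pos w2
  have hTm : Tm L A B b1 b2 δ lam h0 e q =
      (Th L b1 b2 δ e (ψ + dang p p', h'), Act L b1 b2 δ lam h0 e h') := rfl
  have hdot : 0 < (pol (ψ, R)).1 * p'.1 + (pol (ψ, R)).2 * p'.2 := by
    apply TM2_dot hRpos p' (t := e ^ η1)
    · rw [← hpK]; exact d1
    · have e1 : e ^ η1 = e ^ (η1 / 2) * e ^ (η1 / 2) := by
        rw [← Real.rpow_add he]; congr 1; ring
      have e2 : 0 < e ^ (η1 / 2) := Real.rpow_pos_of_pos he _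
      rw [e1]
      nlinarith
  obtain ⟨R', hR'pos, hR'⟩ := TM2_polar hRpos p' hdot
  rw [← hpK] at hR'
  have hRu : R' = Rad L b1 b2 δ e (ψ + dang p p', h') :=
    Rad_unique hW he hd (q := (ψ + dang p p', h')) hh'pos hR'pos (by
      show HH L b1 b2 δ e (pol (ψ + dang p p', R')) = h'
      rw [hR'])
  refine ⟨?_, ?_, ?_⟩
  · rw [hTm]
    exact ⟨mem_univ _, hy'⟩
  · rw [hTm]
    show Kp L b1 b2 δ e (Psi L b1 b2 δ e (Th L b1 b2 δ e (ψ + dang p p', h'),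
      Hy L b1 b2 δ lam h0 e (Act L b1 b2 δ lam h0 e h')),
      Hy L b1 b2 δ lam h0 e (Act L b1 b2 δ lam h0 e h')) = p'
    rw [hHy, Psi_Th hW he hd hh'pos]
    show pol (ψ + dang p p', Rad L b1 b2 δ e (ψ + dang p p', h')) = p'
    rw [← hRu]
    exact hR'
  · have hZ1 : Zc L b1 b2 δ lam h0 e (q.1 + 1, q.2) = p := by
      have := z2 q hqS 1
      simpa using this
    have hP1 : Psi L b1 b2 δ e (q.1 + 1, h) = ψ + 2 * Real.pi := by
      have := Psi_add hW he hd hpos q.1 1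
      simpa using this
    have hT1 : Th L b1 b2 δ e (ψ + dang p p' + 2 * Real.pi, h') =
        Th L b1 b2 δ e (ψ + dang p p', h') + 1 := by
      have := Th_add hW he hd hh'pos (ψ + dang p p') 1
      simpa using this
    have hTm1 : Tm L A B b1 b2 δ lam h0 e (q.1 + 1, q.2) =
        (Th L b1 b2 δ e (Psi L b1 b2 δ e (q.1 + 1, h) +
          dang (Zc L b1 b2 δ lam h0 e (q.1 + 1, q.2))
            (Fs L A B b1 b2 δ e (Zc L b1 b2 δ lam h0 e (q.1 + 1, q.2))),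
          HH L b1 b2 δ e (Fs L A B b1 b2 δ e (Zc L b1 b2 δ lam h0 e (q.1 + 1, q.2)))),
        Act L b1 b2 δ lam h0 e
          (HH L b1 b2 δ e (Fs L A B b1 b2 δ e (Zc L b1 b2 δ lam h0 e (q.1 + 1, q.2))))) := rfl
    rw [hTm1, hZ1, hTm, hP1, ← hp', ← hh']
    have : ψ + 2 * Real.pi + dang p p' = ψ + dang p p' + 2 * Real.pi := by ring
    rw [this, hT1]

end BB
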