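import Pool.Agent.Lib_helper6.BB.W.AN
import Pool.Agent.Lib_helper6.BB.W.AC

open Filter Topology Set MeasureTheory
open scoped ContDiff

namespace BB

theorem ZC_pow (C : ℝ) {η : ℝ} (hη : 0 < η) : ∀ᶠ e in 𝓝[>] (0 : ℝ), C ≤ e ^ (-η) :=
  (tendsto_rpow_neg_nhdsGT_zero (by linarith : -η < 0)).eventually_ge_atTop C

theorem ZC_det (T : (ℝ × ℝ) →L[ℝ] (ℝ × ℝ)) :
    T.det = (T (1, 0)).1 * (T (0, 1)).2 - (T (0, 1)).1 * (T (1, 0)).2 := by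
  rw [ContinuousLinearMap.det, ← LinearMap.det_toMatrix (Module.Basis.finTwoProd ℝ),
    Matrix.det_fin_two]
  simp [LinearMap.toMatrix_apply]

theorem ZC_det_comp (T S : (ℝ × ℝ) →L[ℝ] (ℝ × ℝ)) : (T.comp S).det = T.det * S.det := by
  simp only [ContinuousLinearMap.det]
  rw [← LinearMap.det_comp]
  rfl

theorem ZC_id_tame (w a b : ℝ) : Tame (Win w a b) (fun _ q => q) := by
  have hΩ : ∀ᶠ e in 𝓝[>] (0 : ℝ), IsOpen (Win w a b e) :=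
    Eventually.of_forall fun _ => isOpen_Ioo.prod isOpen_Ioo
  refine (Tame.clm hΩ (ContinuousLinearMap.id ℝ (ℝ × ℝ)) ?_)
  intro η hη
  filter_upwards [ZC_pow (max |w| (max |a| |b|)) hη] with e he x hx
  refine le_trans ?_ he
  obtain ⟨h1, h2⟩ := hx
  rw [Prod.norm_def]
  apply max_le
  · apply le_max_of_le_left
    rw [Real.norm_eq_abs, abs_le]
    have := le_abs_self w
    have := h1.1
    have := h1.2
    constructor <;> linarith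
  · apply le_max_of_le_right
    rw [Real.norm_eq_abs]
    exact abs_le_max_abs_abs h2.1.le h2.2.le

theorem ZC_Hy_mem {L A B : ℝ} {b1 b2 δ : ℝ → ℝ} (hW : Walls L A B b1 b2) (hS : Scale b1 b2 δ)
    {lam : ℝ} (hl : GoodLam L b1 b2 δ lam) {h0 : ℝ → ℝ} (hh0 : ∀ e, h0 e ∈ Icc (3 / 4 : ℝ) (5 / 4)) :
    ∀ᶠ e in 𝓝[>] (0 : ℝ), ∀ y ∈ Ioo (-1 / 2 : ℝ) (1 / 2),
      Hy L b1 b2 δ lam h0 e y ∈ Ioo (1 / 2 : ℝ) (3 / 2) := by
  filter_upwards [Hy_spec hW hS hl hh0] with e he y hy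
  have h1 := (he y hy).1
  have h2 := hh0 e
  constructor
  · linarith [h1.1, h2.1]
  · linarith [h1.2, h2.2]

theorem ZC_Hy_tame {L A B : ℝ} {b1 b2 δ : ℝ → ℝ} (hW : Walls L A B b1 b2) (hS : Scale b1 b2 δ)
    {lam : ℝ} (hl : GoodLam L b1 b2 δ lam) {h0 : ℝ → ℝ} (hh0 : ∀ e, h0 e ∈ Icc (3 / 4 : ℝ) (5 / 4))
    (w : ℝ) : Tame (Win w (-1 / 2) (1 / 2)) (fun e q => Hy L b1 b2 δ lam h0 e q.2) := by
  refine Tame.comp (Hy_tame hW hS hl hh0) (ZC_id_tame w (-1 / 2) (1 / 2)).snd ?_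
  exact Eventually.of_forall fun e q hq => hq.2

theorem ZC_Psi_tame {L A B : ℝ} {b1 b2 δ : ℝ → ℝ} (hW : Walls L A B b1 b2) (hS : Scale b1 b2 δ)
    {lam : ℝ} (hl : GoodLam L b1 b2 δ lam) {h0 : ℝ → ℝ} (hh0 : ∀ e, h0 e ∈ Icc (3 / 4 : ℝ) (5 / 4))
    (w : ℝ) : Tame (Win w (-1 / 2) (1 / 2))
      (fun e q => Psi L b1 b2 δ e (q.1, Hy L b1 b2 δ lam h0 e q.2)) := by
  refine Tame.comp (Psi_tame hW hS w (3 / 2) (a := 1 / 2) (by norm_num))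
    ((ZC_id_tame w (-1 / 2) (1 / 2)).fst.prodMk (ZC_Hy_tame hW hS hl hh0 w)) ?_
  filter_upwards [ZC_Hy_mem hW hS hl hh0] with e he q hq
  exact ⟨hq.1, he _ hq.2⟩

theorem ZC_maps {L A B : ℝ} {b1 b2 δ : ℝ → ℝ} (hW : Walls L A B b1 b2) (hS : Scale b1 b2 δ)
    {lam : ℝ} (hl : GoodLam L b1 b2 δ lam) {h0 : ℝ → ℝ} (hh0 : ∀ e, h0 e ∈ Icc (3 / 4 : ℝ) (5 / 4))
    (w : ℝ) : ∀ᶠ e in 𝓝[>] (0 : ℝ), MapsTo
      (fun q : ℝ × ℝ => (Psi L b1 b2 δ e (q.1, Hy L b1 b2 δ lam h0 e q.2),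
        Hy L b1 b2 δ lam h0 e q.2)) (Win w (-1 / 2) (1 / 2) e)
      (Win (2 * Real.pi * (|w| + 1) + 1) (1 / 2) (3 / 2) e) := by
  filter_upwards [ZC_Hy_mem hW hS hl hh0, hS.pos, self_mem_nhdsWithin] with e he hd hpos q hq
  have hH := he _ hq.2
  have h1 := Psi_abs hW hpos hd (h := Hy L b1 b2 δ lam h0 e q.2) (by linarith [hH.1]) q.1
  refine ⟨?_, hH⟩
  have h2 : |q.1| ≤ |w| := by
    rw [abs_le]
    have := le_abs_self w
    constructor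
    · linarith [hq.1.1]
    · linarith [hq.1.2]
  have h3 : |Psi L b1 b2 δ e (q.1, Hy L b1 b2 δ lam h0 e q.2)| <
      2 * Real.pi * (|w| + 1) + 1 := by
    have : 2 * Real.pi * (|q.1| + 1) ≤ 2 * Real.pi * (|w| + 1) := by
      have := Real.pi_pos
      gcongr
    linarith
  exact abs_lt.mp h3

theorem Zc_tame {L A B : ℝ} {b1 b2 δ : ℝ → ℝ} (hW : Walls L A B b1 b2) (hS : Scale b1 b2 δ)
    {lam : ℝ} (hl : GoodLam L b1 b2 δ lam) {h0 : ℝ → ℝ} (hh0 : ∀ e, h0 e ∈ Icc (3 / 4 : ℝ) (5 / 4))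
    (w : ℝ) : Tame (Win w (-1 / 2) (1 / 2)) (Zc L b1 b2 δ lam h0) := by
  have hK : Tame (Win (2 * Real.pi * (|w| + 1) + 1) (1 / 2) (3 / 2)) (Kp L b1 b2 δ) :=
    Kp_tame hW hS _ _ (by norm_num)
  have hf : Tame (Win w (-1 / 2) (1 / 2)) (fun e (q : ℝ × ℝ) =>
      (Psi L b1 b2 δ e (q.1, Hy L b1 b2 δ lam h0 e q.2), Hy L b1 b2 δ lam h0 e q.2)) :=
    (ZC_Psi_tame hW hS hl hh0 w).prodMk (ZC_Hy_tame hW hS hl hh0 w)
  have hm := ZC_maps hW hS hl hh0 w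
  have key := Tame.comp hK hf hm
  exact key

/-- the Jacobian determinant on a window -/
theorem ZC_det_win {L A B : ℝ} {b1 b2 δ : ℝ → ℝ} (hW : Walls L A B b1 b2) (hS : Scale b1 b2 δ)
    {lam : ℝ} (hl : GoodLam L b1 b2 δ lam) {h0 : ℝ → ℝ}
    (hh0 : ∀ e, h0 e ∈ Icc (3 / 4 : ℝ) (5 / 4)) :
    ∀ᶠ e in 𝓝[>] (0 : ℝ), ∀ q ∈ Win 2 (-1 / 2) (1 / 2) e,
      ContDiffAt ℝ ∞ (Zc L b1 b2 δ lam h0 e) q ∧
        (fderiv ℝ (Zc L b1 b2 δ lam h0 e) q).det = 1 / lam := by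
  filter_upwards [ZC_Hy_mem hW hS hl hh0, hS.pos, self_mem_nhdsWithin,
    (Zc_tame hW hS hl hh0 2).1, Hy_hasDerivAt hW hS hl hh0,
    (Psi_tame hW hS 2 (3 / 2) (a := 1 / 2) (by norm_num)).1] with e hHm hd hpos hZ hHy hPs q hq
  have hlam : 0 < lam := lt_of_lt_of_le one_pos hl.1
  have hZat : ContDiffAt ℝ ∞ (Zc L b1 b2 δ lam h0 e) q :=
    hZ.2.contDiffAt (hZ.1.mem_nhds hq)
  refine ⟨hZat, ?_⟩
  have hH := hHm _ hq.2
  obtain ⟨h, hh⟩ : ∃ h, h = Hy L b1 b2 δ lam h0 e q.2 := ⟨_, rfl⟩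
  rw [← hh] at hH
  have hhpos : 0 < h := by linarith [hH.1]
  have hper := Per_pos hW hpos hd hhpos
  -- the angle function
  have hPsAt : ContDiffAt ℝ ∞ (Psi L b1 b2 δ e) (q.1, h) :=
    hPs.2.contDiffAt (hPs.1.mem_nhds ⟨hq.1, hH⟩)
  have hPsD : HasFDerivAt (Psi L b1 b2 δ e) (fderiv ℝ (Psi L b1 b2 δ e) (q.1, h)) (q.1, h) :=
    (hPsAt.differentiableAt (by simp)).hasFDerivAt
  obtain ⟨P', hP'⟩ : ∃ P', P' = fderiv ℝ (Psi L b1 b2 δ e) (q.1, h) := ⟨_, rfl⟩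
  rw [← hP'] at hPsD
  obtain ⟨s, hs⟩ : ∃ s, s = Psi L b1 b2 δ e (q.1, h) := ⟨_, rfl⟩
  have hOm := Om_pos hW hpos hd (q := (s, h)) hhpos
  have hP10 : P' (1, 0) = Om L b1 b2 δ e (s, h) * Per L b1 b2 δ e h := by
    have h1 : HasDerivAt (fun x : ℝ => (x, h)) ((1 : ℝ), (0 : ℝ)) q.1 :=
      (hasDerivAt_id q.1).prodMk (hasDerivAt_const q.1 h)
    have h2 : HasDerivAt (fun x : ℝ => Psi L b1 b2 δ e (x, h)) (P' (1, 0)) q.1 :=
      HasFDerivAt.comp_hasDerivAt (f := fun x : ℝ => (x, h)) q.1 hPsD h1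
    have h3 : HasDerivAt (fun x : ℝ => Psi L b1 b2 δ e (x, h))
        (1 / (Om L b1 b2 δ e (s, h) * Per L b1 b2 δ e h))⁻¹ q.1 := by
      refine HasDerivAt.of_local_left_inverse (f := fun s => Th L b1 b2 δ e (s, h))
        h2.continuousAt ?_ ?_ ?_
      · rw [← hs]
        exact Th_hasDerivAt hW hpos hd hhpos s
      · positivity
      · exact Eventually.of_forall fun x => Th_Psi hW hpos hd hhpos x
    rw [h2.unique h3]
    simp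
  -- the energy function
  have hHd := hHy q.2 hq.2
  rw [← hh] at hHd
  -- the inner map
  have hm : HasFDerivAt (fun p : ℝ × ℝ => (p.1, Hy L b1 b2 δ lam h0 e p.2))
      ((ContinuousLinearMap.fst ℝ ℝ ℝ).prod
        ((1 / (lam * Per L b1 b2 δ e h)) • ContinuousLinearMap.snd ℝ ℝ ℝ)) q := by
    refine HasFDerivAt.prodMk hasFDerivAt_fst ?_
    exact hHd.comp_hasFDerivAt q hasFDerivAt_snd
  have hG1 : HasFDerivAt (fun p : ℝ × ℝ => Psi L b1 b2 δ e (p.1, Hy L b1 b2 δ lam h0 e p.2))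
      (P'.comp ((ContinuousLinearMap.fst ℝ ℝ ℝ).prod
        ((1 / (lam * Per L b1 b2 δ e h)) • ContinuousLinearMap.snd ℝ ℝ ℝ))) q := by
    have hPsD' : HasFDerivAt (Psi L b1 b2 δ e) P' (q.1, Hy L b1 b2 δ lam h0 e q.2) := by
      rw [← hh]; exact hPsD
    exact hPsD'.comp q hm
  have hG2 : HasFDerivAt (fun p : ℝ × ℝ => Hy L b1 b2 δ lam h0 e p.2)
      ((1 / (lam * Per L b1 b2 δ e h)) • ContinuousLinearMap.snd ℝ ℝ ℝ) q :=
    hHd.comp_hasFDerivAt q hasFDerivAt_snd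
  have hG := hG1.prodMk hG2
  -- the outer map
  have hKdet := Kp_det hW hpos hd (q := (s, h)) hhpos
  have hKd : DifferentiableAt ℝ (Kp L b1 b2 δ e) (s, h) := by
    by_contra hcon
    rw [fderiv_zero_of_not_differentiableAt hcon, ZC_det] at hKdet
    simp at hKdet
    exact hOm.ne hKdet
  have hK : HasFDerivAt (Kp L b1 b2 δ e) (fderiv ℝ (Kp L b1 b2 δ e) (s, h))
      (Psi L b1 b2 δ e (q.1, Hy L b1 b2 δ lam h0 e q.2), Hy L b1 b2 δ lam h0 e q.2) := by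
    rw [← hh, ← hs]; exact hKd.hasFDerivAt
  have hZd : HasFDerivAt (Zc L b1 b2 δ lam h0 e) _ q := hK.comp q hG
  rw [hZd.fderiv, ZC_det_comp, hKdet, ZC_det]
  have e1 : ((P'.comp ((ContinuousLinearMap.fst ℝ ℝ ℝ).prod
        ((1 / (lam * Per L b1 b2 δ e h)) • ContinuousLinearMap.snd ℝ ℝ ℝ))).prod
        ((1 / (lam * Per L b1 b2 δ e h)) • ContinuousLinearMap.snd ℝ ℝ ℝ)) (1, 0) =
        (Om L b1 b2 δ e (s, h) * Per L b1 b2 δ e h, 0) := by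
    simp [hP10]
  have e2 : (((P'.comp ((ContinuousLinearMap.fst ℝ ℝ ℝ).prod
        ((1 / (lam * Per L b1 b2 δ e h)) • ContinuousLinearMap.snd ℝ ℝ ℝ))).prod
        ((1 / (lam * Per L b1 b2 δ e h)) • ContinuousLinearMap.snd ℝ ℝ ℝ)) (0, 1)).2 =
        1 / (lam * Per L b1 b2 δ e h) := by
    simp
  rw [e1, e2]
  simp only [mul_zero, sub_zero]
  field_simp

theorem ZC_Kp_int {L A B : ℝ} {b1 b2 δ : ℝ → ℝ} (hW : Walls L A B b1 b2) {e : ℝ} (he : 0 < e)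
    (hd : 0 < δ e) {h : ℝ} (hh : 0 < h) (s : ℝ) (n : ℤ) :
    Kp L b1 b2 δ e (s + n * (2 * Real.pi), h) = Kp L b1 b2 δ e (s, h) := by
  have hp : Function.Periodic (fun s => Kp L b1 b2 δ e (s, h)) (2 * Real.pi) := fun s =>
    Kp_periodic hW he hd (q := (s, h)) hh
  exact hp.int_mul n s

/-- properties of the action angle coordinates, for all small `e` -/
theorem Zc_spec {L A B : ℝ} {b1 b2 δ : ℝ → ℝ} (hW : Walls L A B b1 b2) (hS : Scale b1 b2 δ)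
    {lam : ℝ} (hl : GoodLam L b1 b2 δ lam) {h0 : ℝ → ℝ} (hh0 : ∀ e, h0 e ∈ Icc (3 / 4 : ℝ) (5 / 4)) :
    ∀ᶠ e in 𝓝[>] (0 : ℝ),
      (∀ q ∈ Str, HH L b1 b2 δ e (Zc L b1 b2 δ lam h0 e q) = Hy L b1 b2 δ lam h0 e q.2) ∧
      (∀ q ∈ Str, ∀ n : ℤ, Zc L b1 b2 δ lam h0 e (q.1 + n, q.2) = Zc L b1 b2 δ lam h0 e q) ∧
      (∀ q ∈ Str, ∀ q' ∈ Str, Zc L b1 b2 δ lam h0 e q = Zc L b1 b2 δ lam h0 e q' →
        q.2 = q'.2 ∧ ∃ n : ℤ, q'.1 = q.1 + n) ∧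
      (∀ p : ℝ × ℝ, ∀ y ∈ Ioo (-1 / 2 : ℝ) (1 / 2), HH L b1 b2 δ e p = Hy L b1 b2 δ lam h0 e y →
        ∃ x : ℝ, Zc L b1 b2 δ lam h0 e (x, y) = p) ∧
      (∀ q ∈ Str, ContDiffAt ℝ ∞ (Zc L b1 b2 δ lam h0 e) q ∧
        (fderiv ℝ (Zc L b1 b2 δ lam h0 e) q).det = 1 / lam) := by
  filter_upwards [ZC_Hy_mem hW hS hl hh0, hS.pos, self_mem_nhdsWithin,
    Hy_strictMono hW hS hl hh0, ZC_det_win hW hS hl hh0] with e hHm hd hpos hmono hwin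
  have hHpos : ∀ y ∈ Ioo (-1 / 2 : ℝ) (1 / 2), 0 < Hy L b1 b2 δ lam h0 e y := fun y hy => by
    linarith [(hHm y hy).1]
  have c2 : ∀ q ∈ Str, ∀ n : ℤ, Zc L b1 b2 δ lam h0 e (q.1 + n, q.2) =
      Zc L b1 b2 δ lam h0 e q := by
    intro q hq n
    have hp := hHpos _ hq.2
    unfold Zc
    simp only
    rw [Psi_add hW hpos hd hp, ZC_Kp_int hW hpos hd hp]
  refine ⟨?_, c2, ?_, ?_, ?_⟩
  · intro q hq
    exact HH_Kp hW hpos hd (hHpos _ hq.2)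
  · intro q hq q' hq' heq
    have hp := hHpos _ hq.2
    have hp' := hHpos _ hq'.2
    obtain ⟨h1, n, h2⟩ := Kp_inj hW hpos hd hp hp' heq
    have h3 : q.2 = q'.2 := hmono.injOn hq.2 hq'.2 h1
    refine ⟨h3, n, ?_⟩
    rw [← h3, ← Psi_add hW hpos hd hp] at h2
    have h4 := congrArg (fun s => Th L b1 b2 δ e (s, Hy L b1 b2 δ lam h0 e q.2)) h2
    simp only at h4
    rw [Th_Psi hW hpos hd hp, Th_Psi hW hpos hd hp] at h4
    exact h4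
  · intro p y hy hp
    have hpos' := hHpos y hy
    obtain ⟨s, hs⟩ := Kp_surj hW hpos hd (p := p) (by rw [hp]; exact hpos')
    refine ⟨Th L b1 b2 δ e (s, Hy L b1 b2 δ lam h0 e y), ?_⟩
    unfold Zc
    simp only
    rw [Psi_Th hW hpos hd hpos', ← hp]
    exact hs
  · intro q hq
    obtain ⟨n, hn⟩ : ∃ n : ℤ, q.1 - n ∈ Ioo (-2 : ℝ) 2 := by
      refine ⟨⌊q.1⌋, ?_, ?_⟩
      · linarith [Int.floor_le q.1]
      · linarith [Int.lt_floor_add_one q.1]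
    have hq0 : (q.1 - n, q.2) ∈ Win 2 (-1 / 2) (1 / 2) e := ⟨hn, hq.2⟩
    obtain ⟨h1, h2⟩ := hwin _ hq0
    have heq : Zc L b1 b2 δ lam h0 e =ᶠ[𝓝 q]
        fun p => Zc L b1 b2 δ lam h0 e (p + (-(n : ℝ), 0)) := by
      have hopen : IsOpen Str := isOpen_univ.prod isOpen_Ioo
      filter_upwards [hopen.mem_nhds hq] with p hp
      have := c2 p hp (-n)
      rw [← this]
      congr 1
      ext <;> simp
    have hqe : q + (-(n : ℝ), 0) = (q.1 - n, q.2) := by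
      ext <;> simp [sub_eq_add_neg]
    constructor
    · refine ContDiffAt.congr_of_eventuallyEq ?_ heq
      have hcd : ContDiffAt ℝ ∞ (fun p : ℝ × ℝ => p + (-(n : ℝ), 0)) q :=
        contDiffAt_id.add contDiffAt_const
      exact ContDiffAt.comp (g := Zc L b1 b2 δ lam h0 e) q (by rw [hqe]; exact h1) hcd
    · rw [heq.fderiv_eq, fderiv_comp_add_right, hqe]
      exact h2

end BB
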