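import Pool.Agent.Lib_helper6.BB.W.TM1
import Pool.Agent.Lib_helper6.BB.W.TM2
import Pool.Agent.Lib_helper6.BB.W.HD
import Pool.Agent.Lib_helper6.BB.W.HC2
import Pool.Agent.Lib_helper6.BB.W.ZC
import Pool.Agent.Lib_helper6.BB.W.AC

/-!
# BB, block TN: the map in action angle coordinates is area preserving
-/

open Filter Topology Set MeasureTheory
open scoped ContDiff

namespace BB

theorem TN_exp_contDiffAt {V W : Type} [NormedAddCommGroup V] [NormedSpace ℝ V]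
    [NormedAddCommGroup W] [NormedSpace ℝ W] {m : ℝ → ℝ} {Ω : ℝ → Set V} {f f0 f1 : ℝ → V → W}
    (h : Exp m Ω f f0 f1) :
    ∀ᶠ e in 𝓝[>] (0 : ℝ), ∀ x ∈ Ω e, ContDiffAt ℝ ∞ (f e) x := by
  obtain ⟨h0, h1, r, hr, heq⟩ := h
  filter_upwards [h0.1, h1.1, hr.1, heq] with e a b c d x hx
  have hn : Ω e ∈ 𝓝 x := a.1.mem_nhds hx
  have key : ContDiffAt ℝ ∞ (fun y => f0 e y + m e • f1 e y + (m e) ^ 2 • r e y) x :=
    ((a.2.contDiffAt hn).add ((b.2.contDiffAt hn).const_smul _)).add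
      ((c.2.contDiffAt hn).const_smul _)
  refine key.congr_of_eventuallyEq ?_
  filter_upwards [hn] with y hy using d y hy

theorem TN_shift {T : ℝ × ℝ → ℝ × ℝ} {a b : ℝ}
    (h : ∀ q ∈ (univ ×ˢ Ioo a b : Set (ℝ × ℝ)), T (q.1 + 1, q.2) = ((T q).1 + 1, (T q).2))
    (n : ℤ) : ∀ q ∈ (univ ×ˢ Ioo a b : Set (ℝ × ℝ)), T (q.1 + n, q.2) = ((T q).1 + n, (T q).2) := by
  induction n using Int.induction_on with
  | zero => intro q _; simp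
  | succ n ih =>
    intro q hq
    have h1 := h (q.1 + n, q.2) ⟨mem_univ _, hq.2⟩
    have h2 := ih q hq
    simp only [Int.cast_natCast] at h2
    have h3 : q.1 + ((n : ℤ) + 1 : ℤ) = q.1 + n + 1 := by push_cast; ring
    rw [h3]
    simp only at h1
    rw [h1, h2]
    ext
    · push_cast; ring
    · rfl
  | pred n ih =>
    intro q hq
    have h1 := h (q.1 + (-(n : ℤ) - 1 : ℤ), q.2) ⟨mem_univ _, hq.2⟩
    have h2 := ih q hq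
    simp only at h1
    have h3 : q.1 + ((-(n : ℤ) - 1 : ℤ) : ℝ) + 1 = q.1 + ((-(n : ℤ) : ℤ) : ℝ) := by push_cast; ring
    rw [h3, h2] at h1
    have e1 := congrArg Prod.fst h1
    have e2 := congrArg Prod.snd h1
    simp only at e1 e2
    ext
    · simp only
      push_cast at e1 ⊢
      linarith
    · simp only
      exact e2.symm

theorem TN_contDiffAt_shift {T : ℝ × ℝ → ℝ × ℝ} {a b : ℝ}
    (h : ∀ q ∈ (univ ×ˢ Ioo a b : Set (ℝ × ℝ)), T (q.1 + 1, q.2) = ((T q).1 + 1, (T q).2))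
    (hc : ∀ q ∈ (Ioo (-2 : ℝ) 2 ×ˢ Ioo a b : Set (ℝ × ℝ)), ContDiffAt ℝ ∞ T q) :
    ∀ q ∈ (univ ×ˢ Ioo a b : Set (ℝ × ℝ)), ContDiffAt ℝ ∞ T q := by
  intro q hq
  set n : ℤ := ⌊q.1⌋ with hn
  have hfl := Int.floor_le q.1
  have hlt := Int.lt_floor_add_one q.1
  have hq0 : (q.1 - n, q.2) ∈ (Ioo (-2 : ℝ) 2 ×ˢ Ioo a b : Set (ℝ × ℝ)) := by
    refine ⟨⟨?_, ?_⟩, hq.2⟩
    · simp only; linarith
    · simp only; linarith
  have h0 := hc _ hq0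
  have h1 : ContDiffAt ℝ ∞ (fun x : ℝ × ℝ => (x.1 - n, x.2)) q := by fun_prop
  have h2 : ContDiffAt ℝ ∞ (fun x : ℝ × ℝ => T (x.1 - n, x.2)) q :=
    ContDiffAt.comp (g := T) (f := fun x : ℝ × ℝ => (x.1 - n, x.2)) q h0 h1
  have h3 : ContDiffAt ℝ ∞ (fun x : ℝ × ℝ => T (x.1 - n, x.2) + ((n : ℝ), (0 : ℝ))) q :=
    h2.add contDiffAt_const
  refine h3.congr_of_eventuallyEq ?_
  have ho : IsOpen (univ ×ˢ Ioo a b : Set (ℝ × ℝ)) := isOpen_univ.prod isOpen_Ioo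
  filter_upwards [ho.mem_nhds hq] with x hx
  have h4 := TN_shift h n (x.1 - n, x.2) ⟨mem_univ _, hx.2⟩
  simp only [sub_add_cancel] at h4
  have h5 : T x = T (x.1, x.2) := rfl
  rw [h5, h4]
  ext
  · rfl
  · simp

/-- `Tm` is area preserving -/
theorem Tm_det {L A B : ℝ} {b1 b2 δ : ℝ → ℝ} (hW : Walls L A B b1 b2) (hS : Scale b1 b2 δ)
    {lam : ℝ} (hl : GoodLam L b1 b2 δ lam) {h0 : ℝ → ℝ} (hh0 : ∀ e, h0 e ∈ Icc (3 / 4 : ℝ) (5 / 4)) :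
    ∀ᶠ e in 𝓝[>] (0 : ℝ), ∀ q ∈ (univ ×ˢ Ioo (-3 / 8 : ℝ) (3 / 8) : Set (ℝ × ℝ)),
      ContDiffAt ℝ ∞ (Tm L A B b1 b2 δ lam h0 e) q ∧
      (fderiv ℝ (Tm L A B b1 b2 δ lam h0 e) q).det = 1 := by
  have hlam : lam ≠ 0 := by
    have := hl.1
    intro h
    rw [h] at this
    norm_num at this
  filter_upwards [TN_exp_contDiffAt (Tm_exp hW hS hl hh0 2), Tm_spec hW hS hl hh0,
    Fs_det hW hS 2, TN_exp_contDiffAt (Fs_exp hW hS 2), Zc_spec hW hS hl hh0,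
    Hy_spec hW hS hl hh0] with e hT hsp hFd hFc hZ hHy q hq
  obtain ⟨hZ1, _, _, _, hZ5⟩ := hZ
  have hc : ContDiffAt ℝ ∞ (Tm L A B b1 b2 δ lam h0 e) q :=
    TN_contDiffAt_shift (fun q hq => (hsp q hq).2.2) hT q hq
  refine ⟨hc, ?_⟩
  have hqS : q ∈ Str := by
    refine ⟨mem_univ _, ?_, ?_⟩
    · have := hq.2.1; linarith
    · have := hq.2.2; linarith
  have hTS : Tm L A B b1 b2 δ lam h0 e q ∈ Str := (hsp q hq).1
  have hreg : Zc L b1 b2 δ lam h0 e q ∈ Reg L b1 b2 δ 2 e := by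
    show HH L b1 b2 δ e (Zc L b1 b2 δ lam h0 e q) < 2
    rw [hZ1 q hqS]
    have h1 := (hHy q.2 hqS.2).1.2
    have h2 := (hh0 e).2
    linarith
  have hZq := hZ5 q hqS
  have hZT := hZ5 _ hTS
  have hFq := hFc _ hreg
  have hone : (∞ : WithTop ℕ∞) ≠ 0 := by decide
  have dT : DifferentiableAt ℝ (Tm L A B b1 b2 δ lam h0 e) q := hc.differentiableAt hone
  have dZ : DifferentiableAt ℝ (Zc L b1 b2 δ lam h0 e) q := hZq.1.differentiableAt hone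
  have dZT : DifferentiableAt ℝ (Zc L b1 b2 δ lam h0 e) (Tm L A B b1 b2 δ lam h0 e q) :=
    hZT.1.differentiableAt hone
  have dF : DifferentiableAt ℝ (Fs L A B b1 b2 δ e) (Zc L b1 b2 δ lam h0 e q) :=
    hFq.differentiableAt hone
  have heq : (fun x => Zc L b1 b2 δ lam h0 e (Tm L A B b1 b2 δ lam h0 e x)) =ᶠ[𝓝 q]
      (fun x => Fs L A B b1 b2 δ e (Zc L b1 b2 δ lam h0 e x)) := by
    have ho : IsOpen (univ ×ˢ Ioo (-3 / 8 : ℝ) (3 / 8) : Set (ℝ × ℝ)) :=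
      isOpen_univ.prod isOpen_Ioo
    filter_upwards [ho.mem_nhds hq] with x hx using (hsp x hx).2.1
  have hfd := heq.fderiv_eq (𝕜 := ℝ)
  have e1 : fderiv ℝ (fun x => Zc L b1 b2 δ lam h0 e (Tm L A B b1 b2 δ lam h0 e x)) q =
      (fderiv ℝ (Zc L b1 b2 δ lam h0 e) (Tm L A B b1 b2 δ lam h0 e q)).comp
        (fderiv ℝ (Tm L A B b1 b2 δ lam h0 e) q) := fderiv_comp q dZT dT
  have e2 : fderiv ℝ (fun x => Fs L A B b1 b2 δ e (Zc L b1 b2 δ lam h0 e x)) q =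
      (fderiv ℝ (Fs L A B b1 b2 δ e) (Zc L b1 b2 δ lam h0 e q)).comp
        (fderiv ℝ (Zc L b1 b2 δ lam h0 e) q) := fderiv_comp q dF dZ
  rw [e1, e2] at hfd
  have hdet := congrArg (fun M : (ℝ × ℝ) →L[ℝ] (ℝ × ℝ) => M.det) hfd
  have hcomp : ∀ M N : (ℝ × ℝ) →L[ℝ] (ℝ × ℝ), (M.comp N).det = M.det * N.det := by
    intro M N
    have h : ((M.comp N : (ℝ × ℝ) →L[ℝ] (ℝ × ℝ)) : (ℝ × ℝ) →ₗ[ℝ] (ℝ × ℝ)) =
      (M : (ℝ × ℝ) →ₗ[ℝ] (ℝ × ℝ)) ∘ₗ (N : (ℝ × ℝ) →ₗ[ℝ] (ℝ × ℝ)) := rfl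
    unfold ContinuousLinearMap.det
    rw [h, LinearMap.det_comp]
  simp only [hcomp] at hdet
  rw [hZT.2, hZq.2, hFd _ hreg] at hdet
  have h3 : (1 / lam) ≠ 0 := one_div_ne_zero hlam
  have h4 : (1 / lam) * (fderiv ℝ (Tm L A B b1 b2 δ lam h0 e) q).det = (1 / lam) * 1 := by
    rw [hdet]; ring
  exact mul_left_cancel₀ h3 h4

end BB
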