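import Pool.Agent.Lib_helper6.BB.KStmt
import Pool.Agent.Lib_helper6.BB.W.AP2
import Pool.Agent.Lib_helper6.BB.W.TN

open Filter Topology Set MeasureTheory
open scoped ContDiff

namespace BB

/-- small powers -/
theorem AP3_small {p K : ℝ} (hp : 0 < p) (hK : 0 < K) : ∀ᶠ e in 𝓝[>] (0 : ℝ), e ^ p ≤ K := by
  have h1 : Tendsto (fun e : ℝ => e ^ p) (𝓝[>] (0:ℝ)) (𝓝 0) := by
    have h2 : ContinuousAt (fun e : ℝ => e ^ p) 0 := Real.continuousAt_rpow_const 0 p (Or.inr hp.le)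
    have h3 : Tendsto (fun e : ℝ => e ^ p) (𝓝 (0:ℝ)) (𝓝 ((0:ℝ) ^ p)) := h2
    rw [Real.zero_rpow hp.ne'] at h3
    exact h3.mono_left nhdsWithin_le_nhds
  exact h1.eventually (ge_mem_nhds hK)

theorem AP3_big {p K : ℝ} (hp : 0 < p) : ∀ᶠ e in 𝓝[>] (0 : ℝ), K ≤ e ^ (-p) := by
  have hK : 0 < |K| + 1 := by positivity
  filter_upwards [AP3_small hp (K := 1 / (|K| + 1)) (by positivity), self_mem_nhdsWithin] with e he he0
  have he0' : (0:ℝ) < e := he0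
  have h1 : 0 < e ^ p := Real.rpow_pos_of_pos he0' p
  rw [Real.rpow_neg he0'.le]
  have h2 : |K| + 1 ≤ (e ^ p)⁻¹ := by
    rw [le_inv_comm₀ hK h1, ← one_div]
    exact he
  have := le_abs_self K
  linarith

/-- translation of a periodic function -/
theorem AP3_per_int {F : ℝ × ℝ → ℝ} (hF : ∀ x y : ℝ, F (x + 1, y) = F (x, y)) (K : ℤ) (p : ℝ × ℝ) :
    F (p + ((K : ℝ), 0)) = F p := by
  have hp : ∀ y : ℝ, Function.Periodic (fun x => F (x, y)) 1 := fun y x => hF x y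
  have h1 := (hp p.2).int_mul K p.1
  have h2 : p + ((K : ℝ), (0:ℝ)) = (p.1 + (K : ℝ) * 1, p.2) := by
    rw [mul_one]
    ext <;> simp
  rw [h2]
  exact h1

theorem AP3_shift (p : ℝ × ℝ) (w : ℝ) (hw : 1 < w) (hp : p.2 ∈ Ioo (-1 / 4 : ℝ) (1 / 4)) :
    ∃ K : ℤ, p + ((K : ℝ), 0) ∈ (Ioo (-w) w ×ˢ Ioo (-1 / 4 : ℝ) (1 / 4) : Set (ℝ × ℝ)) := by
  refine ⟨-⌊p.1⌋, ?_⟩
  have h1 := Int.floor_le p.1
  have h2 := Int.lt_floor_add_one p.1
  simp only [Set.mem_prod, Prod.fst_add, Prod.snd_add, add_zero, mem_Ioo]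
  push_cast
  refine ⟨⟨by linarith, by linarith⟩, hp⟩

theorem AP3_bound {F G : ℝ × ℝ → ℝ} (hF : ∀ x y : ℝ, F (x + 1, y) = F (x, y)) {M : ℝ} {n : ℕ}
    (hFG : ∀ p ∈ (Ioo (-2 : ℝ) 2 ×ˢ Ioo (-1 / 4 : ℝ) (1 / 4) : Set (ℝ × ℝ)), F p = G p)
    (hG : ∀ p ∈ (Ioo (-2 : ℝ) 2 ×ˢ Ioo (-1 / 4 : ℝ) (1 / 4) : Set (ℝ × ℝ)), ‖iteratedFDeriv ℝ n G p‖ ≤ M) :
    ∀ p ∈ (univ ×ˢ Ioo (-1 / 4) (1 / 4) : Set (ℝ × ℝ)), ‖iteratedFDeriv ℝ n F p‖ ≤ M := by
  intro p hp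
  obtain ⟨K, hK⟩ := AP3_shift p 2 (by norm_num) hp.2
  have h1 : (fun z => F (z + ((K : ℝ), 0))) = F := by
    ext z; exact AP3_per_int hF K z
  have h2 : iteratedFDeriv ℝ n F p = iteratedFDeriv ℝ n F (p + ((K : ℝ), 0)) := by
    conv_lhs => rw [← h1]
    rw [iteratedFDeriv_comp_add_right]
  rw [h2]
  have hopen : IsOpen (Ioo (-2 : ℝ) 2 ×ˢ Ioo (-1 / 4 : ℝ) (1 / 4) : Set (ℝ × ℝ)) :=
    isOpen_Ioo.prod isOpen_Ioo
  have h3 : F =ᶠ[𝓝 (p + ((K : ℝ), 0))] G := by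
    filter_upwards [hopen.mem_nhds hK] with z hz
    exact hFG z hz
  have h4 : iteratedFDeriv ℝ n F (p + ((K : ℝ), 0)) = iteratedFDeriv ℝ n G (p + ((K : ℝ), 0)) :=
    (h3.iteratedFDeriv ℝ n).eq_of_nhds
  rw [h4]
  exact hG _ hK

/-- the rotation function is tame -/
theorem AP3_tau_tame {L A B : ℝ} {b1 b2 δ : ℝ → ℝ} (hW : Walls L A B b1 b2)
    (hS : Scale b1 b2 δ) {lam : ℝ} (hl : GoodLam L b1 b2 δ lam) {h0 : ℝ → ℝ}
    (hh0 : ∀ e, h0 e ∈ Icc (3 / 4 : ℝ) (5 / 4)) :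
    Tame (fun _ => Ioo (-1 / 2 : ℝ) (1 / 2))
      (fun e y => 1 / Per L b1 b2 δ e (Hy L b1 b2 δ lam h0 e y) - 1 / Per L b1 b2 δ e (h0 e)) := by
  obtain ⟨c, C, hc, hC, hP⟩ := Per_bounds hW hS (a := 1 / 4) (k := 3) (by norm_num)
  have hmaps : ∀ᶠ e in 𝓝[>] (0 : ℝ), MapsTo (Hy L b1 b2 δ lam h0 e) (Ioo (-1 / 2 : ℝ) (1 / 2))
      (Ioo (1 / 4 : ℝ) 3) := by
    filter_upwards [Hy_spec hW hS hl hh0] with e he y hy
    have h1 := (he y hy).1
    have h2 := hh0 e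
    exact ⟨by linarith [h1.1, h2.1], by linarith [h1.2, h2.2]⟩
  have h1 : Tame (fun _ => Ioo (-1 / 2 : ℝ) (1 / 2))
      (fun e y => Per L b1 b2 δ e (Hy L b1 b2 δ lam h0 e y)) :=
    (Per_tame hW hS 3 (a := 1 / 4) (by norm_num)).comp (Hy_tame hW hS hl hh0) hmaps
  have h2 := h1.inv (by
    intro η hη
    filter_upwards [AP3_small hη hc, hmaps, hP] with e he hm hp y hy
    have h3 := hm hy
    have h4 := (hp _ h3.1 h3.2).1
    rw [abs_of_pos (by linarith)]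
    linarith)
  have h3 : Tame (fun _ => Ioo (-1 / 2 : ℝ) (1 / 2))
      (fun e (_ : ℝ) => 1 / Per L b1 b2 δ e (h0 e)) := by
    apply Tame.constReal (Eventually.of_forall fun _ => isOpen_Ioo)
    apply Slow.of_bounded (C := 1 / c)
    filter_upwards [hP] with e hp
    have h2 := hh0 e
    have h4 := (hp (h0 e) (by linarith [h2.1]) (by linarith [h2.2])).1
    have h5 : 0 < Per L b1 b2 δ e (h0 e) := by linarith
    rw [abs_of_pos (by positivity)]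
    exact one_div_le_one_div_of_le hc h4
  have h4 := h2.sub h3
  refine h4.congr (Eventually.of_forall fun e y _ => ?_)
  simp only [one_div]

/-- application of the KAM theorem -/
theorem kam_applied (hK : KAMStatement) {L A B : ℝ} {b1 b2 δ : ℝ → ℝ} (hW : Walls L A B b1 b2)
    (hS : Scale b1 b2 δ) {lam : ℝ} (hl : GoodLam L b1 b2 δ lam) {h0 : ℝ → ℝ} {c : ℝ}
    (hh0 : ∀ e, h0 e ∈ Icc (3 / 4 : ℝ) (5 / 4)) (hc : 0 < c) :
    ∀ᶠ e in 𝓝[>] (0 : ℝ), (∃ n : ℕ, 1 ≤ n ∧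
        mu δ e / Per L b1 b2 δ e (h0 e) = 1 / ((n : ℝ) + (Real.sqrt 5 - 1) / 2)) →
      c ≤ |deriv (Per L b1 b2 δ e) (h0 e)| →
      ∃ (u v : ℝ → ℝ) (al t : ℝ), Continuous u ∧ Continuous v ∧ (∀ x, u (x + 1) = u x) ∧
        (∀ x, v (x + 1) = v x) ∧ (∀ x, |v x| ≤ 1 / 16) ∧ |t| ≤ 1 / 16 ∧
        (∀ x x', |u x - u x'| ≤ |x - x'| / 2) ∧
        ∀ x, Tm L A B b1 b2 δ lam h0 e (x + u x, v x) = (x + al + u (x + al), v (x + al) + t) := by
  obtain ⟨C, s, N, hC1, hs1, hKAM⟩ := hK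
  obtain ⟨c1, C1, hc1, hC1', hP⟩ := Per_bounds hW hS (a := 1 / 4) (k := 3) (by norm_num)
  obtain ⟨c2, hc2, hlow⟩ := hS.lower
  have hs0 : 0 < s := by linarith
  have hη : 0 < 1 / (8 * s) := by positivity
  have hCpos : 0 < C ^ (-s) := Real.rpow_pos_of_pos (by linarith) _
  have hlam : 1 ≤ lam := hl.1
  have htau := AP3_tau_tame hW hS hl hh0
  obtain ⟨hf0, hf1, r, hr, hre⟩ := Tm_exp hW hS hl hh0 2
  -- bounds for the derivatives of tau and r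
  have hT1 : ∀ᶠ e in 𝓝[>] (0 : ℝ), ∀ n ≤ N, ∀ y ∈ Ioo (-1 / 2 : ℝ) (1 / 2),
      ‖iteratedDeriv n (fun y => 1 / Per L b1 b2 δ e (Hy L b1 b2 δ lam h0 e y) -
        1 / Per L b1 b2 δ e (h0 e)) y‖ ≤ e ^ (-(1 / (8 * s))) := by
    have h1 := (tame_real_iff.mp htau).2
    have h2 : ∀ᶠ e in 𝓝[>] (0 : ℝ), ∀ n ∈ Set.Iic N, ∀ y ∈ Ioo (-1 / 2 : ℝ) (1 / 2),
      ‖iteratedDeriv n (fun y => 1 / Per L b1 b2 δ e (Hy L b1 b2 δ lam h0 e y) -
        1 / Per L b1 b2 δ e (h0 e)) y‖ ≤ e ^ (-(1 / (8 * s))) :=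
      (Filter.eventually_all_finite (Set.finite_Iic N)).mpr fun n _ => h1 n _ hη
    filter_upwards [h2] with e he n hn
    exact he n hn
  have hR1 : ∀ᶠ e in 𝓝[>] (0 : ℝ), ∀ n ≤ N, ∀ p ∈ Win 2 (-3 / 8) (3 / 8) e,
      ‖iteratedFDeriv ℝ n (fun q => (r e q).1) p‖ ≤ e ^ (-(1 / (8 * s))) := by
    have h2 : ∀ᶠ e in 𝓝[>] (0 : ℝ), ∀ n ∈ Set.Iic N, ∀ p ∈ Win 2 (-3 / 8) (3 / 8) e,
      ‖iteratedFDeriv ℝ n (fun q => (r e q).1) p‖ ≤ e ^ (-(1 / (8 * s))) :=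
      (Filter.eventually_all_finite (Set.finite_Iic N)).mpr fun n _ => hr.fst.2 n _ hη
    filter_upwards [h2] with e he n hn
    exact he n hn
  have hR2 : ∀ᶠ e in 𝓝[>] (0 : ℝ), ∀ n ≤ N, ∀ p ∈ Win 2 (-3 / 8) (3 / 8) e,
      ‖iteratedFDeriv ℝ n (fun q => (r e q).2) p‖ ≤ e ^ (-(1 / (8 * s))) := by
    have h2 : ∀ᶠ e in 𝓝[>] (0 : ℝ), ∀ n ∈ Set.Iic N, ∀ p ∈ Win 2 (-3 / 8) (3 / 8) e,
      ‖iteratedFDeriv ℝ n (fun q => (r e q).2) p‖ ≤ e ^ (-(1 / (8 * s))) :=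
      (Filter.eventually_all_finite (Set.finite_Iic N)).mpr fun n _ => hr.snd.2 n _ hη
    filter_upwards [h2] with e he n hn
    exact he n hn
  have hPd : ∀ᶠ e in 𝓝[>] (0 : ℝ), ∀ h ∈ Ioo (1 / 4 : ℝ) 3,
      DifferentiableAt ℝ (Per L b1 b2 δ e) h := by
    filter_upwards [(Per_tame hW hS 3 (a := 1 / 4) (by norm_num)).1] with e he h hh
    exact (he.2.differentiableOn (by simp)).differentiableAt (isOpen_Ioo.mem_nhds hh)
  filter_upwards [self_mem_nhdsWithin, hS.pos, hlow, hT1, hR1, hR2, hre, hP, hPd,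
    htau.1, Tm_spec hW hS hl hh0, Tm_det hW hS hl hh0, Hy_zero hW hS hl hh0,
    Hy_hasDerivAt hW hS hl hh0, AP3_small (p := 1 / 8) (K := c2 * C ^ (-s)) (by norm_num) (by positivity),
    AP3_big (p := 1 / (8 * s)) (K := 1) hη, AP3_big (p := 1 / (8 * s)) (K := 4 * C1) hη,
    AP3_big (p := 1 / (8 * s)) (K := lam * C1 ^ 3 / c) hη]
    with e he0 hδ hlow hT1 hR1 hR2 hre hP hPd htau1 hspec hdet hy0 hyd hsm hM1 hM2 hM3 hgold hder
  have he : (0:ℝ) < e := he0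
  obtain ⟨n, hn1, hn⟩ := hgold
  set m : ℝ := mu δ e with hm
  set M : ℝ := e ^ (-(1 / (8 * s))) with hM
  set T := Tm L A B b1 b2 δ lam h0 e with hT
  set P := Per L b1 b2 δ e with hPdef
  set H := Hy L b1 b2 δ lam h0 e with hHdef
  have hh := hh0 e
  have hhI : h0 e ∈ Ioo (1 / 4 : ℝ) 3 := ⟨by linarith [hh.1], by linarith [hh.2]⟩
  have hP0 := hP (h0 e) hhI.1 hhI.2
  have hP0pos : 0 < P (h0 e) := by linarith [hP0.1]
  have hm0 : 0 < m := by rw [hm, mu]; exact div_pos (Real.sqrt_pos.mpr he) hδ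
  have hmle : m ≤ (C * M) ^ (-s) := by
    have h1 : (C * M) ^ (-s) = C ^ (-s) * e ^ (1 / 8 : ℝ) := by
      rw [Real.mul_rpow (by linarith) (Real.rpow_pos_of_pos he _).le, ← Real.rpow_mul he.le]
      congr 2
      field_simp
    have h2 : m ≤ e ^ (1 / 4 : ℝ) / c2 := by
      rw [hm, mu, Real.sqrt_eq_rpow]
      have h3 : 0 < c2 * e ^ (1 / 4 : ℝ) := by positivity
      calc e ^ (1 / 2 : ℝ) / δ e ≤ e ^ (1 / 2 : ℝ) / (c2 * e ^ (1 / 4 : ℝ)) := by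
            apply div_le_div_of_nonneg_left (by positivity) h3 hlow
        _ = e ^ (1 / 4 : ℝ) / c2 := by
            have h4 : e ^ (1 / 2 : ℝ) = e ^ (1 / 4 : ℝ) * e ^ (1 / 4 : ℝ) := by
              rw [← Real.rpow_add he]; norm_num
            rw [h4]
            have h5 : e ^ (1 / 4 : ℝ) ≠ 0 := by positivity
            field_simp
    have h3 : e ^ (1 / 4 : ℝ) = e ^ (1 / 8 : ℝ) * e ^ (1 / 8 : ℝ) := by
      rw [← Real.rpow_add he]; norm_num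
    rw [h1]
    refine h2.trans ?_
    rw [div_le_iff₀ hc2, h3]
    have h4 : 0 < e ^ (1 / 8 : ℝ) := by positivity
    nlinarith
  set al : ℝ := m / P (h0 e) with hal
  set tau : ℝ → ℝ := fun y => 1 / P (H y) - 1 / P (h0 e) with htaud
  set W0 : Set (ℝ × ℝ) := univ ×ˢ Ioo (-3 / 8 : ℝ) (3 / 8) with hW0
  have hW0o : IsOpen W0 := isOpen_univ.prod isOpen_Ioo
  set a0 : ℝ × ℝ → ℝ := fun p => ((T p).1 - p.1 - al - m * tau p.2) / m ^ 2 with ha0
  set b0 : ℝ × ℝ → ℝ := fun p => ((T p).2 - p.2) / m ^ 2 with hb0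
  set a : ℝ × ℝ → ℝ := W0.indicator a0 with ha
  set b : ℝ × ℝ → ℝ := W0.indicator b0 with hb
  have hm2 : m ^ 2 ≠ 0 := by positivity
  have hconv : ∀ p ∈ W0, (p.1 + al + m * tau p.2 + m ^ 2 * a p, p.2 + m ^ 2 * b p) = T p := by
    intro p hp
    rw [ha, hb, Set.indicator_of_mem hp, Set.indicator_of_mem hp]
    ext
    · simp only [ha0]
      field_simp
      ring
    · simp only [hb0]
      field_simp
      ring
  have hsub : (univ ×ˢ Ioo (-1 / 4 : ℝ) (1 / 4) : Set (ℝ × ℝ)) ⊆ W0 := by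
    rintro p ⟨_, hp⟩
    exact ⟨mem_univ _, by linarith [hp.1], by linarith [hp.2]⟩
  have htauC : ∀ y ∈ Ioo (-1 / 2 : ℝ) (1 / 2), ContDiffAt ℝ ∞ tau y := fun y hy =>
    htau1.2.contDiffAt (isOpen_Ioo.mem_nhds hy)
  have haC : ∀ p ∈ W0, ContDiffAt ℝ ∞ a p := by
    intro p hp
    have h1 : ContDiffAt ℝ ∞ a0 p := by
      have h2 := (hdet p hp).1
      have h3 : ContDiffAt ℝ ∞ (fun q : ℝ × ℝ => tau q.2) p :=
        ContDiffAt.comp (g := tau) (f := fun q : ℝ × ℝ => q.2) p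
          (htauC p.2 ⟨by linarith [hp.2.1], by linarith [hp.2.2]⟩) contDiffAt_snd
      exact (((h2.fst.sub contDiffAt_fst).sub contDiffAt_const).sub
        (contDiffAt_const.mul h3)).div_const _
    apply h1.congr_of_eventuallyEq
    filter_upwards [hW0o.mem_nhds hp] with q hq
    rw [ha, Set.indicator_of_mem hq]
  have hbC : ∀ p ∈ W0, ContDiffAt ℝ ∞ b p := by
    intro p hp
    have h1 : ContDiffAt ℝ ∞ b0 p := by
      have h2 := (hdet p hp).1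
      exact (h2.snd.sub contDiffAt_snd).div_const _
    apply h1.congr_of_eventuallyEq
    filter_upwards [hW0o.mem_nhds hp] with q hq
    rw [hb, Set.indicator_of_mem hq]
  have haper : ∀ x y : ℝ, a (x + 1, y) = a (x, y) := by
    intro x y
    by_cases hy : y ∈ Ioo (-3 / 8 : ℝ) (3 / 8)
    · have h1 : ((x, y) : ℝ × ℝ) ∈ W0 := ⟨mem_univ _, hy⟩
      have h2 : ((x + 1, y) : ℝ × ℝ) ∈ W0 := ⟨mem_univ _, hy⟩
      have h3 := (hspec (x, y) h1).2.2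
      simp only at h3
      rw [ha, Set.indicator_of_mem h1, Set.indicator_of_mem h2]
      simp only [ha0]
      rw [h3]
      ring
    · have h1 : ((x, y) : ℝ × ℝ) ∉ W0 := fun h => hy h.2
      have h2 : ((x + 1, y) : ℝ × ℝ) ∉ W0 := fun h => hy h.2
      rw [ha, Set.indicator_of_notMem h1, Set.indicator_of_notMem h2]
  have hbper : ∀ x y : ℝ, b (x + 1, y) = b (x, y) := by
    intro x y
    by_cases hy : y ∈ Ioo (-3 / 8 : ℝ) (3 / 8)
    · have h1 : ((x, y) : ℝ × ℝ) ∈ W0 := ⟨mem_univ _, hy⟩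
      have h2 : ((x + 1, y) : ℝ × ℝ) ∈ W0 := ⟨mem_univ _, hy⟩
      have h3 := (hspec (x, y) h1).2.2
      simp only at h3
      rw [hb, Set.indicator_of_mem h1, Set.indicator_of_mem h2]
      simp only [hb0]
      rw [h3]
    · have h1 : ((x, y) : ℝ × ℝ) ∉ W0 := fun h => hy h.2
      have h2 : ((x + 1, y) : ℝ × ℝ) ∉ W0 := fun h => hy h.2
      rw [hb, Set.indicator_of_notMem h1, Set.indicator_of_notMem h2]
  have hwin : ∀ p ∈ (Ioo (-2 : ℝ) 2 ×ˢ Ioo (-1 / 4 : ℝ) (1 / 4) : Set (ℝ × ℝ)),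
      p ∈ Win 2 (-3 / 8) (3 / 8) e := by
    rintro p ⟨h1, h2⟩
    exact ⟨h1, by linarith [h2.1], by linarith [h2.2]⟩
  have haeq : ∀ p ∈ (Ioo (-2 : ℝ) 2 ×ˢ Ioo (-1 / 4 : ℝ) (1 / 4) : Set (ℝ × ℝ)),
      a p = (fun q => (r e q).1) p := by
    intro p hp
    have h1 := hre p (hwin p hp)
    have h2 : p ∈ W0 := ⟨mem_univ _, (hwin p hp).2⟩
    rw [ha, Set.indicator_of_mem h2]
    simp only [ha0, htaud, hal]
    rw [h1]
    simp only [Prod.fst_add, Prod.smul_fst, smul_eq_mul]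
    field_simp
    ring
  have hbeq : ∀ p ∈ (Ioo (-2 : ℝ) 2 ×ˢ Ioo (-1 / 4 : ℝ) (1 / 4) : Set (ℝ × ℝ)),
      b p = (fun q => (r e q).2) p := by
    intro p hp
    have h1 := hre p (hwin p hp)
    have h2 : p ∈ W0 := ⟨mem_univ _, (hwin p hp).2⟩
    rw [hb, Set.indicator_of_mem h2]
    simp only [hb0]
    rw [h1]
    simp only [Prod.snd_add, Prod.smul_snd, smul_eq_mul]
    field_simp
    ring
  have hdio : ∀ k j : ℤ, k ≠ 0 → m / (M * |(k : ℝ)|) ≤ |(k : ℝ) * al - j| := by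
    intro k j hk
    have h1 := golden_dio n hn1 k j hk
    rw [← hn] at h1
    have hk0 : 0 < |(k : ℝ)| := abs_pos.mpr (by exact_mod_cast hk)
    have hMpos : 0 < M := by linarith
    refine le_trans ?_ h1
    have h2 : m / P (h0 e) / (4 * |(k : ℝ)|) = m / ((4 * P (h0 e)) * |(k : ℝ)|) := by
      rw [div_div]; congr 1; ring
    rw [h2]
    apply div_le_div_of_nonneg_left hm0.le (by positivity)
    apply mul_le_mul_of_nonneg_right _ hk0.le
    linarith [hP0.2]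
  have htder : 1 / M ≤ |deriv tau 0| := by
    have h1 : HasDerivAt H (1 / (lam * P (H 0))) 0 := hyd 0 ⟨by norm_num, by norm_num⟩
    have h2 : HasDerivAt P (deriv P (H 0)) (H 0) := by
      rw [hy0]; exact (hPd (h0 e) hhI).hasDerivAt
    have h3 : HasDerivAt (fun y => P (H y)) (deriv P (H 0) * (1 / (lam * P (H 0)))) 0 :=
      HasDerivAt.comp (h₂ := P) (h := H) 0 h2 h1
    have h4 : P (H 0) ≠ 0 := by rw [hy0]; exact hP0pos.ne'
    have h5 : HasDerivAt tau (-(deriv P (H 0) * (1 / (lam * P (H 0)))) / (P (H 0)) ^ 2) 0 := by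
      have h6 := (h3.inv h4).sub_const (1 / P (h0 e))
      simp only [htaud, one_div] at h6 ⊢
      exact h6
    rw [h5.deriv, hy0]
    have h7 : |(-(deriv P (h0 e) * (1 / (lam * P (h0 e)))) / (P (h0 e)) ^ 2)| =
        |deriv P (h0 e)| / (lam * P (h0 e) ^ 3) := by
      have hl0 : 0 < lam := by linarith
      rw [abs_div, abs_neg, abs_mul, abs_of_pos (show 0 < 1 / (lam * P (h0 e)) by positivity),
        abs_of_pos (show 0 < P (h0 e) ^ 2 by positivity)]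
      field_simp
    rw [h7]
    have hl0 : 0 < lam := by linarith
    have h8 : lam * P (h0 e) ^ 3 ≤ lam * C1 ^ 3 := by
      have := hP0.2
      gcongr
    have hMpos : 0 < M := by linarith
    calc 1 / M ≤ c / (lam * C1 ^ 3) := by
          rw [div_le_div_iff₀ hMpos (by positivity)]
          rw [div_le_iff₀ hc] at hM3
          linarith
      _ ≤ |deriv P (h0 e)| / (lam * C1 ^ 3) := by gcongr
      _ ≤ |deriv P (h0 e)| / (lam * P (h0 e) ^ 3) := by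
          apply div_le_div_of_nonneg_left (abs_nonneg _) (by positivity) h8
  obtain ⟨u, v, t, hu, hv, hup, hvp, hub, hvb, ht, hlip, hfin⟩ := hKAM M m al tau a b hM1 hm0 hmle hdio
    (fun y hy => (htauC y ⟨by linarith [hy.1], by linarith [hy.2]⟩).contDiffWithinAt)
    (fun p hp => (haC p (hsub hp)).contDiffWithinAt)
    (fun p hp => (hbC p (hsub hp)).contDiffWithinAt)
    (fun k hk y hy => by
      have := hT1 k hk y ⟨by linarith [hy.1], by linarith [hy.2]⟩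
      rwa [Real.norm_eq_abs] at this)
    (fun k hk => AP3_bound haper haeq (fun p hp => hR1 k hk p (hwin p hp)))
    (fun k hk => AP3_bound hbper hbeq (fun p hp => hR2 k hk p (hwin p hp)))
    haper hbper
    (by simp only [htaud]; rw [hy0]; ring)
    htder
    (fun p hp => by
      have h1 : (fun q : ℝ × ℝ => (q.1 + al + m * tau q.2 + m ^ 2 * a q, q.2 + m ^ 2 * b q)) =ᶠ[𝓝 p] T := by
        filter_upwards [hW0o.mem_nhds (hsub hp)] with q hq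
        exact hconv q hq
      rw [h1.fderiv_eq]
      exact (hdet p (hsub hp)).2)
  have hM100 : 1 / (100 * M) ≤ 1 / 16 := by
    apply one_div_le_one_div_of_le (by norm_num); linarith
  refine ⟨u, v, al, t, hu, hv, hup, hvp, fun x => (hvb x).trans hM100, ht.trans hM100, hlip, ?_⟩
  intro x
  have hvx := abs_le.mp ((hvb x).trans hM100)
  have hp : ((x + u x, v x) : ℝ × ℝ) ∈ W0 :=
    ⟨mem_univ _, by linarith [hvx.1], by linarith [hvx.2]⟩
  have h1 := hconv _ hp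
  rw [← h1]
  obtain ⟨h2, h3⟩ := hfin x
  ext
  · simp only
    exact h2
  · simp only
    exact h3

end BB
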