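import Pool.Agent.Lib_helper6.BB.W.TJ

open Filter Topology Set MeasureTheory
open scoped ContDiff

namespace BB

/-- smallness of the correction -/
theorem NI_small {m : ℝ → ℝ} (hm : Fast m) :
    ∃ η : ℝ, 0 < η ∧ ∀ᶠ e in 𝓝[>] (0 : ℝ), |m e| * e ^ (-η) ≤ 1 / 8 ∧
      |m e| ^ 2 * e ^ (-η) ≤ 1 / 8 := by
  obtain ⟨κ, hκ, hmk⟩ := hm
  refine ⟨κ / 2, by positivity, ?_⟩
  have ht : Tendsto (fun e : ℝ => e ^ (κ / 2)) (𝓝[>] (0:ℝ)) (𝓝 0) := by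
    have h1 : Tendsto (fun e : ℝ => e ^ (κ / 2)) (𝓝 (0:ℝ)) (𝓝 ((0:ℝ) ^ (κ / 2))) :=
      (Real.continuousAt_rpow_const (0:ℝ) (κ / 2) (Or.inr (by positivity))).tendsto
    rw [Real.zero_rpow (by positivity)] at h1
    exact h1.mono_left nhdsWithin_le_nhds
  have h8 : ∀ᶠ e in 𝓝[>] (0 : ℝ), e ^ (κ / 2) < 1 / 8 :=
    ht.eventually_lt_const (by norm_num)
  filter_upwards [hmk, h8, self_mem_nhdsWithin] with e h1 h2 h3
  have he : 0 < e := h3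
  have hpos : 0 < e ^ (-(κ / 2)) := Real.rpow_pos_of_pos he _
  have h4 : e ^ κ * e ^ (-(κ / 2)) = e ^ (κ / 2) := by
    rw [← Real.rpow_add he]
    congr 1
    ring
  have h5 : |m e| * e ^ (-(κ / 2)) ≤ 1 / 8 := by
    calc |m e| * e ^ (-(κ / 2)) ≤ e ^ κ * e ^ (-(κ / 2)) :=
          mul_le_mul_of_nonneg_right h1 hpos.le
      _ = e ^ (κ / 2) := h4
      _ ≤ 1 / 8 := h2.le
  refine ⟨h5, ?_⟩
  have h6 : |m e| ≤ 1 := by
    have h7 : e ^ κ = e ^ (κ / 2) * e ^ (κ / 2) := by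
      rw [← Real.rpow_add he]
      congr 1
      ring
    have h8' : 0 ≤ e ^ (κ / 2) := (Real.rpow_pos_of_pos he _).le
    have h9 : e ^ κ ≤ 1 := by
      rw [h7]
      calc e ^ (κ / 2) * e ^ (κ / 2) ≤ 1 * 1 :=
            mul_le_mul (h2.le.trans (by norm_num)) (h2.le.trans (by norm_num)) h8' (by norm_num)
        _ = 1 := one_mul 1
    exact h1.trans h9
  calc |m e| ^ 2 * e ^ (-(κ / 2)) = |m e| * (|m e| * e ^ (-(κ / 2))) := by ring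
    _ ≤ 1 * (|m e| * e ^ (-(κ / 2))) :=
        mul_le_mul_of_nonneg_right h6 (mul_nonneg (abs_nonneg _) hpos.le)
    _ = |m e| * e ^ (-(κ / 2)) := one_mul _
    _ ≤ 1 / 8 := h5

/-- the derivative is close to the identity -/
theorem NI_key {m : ℝ → ℝ} (hm : Fast m) {Ω : ℝ → Set (ℝ × ℝ)} {N n : ℝ → ℝ × ℝ → ℝ × ℝ}
    (hN : Exp m Ω N (fun _ x => x) n) :
    ∀ᶠ e in 𝓝[>] (0 : ℝ), IsOpen (Ω e) ∧ (∀ x ∈ Ω e, DifferentiableAt ℝ (N e) x) ∧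
      ∀ x ∈ Ω e, ‖fderiv ℝ (N e) x - ContinuousLinearMap.id ℝ (ℝ × ℝ)‖ ≤ 1 / 4 := by
  obtain ⟨_, hn, r, hr, hEq⟩ := hN
  obtain ⟨η, hη, hsm⟩ := NI_small hm
  have hfn := (Tame.fd hn).bound0 hη
  have hfr := (Tame.fd hr).bound0 hη
  filter_upwards [hn.1, hr.1, hEq, hsm, hfn, hfr, self_mem_nhdsWithin] with e h1 h2 h3 h4 h5 h6 h7
  have hO : IsOpen (Ω e) := h1.1
  have hder : ∀ x ∈ Ω e, HasFDerivAt (N e) (ContinuousLinearMap.id ℝ (ℝ × ℝ) +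
      (m e • fderiv ℝ (n e) x + (m e) ^ 2 • fderiv ℝ (r e) x)) x := by
    intro x hx
    have dn : HasFDerivAt (n e) (fderiv ℝ (n e) x) x :=
      ((h1.2.contDiffAt (hO.mem_nhds hx)).differentiableAt (by simp)).hasFDerivAt
    have dr : HasFDerivAt (r e) (fderiv ℝ (r e) x) x :=
      ((h2.2.contDiffAt (hO.mem_nhds hx)).differentiableAt (by simp)).hasFDerivAt
    have hs : HasFDerivAt (fun y : ℝ × ℝ => y + (m e • n e y + (m e) ^ 2 • r e y))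
        (ContinuousLinearMap.id ℝ (ℝ × ℝ) +
          (m e • fderiv ℝ (n e) x + (m e) ^ 2 • fderiv ℝ (r e) x)) x :=
      (hasFDerivAt_id x).add ((dn.const_smul (m e)).add (dr.const_smul ((m e) ^ 2)))
    refine hs.congr_of_eventuallyEq ?_
    filter_upwards [hO.mem_nhds hx] with y hy
    rw [h3 y hy, add_assoc]
  refine ⟨hO, fun x hx => (hder x hx).differentiableAt, ?_⟩
  intro x hx
  rw [(hder x hx).fderiv, add_sub_cancel_left]
  have hpos : 0 ≤ e ^ (-η) := (Real.rpow_pos_of_pos h7 _).le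
  calc ‖m e • fderiv ℝ (n e) x + (m e) ^ 2 • fderiv ℝ (r e) x‖
      ≤ ‖m e • fderiv ℝ (n e) x‖ + ‖(m e) ^ 2 • fderiv ℝ (r e) x‖ := norm_add_le _ _
    _ = |m e| * ‖fderiv ℝ (n e) x‖ + |m e| ^ 2 * ‖fderiv ℝ (r e) x‖ := by
        rw [norm_smul, norm_smul, norm_pow, Real.norm_eq_abs]
    _ ≤ |m e| * e ^ (-η) + |m e| ^ 2 * e ^ (-η) :=
        add_le_add (mul_le_mul_of_nonneg_left (h5 x hx) (abs_nonneg _))
          (mul_le_mul_of_nonneg_left (h6 x hx) (pow_nonneg (abs_nonneg _) 2))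
    _ ≤ 1 / 8 + 1 / 8 := add_le_add h4.1 h4.2
    _ = 1 / 4 := by norm_num

/-- a map with an expansion `id + O(m)` on convex domains is eventually injective and open -/
theorem near_id_injOn {m : ℝ → ℝ} (hm : Fast m) {Ω : ℝ → Set (ℝ × ℝ)} {N n : ℝ → ℝ × ℝ → ℝ × ℝ}
    (hN : Exp m Ω N (fun _ x => x) n) (hc : ∀ᶠ e in 𝓝[>] (0 : ℝ), Convex ℝ (Ω e)) :
    ∀ᶠ e in 𝓝[>] (0 : ℝ), InjOn (N e) (Ω e) ∧ ContinuousOn (N e) (Ω e) ∧
      ∀ U : Set (ℝ × ℝ), IsOpen U → U ⊆ Ω e → IsOpen (N e '' U) := by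
  filter_upwards [NI_key hm hN, hc] with e he hce
  obtain ⟨hO, hd, hb⟩ := he
  have hLip : ∀ x ∈ Ω e, ∀ y ∈ Ω e, ‖N e x - N e y - (x - y)‖ ≤ 1 / 4 * ‖x - y‖ := by
    intro x hx y hy
    exact hce.norm_image_sub_le_of_norm_fderiv_le' (φ := ContinuousLinearMap.id ℝ (ℝ × ℝ))
      hd hb hy hx
  refine ⟨?_, fun x hx => (hd x hx).continuousAt.continuousWithinAt, ?_⟩
  · intro x hx y hy hxy
    have h := hLip x hx y hy
    rw [hxy, sub_self, zero_sub, norm_neg] at h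
    have h0 : ‖x - y‖ ≤ 0 := by linarith [norm_nonneg (x - y)]
    exact sub_eq_zero.mp (norm_le_zero_iff.mp h0)
  · intro U hU hUO
    have hA : ApproximatesLinearOn (N e) (ContinuousLinearMap.id ℝ (ℝ × ℝ)) U (1 / 4) := by
      intro x hx y hy
      have h := hLip x (hUO hx) y (hUO hy)
      simpa using h
    refine hA.open_image ⟨fun y => y, 1, fun y => by simp, fun y => rfl⟩ hU (Or.inr ?_)
    show (1 / 4 : NNReal) < 1⁻¹
    rw [inv_one]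
    rw [← NNReal.coe_lt_coe]
    norm_num

/-- if moreover its Jacobian is one it preserves volume -/
theorem near_id_volume {m : ℝ → ℝ} (hm : Fast m) {Ω : ℝ → Set (ℝ × ℝ)} {N n : ℝ → ℝ × ℝ → ℝ × ℝ}
    (hN : Exp m Ω N (fun _ x => x) n) (hc : ∀ᶠ e in 𝓝[>] (0 : ℝ), Convex ℝ (Ω e))
    (hd : ∀ᶠ e in 𝓝[>] (0 : ℝ), ∀ p ∈ Ω e, (fderiv ℝ (N e) p).det = 1) :
    ∀ᶠ e in 𝓝[>] (0 : ℝ), ∀ U : Set (ℝ × ℝ), MeasurableSet U → U ⊆ Ω e →
      volume (N e '' U) = volume U := by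
  filter_upwards [NI_key hm hN, near_id_injOn hm hN hc, hd] with e he hi hde U hU hUO
  obtain ⟨hO, hdf, -⟩ := he
  have h := lintegral_abs_det_fderiv_eq_addHaar_image (volume : Measure (ℝ × ℝ)) hU
    (f := N e) (f' := fun x => fderiv ℝ (N e) x)
    (fun x hx => (hdf x (hUO hx)).hasFDerivAt.hasFDerivWithinAt) (hi.1.mono hUO)
  rw [← h]
  have h1 : ∀ x ∈ U, ENNReal.ofReal |(fderiv ℝ (N e) x).det| = 1 := by
    intro x hx
    rw [hde x (hUO hx), abs_one, ENNReal.ofReal_one]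
  rw [setLIntegral_congr_fun hU h1]
  simp

end BB
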