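import Pool.Agent.Lib_helper6.BB.Top
import Pool.Agent.Lib_helper6.BB.W.ZC
import Pool.Agent.Lib_helper6.BB.W.HD
import Pool.Agent.Lib_helper6.BB.W.NI

open Filter Topology Set MeasureTheory
open scoped ContDiff

namespace BB

/-- a map with invertible derivatives is open -/
theorem AP4_open (Z : ℝ × ℝ → ℝ × ℝ) (S : Set (ℝ × ℝ)) (l : ℝ) (hl : l ≠ 0)
    (h : ∀ q ∈ S, ContDiffAt ℝ ∞ Z q ∧ (fderiv ℝ Z q).det = l) (U : Set (ℝ × ℝ)) (hU : IsOpen U)
    (hS : U ⊆ S) : IsOpen (Z '' U) := by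
  rw [isOpen_iff_mem_nhds]
  rintro _ ⟨q, hq, rfl⟩
  obtain ⟨h1, h2⟩ := h q (hS hq)
  have hs : HasStrictFDerivAt Z (fderiv ℝ Z q) q := h1.hasStrictFDerivAt (by simp)
  have hd : (fderiv ℝ Z q).det ≠ 0 := by rw [h2]; exact hl
  have hs' : HasStrictFDerivAt Z
      (((fderiv ℝ Z q).toContinuousLinearEquivOfDetNeZero hd : (ℝ × ℝ) ≃L[ℝ] (ℝ × ℝ)) :
        (ℝ × ℝ) →L[ℝ] (ℝ × ℝ)) q := by
    rw [ContinuousLinearMap.coe_toContinuousLinearEquivOfDetNeZero]
    exact hs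
  rw [← hs'.map_nhds_eq_of_equiv]
  exact image_mem_map (hU.mem_nhds hq)

/-- the scaled billiard map satisfies the hypotheses of the topological chapter -/
theorem topData {L A B : ℝ} {b1 b2 δ : ℝ → ℝ} (hW : Walls L A B b1 b2) (hS : Scale b1 b2 δ)
    {lam : ℝ} (hl : GoodLam L b1 b2 δ lam) {h0 : ℝ → ℝ} (hh0 : ∀ e, h0 e ∈ Icc (3 / 4 : ℝ) (5 / 4)) :
    ∀ᶠ e in 𝓝[>] (0 : ℝ), TopData (HH L b1 b2 δ e) (Fs L A B b1 b2 δ e)
      (Zc L b1 b2 δ lam h0 e) (Hy L b1 b2 δ lam h0 e) := by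
  have c3 := Fs_exp hW hS 3
  have conv : ∀ᶠ e in 𝓝[>] (0 : ℝ), Convex ℝ (Reg L b1 b2 δ 3 e) := by
    filter_upwards [self_mem_nhdsWithin] with e he
    exact Reg_convex hW 3 he
  have hdet := Fs_det hW hS 3
  obtain ⟨C, hC, hb⟩ := Reg_bound hW hS 3
  filter_upwards [self_mem_nhdsWithin, near_id_injOn (mu_fast hS) c3 conv,
    near_id_volume (mu_fast hS) c3 conv hdet, hb, Zc_spec hW hS hl hh0, Hy_spec hW hS hl hh0,
    Hy_strictMono hW hS hl hh0, Hy_hasDerivAt hW hS hl hh0] with e he h1 h2 h3 h4 h5 h6 h7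
  have he' : (0 : ℝ) < e := he
  obtain ⟨z1, z2, z3, z4, z5⟩ := h4
  have hlam : (1 : ℝ) / lam ≠ 0 := by
    have := hl.1
    positivity
  have mS : ∀ x : ℝ, ∀ y ∈ Ioo (-1 / 2 : ℝ) (1 / 2), ((x, y) : ℝ × ℝ) ∈ Str :=
    fun x y hy => ⟨mem_univ _, hy⟩
  refine
    { Hconv := HH_convex hW he'
      Hcont := (HH_contDiff hW e).continuous
      H0 := HH_zero L b1 b2 δ e
      Hnonneg := ?_
      Hbdd := ?_
      F0 := Fs_zero hW e
      Finj := h1.1
      Fcont := h1.2.1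
      Fopen := h1.2.2
      Fvol := h2
      hmono := h6
      hcont := ?_
      hrange := ?_
      ZH := ?_
      Zper := ?_
      Zinj := ?_
      Zsurj := z4
      Zcont := ?_
      Zopen := ?_ }
  · intro p
    have g1 := Wp_nonneg (δ := δ) hW he' p.1
    have g2 := hW.L_pos
    unfold HH
    positivity
  · rw [isBounded_iff_forall_norm_le]
    exact ⟨C, fun p hp => h3 p hp⟩
  · intro y hy
    exact (h7 y hy).continuousAt.continuousWithinAt
  · intro y hy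
    have g1 := (h5 y hy).1
    have g2 := hh0 e
    exact ⟨by linarith [g1.1, g2.1], by linarith [g1.2, g2.2]⟩
  · intro x y hy
    exact z1 (x, y) (mS x y hy)
  · intro x y hy n
    exact z2 (x, y) (mS x y hy) n
  · intro x x' y hy y' hy' heq
    exact z3 (x, y) (mS x y hy) (x', y') (mS x' y' hy') heq
  · intro q hq
    exact (z5 q hq).1.continuousAt.continuousWithinAt
  · intro U hU hUS
    exact AP4_open _ Str (1 / lam) hlam z5 U hU hUS

end BB
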