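import Pool.Agent.Lib_helper6.BB.W.TOP3
import Pool.Agent.Lib_helper6.BB.W.AP3
import Pool.Agent.Lib_helper6.BB.W.AP4

open Filter Topology Set MeasureTheory
open scoped ContDiff

namespace BB

theorem CORE_sc_sci {δ : ℝ → ℝ} {e : ℝ} (hd : δ e ≠ 0) (he : Real.sqrt e ≠ 0) (p : ℝ × ℝ) :
    sc δ e (sci δ e p) = p := by
  unfold sc sci
  ext
  · show δ e * (p.1 / δ e) = p.1
    field_simp
  · show Real.sqrt e * (p.2 / Real.sqrt e) = p.2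
    field_simp

theorem CORE_sc_open {δ : ℝ → ℝ} {e : ℝ} (hd : δ e ≠ 0) (he : Real.sqrt e ≠ 0)
    {U : Set (ℝ × ℝ)} (hU : IsOpen U) : IsOpen (sc δ e '' U) := by
  have h1 : sc δ e = ⇑((Homeomorph.mulLeft₀ (δ e) hd).prodCongr
      (Homeomorph.mulLeft₀ (Real.sqrt e) he)) := rfl
  rw [h1]
  exact Homeomorph.isOpenMap _ U hU

theorem CORE_sc_zero (δ : ℝ → ℝ) (e : ℝ) : sc δ e 0 = 0 := by
  unfold sc
  ext
  · show δ e * 0 = 0
    ring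
  · show Real.sqrt e * 0 = 0
    ring

theorem CORE_Smap {L A B : ℝ} {δ b : ℝ → ℝ} {e : ℝ} (hd : δ e ≠ 0) (he : Real.sqrt e ≠ 0)
    (q : ℝ × ℝ) : Smap L A B b (sc δ e q) = sc δ e (Ss L A B δ b e q) := by
  unfold Ss
  rw [CORE_sc_sci hd he]

theorem CORE_Fmap {L A B : ℝ} {δ b1 b2 : ℝ → ℝ} {e : ℝ} (hd : δ e ≠ 0) (he : Real.sqrt e ≠ 0)
    (q : ℝ × ℝ) : Smap L A B b1 (Smap L A B b2 (sc δ e q)) = sc δ e (Fs L A B b1 b2 δ e q) := by
  unfold Fs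
  rw [CORE_sc_sci hd he]
  rfl

theorem CORE_small (c : ℝ) : ∀ᶠ e in 𝓝[>] (0 : ℝ), Real.sqrt e * c ≤ 1 / 10 := by
  have h1 : Tendsto (fun e : ℝ => Real.sqrt e * c) (𝓝 0) (𝓝 (Real.sqrt 0 * c)) :=
    (Real.continuous_sqrt.mul continuous_const).tendsto 0
  rw [Real.sqrt_zero, zero_mul] at h1
  have h2 := h1.eventually_lt_const (by norm_num : (0 : ℝ) < 1 / 10)
  exact (h2.filter_mono nhdsWithin_le_nhds).mono fun e he => he.le

/-- the invariant sets of lines: `D` (lines going up), `D'` (lines going down) -/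
theorem core (hK : KAMStatement) {L A B : ℝ} {b1 b2 : ℝ → ℝ} (hW : Walls L A B b1 b2) :
    ∃ D D' : Set (ℝ × ℝ), IsOpen D ∧ IsOpen D' ∧ (0 : ℝ × ℝ) ∈ D ∧
      (∀ p ∈ D, |p.2| ≤ 1 / 10) ∧ (∀ p ∈ D', |p.2| ≤ 1 / 10) ∧
      (∀ p ∈ D, IsHit L A B b2 p (hit L A B b2 p)) ∧
      (∀ p ∈ D', IsHit L A B b1 p (hit L A B b1 p)) ∧
      Smap L A B b2 '' D = D' ∧ Smap L A B b1 '' D' = D := by
  obtain ⟨δ, hS⟩ := exists_scale hW
  obtain ⟨lam, hl⟩ := exists_goodLam hW hS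
  obtain ⟨h0, c, hh0, hc, hfreq⟩ := exists_h0 hW hS
  have hm := mu_fast hS
  have e1 := kam_applied hK hW hS hl hh0 hc
  have e2 := topData hW hS hl hh0
  have e3 := Tm_spec hW hS hl hh0
  have e4 := hit_scaled hW hS (b := b2) (Or.inr rfl) 2
  have e5 := hit_scaled hW hS (b := b1) (Or.inl rfl) 2
  have hexp := Ss_exp hW hS (b := b2) (Or.inr rfl)
  have e6 := Exp.maps hm (hexp (3 / 2)) (Reg_ins hW hS (by norm_num : (3 / 2 : ℝ) < 2))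
  have e7 := near_id_injOn hm (hexp 2)
    (by filter_upwards [self_mem_nhdsWithin] with e he using Reg_convex hW 2 he)
  have e8 := CORE_small (Real.sqrt (2 / L))
  have e9 := hS.pos
  have e10 : ∀ᶠ e in 𝓝[>] (0 : ℝ), 0 < e := self_mem_nhdsWithin
  obtain ⟨e, ⟨hgold, htw⟩, ⟨⟨⟨⟨⟨⟨⟨⟨⟨a1, a2⟩, a3⟩, a4⟩, a5⟩, a6⟩, a7⟩, a8⟩, a9⟩, a10⟩⟩ :=
    (hfreq.and_eventually (((((((((e1.and e2).and e3).and e4).and e5).and e6).and e7).and
      e8).and e9).and e10)).exists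
  -- the invariant disc in scaled coordinates
  obtain ⟨u, v, al, t, hu, hv, hu1, hv1, hvb, ht, hul, hcur⟩ := a1 hgold htw
  obtain ⟨D0, hD0, hz0, hsub, hinv⟩ := invariant_disc (T := Tm L A B b1 b2 δ lam h0 e) a2
    (fun x y hy => by
      have h1 : ((x, y) : ℝ × ℝ) ∈ (univ ×ˢ Ioo (-3 / 8 : ℝ) (3 / 8) : Set (ℝ × ℝ)) :=
        ⟨mem_univ _, by
          constructor
          · have := hy.1; show (-3 / 8 : ℝ) < y; linarith
          · have := hy.2; show y < (3 / 8 : ℝ); linarith⟩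
      obtain ⟨h2, h3, -⟩ := a3 _ h1
      exact ⟨h2.2, h3⟩) hu hv hu1 hv1 hvb ht hul hcur
  have hR : ∀ q ∈ D0, q ∈ Reg L b1 b2 δ (3 / 2) e := fun q hq => hsub hq
  have hR2 : ∀ q ∈ D0, q ∈ Reg L b1 b2 δ 2 e := fun q hq => by
    have h1 : HH L b1 b2 δ e q < 3 / 2 := hR q hq
    show HH L b1 b2 δ e q < 2
    linarith
  have hse : 0 < Real.sqrt e := Real.sqrt_pos.2 a10
  have hdn : δ e ≠ 0 := a9.ne'
  have hsn : Real.sqrt e ≠ 0 := hse.ne'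
  have hsize : ∀ q ∈ Reg L b1 b2 δ 2 e, |(sc δ e q).2| ≤ 1 / 10 := by
    intro q hq
    have h1 := (Reg_sub hW a10 hq).2
    show |Real.sqrt e * q.2| ≤ 1 / 10
    rw [abs_mul, abs_of_pos hse]
    exact (mul_le_mul_of_nonneg_left h1.le hse.le).trans a8
  have hD' : Smap L A B b2 '' (sc δ e '' D0) = sc δ e '' (Ss L A B δ b2 e '' D0) := by
    rw [image_image, image_image]
    exact image_congr fun q _ => CORE_Smap hdn hsn q
  refine ⟨sc δ e '' D0, Smap L A B b2 '' (sc δ e '' D0), CORE_sc_open hdn hsn hD0, ?_,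
    ⟨0, hz0, CORE_sc_zero δ e⟩, ?_, ?_, ?_, ?_, rfl, ?_⟩
  · rw [hD']
    exact CORE_sc_open hdn hsn (a7.2.2 D0 hD0 hR2)
  · rintro p ⟨q, hq, rfl⟩
    exact hsize q (hR2 q hq)
  · rw [hD']
    rintro p ⟨q', ⟨q, hq, rfl⟩, rfl⟩
    exact hsize _ (a6 (hR q hq))
  · rintro p ⟨q, hq, rfl⟩
    exact (a4 q (hR2 q hq)).1
  · rw [hD']
    rintro p ⟨q', ⟨q, hq, rfl⟩, rfl⟩
    exact (a5 _ (a6 (hR q hq))).1
  · rw [image_image, image_image]
    have h1 : (fun q => Smap L A B b1 (Smap L A B b2 (sc δ e q))) =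
        fun q => sc δ e (Fs L A B b1 b2 δ e q) := funext fun q => CORE_Fmap hdn hsn q
    rw [h1, ← image_image (sc δ e) (Fs L A B b1 b2 δ e) D0, hinv]

end BB
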