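import Pool.Agent.Lib_helper6.BB.Table

/-! # BB, block GA: curvature and tangent lines of a smooth convex table -/

open Filter Topology Set MeasureTheory
open scoped ContDiff

namespace BB

/-- the boundary curve lies on the left of its tangent lines -/
theorem table_left {D : Set ℂ} {γ : ℝ → ℂ} {ℓ : ℝ} (hD : SmoothTable D γ ℓ) (s t : ℝ) :
    0 ≤ ((γ t - γ s) * (starRingEnd ℂ) (deriv γ s)).im := by
  have h1 : γ t ∈ closure D := by
    have h2 : γ t ∈ frontier D := by rw [hD.boundary]; exact ⟨t, rfl⟩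
    exact frontier_subset_closure h2
  have h3 : IsClosed {z : ℂ | 0 ≤ ((z - γ s) * (starRingEnd ℂ) (deriv γ s)).im} := by
    apply isClosed_le continuous_const
    fun_prop
  exact closure_minimal (fun z hz => (hD.left s z hz).le) h3 h1

theorem GA_smooth {D : Set ℂ} {γ : ℝ → ℂ} {ℓ : ℝ} (hD : SmoothTable D γ ℓ) :
    ContDiff ℝ ∞ (deriv γ) ∧ ContDiff ℝ ∞ (deriv (deriv γ)) := by
  have h1 := (contDiff_infty_iff_deriv.1 hD.smooth).2
  exact ⟨h1, (contDiff_infty_iff_deriv.1 h1).2⟩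

theorem GA_d1 {D : Set ℂ} {γ : ℝ → ℂ} {ℓ : ℝ} (hD : SmoothTable D γ ℓ) (s : ℝ) :
    HasDerivAt γ (deriv γ s) s := by
  have h := (contDiff_infty_iff_deriv.1 hD.smooth).1
  exact (h s).hasDerivAt

theorem GA_d2 {D : Set ℂ} {γ : ℝ → ℂ} {ℓ : ℝ} (hD : SmoothTable D γ ℓ) (s : ℝ) :
    HasDerivAt (deriv γ) (deriv (deriv γ) s) s := by
  have h := (contDiff_infty_iff_deriv.1 (GA_smooth hD).1).1
  exact (h s).hasDerivAt

theorem GA_im {f : ℝ → ℂ} {f' : ℂ} {t : ℝ} (h : HasDerivAt f f' t) (c : ℂ) :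
    HasDerivAt (fun x => (f x * c).im) ((f' * c).im) t := by
  have h1 := h.mul_const c
  exact Complex.imCLM.hasFDerivAt.comp_hasDerivAt t h1

theorem GA_re {f : ℝ → ℂ} {f' : ℂ} {t : ℝ} (h : HasDerivAt f f' t) :
    HasDerivAt (fun x => (f x).re) f'.re t :=
  Complex.reCLM.hasFDerivAt.comp_hasDerivAt t h

theorem GA_im' {f : ℝ → ℂ} {f' : ℂ} {t : ℝ} (h : HasDerivAt f f' t) :
    HasDerivAt (fun x => (f x).im) f'.im t :=
  Complex.imCLM.hasFDerivAt.comp_hasDerivAt t h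

theorem GA_norm {D : Set ℂ} {γ : ℝ → ℂ} {ℓ : ℝ} (hD : SmoothTable D γ ℓ) (s : ℝ) :
    (deriv γ s).re ^ 2 + (deriv γ s).im ^ 2 = 1 := by
  have h1 := hD.unitSpeed s
  have h2 : Complex.normSq (deriv γ s) = 1 := by
    rw [Complex.normSq_eq_norm_sq, h1]; norm_num
  rw [Complex.normSq_apply] at h2
  nlinarith

theorem GA_orth {D : Set ℂ} {γ : ℝ → ℂ} {ℓ : ℝ} (hD : SmoothTable D γ ℓ) (s : ℝ) :
    (deriv γ s).re * (deriv (deriv γ) s).re + (deriv γ s).im * (deriv (deriv γ) s).im = 0 := by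
  have h1 := ((GA_re (GA_d2 hD s)).pow 2).add ((GA_im' (GA_d2 hD s)).pow 2)
  have h2 : HasDerivAt (fun _ : ℝ => (1 : ℝ)) 0 s := hasDerivAt_const s 1
  have h3 : (fun x => (deriv γ x).re ^ 2 + (deriv γ x).im ^ 2) = fun _ => (1 : ℝ) := by
    funext x
    exact GA_norm hD x
  have h4 : HasDerivAt (fun x => (deriv γ x).re ^ 2 + (deriv γ x).im ^ 2) 0 s := by
    rw [h3]; exact h2
  have h5 := h4.unique h1
  simp only [Nat.cast_ofNat] at h5
  norm_num at h5
  linarith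

/-- the curvature -/
noncomputable def GA_k (γ : ℝ → ℂ) (s : ℝ) : ℝ := (deriv (deriv γ) s * (starRingEnd ℂ) (deriv γ s)).im

theorem GA_k_smooth {D : Set ℂ} {γ : ℝ → ℂ} {ℓ : ℝ} (hD : SmoothTable D γ ℓ) :
    ContDiff ℝ ∞ (GA_k γ) := by
  have h1 := (GA_smooth hD).1
  have h2 := (GA_smooth hD).2
  have h3 : ContDiff ℝ ∞ (fun s => (starRingEnd ℂ) (deriv γ s)) :=
    Complex.conjCLE.contDiff.comp h1
  exact Complex.imCLM.contDiff.comp (h2.mul h3)

theorem GA_k_eq {D : Set ℂ} {γ : ℝ → ℂ} {ℓ : ℝ} (hD : SmoothTable D γ ℓ) (s : ℝ) :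
    deriv (deriv γ) s = Complex.I * GA_k γ s * deriv γ s := by
  have h1 := GA_norm hD s
  have h2 := GA_orth hD s
  unfold GA_k
  set p := deriv γ s
  set q := deriv (deriv γ) s
  apply Complex.ext
  · simp
    linear_combination (-(q.re)) * h1 + p.re * h2
  · simp
    linear_combination (-(q.im)) * h1 + p.im * h2

theorem GA_k_nonneg {D : Set ℂ} {γ : ℝ → ℂ} {ℓ : ℝ} (hD : SmoothTable D γ ℓ) (s : ℝ) :
    0 ≤ GA_k γ s := by
  by_contra hneg
  push Not at hneg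
  set c := (starRingEnd ℂ) (deriv γ s) with hc
  set h : ℝ → ℝ := fun t => -((γ t - γ s) * c).im with hh
  have d1 : ∀ t, HasDerivAt h (-(deriv γ t * c).im) t := fun t =>
    (GA_im ((GA_d1 hD t).sub_const (γ s)) c).neg
  have d1' : deriv h = fun t => -(deriv γ t * c).im := by
    funext t
    exact (d1 t).deriv
  have d2 : HasDerivAt (deriv h) (-(deriv (deriv γ) s * c).im) s := by
    rw [d1']
    exact (GA_im (GA_d2 hD s) c).neg
  have e1 : deriv h s = 0 := by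
    rw [d1']
    simp only [hc, Complex.mul_conj, Complex.ofReal_im, neg_zero]
  have e2 : 0 < deriv (deriv h) s := by
    rw [d2.deriv]
    have : GA_k γ s = (deriv (deriv γ) s * c).im := rfl
    linarith
  have h3 : IsLocalMin h s := isLocalMin_of_deriv_deriv_pos e2 e1 (d1 s).continuousAt
  have h0 : h s = 0 := by simp [hh]
  have h4 : h =ᶠ[𝓝 s] fun _ => 0 := by
    filter_upwards [h3] with t ht
    rw [h0] at ht
    have h5 := table_left hD s t
    have h6 : h t = -((γ t - γ s) * c).im := rfl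
    rw [h6] at ht ⊢
    linarith
  have h7 : deriv h =ᶠ[𝓝 s] deriv (fun _ => (0 : ℝ)) := h4.deriv
  have h8 := h7.deriv_eq
  rw [h8] at e2
  simp at e2

theorem GA_d1_per {D : Set ℂ} {γ : ℝ → ℂ} {ℓ : ℝ} (hD : SmoothTable D γ ℓ) (s : ℝ) :
    deriv γ (s + ℓ) = deriv γ s := by
  have h1 : (fun x => γ (x + ℓ)) = γ := by funext x; exact hD.periodic x
  have h2 := deriv_comp_add_const γ ℓ s
  rw [h1] at h2
  exact h2.symm

theorem GA_d2_per {D : Set ℂ} {γ : ℝ → ℂ} {ℓ : ℝ} (hD : SmoothTable D γ ℓ) (s : ℝ) :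
    deriv (deriv γ) (s + ℓ) = deriv (deriv γ) s := by
  have h1 : (fun x => deriv γ (x + ℓ)) = deriv γ := by funext x; exact GA_d1_per hD x
  have h2 := deriv_comp_add_const (deriv γ) ℓ s
  rw [h1] at h2
  exact h2.symm

theorem GA_k_per {D : Set ℂ} {γ : ℝ → ℂ} {ℓ : ℝ} (hD : SmoothTable D γ ℓ) :
    Function.Periodic (GA_k γ) ℓ := by
  intro s
  unfold GA_k
  rw [GA_d1_per hD, GA_d2_per hD]

theorem GA_exists {D : Set ℂ} {γ : ℝ → ℂ} {ℓ : ℝ} (hD : SmoothTable D γ ℓ) (s : ℝ) :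
    ∃ t, s ≤ t ∧ 0 < GA_k γ t := by
  by_contra hcon
  push Not at hcon
  have hz : ∀ t, s ≤ t → deriv (deriv γ) t = 0 := by
    intro t ht
    rw [GA_k_eq hD t, le_antisymm (hcon t ht) (GA_k_nonneg hD t)]
    simp
  have hℓ := hD.length_pos
  have hconst : ∀ t ∈ Icc s (s + ℓ), deriv γ t = deriv γ s := by
    apply constant_of_has_deriv_right_zero
    · exact (GA_smooth hD).1.continuous.continuousOn
    · intro t ht
      have := (GA_d2 hD t).hasDerivWithinAt (s := Ici t)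
      rw [hz t ht.1] at this
      exact this
  have hlin : ∀ t ∈ Icc s (s + ℓ), γ t - (t : ℂ) * deriv γ s = γ s - (s : ℂ) * deriv γ s := by
    apply constant_of_has_deriv_right_zero
    · apply Continuous.continuousOn
      have := hD.smooth.continuous
      fun_prop
    · intro t ht
      have h1 := GA_d1 hD t
      rw [hconst t ⟨ht.1, ht.2.le⟩] at h1
      have h2 : HasDerivAt (fun x : ℝ => (x : ℂ) * deriv γ s) (1 * deriv γ s) t :=
        (Complex.ofRealCLM.hasDerivAt (x := t)).mul_const _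
      have h3 := (h1.sub h2).hasDerivWithinAt (s := Ici t)
      rw [one_mul, sub_self] at h3
      exact h3
  have h1 := hlin (s + ℓ) ⟨by linarith, le_rfl⟩
  rw [hD.periodic s] at h1
  have h2 : (ℓ : ℂ) * deriv γ s = 0 := by
    push_cast at h1
    linear_combination -h1
  have h3 : deriv γ s ≠ 0 := by
    intro h4
    have := hD.unitSpeed s
    rw [h4] at this
    simp at this
  have h5 : (ℓ : ℂ) ≠ 0 := by exact_mod_cast hℓ.ne'
  exact (mul_ne_zero h5 h3) h2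

/-- curvature `κ`: `γ'' = i κ γ'` with `κ ≥ 0` smooth and periodic -/
theorem table_curvature {D : Set ℂ} {γ : ℝ → ℂ} {ℓ : ℝ} (hD : SmoothTable D γ ℓ) :
    ∃ κ : ℝ → ℝ, ContDiff ℝ ∞ κ ∧ (∀ s, 0 ≤ κ s) ∧ (∀ s, κ (s + ℓ) = κ s) ∧
      (∀ s, deriv (deriv γ) s = Complex.I * κ s * deriv γ s) ∧ (∀ s, ∃ t, s ≤ t ∧ 0 < κ t) ∧
      (∀ s, ∃ t, t ≤ s ∧ 0 < κ t) := by
  refine ⟨GA_k γ, GA_k_smooth hD, GA_k_nonneg hD, GA_k_per hD, GA_k_eq hD, GA_exists hD, ?_⟩
  intro s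
  obtain ⟨t, ht, hk⟩ := GA_exists hD s
  have hℓ := hD.length_pos
  obtain ⟨n, hn⟩ := exists_nat_ge ((t - s) / ℓ)
  refine ⟨t - n • ℓ, ?_, ?_⟩
  · rw [div_le_iff₀ hℓ] at hn
    rw [nsmul_eq_mul]
    linarith
  · rw [(GA_k_per hD).sub_nsmul_eq n]
    exact hk

theorem GA_unique {D : Set ℂ} {γ : ℝ → ℂ} {ℓ : ℝ} (hD : SmoothTable D γ ℓ) {s s1 s2 : ℝ} {v : ℂ}
    {t1 t2 : ℝ} (hv : (v * (starRingEnd ℂ) (deriv γ s)).im ≠ 0) (h1 : 0 < t1) (h12 : t1 < t2)
    (e1 : γ s1 = γ s + t1 * v) (e2 : γ s2 = γ s + t2 * v) : False := by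
  set g := deriv γ s with hg
  set g1 := deriv γ s1 with hg1
  have a1 := table_left hD s1 s
  have a2 := table_left hD s1 s2
  have b1 : (γ s - γ s1) * (starRingEnd ℂ) g1 = ((-t1 : ℝ) : ℂ) * (v * (starRingEnd ℂ) g1) := by
    rw [e1]; push_cast; ring
  have b2 : (γ s2 - γ s1) * (starRingEnd ℂ) g1 = ((t2 - t1 : ℝ) : ℂ) * (v * (starRingEnd ℂ) g1) := by
    rw [e1, e2]; push_cast; ring
  rw [← hg1, b1, Complex.im_ofReal_mul] at a1
  rw [← hg1, b2, Complex.im_ofReal_mul] at a2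
  have c1 : (v * (starRingEnd ℂ) g1).im = 0 := by
    apply le_antisymm
    · nlinarith
    · have : 0 < t2 - t1 := by linarith
      exact nonneg_of_mul_nonneg_right a2 this
  have c2 : (g * (starRingEnd ℂ) g1).im = 0 := by
    have d1 : HasDerivAt (fun t => ((γ t - γ s1) * (starRingEnd ℂ) g1).im)
        ((g * (starRingEnd ℂ) g1).im) s := GA_im ((GA_d1 hD s).sub_const (γ s1)) _
    have d2 : IsLocalMin (fun t => ((γ t - γ s1) * (starRingEnd ℂ) g1).im) s := by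
      refine Filter.Eventually.of_forall fun t => ?_
      have h3 := table_left hD s1 t
      simp only
      rw [b1, Complex.im_ofReal_mul, c1, mul_zero]
      exact h3
    exact d2.hasDerivAt_eq_zero d1
  apply hv
  have n1 := GA_norm hD s1
  rw [← hg1] at n1
  simp only [Complex.mul_im, Complex.conj_re, Complex.conj_im] at c1 c2 ⊢
  have key : (v.re * -g.im + v.im * g.re) * (g1.re ^ 2 + g1.im ^ 2) = 0 := by
    linear_combination (g.re * g1.re + g.im * g1.im) * c1 - (v.re * g1.re + v.im * g1.im) * c2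
  rw [n1, mul_one] at key
  exact key

/-- three boundary points on a line: if the direction `v` of the line is transversal to the boundary at the
point `γ s` then the line meets the boundary at only one point `γ s + t v`, `t > 0` -/
theorem table_unique {D : Set ℂ} {γ : ℝ → ℂ} {ℓ : ℝ} (hD : SmoothTable D γ ℓ) {s s1 s2 : ℝ} {v : ℂ}
    {t1 t2 : ℝ} (hv : (v * (starRingEnd ℂ) (deriv γ s)).im ≠ 0) (h1 : 0 < t1) (h2 : 0 < t2)
    (e1 : γ s1 = γ s + t1 * v) (e2 : γ s2 = γ s + t2 * v) : t1 = t2 := by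
  rcases lt_trichotomy t1 t2 with h | h | h
  · exact (GA_unique hD hv h1 h e1 e2).elim
  · exact h
  · exact (GA_unique hD hv h2 h e2 e1).elim

end BB
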