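import Pool.Agent.Lib_helper6.BB.Defs
import Pool.Agent.Lib_helper6.BB.W.GA

open Filter Topology Set MeasureTheory
open scoped ContDiff

namespace BB

/-- one side of the flat piece -/
theorem GB_side {b1 b2 : ℝ → ℝ} (c1 : Continuous b1) (c2 : Continuous b2) (m1 : Monotone b1)
    (m2 : Monotone b2) (z1 : b1 0 = 0) (z2 : b2 0 = 0) {X L : ℝ} (hX : 0 < X)
    (hg : 0 < b1 X + b2 X) (hL : 0 < L) : ∃ B : ℝ, 0 < B ∧ 0 < b1 B + b2 B ∧
      ∀ x ∈ Icc 0 B, (|b1 x| ≤ 1 / 10 ∧ |b2 x| ≤ 1 / 10) ∧ hf b1 x < L / 2 ∧ hf b2 x < L / 2 := by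
  set ε : ℝ := min (b1 X + b2 X) (min (1 / 10) (L / (4 * X))) with hε
  have hε0 : 0 < ε := lt_min hg (lt_min (by norm_num) (by positivity))
  have hε1 : ε ≤ b1 X + b2 X := min_le_left _ _
  have hε2 : ε ≤ 1 / 10 := (min_le_right _ _).trans (min_le_left _ _)
  have hε3 : ε ≤ L / (4 * X) := (min_le_right _ _).trans (min_le_right _ _)
  have hivt := intermediate_value_Icc hX.le ((c1.add c2).continuousOn (s := Icc 0 X))
  have hmem : ε ∈ Icc ((b1 + b2) 0) ((b1 + b2) X) := by
    simp only [Pi.add_apply, z1, z2]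
    exact ⟨by linarith, hε1⟩
  obtain ⟨B, hB, hBe⟩ := hivt hmem
  simp only [Pi.add_apply] at hBe
  have hB0 : 0 < B := by
    rcases lt_or_eq_of_le hB.1 with h | h
    · exact h
    · rw [← h, z1, z2] at hBe
      linarith
  refine ⟨B, hB0, by rw [hBe]; exact hε0, ?_⟩
  have hpos1 : ∀ x, 0 ≤ x → 0 ≤ b1 x := fun x hx => by rw [← z1]; exact m1 hx
  have hpos2 : ∀ x, 0 ≤ x → 0 ≤ b2 x := fun x hx => by rw [← z2]; exact m2 hx
  have hle1 : ∀ x ∈ Icc 0 B, b1 x ≤ ε := fun x hx => by
    have := m1 hx.2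
    linarith [hpos2 B hB0.le]
  have hle2 : ∀ x ∈ Icc 0 B, b2 x ≤ ε := fun x hx => by
    have := m2 hx.2
    linarith [hpos1 B hB0.le]
  have hhf : ∀ b : ℝ → ℝ, Continuous b → (∀ x, 0 ≤ x → 0 ≤ b x) → (∀ x ∈ Icc 0 B, b x ≤ ε) →
      ∀ x ∈ Icc 0 B, hf b x < L / 2 := by
    intro b hbc hb0 hbe x hx
    unfold hf
    have h1 : ∫ s in (0:ℝ)..x, Real.sin (b s) ≤ ∫ s in (0:ℝ)..x, ε := by
      apply intervalIntegral.integral_mono_on hx.1
      · exact (by fun_prop : Continuous fun s => Real.sin (b s)).intervalIntegrable _ _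
      · exact continuous_const.intervalIntegrable _ _
      · intro s hs
        exact (Real.sin_le (hb0 s hs.1)).trans (hbe s ⟨hs.1, hs.2.trans hx.2⟩)
    rw [intervalIntegral.integral_const, sub_zero, smul_eq_mul] at h1
    have h2 : x * ε ≤ X * (L / (4 * X)) :=
      mul_le_mul (hx.2.trans hB.2) hε3 hε0.le hX.le
    have h3 : X * (L / (4 * X)) = L / 4 := by
      field_simp
    linarith
  intro x hx
  refine ⟨⟨?_, ?_⟩, hhf b1 c1 hpos1 hle1 x hx, hhf b2 c2 hpos2 hle2 x hx⟩
  · rw [abs_of_nonneg (hpos1 x hx.1)]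
    exact (hle1 x hx).trans hε2
  · rw [abs_of_nonneg (hpos2 x hx.1)]
    exact (hle2 x hx).trans hε2

theorem GB_hf_neg (b : ℝ → ℝ) (x : ℝ) : hf (fun y => -b (-y)) x = hf b (-x) := by
  unfold hf
  have h : ∀ s : ℝ, Real.sin (-b (-s)) = -(fun u => Real.sin (b u)) (-s) := by
    intro s
    rw [Real.sin_neg]
  simp only [h]
  rw [intervalIntegral.integral_neg, intervalIntegral.integral_comp_neg
    (fun u => Real.sin (b u)), neg_zero, intervalIntegral.integral_symm, neg_neg]

/-- both sides -/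
theorem GB_walls {b1 b2 : ℝ → ℝ} (c1 : ContDiff ℝ ∞ b1) (c2 : ContDiff ℝ ∞ b2) (m1 : Monotone b1)
    (m2 : Monotone b2) (z1 : b1 0 = 0) (z2 : b2 0 = 0) (d1 : deriv b1 0 = 0)
    (d2 : deriv b2 0 = 0) {X Y L : ℝ} (hX : 0 < X)
    (hg : 0 < b1 X + b2 X) (hY : 0 < Y) (hg' : b1 (-Y) + b2 (-Y) < 0) (hL : 0 < L) :
    ∃ A B : ℝ, Walls L A B b1 b2 := by
  obtain ⟨B, hB, hBg, hBx⟩ := GB_side c1.continuous c2.continuous m1 m2 z1 z2 hX hg hL
  have n1 : Continuous (fun y => -b1 (-y)) := by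
    have := c1.continuous
    fun_prop
  have n2 : Continuous (fun y => -b2 (-y)) := by
    have := c2.continuous
    fun_prop
  obtain ⟨A, hA, hAg, hAx⟩ := GB_side (b1 := fun y => -b1 (-y)) (b2 := fun y => -b2 (-y))
    (L := L) (X := Y) n1 n2
    (fun x y h => neg_le_neg (m1 (neg_le_neg h))) (fun x y h => neg_le_neg (m2 (neg_le_neg h)))
    (by simp [z1]) (by simp [z2]) hY (by linarith) hL
  have hAx' : ∀ x ∈ Icc (-A) 0, (|b1 x| ≤ 1 / 10 ∧ |b2 x| ≤ 1 / 10) ∧
      hf b1 x < L / 2 ∧ hf b2 x < L / 2 := by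
    intro x hx
    have h := hAx (-x) ⟨by linarith [hx.2], by linarith [hx.1]⟩
    simp only [GB_hf_neg, neg_neg, abs_neg] at h
    exact h
  have hall : ∀ x ∈ Icc (-A) B, (|b1 x| ≤ 1 / 10 ∧ |b2 x| ≤ 1 / 10) ∧
      hf b1 x < L / 2 ∧ hf b2 x < L / 2 := by
    intro x hx
    rcases le_total 0 x with h | h
    · exact hBx x ⟨h, hx.2⟩
    · exact hAx' x ⟨hx.1, h⟩
  refine ⟨A, B, ⟨hL, hA, hB, c1, c2, m1, m2, z1, z2, d1, d2, fun x hx => (hall x hx).1, hBg,
    ?_, fun x hx => (hall x hx).2⟩⟩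
  linarith

theorem GB_const {E : Type} [NormedAddCommGroup E] [NormedSpace ℝ E] {f g : ℝ → E} {f' : ℝ → E}
    (hf : ∀ x, HasDerivAt f (f' x) x) (hg : ∀ x, HasDerivAt g (f' x) x) (h0 : f 0 = g 0) :
    ∀ x, f x = g x := by
  intro x
  have h : ∀ y, HasDerivAt (fun z => f z - g z) 0 y := by
    intro y
    have := (hf y).sub (hg y)
    rwa [sub_self] at this
  have h2 := is_const_of_deriv_eq_zero (fun y => (h y).differentiableAt)
    (fun y => (h y).deriv) x 0
  rw [h0, sub_self] at h2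
  exact sub_eq_zero.mp h2

theorem GB_prim {k : ℝ → ℝ} (hk : ContDiff ℝ ∞ k) : ContDiff ℝ ∞ (fun x => ∫ t in (0:ℝ)..x, k t) ∧
    ∀ x, HasDerivAt (fun x => ∫ t in (0:ℝ)..x, k t) (k x) x := by
  have hd : ∀ x, HasDerivAt (fun x => ∫ t in (0:ℝ)..x, k t) (k x) x := fun x =>
    intervalIntegral.integral_hasDerivAt_right (hk.continuous.intervalIntegrable _ _)
      (hk.continuous.stronglyMeasurableAtFilter _ _) hk.continuous.continuousAt
  refine ⟨?_, hd⟩
  rw [contDiff_infty_iff_deriv]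
  refine ⟨fun x => (hd x).differentiableAt, ?_⟩
  have : deriv (fun x => ∫ t in (0:ℝ)..x, k t) = k := funext fun x => (hd x).deriv
  rw [this]
  exact hk

/-- the boundary near a flat double normal in terms of two walls -/
theorem table_walls {D : Set ℂ} {γ : ℝ → ℂ} {ℓ : ℝ} (hD : SmoothTable D γ ℓ) {s0 s1 : ℝ}
    (hne : γ s0 ≠ γ s1)
    (h0 : ((γ s1 - γ s0) * (starRingEnd ℂ) (deriv γ s0)).re = 0)
    (h1 : ((γ s1 - γ s0) * (starRingEnd ℂ) (deriv γ s1)).re = 0)
    (hk0 : deriv (deriv γ) s0 = 0) (hk1 : deriv (deriv γ) s1 = 0) :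
    ∃ (L A B : ℝ) (b1 b2 : ℝ → ℝ), Walls L A B b1 b2 ∧
      (∀ x, γ (s0 + x) = γ s0 + deriv γ s0 * (hx b1 x + hf b1 x * Complex.I)) ∧
      (∀ x, deriv γ (s0 + x) = deriv γ s0 * Complex.exp (b1 x * Complex.I)) ∧
      (∀ x, γ (s1 - x) = γ s0 + deriv γ s0 * (hx b2 x + (L - hf b2 x) * Complex.I)) ∧
      (∀ x, deriv γ (s1 - x) = -(deriv γ s0 * Complex.exp (-(b2 x * Complex.I)))) := by
  obtain ⟨κ, hκs, hκ0, hκp, hκd, hκr, hκl⟩ := table_curvature hD
  have hun0 := hD.unitSpeed s0
  have hun1 := hD.unitSpeed s1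
  have hl0 := table_left hD s0 s1
  have hl1 := table_left hD s1 s0
  set T0 := deriv γ s0 with hT0
  set T1 := deriv γ s1 with hT1
  have hT0n : T0 ≠ 0 := by
    intro h
    rw [h, norm_zero] at hun0
    exact zero_ne_one hun0
  have hT1n : T1 ≠ 0 := by
    intro h
    rw [h, norm_zero] at hun1
    exact zero_ne_one hun1
  have hcc0 : (starRingEnd ℂ) T0 * T0 = 1 := by
    rw [mul_comm, Complex.mul_conj, Complex.normSq_eq_norm_sq, hun0]
    norm_num
  have hcc1 : (starRingEnd ℂ) T1 * T1 = 1 := by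
    rw [mul_comm, Complex.mul_conj, Complex.normSq_eq_norm_sq, hun1]
    norm_num
  set w := (γ s1 - γ s0) * (starRingEnd ℂ) T0 with hw
  set L := w.im with hLdef
  have hwL : w = L * Complex.I := by
    apply Complex.ext
    · simp [h0]
    · simp [hLdef]
  have hdiff : γ s1 - γ s0 = T0 * (L * Complex.I) := by
    rw [← hwL, hw]
    calc γ s1 - γ s0 = (γ s1 - γ s0) * 1 := by rw [mul_one]
      _ = (γ s1 - γ s0) * ((starRingEnd ℂ) T0 * T0) := by rw [hcc0]
      _ = _ := by ring
  have hL : 0 < L := by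
    rcases lt_or_eq_of_le hl0 with h | h
    · exact h
    · exfalso
      apply hne
      rw [← h] at hdiff
      simp only [Complex.ofReal_zero, zero_mul, mul_zero] at hdiff
      exact (sub_eq_zero.mp hdiff).symm
  have hT : T1 = -T0 := by
    set q := T0 * (starRingEnd ℂ) T1 with hq
    have e1 : (γ s1 - γ s0) * (starRingEnd ℂ) T1 = q * (L * Complex.I) := by
      rw [hdiff, hq]; ring
    have e2 : (γ s0 - γ s1) * (starRingEnd ℂ) T1 = -(q * (L * Complex.I)) := by
      rw [← e1]; ring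
    rw [e1] at h1
    rw [e2] at hl1
    simp only [Complex.mul_re, Complex.mul_im, Complex.ofReal_re, Complex.ofReal_im,
      Complex.I_re, Complex.I_im, mul_zero, mul_one, sub_zero, zero_mul, add_zero, zero_add,
      zero_sub, Complex.neg_im] at h1 hl1
    have hqi : q.im = 0 := by
      rcases mul_eq_zero.mp (neg_eq_zero.mp h1) with h | h
      · exact h
      · exact absurd h hL.ne'
    have hqr : q.re ≤ 0 := by
      by_contra hcon
      push Not at hcon
      have := mul_pos hcon hL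
      linarith
    have hqn : ‖q‖ = 1 := by
      rw [hq, norm_mul, hun0, RCLike.norm_conj, hun1, one_mul]
    have hq1 : q = -1 := by
      have h2 : q = (q.re : ℂ) := by
        apply Complex.ext
        · simp
        · simp [hqi]
      have h3 : |q.re| = 1 := by
        rw [h2, Complex.norm_real, Real.norm_eq_abs] at hqn
        exact hqn
      rw [abs_of_nonpos hqr] at h3
      rw [h2, show q.re = -1 by linarith]
      simp
    have h4 : T0 = q * T1 := by
      calc T0 = T0 * 1 := by rw [mul_one]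
        _ = T0 * ((starRingEnd ℂ) T1 * T1) := by rw [hcc1]
        _ = _ := by rw [hq]; ring
    rw [h4, hq1]
    ring
  have hκc := hκs.continuous
  have hκ00 : κ s0 = 0 := by
    have := hκd s0
    rw [hk0] at this
    have h2 := (mul_eq_zero.mp this.symm).resolve_right hT0n
    have h3 := (mul_eq_zero.mp h2).resolve_left Complex.I_ne_zero
    exact_mod_cast h3
  have hκ10 : κ s1 = 0 := by
    have := hκd s1
    rw [hk1] at this
    have h2 := (mul_eq_zero.mp this.symm).resolve_right hT1n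
    have h3 := (mul_eq_zero.mp h2).resolve_left Complex.I_ne_zero
    exact_mod_cast h3
  have hs1 : ContDiff ℝ ∞ (fun t => κ (s0 + t)) := hκs.comp (contDiff_const.add contDiff_id)
  have hs2 : ContDiff ℝ ∞ (fun t => κ (s1 - t)) := hκs.comp (contDiff_const.sub contDiff_id)
  obtain ⟨hb1s, hb1d⟩ := GB_prim hs1
  obtain ⟨hb2s, hb2d⟩ := GB_prim hs2
  set b1 : ℝ → ℝ := fun x => ∫ t in (0:ℝ)..x, κ (s0 + t) with hb1
  set b2 : ℝ → ℝ := fun x => ∫ t in (0:ℝ)..x, κ (s1 - t) with hb2
  have hm1 : Monotone b1 := monotone_of_deriv_nonneg (fun x => (hb1d x).differentiableAt)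
    (fun x => by rw [(hb1d x).deriv]; exact hκ0 _)
  have hm2 : Monotone b2 := monotone_of_deriv_nonneg (fun x => (hb2d x).differentiableAt)
    (fun x => by rw [(hb2d x).deriv]; exact hκ0 _)
  have hz1 : b1 0 = 0 := by simp [hb1]
  have hz2 : b2 0 = 0 := by simp [hb2]
  have hd1 : deriv b1 0 = 0 := by rw [(hb1d 0).deriv, add_zero, hκ00]
  have hd2 : deriv b2 0 = 0 := by rw [(hb2d 0).deriv, sub_zero, hκ10]
  obtain ⟨t, ht, hκt⟩ := hκr s0
  obtain ⟨t', ht', hκt'⟩ := hκl s0
  have hpos : 0 < b1 (t - s0 + 1) + b2 (t - s0 + 1) := by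
    have h2 : 0 ≤ b2 (t - s0 + 1) := by
      rw [← hz2]; exact hm2 (by linarith)
    have h3 : 0 < b1 (t - s0 + 1) := by
      apply intervalIntegral.integral_pos (by linarith) hs1.continuous.continuousOn
        (fun x _ => hκ0 _)
      refine ⟨t - s0, ⟨by linarith, by linarith⟩, ?_⟩
      rw [add_sub_cancel]
      exact hκt
    linarith
  have hneg : b1 (-(s0 - t' + 1)) + b2 (-(s0 - t' + 1)) < 0 := by
    have h2 : b2 (-(s0 - t' + 1)) ≤ 0 := by
      rw [← hz2]; exact hm2 (by linarith)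
    have h3 : b1 (-(s0 - t' + 1)) < 0 := by
      rw [hb1]
      dsimp only
      rw [intervalIntegral.integral_symm, neg_lt_zero]
      apply intervalIntegral.integral_pos (by linarith) hs1.continuous.continuousOn
        (fun x _ => hκ0 _)
      refine ⟨t' - s0, ⟨by linarith, by linarith⟩, ?_⟩
      rw [add_sub_cancel]
      exact hκt'
    linarith
  obtain ⟨A, B, hWalls⟩ := GB_walls hb1s hb2s hm1 hm2 hz1 hz2 hd1 hd2
    (X := t - s0 + 1) (Y := s0 - t' + 1) (by linarith) hpos (by linarith) hneg hL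
  have hγd : ∀ s, HasDerivAt γ (deriv γ s) s := fun s =>
    (hD.smooth.differentiable (by simp) s).hasDerivAt
  have hγ2 : ContDiff ℝ ∞ (deriv γ) := (contDiff_infty_iff_deriv.mp hD.smooth).2
  have hγdd : ∀ s, HasDerivAt (deriv γ) (Complex.I * κ s * deriv γ s) s := by
    intro s
    rw [← hκd s]
    exact (hγ2.differentiable (by simp) s).hasDerivAt
  have hexp1 : ∀ x, HasDerivAt (fun x : ℝ => Complex.exp ((b1 x : ℂ) * Complex.I))
      (Complex.exp ((b1 x : ℂ) * Complex.I) * ((κ (s0 + x) : ℂ) * Complex.I)) x := by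
    intro x
    exact ((hb1d x).ofReal_comp.mul_const Complex.I).cexp
  have hexp2 : ∀ x, HasDerivAt (fun x : ℝ => Complex.exp (-((b2 x : ℂ) * Complex.I)))
      (Complex.exp (-((b2 x : ℂ) * Complex.I)) * (-((κ (s1 - x) : ℂ) * Complex.I))) x := by
    intro x
    exact ((hb2d x).ofReal_comp.mul_const Complex.I).neg.cexp
  have hQ1 : ∀ x, deriv γ (s0 + x) = T0 * Complex.exp (b1 x * Complex.I) := by
    intro x
    have hq : ∀ y : ℝ, HasDerivAt (fun y : ℝ => deriv γ (s0 + y) *
        Complex.exp (-((b1 y : ℂ) * Complex.I))) 0 y := by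
      intro y
      have e1 : HasDerivAt (fun y : ℝ => deriv γ (s0 + y))
          (Complex.I * κ (s0 + y) * deriv γ (s0 + y)) y := by
        exact (hγdd (s0 + y)).comp_const_add s0 y
      have e2 : HasDerivAt (fun y : ℝ => Complex.exp (-((b1 y : ℂ) * Complex.I)))
          (Complex.exp (-((b1 y : ℂ) * Complex.I)) * (-((κ (s0 + y) : ℂ) * Complex.I))) y :=
        ((hb1d y).ofReal_comp.mul_const Complex.I).neg.cexp
      refine (e1.mul e2).congr_deriv ?_
      ring
    have h2 := is_const_of_deriv_eq_zero (fun y => (hq y).differentiableAt)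
      (fun y => (hq y).deriv) x 0
    rw [hz1, add_zero, Complex.ofReal_zero, zero_mul, neg_zero, Complex.exp_zero, mul_one] at h2
    rw [hT0, ← h2, mul_assoc, ← Complex.exp_add]
    simp
  have hQ2 : ∀ x, deriv γ (s1 - x) = -(T0 * Complex.exp (-(b2 x * Complex.I))) := by
    intro x
    have hq : ∀ y : ℝ, HasDerivAt (fun y : ℝ => deriv γ (s1 - y) *
        Complex.exp ((b2 y : ℂ) * Complex.I)) 0 y := by
      intro y
      have e1 : HasDerivAt (fun y : ℝ => deriv γ (s1 - y))
          (-(Complex.I * κ (s1 - y) * deriv γ (s1 - y))) y := by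
        exact (hγdd (s1 - y)).comp_const_sub s1 y
      have e2 : HasDerivAt (fun y : ℝ => Complex.exp ((b2 y : ℂ) * Complex.I))
          (Complex.exp ((b2 y : ℂ) * Complex.I) * ((κ (s1 - y) : ℂ) * Complex.I)) y :=
        ((hb2d y).ofReal_comp.mul_const Complex.I).cexp
      refine (e1.mul e2).congr_deriv ?_
      ring
    have h2 := is_const_of_deriv_eq_zero (fun y => (hq y).differentiableAt)
      (fun y => (hq y).deriv) x 0
    rw [hz2, sub_zero, Complex.ofReal_zero, zero_mul, Complex.exp_zero, mul_one, ← hT1, hT] at h2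
    rw [← neg_mul, ← h2, mul_assoc, ← Complex.exp_add]
    simp
  have hhx : ∀ b : ℝ → ℝ, Continuous b → ∀ x, HasDerivAt (hx b) (Real.cos (b x)) x := by
    intro b hb x
    exact intervalIntegral.integral_hasDerivAt_right
      ((Real.continuous_cos.comp hb).intervalIntegrable _ _)
      ((Real.continuous_cos.comp hb).stronglyMeasurableAtFilter _ _)
      (Real.continuous_cos.comp hb).continuousAt
  have hhf : ∀ b : ℝ → ℝ, Continuous b → ∀ x, HasDerivAt (hf b) (Real.sin (b x)) x := by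
    intro b hb x
    exact intervalIntegral.integral_hasDerivAt_right
      ((Real.continuous_sin.comp hb).intervalIntegrable _ _)
      ((Real.continuous_sin.comp hb).stronglyMeasurableAtFilter _ _)
      (Real.continuous_sin.comp hb).continuousAt
  have hx0 : ∀ b : ℝ → ℝ, hx b 0 = 0 := fun b => by simp [hx]
  have hf0 : ∀ b : ℝ → ℝ, hf b 0 = 0 := fun b => by simp [hf]
  refine ⟨L, A, B, b1, b2, hWalls, ?_, hQ1, ?_, hQ2⟩
  · apply GB_const (f' := fun x => T0 * Complex.exp (b1 x * Complex.I))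
    · intro x
      rw [← hQ1 x]
      exact (hγd (s0 + x)).comp_const_add s0 x
    · intro x
      have e1 := (hhx b1 hb1s.continuous x).ofReal_comp
      have e2 := (hhf b1 hb1s.continuous x).ofReal_comp.mul_const Complex.I
      have e3 := ((e1.add e2).const_mul T0).const_add (γ s0)
      refine e3.congr_deriv ?_
      rw [Complex.exp_mul_I, Complex.ofReal_cos, Complex.ofReal_sin]
    · rw [add_zero, hx0, hf0]
      simp
  · apply GB_const (f' := fun x => T0 * Complex.exp (-(b2 x * Complex.I)))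
    · intro x
      have h3 : T0 * Complex.exp (-(b2 x * Complex.I)) = -deriv γ (s1 - x) := by
        rw [hQ2 x, neg_neg]
      rw [h3]
      exact (hγd (s1 - x)).comp_const_sub s1 x
    · intro x
      have e1 := (hhx b2 hb2s.continuous x).ofReal_comp
      have e2 := ((hhf b2 hb2s.continuous x).ofReal_comp.const_sub (L : ℂ)).mul_const Complex.I
      have e3 := ((e1.add e2).const_mul T0).const_add (γ s0)
      refine e3.congr_deriv ?_
      rw [← neg_mul, Complex.exp_mul_I, Complex.ofReal_cos, Complex.ofReal_sin, Complex.cos_neg,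
        Complex.sin_neg]
    · rw [sub_zero, hx0, hf0]
      simp only [Complex.ofReal_zero, zero_add, sub_zero]
      rw [← hdiff]
      ring

end BB
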