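import Pool.Agent.Lib_helper6.BB.Geo
import Pool.Agent.Lib_helper6.BB.W.GA

open Filter Topology Set MeasureTheory
open scoped ContDiff

namespace BB

theorem GC2_sin_pos {φ : ℝ} (h1 : -(1 / 10) < φ) (h2 : φ < Real.pi + 1 / 10)
    (hc : |Real.cos φ| ≤ 1 / 2) : 0 < Real.sin φ := by
  have hb := abs_le.1 hc
  refine Real.sin_pos_of_pos_of_lt_pi ?_ ?_
  · by_contra h
    push Not at h
    have h3 := Real.one_sub_sq_div_two_le_cos (x := φ)
    nlinarith
  · by_contra h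
    push Not at h
    have h3 := Real.one_sub_sq_div_two_le_cos (x := φ - Real.pi)
    rw [Real.cos_sub_pi] at h3
    nlinarith

theorem GC2_exp (a : ℝ) : Complex.exp ((a : ℂ) * Complex.I) =
    (Real.cos a : ℂ) + (Real.sin a : ℂ) * Complex.I := by
  rw [Complex.exp_mul_I, Complex.ofReal_cos, Complex.ofReal_sin]

theorem GC2_deriv_periodic {D : Set ℂ} {γ : ℝ → ℂ} {ℓ : ℝ} (hD : SmoothTable D γ ℓ) (s : ℝ)
    (n : ℤ) : deriv γ (s + n * ℓ) = deriv γ s := by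
  have hp : Function.Periodic γ ℓ := hD.periodic
  have h1 : (fun x => γ (x + n * ℓ)) = γ := by
    funext x
    exact hp.int_mul n x
  have h2 := deriv_comp_add_const γ (n * ℓ) s
  rw [← h2, h1]

theorem GC2_ne {D : Set ℂ} {γ : ℝ → ℂ} {ℓ : ℝ} (hD : SmoothTable D γ ℓ) (s : ℝ) :
    deriv γ s ≠ 0 := by
  intro h
  have := hD.unitSpeed s
  rw [h, norm_zero] at this
  exact zero_ne_one this

theorem GC2_mul_conj {D : Set ℂ} {γ : ℝ → ℂ} {ℓ : ℝ} (hD : SmoothTable D γ ℓ) (s : ℝ) :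
    deriv γ s * (starRingEnd ℂ) (deriv γ s) = 1 := by
  rw [Complex.mul_conj, Complex.normSq_eq_norm_sq, hD.unitSpeed s]
  simp

theorem GC2_w {q : ℝ} (hq : |q| ≤ 1 / 10) : 0 < Real.sqrt (1 - q ^ 2) ∧
    Real.sqrt (1 - q ^ 2) ^ 2 = 1 - q ^ 2 ∧ 9 / 10 ≤ Real.sqrt (1 - q ^ 2) ∧
    Real.sqrt (1 - q ^ 2) ≤ 1 := by
  have hb := abs_le.1 hq
  have h1 : q ^ 2 ≤ 1 / 100 := by nlinarith
  have h2 : Real.sqrt (1 - q ^ 2) ^ 2 = 1 - q ^ 2 := Real.sq_sqrt (by linarith)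
  have h3 : 9 / 10 ≤ Real.sqrt (1 - q ^ 2) := Real.le_sqrt_of_sq_le (by norm_num; linarith)
  refine ⟨by linarith, h2, h3, ?_⟩
  rw [Real.sqrt_le_one]
  nlinarith [sq_nonneg q]

/-- the segment between the wall points -/
theorem GC2_segment {γ : ℝ → ℂ} {s0 s1 L A B : ℝ} {b1 b2 : ℝ → ℝ}
    (hl : Local γ s0 s1 L A B b1 b2) {x t q c : ℝ} (hq : |q| ≤ 1 / 10)
    (ht : hx b1 t = c + (L - hf b1 t) * mm q) (hc : hx b2 x - hf b2 x * mm q = c) :
    γ (s0 + t) = γ (s1 - x) + (((L - hf b2 x - hf b1 t) / Real.sqrt (1 - q ^ 2) : ℝ) : ℂ) *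
      (deriv γ s0 * ((q : ℂ) - (Real.sqrt (1 - q ^ 2) : ℝ) * Complex.I)) := by
  obtain ⟨hw0, hw2, -, -⟩ := GC2_w hq
  rw [hl.bot t, hl.top x]
  set w := Real.sqrt (1 - q ^ 2) with hw
  have hmm : mm q = q / w := rfl
  rw [hmm] at ht hc
  have h1 : hx b1 t = hx b2 x + (L - hf b2 x - hf b1 t) / w * q := by
    rw [ht, ← hc]
    field_simp
    ring
  have hwc : (w : ℂ) ≠ 0 := by
    exact_mod_cast hw0.ne'
  rw [h1]
  push_cast
  field_simp
  ring

/-- downward flight -/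
theorem step_down {D : Set ℂ} {γ : ℝ → ℂ} {ℓ s0 s1 L A B : ℝ} {b1 b2 : ℝ → ℝ}
    (hD : SmoothTable D γ ℓ) (hl : Local γ s0 s1 L A B b1 b2) {x t θ : ℝ} (hx' : x ∈ Ioo (-A) B)
    (hθ : θ ∈ Ioo 0 Real.pi) (hq : |(Topl b2 x θ).2| ≤ 1 / 10)
    (ht : IsHit L A B b1 (Topl b2 x θ) t) (y : ℝ × ℝ) (hy : Step γ (s1 - x, θ) y) :
    (∃ n : ℤ, y.1 = s0 + t + n * ℓ) ∧ Bot b1 t y.2 = outLine b1 t (Topl b2 x θ).2 := by
  have hW := hl.walls
  have hu0 := GC2_ne hD s0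
  set q : ℝ := (Topl b2 x θ).2 with hqdef
  have hq' : -Real.cos (θ - b2 x) = q := rfl
  obtain ⟨hw0, hw2, hw9, hw1⟩ := GC2_w hq
  have hbx := (hW.small x (Ioo_subset_Icc_self hx')).2
  have hbt := (hW.small t (Ioo_subset_Icc_self ht.1)).1
  have hbx' := abs_le.1 hbx
  have hsin : Real.sin (θ - b2 x) = Real.sqrt (1 - q ^ 2) := by
    have h1 : 0 < Real.sin (θ - b2 x) := by
      refine GC2_sin_pos (by linarith [hθ.1]) (by linarith [hθ.2]) ?_
      rw [← abs_neg, hq']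
      linarith
    have h2 := Real.sin_sq_add_cos_sq (θ - b2 x)
    have h3 : Real.cos (θ - b2 x) = -q := by linarith
    rw [h3] at h2
    rw [← sq_eq_sq₀ h1.le hw0.le, hw2]
    linarith
  set w := Real.sqrt (1 - q ^ 2) with hw
  have hcos : Real.cos (θ - b2 x) = -q := by linarith
  -- direction
  have hv : Complex.exp ((θ : ℂ) * Complex.I) * deriv γ (s1 - x) =
      deriv γ s0 * ((q : ℂ) - (w : ℂ) * Complex.I) := by
    rw [hl.top' x]
    have h1 : Complex.exp ((θ : ℂ) * Complex.I) * Complex.exp (-((b2 x : ℂ) * Complex.I)) =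
        (-(q : ℂ)) + (w : ℂ) * Complex.I := by
      rw [← Complex.exp_add]
      have h2 : (θ : ℂ) * Complex.I + -((b2 x : ℂ) * Complex.I) =
          ((θ - b2 x : ℝ) : ℂ) * Complex.I := by
        push_cast
        ring
      rw [h2, GC2_exp, hcos, hsin]
      push_cast
      ring
    linear_combination (-deriv γ s0) * h1
  have hseg := GC2_segment hl (x := x) (t := t) (q := q)
    (c := (Topl b2 x θ).1) hq ht.2 rfl
  rw [← hw] at hseg
  have hlow1 := (hW.low t (Ioo_subset_Icc_self ht.1)).1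
  have hlow2 := (hW.low x (Ioo_subset_Icc_self hx')).2
  have hT : 0 < (L - hf b2 x - hf b1 t) / w := div_pos (by linarith) hw0
  obtain ⟨-, hy2, ⟨T, hT0, hT1⟩, hdir⟩ := hy
  simp only at hT1 hdir
  rw [hv] at hT1 hdir
  have htrans : (deriv γ s0 * ((q : ℂ) - (w : ℂ) * Complex.I) *
      (starRingEnd ℂ) (deriv γ (s1 - x))).im ≠ 0 := by
    rw [← hv, mul_assoc, GC2_mul_conj hD, mul_one, Complex.exp_ofReal_mul_I_im]
    exact (Real.sin_pos_of_pos_of_lt_pi hθ.1 hθ.2).ne'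
  have hTT := table_unique hD htrans hT0 hT hT1 hseg
  have hγ : γ (s0 + t) = γ y.1 := by
    rw [hT1, hseg, hTT]
  obtain ⟨n, hn⟩ := hD.simple _ _ hγ
  refine ⟨⟨n, hn⟩, ?_⟩
  have hdy : deriv γ y.1 = deriv γ (s0 + t) := by
    rw [hn]
    exact GC2_deriv_periodic hD _ n
  rw [hdy, hl.bot' t] at hdir
  have h3 : (q : ℂ) - (w : ℂ) * Complex.I = Complex.exp (((b1 t - y.2 : ℝ) : ℂ) * Complex.I) := by
    have h4 : Complex.exp (-((y.2 : ℂ) * Complex.I)) *
        Complex.exp ((b1 t : ℂ) * Complex.I) =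
        Complex.exp (((b1 t - y.2 : ℝ) : ℂ) * Complex.I) := by
      rw [← Complex.exp_add]
      congr 1
      push_cast
      ring
    rw [← h4]
    apply mul_left_cancel₀ hu0
    linear_combination hdir
  have hre := congrArg Complex.re h3
  have him := congrArg Complex.im h3
  rw [Complex.exp_ofReal_mul_I_re] at hre
  rw [Complex.exp_ofReal_mul_I_im] at him
  simp at hre him
  have hc2 : Real.cos (y.2 - b1 t) = q := by
    rw [← Real.cos_neg, neg_sub, ← hre]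
  have hs2 : Real.sin (y.2 - b1 t) = w := by
    have h5 : Real.sin (y.2 - b1 t) = -Real.sin (b1 t - y.2) := by
      rw [← Real.sin_neg, neg_sub]
    rw [h5, ← him, neg_neg]
  have hrefl : Real.cos (y.2 + b1 t) = refl b1 t q := by
    have h6 : y.2 + b1 t = (y.2 - b1 t) + 2 * b1 t := by ring
    rw [h6, Real.cos_add, hc2, hs2]
    rfl
  unfold Bot outLine
  rw [hrefl]

theorem step_down_back {D : Set ℂ} {γ : ℝ → ℂ} {ℓ s0 s1 L A B : ℝ} {b1 b2 : ℝ → ℝ}
    (hD : SmoothTable D γ ℓ) (hl : Local γ s0 s1 L A B b1 b2) {x t θ' : ℝ} {p : ℝ × ℝ}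
    (hp : |p.2| ≤ 1 / 10) (ht : IsHit L A B b1 p t) (hx' : x ∈ Ioo (-A) B)
    (hc : hx b2 x - hf b2 x * mm p.2 = p.1) (hθ : θ' ∈ Ioo 0 Real.pi)
    (ho : Bot b1 t θ' = outLine b1 t p.2) (y : ℝ × ℝ) (hy : Step γ y (s0 + t, θ')) :
    (∃ n : ℤ, y.1 = s1 - x + n * ℓ) ∧ Topl b2 x y.2 = p := by
  have hW := hl.walls
  have hu0 := GC2_ne hD s0
  obtain ⟨c, q⟩ := p
  simp only at hp hc ho
  obtain ⟨hw0, hw2, hw9, hw1⟩ := GC2_w hp
  have hbt := (hW.small t (Ioo_subset_Icc_self ht.1)).1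
  have hbt' := abs_le.1 hbt
  have hq' := abs_le.1 hp
  set w := Real.sqrt (1 - q ^ 2) with hw
  have ho2 : Real.cos (θ' + b1 t) = q * Real.cos (2 * b1 t) - w * Real.sin (2 * b1 t) :=
    congrArg Prod.snd ho
  have hs2 : |Real.sin (2 * b1 t)| ≤ 1 / 5 := by
    refine Real.abs_sin_le_abs.trans ?_
    rw [abs_mul, abs_of_pos (by norm_num : (0 : ℝ) < 2)]
    linarith
  have hs2' := abs_le.1 hs2
  have hc2 : 49 / 50 ≤ Real.cos (2 * b1 t) := by
    have := Real.one_sub_sq_div_two_le_cos (x := 2 * b1 t)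
    nlinarith
  have hc2' := Real.cos_le_one (2 * b1 t)
  have hcs := Real.sin_sq_add_cos_sq (2 * b1 t)
  have hsinp : 0 < Real.sin (θ' + b1 t) := by
    refine GC2_sin_pos (by linarith [hθ.1]) (by linarith [hθ.2]) ?_
    rw [ho2, abs_le]
    constructor
    · nlinarith
    · nlinarith
  have hsp2 : 0 < w * Real.cos (2 * b1 t) + q * Real.sin (2 * b1 t) := by
    nlinarith
  have hsin : Real.sin (θ' + b1 t) = w * Real.cos (2 * b1 t) + q * Real.sin (2 * b1 t) := by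
    rw [← sq_eq_sq₀ hsinp.le hsp2.le]
    have h1 := Real.sin_sq_add_cos_sq (θ' + b1 t)
    rw [ho2] at h1
    have h2 : (w * Real.cos (2 * b1 t) + q * Real.sin (2 * b1 t)) ^ 2 +
        (q * Real.cos (2 * b1 t) - w * Real.sin (2 * b1 t)) ^ 2 = 1 := by
      have h3 : (w * Real.cos (2 * b1 t) + q * Real.sin (2 * b1 t)) ^ 2 +
        (q * Real.cos (2 * b1 t) - w * Real.sin (2 * b1 t)) ^ 2 =
        (w ^ 2 + q ^ 2) * (Real.sin (2 * b1 t) ^ 2 + Real.cos (2 * b1 t) ^ 2) := by ring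
      rw [h3, hcs, hw2]
      ring
    linarith
  have hcq : Real.cos (θ' - b1 t) = q := by
    have h6 : θ' - b1 t = (θ' + b1 t) - 2 * b1 t := by ring
    rw [h6, Real.cos_sub, ho2, hsin]
    linear_combination q * hcs
  have hsw : Real.sin (θ' - b1 t) = w := by
    have h6 : θ' - b1 t = (θ' + b1 t) - 2 * b1 t := by ring
    rw [h6, Real.sin_sub, ho2, hsin]
    linear_combination w * hcs
  -- direction
  have hv : Complex.exp (-((θ' : ℂ) * Complex.I)) * deriv γ (s0 + t) =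
      deriv γ s0 * ((q : ℂ) - (w : ℂ) * Complex.I) := by
    rw [hl.bot' t]
    have h1 : Complex.exp (-((θ' : ℂ) * Complex.I)) * Complex.exp ((b1 t : ℂ) * Complex.I) =
        (q : ℂ) - (w : ℂ) * Complex.I := by
      rw [← Complex.exp_add]
      have h2 : -((θ' : ℂ) * Complex.I) + (b1 t : ℂ) * Complex.I =
          ((-(θ' - b1 t) : ℝ) : ℂ) * Complex.I := by
        push_cast
        ring
      rw [h2, GC2_exp, Real.cos_neg, Real.sin_neg, hcq, hsw]
      push_cast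
      ring
    linear_combination (deriv γ s0) * h1
  have hseg := GC2_segment hl (x := x) (t := t) (q := q) (c := c) hp ht.2 hc
  rw [← hw] at hseg
  have hlow1 := (hW.low t (Ioo_subset_Icc_self ht.1)).1
  have hlow2 := (hW.low x (Ioo_subset_Icc_self hx')).2
  have hT : 0 < (L - hf b2 x - hf b1 t) / w := div_pos (by linarith) hw0
  obtain ⟨hy1, -, ⟨T, hT0, hT1⟩, hdir⟩ := hy
  simp only at hT1 hdir
  rw [hdir, hv] at hT1
  rw [hv] at hdir
  have htrans : (-(deriv γ s0 * ((q : ℂ) - (w : ℂ) * Complex.I)) *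
      (starRingEnd ℂ) (deriv γ (s0 + t))).im ≠ 0 := by
    rw [← hv, neg_mul, mul_assoc, GC2_mul_conj hD, mul_one]
    have h7 : -((θ' : ℂ) * Complex.I) = ((-θ' : ℝ) : ℂ) * Complex.I := by
      push_cast
      ring
    rw [h7, Complex.neg_im, Complex.exp_ofReal_mul_I_im, Real.sin_neg, neg_neg]
    exact (Real.sin_pos_of_pos_of_lt_pi hθ.1 hθ.2).ne'
  have e1 : γ y.1 = γ (s0 + t) + (T : ℂ) * -(deriv γ s0 * ((q : ℂ) - (w : ℂ) * Complex.I)) := by
    rw [hT1]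
    ring
  have e2 : γ (s1 - x) = γ (s0 + t) + (((L - hf b2 x - hf b1 t) / w : ℝ) : ℂ) *
      -(deriv γ s0 * ((q : ℂ) - (w : ℂ) * Complex.I)) := by
    rw [hseg]
    ring
  have hTT := table_unique hD htrans hT0 hT e1 e2
  have hγ : γ (s1 - x) = γ y.1 := by
    rw [e1, e2, hTT]
  obtain ⟨n, hn⟩ := hD.simple _ _ hγ
  refine ⟨⟨n, hn⟩, ?_⟩
  have hdy : deriv γ y.1 = deriv γ (s1 - x) := by
    rw [hn]
    exact GC2_deriv_periodic hD _ n
  rw [hdy, hl.top' x] at hdir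
  have h3 : -((q : ℂ) - (w : ℂ) * Complex.I) =
      Complex.exp (((y.2 - b2 x : ℝ) : ℂ) * Complex.I) := by
    have h4 : Complex.exp ((y.2 : ℂ) * Complex.I) *
        Complex.exp (-((b2 x : ℂ) * Complex.I)) =
        Complex.exp (((y.2 - b2 x : ℝ) : ℂ) * Complex.I) := by
      rw [← Complex.exp_add]
      congr 1
      push_cast
      ring
    rw [← h4]
    apply mul_left_cancel₀ hu0
    linear_combination (1 : ℂ) * hdir
  have hre := congrArg Complex.re h3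
  rw [Complex.exp_ofReal_mul_I_re] at hre
  simp at hre
  have hc3 : -Real.cos (y.2 - b2 x) = q := by
    linarith
  unfold Topl
  rw [hc3, hc]

end BB
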