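import Pool.Agent.Lib_helper6.BB.W.GC1
import Pool.Agent.Lib_helper6.BB.W.GC2

open Filter Topology Set MeasureTheory
open scoped ContDiff

namespace BB

theorem GD1_deriv_periodic {D : Set ℂ} {γ : ℝ → ℂ} {ℓ : ℝ} (hD : SmoothTable D γ ℓ) (s : ℝ)
    (n : ℤ) : deriv γ (s + n * ℓ) = deriv γ s := by
  have hp : Function.Periodic γ ℓ := hD.periodic
  have h1 : (fun x => γ (x + n * ℓ)) = γ := by
    funext x
    exact hp.int_mul n x
  have h2 := deriv_comp_add_const γ (n * ℓ) s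
  rw [← h2, h1]

theorem GD1_periodic {D : Set ℂ} {γ : ℝ → ℂ} {ℓ : ℝ} (hD : SmoothTable D γ ℓ) (s : ℝ)
    (n : ℤ) : γ (s + n * ℓ) = γ s := by
  have hp : Function.Periodic γ ℓ := hD.periodic
  exact hp.int_mul n s

theorem GD1_step_left {D : Set ℂ} {γ : ℝ → ℂ} {ℓ : ℝ} (hD : SmoothTable D γ ℓ) {x y : ℝ × ℝ}
    {s : ℝ} {n : ℤ} (hx : x.1 = s + n * ℓ) (h : Step γ x y) : Step γ (s, x.2) y := by
  obtain ⟨h1, h2, h3, h4⟩ := h
  rw [hx, GD1_deriv_periodic hD s n, GD1_periodic hD s n] at h3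
  rw [hx, GD1_deriv_periodic hD s n] at h4
  exact ⟨h1, h2, h3, h4⟩

theorem GD1_step_right {D : Set ℂ} {γ : ℝ → ℂ} {ℓ : ℝ} (hD : SmoothTable D γ ℓ) {x y : ℝ × ℝ}
    {s : ℝ} {n : ℤ} (hy : y.1 = s + n * ℓ) (h : Step γ x y) : Step γ x (s, y.2) := by
  obtain ⟨h1, h2, h3, h4⟩ := h
  rw [hy, GD1_periodic hD s n] at h3
  rw [hy, GD1_deriv_periodic hD s n] at h4
  exact ⟨h1, h2, h3, h4⟩

theorem GD1_hx_hasDerivAt {b : ℝ → ℝ} (hb : Continuous b) (x : ℝ) :
    HasDerivAt (hx b) (Real.cos (b x)) x := by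
  have hc : Continuous fun s => Real.cos (b s) := Real.continuous_cos.comp hb
  exact intervalIntegral.integral_hasDerivAt_right (hc.intervalIntegrable _ _)
    (hc.stronglyMeasurableAtFilter _ _) hc.continuousAt

theorem GD1_hf_hasDerivAt {b : ℝ → ℝ} (hb : Continuous b) (x : ℝ) :
    HasDerivAt (hf b) (Real.sin (b x)) x := by
  have hc : Continuous fun s => Real.sin (b s) := Real.continuous_sin.comp hb
  exact intervalIntegral.integral_hasDerivAt_right (hc.intervalIntegrable _ _)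
    (hc.stronglyMeasurableAtFilter _ _) hc.continuousAt

theorem GD1_hx_continuous {b : ℝ → ℝ} (hb : Continuous b) : Continuous (hx b) :=
  continuous_iff_continuousAt.2 fun x => (GD1_hx_hasDerivAt hb x).continuousAt

theorem GD1_hf_continuous {b : ℝ → ℝ} (hb : Continuous b) : Continuous (hf b) :=
  continuous_iff_continuousAt.2 fun x => (GD1_hf_hasDerivAt hb x).continuousAt

theorem GD1_mm {q : ℝ} (hq : |q| ≤ 1 / 10) : |mm q| ≤ 1 := by
  have hb := abs_le.1 hq
  have h1 : q ^ 2 ≤ 1 / 100 := by nlinarith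
  have h3 : 9 / 10 ≤ Real.sqrt (1 - q ^ 2) := Real.le_sqrt_of_sq_le (by norm_num; linarith)
  unfold mm
  rw [abs_div, abs_of_nonneg (Real.sqrt_nonneg _), div_le_one (by linarith)]
  linarith

/-- an outgoing line determines the wall point -/
theorem GD1_mono {A B : ℝ} {b : ℝ → ℝ} (hb : Continuous b)
    (hs : ∀ x ∈ Icc (-A) B, |b x| ≤ 1 / 10) {q : ℝ} (hq : |q| ≤ 1 / 10) {x y : ℝ}
    (hx1 : x ∈ Ioo (-A) B) (hy1 : y ∈ Ioo (-A) B)
    (h : hx b x - hf b x * mm q = hx b y - hf b y * mm q) : x = y := by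
  have hm := abs_le.1 (GD1_mm hq)
  have hder : ∀ z, HasDerivAt (fun z => hx b z - hf b z * mm q)
      (Real.cos (b z) - Real.sin (b z) * mm q) z := fun z =>
    (GD1_hx_hasDerivAt hb z).sub ((GD1_hf_hasDerivAt hb z).mul_const _)
  have hmono : StrictMonoOn (fun z => hx b z - hf b z * mm q) (Icc (-A) B) := by
    refine strictMonoOn_of_deriv_pos (convex_Icc _ _)
      (fun z _ => (hder z).continuousAt.continuousWithinAt) ?_
    rw [interior_Icc]
    intro z hz
    rw [(hder z).deriv]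
    have h1 := hs z (Ioo_subset_Icc_self hz)
    have h1' := abs_le.1 h1
    have h2 := Real.one_sub_sq_div_two_le_cos (x := b z)
    have h3 : |Real.sin (b z)| ≤ 1 / 10 := Real.abs_sin_le_abs.trans h1
    have h4 : |Real.sin (b z) * mm q| ≤ 1 / 10 := by
      rw [abs_mul]
      calc |Real.sin (b z)| * |mm q| ≤ 1 / 10 * 1 :=
            mul_le_mul h3 (GD1_mm hq) (abs_nonneg _) (by norm_num)
        _ = 1 / 10 := by norm_num
    have h5 := abs_le.1 h4
    nlinarith
  exact hmono.injOn (Ioo_subset_Icc_self hx1) (Ioo_subset_Icc_self hy1) h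

theorem GD1_mm_measurable : Measurable mm := by
  unfold mm
  fun_prop

theorem GD1_measurable {ℓ s0 s1 A B : ℝ} {b1 b2 : ℝ → ℝ} (hb1 : Continuous b1)
    (hb2 : Continuous b2) {D D' : Set (ℝ × ℝ)} (hDo : IsOpen D) (hDo' : IsOpen D') :
    MeasurableSet (States ℓ s0 s1 A B b1 b2 D D') := by
  have hx1 : Measurable (hx b1) := (GD1_hx_continuous hb1).measurable
  have hx2 : Measurable (hx b2) := (GD1_hx_continuous hb2).measurable
  have hf1 : Measurable (hf b1) := (GD1_hf_continuous hb1).measurable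
  have hf2 : Measurable (hf b2) := (GD1_hf_continuous hb2).measurable
  have hm1 : Measurable b1 := hb1.measurable
  have hm2 : Measurable b2 := hb2.measurable
  have hmm := GD1_mm_measurable
  have hB : ∀ n : ℤ, Measurable fun y : ℝ × ℝ => Bot b1 (y.1 - s0 - n * ℓ) y.2 := by
    intro n
    have hp : Measurable fun y : ℝ × ℝ => y.1 - s0 - n * ℓ := by fun_prop
    have hcos : Measurable fun y : ℝ × ℝ => Real.cos (y.2 + b1 (y.1 - s0 - n * ℓ)) :=
      Real.measurable_cos.comp (measurable_snd.add (hm1.comp hp))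
    exact ((hx1.comp hp).sub ((hf1.comp hp).mul (hmm.comp hcos))).prodMk hcos
  have hT : ∀ n : ℤ, Measurable fun y : ℝ × ℝ => Topl b2 (s1 - y.1 + n * ℓ) y.2 := by
    intro n
    have hp : Measurable fun y : ℝ × ℝ => s1 - y.1 + n * ℓ := by fun_prop
    have hcos : Measurable fun y : ℝ × ℝ => -Real.cos (y.2 - b2 (s1 - y.1 + n * ℓ)) :=
      (Real.measurable_cos.comp (measurable_snd.sub (hm2.comp hp))).neg
    exact ((hx2.comp hp).sub ((hf2.comp hp).mul (hmm.comp hcos))).prodMk hcos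
  have hEq : States ℓ s0 s1 A B b1 b2 D D' =
      {y : ℝ × ℝ | y.2 ∈ Ioo 0 Real.pi} ∩ ⋃ n : ℤ,
        (({y : ℝ × ℝ | y.1 - s0 - n * ℓ ∈ Ioo (-A) B} ∩
            (fun y : ℝ × ℝ => Bot b1 (y.1 - s0 - n * ℓ) y.2) ⁻¹' D) ∪
          ({y : ℝ × ℝ | s1 - y.1 + n * ℓ ∈ Ioo (-A) B} ∩
            (fun y : ℝ × ℝ => Topl b2 (s1 - y.1 + n * ℓ) y.2) ⁻¹' D')) := by
    ext y
    simp only [States, mem_ofPred_eq, mem_inter_iff, mem_iUnion, mem_union, mem_preimage]
    refine and_congr_right fun _ => exists_congr fun n => ?_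
    constructor
    · rintro ⟨x, hx, ⟨h1, h2⟩ | ⟨h1, h2⟩⟩
      · left
        have h3 : y.1 - s0 - n * ℓ = x := by rw [h1]; ring
        rw [h3]
        exact ⟨hx, h2⟩
      · right
        have h3 : s1 - y.1 + n * ℓ = x := by rw [h1]; ring
        rw [h3]
        exact ⟨hx, h2⟩
    · rintro (⟨h1, h2⟩ | ⟨h1, h2⟩)
      · exact ⟨_, h1, Or.inl ⟨by ring, h2⟩⟩
      · exact ⟨_, h1, Or.inr ⟨by ring, h2⟩⟩
  rw [hEq]
  refine (measurable_snd measurableSet_Ioo).inter (MeasurableSet.iUnion fun n => ?_)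
  have hp1 : Measurable fun y : ℝ × ℝ => y.1 - s0 - n * ℓ := by fun_prop
  have hp2 : Measurable fun y : ℝ × ℝ => s1 - y.1 + n * ℓ := by fun_prop
  exact ((hp1 measurableSet_Ioo).inter (hB n hDo.measurableSet)).union
    ((hp2 measurableSet_Ioo).inter (hT n hDo'.measurableSet))

/-- the set of states of two invariant sets of lines is invariant -/
theorem states_invariant {Dom : Set ℂ} {γ : ℝ → ℂ} {ℓ s0 s1 L A B : ℝ} {b1 b2 : ℝ → ℝ}
    (hD : SmoothTable Dom γ ℓ) (hl : Local γ s0 s1 L A B b1 b2) {D D' : Set (ℝ × ℝ)}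
    (hDo : IsOpen D) (hDo' : IsOpen D') (h1 : ∀ p ∈ D, |p.2| ≤ 1 / 10) (h2 : ∀ p ∈ D', |p.2| ≤ 1 / 10)
    (h3 : ∀ p ∈ D, IsHit L A B b2 p (hit L A B b2 p))
    (h4 : ∀ p ∈ D', IsHit L A B b1 p (hit L A B b1 p))
    (h5 : Smap L A B b2 '' D = D') (h6 : Smap L A B b1 '' D' = D) :
    InvariantSet γ ℓ (States ℓ s0 s1 A B b1 b2 D D') := by
  have hW := hl.walls
  have hb1 : Continuous b1 := hW.smooth1.continuous
  have hb2 : Continuous b2 := hW.smooth2.continuous
  refine ⟨GD1_measurable hb1 hb2 hDo hDo', ?_, ?_⟩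
  · intro s θ
    constructor
    · rintro ⟨hθ, n, x, hx, h⟩
      refine ⟨hθ, n - 1, x, hx, ?_⟩
      push_cast
      rcases h with ⟨h, h'⟩ | ⟨h, h'⟩
      · exact Or.inl ⟨by simp only at h ⊢; linarith, h'⟩
      · exact Or.inr ⟨by simp only at h ⊢; linarith, h'⟩
    · rintro ⟨hθ, n, x, hx, h⟩
      refine ⟨hθ, n + 1, x, hx, ?_⟩
      push_cast
      rcases h with ⟨h, h'⟩ | ⟨h, h'⟩
      · exact Or.inl ⟨by simp only at h ⊢; linarith, h'⟩
      · exact Or.inr ⟨by simp only at h ⊢; linarith, h'⟩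
  · intro x y hxy
    constructor
    · rintro ⟨hθ, n, a, ha, ⟨h, h'⟩ | ⟨h, h'⟩⟩
      · have hst := GD1_step_left hD h hxy
        have ht := h3 _ h'
        obtain ⟨⟨m, hm⟩, ho⟩ := step_up hD hl ha hθ (h1 _ h') ht y hst
        refine ⟨hxy.2.1, m, _, ht.1, Or.inr ⟨hm, ?_⟩⟩
        rw [ho, ← h5]
        exact ⟨_, h', rfl⟩
      · have hst := GD1_step_left hD h hxy
        have ht := h4 _ h'
        obtain ⟨⟨m, hm⟩, ho⟩ := step_down hD hl ha hθ (h2 _ h') ht y hst
        refine ⟨hxy.2.1, m, _, ht.1, Or.inl ⟨hm, ?_⟩⟩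
        rw [ho, ← h6]
        exact ⟨_, h', rfl⟩
    · rintro ⟨hθ, n, a, ha, ⟨h, h'⟩ | ⟨h, h'⟩⟩
      · have hst := GD1_step_right hD h hxy
        have hsm := h1 _ h'
        have hmem := h'
        rw [← h6] at hmem
        obtain ⟨p, hp, hpe⟩ := hmem
        have ht := h4 _ hp
        have hpe' : outLine b1 (hit L A B b1 p) p.2 = Bot b1 a y.2 := hpe
        have hq : refl b1 (hit L A B b1 p) p.2 = Real.cos (y.2 + b1 a) := congrArg Prod.snd hpe'
        have hc : hx b1 (hit L A B b1 p) - hf b1 (hit L A B b1 p) *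
            mm (refl b1 (hit L A B b1 p) p.2) =
            hx b1 a - hf b1 a * mm (Real.cos (y.2 + b1 a)) := congrArg Prod.fst hpe'
        rw [hq] at hc
        have hta : hit L A B b1 p = a :=
          GD1_mono hb1 (fun z hz => (hW.small z hz).1) (q := Real.cos (y.2 + b1 a)) hsm ht.1 ha hc
        rw [hta] at ht hpe'
        have hmem2 := hp
        rw [← h5] at hmem2
        obtain ⟨p0, hp0, hp0e⟩ := hmem2
        have ht0 := h3 _ hp0
        have hcr : hx b2 (hit L A B b2 p0) - hf b2 (hit L A B b2 p0) * mm p.2 = p.1 := by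
          rw [← hp0e]
          rfl
        obtain ⟨⟨m, hm⟩, ho⟩ := step_down_back hD hl (h2 _ hp) ht ht0.1 hcr hθ hpe'.symm x hst
        exact ⟨hxy.1, m, _, ht0.1, Or.inr ⟨hm, by rw [ho]; exact hp⟩⟩
      · have hst := GD1_step_right hD h hxy
        have hsm := h2 _ h'
        have hmem := h'
        rw [← h5] at hmem
        obtain ⟨p, hp, hpe⟩ := hmem
        have ht := h3 _ hp
        have hpe' : outLine b2 (hit L A B b2 p) p.2 = Topl b2 a y.2 := hpe
        have hq : refl b2 (hit L A B b2 p) p.2 = -Real.cos (y.2 - b2 a) := congrArg Prod.snd hpe'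
        have hc : hx b2 (hit L A B b2 p) - hf b2 (hit L A B b2 p) *
            mm (refl b2 (hit L A B b2 p) p.2) =
            hx b2 a - hf b2 a * mm (-Real.cos (y.2 - b2 a)) := congrArg Prod.fst hpe'
        rw [hq] at hc
        have hta : hit L A B b2 p = a :=
          GD1_mono hb2 (fun z hz => (hW.small z hz).2) (q := -Real.cos (y.2 - b2 a)) hsm ht.1 ha hc
        rw [hta] at ht hpe'
        have hmem2 := hp
        rw [← h6] at hmem2
        obtain ⟨p0, hp0, hp0e⟩ := hmem2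
        have ht0 := h4 _ hp0
        have hcr : hx b1 (hit L A B b1 p0) - hf b1 (hit L A B b1 p0) * mm p.2 = p.1 := by
          rw [← hp0e]
          rfl
        obtain ⟨⟨m, hm⟩, ho⟩ := step_up_back hD hl (h1 _ hp) ht ht0.1 hcr hθ hpe'.symm x hst
        exact ⟨hxy.1, m, _, ht0.1, Or.inl ⟨hm, by rw [ho]; exact hp⟩⟩

end BB
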