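import Pool.Agent.Lib_helper6.BB.Geo

/-! # BB, block GD2: the invariant set and its complement have positive measure -/

open Filter Topology Set MeasureTheory
open scoped ContDiff

namespace BB

theorem GD2_ac (ℓ : ℝ) :
    (volume.restrict (Ico 0 ℓ ×ˢ Ioo 0 Real.pi) : Measure (ℝ × ℝ)) ≪ bmeasure ℓ := by
  apply withDensity_absolutelyContinuous'
  · apply Measurable.aemeasurable
    fun_prop
  · rw [ae_restrict_iff' (measurableSet_Ico.prod measurableSet_Ioo)]
    refine Filter.Eventually.of_forall fun x hx => ?_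
    have h1 : 0 < Real.sin x.2 := Real.sin_pos_of_pos_of_lt_pi hx.2.1 hx.2.2
    exact (ENNReal.ofReal_pos.2 h1).ne'

theorem GD2_pos {ℓ : ℝ} {U S : Set (ℝ × ℝ)} (hU : IsOpen U) (hne : U.Nonempty)
    (hsub : U ⊆ Ico 0 ℓ ×ˢ Ioo 0 Real.pi) (hS : U ⊆ S) : bmeasure ℓ S ≠ 0 := by
  intro h
  have h1 : bmeasure ℓ U = 0 := measure_mono_null hS h
  have h2 := GD2_ac ℓ h1
  rw [Measure.restrict_apply hU.measurableSet, inter_eq_left.2 hsub] at h2
  exact (hU.measure_pos volume hne).ne' h2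

theorem GD2_cont (b : ℝ → ℝ) (hb : Continuous b) :
    ContinuousAt (fun p : ℝ × ℝ => Bot b p.1 p.2) (0, Real.pi / 2 - b 0) := by
  have c1 : Continuous (hx b) := by
    unfold hx
    exact intervalIntegral.continuous_primitive
      (fun a c => (Real.continuous_cos.comp hb).intervalIntegrable a c) 0
  have c2 : Continuous (hf b) := by
    unfold hf
    exact intervalIntegral.continuous_primitive
      (fun a c => (Real.continuous_sin.comp hb).intervalIntegrable a c) 0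
  have c3 : Continuous (fun p : ℝ × ℝ => Real.cos (p.2 + b p.1)) := by fun_prop
  have c4 : ContinuousAt mm 0 := by
    unfold mm
    refine ContinuousAt.div continuousAt_id ?_ ?_
    · fun_prop
    · norm_num
  have c5 : ContinuousAt (fun p : ℝ × ℝ => mm (Real.cos (p.2 + b p.1)))
      (0, Real.pi / 2 - b 0) := by
    have h0 : (fun p : ℝ × ℝ => Real.cos (p.2 + b p.1)) (0, Real.pi / 2 - b 0) = 0 := by
      change Real.cos (Real.pi / 2 - b 0 + b 0) = 0
      rw [sub_add_cancel, Real.cos_pi_div_two]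
    have h1 : ContinuousAt mm ((fun p : ℝ × ℝ => Real.cos (p.2 + b p.1)) (0, Real.pi / 2 - b 0)) := by
      rw [h0]; exact c4
    exact ContinuousAt.comp (g := mm) (f := fun p : ℝ × ℝ => Real.cos (p.2 + b p.1)) h1
      c3.continuousAt
  unfold Bot
  refine ContinuousAt.prodMk ?_ c3.continuousAt
  exact ((c1.comp continuous_fst).continuousAt).sub
    (((c2.comp continuous_fst).continuousAt).mul c5)

theorem GD2_cos {t : ℝ} (h1 : -(1 / 10) ≤ t) (h2 : t ≤ 6 / 10) : 1 / 10 < Real.cos t := by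
  have h3 := Real.one_sub_sq_div_two_le_cos (x := t)
  nlinarith

/-- it has positive measure, and so has its complement -/
theorem states_measure {Dom : Set ℂ} {γ : ℝ → ℂ} {ℓ s0 s1 L A B : ℝ} {b1 b2 : ℝ → ℝ}
    (hD : SmoothTable Dom γ ℓ) (hl : Local γ s0 s1 L A B b1 b2) {D D' : Set (ℝ × ℝ)}
    (hDo : IsOpen D) (h0 : (0 : ℝ × ℝ) ∈ D) (h1 : ∀ p ∈ D, |p.2| ≤ 1 / 10)
    (h2 : ∀ p ∈ D', |p.2| ≤ 1 / 10) :
    bmeasure ℓ (States ℓ s0 s1 A B b1 b2 D D') ≠ 0 ∧
      bmeasure ℓ (States ℓ s0 s1 A B b1 b2 D D')ᶜ ≠ 0 := by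
  have hw := hl.walls
  have hl0 := hD.length_pos
  constructor
  · have hb0 : b1 0 = 0 := hw.zero1
    have hc := GD2_cont b1 hw.smooth1.continuous
    rw [hb0, sub_zero] at hc
    have hv : Bot b1 0 (Real.pi / 2) = 0 := by
      unfold Bot
      rw [hb0, add_zero, Real.cos_pi_div_two]
      have : hx b1 0 = 0 := by unfold hx; exact intervalIntegral.integral_same
      have h3 : hf b1 0 = 0 := by unfold hf; exact intervalIntegral.integral_same
      rw [this, h3]
      simp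
    have h3 : (fun p : ℝ × ℝ => Bot b1 p.1 p.2) ⁻¹' D ∈ 𝓝 ((0 : ℝ), Real.pi / 2) := by
      apply hc
      apply hDo.mem_nhds
      change Bot b1 0 (Real.pi / 2) ∈ D
      rw [hv]
      exact h0
    obtain ⟨r, hr, hball⟩ := Metric.mem_nhds_iff.1 h3
    obtain ⟨n, hn, -⟩ := existsUnique_add_zsmul_mem_Ico hl0 s0 0
    simp only [zsmul_eq_mul, zero_add] at hn
    set c := s0 + n * ℓ with hcdef
    set ρ := min (min r 1) (min B (ℓ - c)) with hρ
    have p1 : 0 < ρ := lt_min (lt_min hr one_pos) (lt_min hw.B_pos (by linarith [hn.2]))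
    have q1 : ρ ≤ r := (min_le_left _ _).trans (min_le_left _ _)
    have q2 : ρ ≤ 1 := (min_le_left _ _).trans (min_le_right _ _)
    have q3 : ρ ≤ B := (min_le_right _ _).trans (min_le_left _ _)
    have q4 : ρ ≤ ℓ - c := (min_le_right _ _).trans (min_le_right _ _)
    have hpi := Real.pi_gt_three
    refine GD2_pos (U := Ioo c (c + ρ) ×ˢ Ioo (Real.pi / 2 - ρ) (Real.pi / 2 + ρ))
      (isOpen_Ioo.prod isOpen_Ioo) ?_ ?_ ?_
    · exact ⟨(c + ρ / 2, Real.pi / 2), ⟨⟨by simp only; linarith, by simp only; linarith⟩,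
        ⟨by simp only; linarith, by simp only; linarith⟩⟩⟩
    · rintro ⟨s, θ⟩ ⟨⟨a1, a2⟩, ⟨a3, a4⟩⟩
      simp only at a1 a2 a3 a4
      exact ⟨⟨by simp only; linarith [hn.1], by simp only; linarith⟩,
        ⟨by simp only; linarith, by simp only; linarith⟩⟩
    · rintro ⟨s, θ⟩ ⟨⟨a1, a2⟩, ⟨a3, a4⟩⟩
      simp only at a1 a2 a3 a4
      refine ⟨⟨by simp only; linarith, by simp only; linarith⟩, n, s - c, ⟨by linarith [hw.A_pos],
        by linarith⟩, Or.inl ⟨?_, ?_⟩⟩
      · change s = s0 + (s - c) + n * ℓ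
        rw [hcdef]
        ring
      · have h4 : ((s - c, θ) : ℝ × ℝ) ∈ Metric.ball ((0 : ℝ), Real.pi / 2) r := by
          rw [Metric.mem_ball, Prod.dist_eq, max_lt_iff, Real.dist_eq, Real.dist_eq, abs_lt, abs_lt]
          exact ⟨⟨by simp only; linarith, by simp only; linarith⟩, ⟨by simp only; linarith,
            by simp only; linarith⟩⟩
        exact hball h4
  · refine GD2_pos (U := Ioo 0 ℓ ×ˢ Ioo (0 : ℝ) (1 / 2)) (isOpen_Ioo.prod isOpen_Ioo) ?_ ?_ ?_
    · exact ⟨(ℓ / 2, 1 / 4), ⟨⟨by simp only; linarith, by simp only; linarith⟩,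
        ⟨by norm_num, by norm_num⟩⟩⟩
    · rintro ⟨s, θ⟩ ⟨⟨a1, a2⟩, ⟨a3, a4⟩⟩
      simp only at a1 a2 a3 a4
      exact ⟨⟨a1.le, a2⟩, ⟨a3, by simp only; linarith [Real.pi_gt_three]⟩⟩
    · rintro ⟨s, θ⟩ ⟨⟨a1, a2⟩, ⟨a3, a4⟩⟩
      simp only at a1 a2 a3 a4
      rintro ⟨-, n, x, hx, (⟨-, h3⟩ | ⟨-, h3⟩)⟩
      · have h4 := h1 _ h3
        have h5 := (hw.small x ⟨hx.1.le, hx.2.le⟩).1
        rw [abs_le] at h5
        have h6 : 1 / 10 < Real.cos (θ + b1 x) := GD2_cos (by linarith) (by linarith)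
        have h7 := (abs_le.1 h4).2
        change Real.cos (θ + b1 x) ≤ 1 / 10 at h7
        linarith
      · have h4 := h2 _ h3
        have h5 := (hw.small x ⟨hx.1.le, hx.2.le⟩).2
        rw [abs_le] at h5
        have h6 : 1 / 10 < Real.cos (θ - b2 x) := GD2_cos (by linarith) (by linarith)
        have h7 := (abs_le.1 h4).1
        change -(1 / 10) ≤ -Real.cos (θ - b2 x) at h7
        linarith

end BB
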