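import Pool.Agent.Lib_helper6.BB.W.CORE
import Pool.Agent.Lib_helper6.BB.W.GB
import Pool.Agent.Lib_helper6.BB.W.GD1
import Pool.Agent.Lib_helper6.BB.W.GD2

open Filter Topology Set MeasureTheory
open scoped ContDiff

namespace BB

/-- final theorem, KAM as hypothesis -/
theorem final (hK : KAMStatement) {D : Set ℂ} {γ : ℝ → ℂ} {ℓ : ℝ} (hD : SmoothTable D γ ℓ)
    {s0 s1 : ℝ} (hne : γ s0 ≠ γ s1)
    (h0 : ((γ s1 - γ s0) * (starRingEnd ℂ) (deriv γ s0)).re = 0)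
    (h1 : ((γ s1 - γ s0) * (starRingEnd ℂ) (deriv γ s1)).re = 0)
    (hk0 : deriv (deriv γ) s0 = 0) (hk1 : deriv (deriv γ) s1 = 0) :
    ∃ A, InvariantSet γ ℓ A ∧ bmeasure ℓ A ≠ 0 ∧ bmeasure ℓ Aᶜ ≠ 0 := by
  obtain ⟨L, A, B, b1, b2, hW, w1, w2, w3, w4⟩ := table_walls hD hne h0 h1 hk0 hk1
  have hl : Local γ s0 s1 L A B b1 b2 := ⟨hW, w1, w2, w3, w4⟩
  obtain ⟨E, E', hE, hE', z, a1, a2, a3, a4, a5, a6⟩ := core hK hW
  exact ⟨States ℓ s0 s1 A B b1 b2 E E',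
    states_invariant hD hl hE hE' a1 a2 a3 a4 a5 a6,
    states_measure hD hl hE z a1 a2⟩

end BB
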