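import Pool.Agent.Lib_helper6.BB.Geo
import Pool.Agent.Lib_helper6.BB.W.GA

/-! # BB, block GC1: upward flight -/

open Filter Topology Set MeasureTheory
open scoped ContDiff

namespace BB

theorem GC1_trig {b : ℝ} (hb : |b| ≤ 1 / 10) : 199 / 200 ≤ Real.cos b ∧ |Real.sin b| ≤ 1 / 10 := by
  have h1 := Real.one_sub_sq_div_two_le_cos (x := b)
  have h2 : b ^ 2 ≤ 1 / 100 := by
    rw [abs_le] at hb
    nlinarith [hb.1, hb.2]
  refine ⟨by linarith, ?_⟩
  have := Real.abs_sin_le_abs (x := b)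
  linarith

theorem GC1_sqrt {q : ℝ} (hq : |q| ≤ 1 / 10) :
    Real.sqrt (1 - q ^ 2) ^ 2 = 1 - q ^ 2 ∧ 99 / 100 ≤ Real.sqrt (1 - q ^ 2) := by
  have h2 : q ^ 2 ≤ 1 / 100 := by
    rw [abs_le] at hq
    nlinarith [hq.1, hq.2]
  refine ⟨Real.sq_sqrt (by linarith), ?_⟩
  apply Real.le_sqrt_of_sq_le
  nlinarith

theorem GC1_sin {θ b : ℝ} (hθ : θ ∈ Ioo 0 Real.pi) (hb : |b| ≤ 1 / 10)
    (hq : |Real.cos (θ + b)| ≤ 1 / 10) :
    Real.sin (θ + b) = Real.sqrt (1 - Real.cos (θ + b) ^ 2) := by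
  obtain ⟨hS2, hS⟩ := GC1_sqrt hq
  obtain ⟨hc, hs⟩ := GC1_trig hb
  have h1 : 0 < Real.sin θ := Real.sin_pos_of_mem_Ioo hθ
  have h2 : Real.sin θ = Real.sin (θ + b) * Real.cos b - Real.cos (θ + b) * Real.sin b := by
    rw [← Real.sin_sub]
    congr 1
    ring
  have h3 := Real.sin_sq_add_cos_sq (θ + b)
  set S := Real.sqrt (1 - Real.cos (θ + b) ^ 2)
  set Z := Real.sin (θ + b)
  set C := Real.cos (θ + b)
  have h4 : (Z - S) * (Z + S) = 0 := by nlinarith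
  rcases mul_eq_zero.1 h4 with h5 | h5
  · linarith
  · exfalso
    have h6 : Z = -S := by linarith
    have h7 : |C * Real.sin b| ≤ 1 / 100 := by
      rw [abs_mul]
      nlinarith [abs_nonneg C, abs_nonneg (Real.sin b)]
    rw [abs_le] at h7
    rw [h6] at h2
    nlinarith

theorem GC1_back {θ b q : ℝ} (hθ : θ ∈ Ioo 0 Real.pi) (hb : |b| ≤ 1 / 10) (hq : |q| ≤ 1 / 10)
    (h : -Real.cos (θ - b) = q * Real.cos (2 * b) - Real.sqrt (1 - q ^ 2) * Real.sin (2 * b)) :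
    Real.cos (θ + b) = -q ∧ Real.sin (θ + b) = Real.sqrt (1 - q ^ 2) := by
  obtain ⟨hS2, hS⟩ := GC1_sqrt hq
  obtain ⟨hc, hs⟩ := GC1_trig hb
  have hSl : Real.sqrt (1 - q ^ 2) ≤ 1 := by
    rw [show (1:ℝ) = Real.sqrt 1 by simp]
    apply Real.sqrt_le_sqrt
    simp
    positivity
  have h1 : 0 < Real.sin θ := Real.sin_pos_of_mem_Ioo hθ
  have h2 : Real.sin θ = Real.sin (θ - b) * Real.cos b + Real.cos (θ - b) * Real.sin b := by
    rw [← Real.sin_add]
    congr 1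
    ring
  have h3 := Real.sin_sq_add_cos_sq (θ - b)
  have h4 := Real.sin_sq_add_cos_sq (2 * b)
  have e1 : Real.cos (θ + b) = Real.cos (θ - b) * Real.cos (2 * b) -
      Real.sin (θ - b) * Real.sin (2 * b) := by
    rw [← Real.cos_add]
    congr 1
    ring
  have e2 : Real.sin (θ + b) = Real.sin (θ - b) * Real.cos (2 * b) +
      Real.cos (θ - b) * Real.sin (2 * b) := by
    rw [← Real.sin_add]
    congr 1
    ring
  have hc2 : 98 / 100 ≤ Real.cos (2 * b) := by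
    rw [Real.cos_two_mul]
    nlinarith
  have hs2 : |Real.sin (2 * b)| ≤ 1 / 5 := by
    have := Real.abs_sin_le_abs (x := 2 * b)
    rw [abs_mul] at this
    norm_num at this
    linarith
  have hC1 : |Real.cos b| ≤ 1 := Real.abs_cos_le_one b
  set S := Real.sqrt (1 - q ^ 2)
  set Z := Real.sin (θ - b)
  set C := Real.cos (θ - b)
  set c2 := Real.cos (2 * b)
  set s2 := Real.sin (2 * b)
  have hC : C = -(q * c2) + S * s2 := by linarith
  have hR : (Z - (q * s2 + S * c2)) * (Z + (q * s2 + S * c2)) = 0 := by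
    have : (Z - (q * s2 + S * c2)) * (Z + (q * s2 + S * c2)) =
        (Z ^ 2 + C ^ 2 - 1) - (q ^ 2 + S ^ 2) * (s2 ^ 2 + c2 ^ 2) + 1 := by
      rw [hC]
      ring
    rw [this, h3, h4, hS2]
    ring
  have hqs : |q * s2| ≤ 1 / 50 := by
    rw [abs_mul]
    nlinarith [abs_nonneg q, abs_nonneg s2]
  have hqs' := abs_le.1 hqs
  have hZ : Z = q * s2 + S * c2 := by
    rcases mul_eq_zero.1 hR with h5 | h5
    · linarith
    · exfalso
      have h6 : Z ≤ -(9 / 10) := by nlinarith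
      have hc21 : |c2| ≤ 1 := Real.abs_cos_le_one (2 * b)
      have h7 : |C| ≤ 3 / 10 := by
        rw [hC]
        have h8 : |q * c2| ≤ 1 / 10 := by
          rw [abs_mul]
          nlinarith [abs_nonneg q, abs_nonneg c2]
        have h9 : |S * s2| ≤ 1 / 5 := by
          rw [abs_mul, abs_of_nonneg (by linarith : (0:ℝ) ≤ S)]
          nlinarith [abs_nonneg s2]
        calc |-(q * c2) + S * s2| ≤ |-(q * c2)| + |S * s2| := abs_add_le _ _
          _ ≤ 3 / 10 := by rw [abs_neg]; linarith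
      have h8 : |C * Real.sin b| ≤ 3 / 100 := by
        rw [abs_mul]
        nlinarith [abs_nonneg C, abs_nonneg (Real.sin b)]
      have h8' := abs_le.1 h8
      nlinarith
  rw [e1, e2, hZ, hC]
  constructor
  · linear_combination (-q) * h4
  · linear_combination S * h4

theorem GC1_v (S q : ℝ) {z : ℝ} (hc : Real.cos z = q) (hs : Real.sin z = S) :
    Complex.exp (z * Complex.I) = q + S * Complex.I := by
  rw [Complex.exp_mul_I, ← Complex.ofReal_cos, ← Complex.ofReal_sin, hc, hs]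

theorem GC1_inj {z : ℝ} {q S : ℝ} (h : Complex.exp (z * Complex.I) = q + S * Complex.I) :
    Real.cos z = q ∧ Real.sin z = S := by
  rw [Complex.exp_mul_I, ← Complex.ofReal_cos, ← Complex.ofReal_sin] at h
  have h1 := congrArg Complex.re h
  have h2 := congrArg Complex.im h
  simp at h1 h2
  exact ⟨h1, h2⟩

theorem GC1_unit {D : Set ℂ} {γ : ℝ → ℂ} {ℓ : ℝ} (hD : SmoothTable D γ ℓ) (s : ℝ) :
    deriv γ s * (starRingEnd ℂ) (deriv γ s) = 1 := by
  rw [Complex.mul_conj, Complex.normSq_eq_norm_sq, hD.unitSpeed s]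
  simp

theorem GC1_ne {D : Set ℂ} {γ : ℝ → ℂ} {ℓ : ℝ} (hD : SmoothTable D γ ℓ) (s : ℝ) :
    deriv γ s ≠ 0 := by
  intro h
  have := hD.unitSpeed s
  rw [h] at this
  simp at this

theorem GC1_per {D : Set ℂ} {γ : ℝ → ℂ} {ℓ : ℝ} (hD : SmoothTable D γ ℓ) (n : ℤ) (s : ℝ) :
    deriv γ (s + n * ℓ) = deriv γ s := by
  have hp : Function.Periodic γ ℓ := hD.periodic
  have hp2 : Function.Periodic γ (n * ℓ) := hp.int_mul n
  have h1 : (fun x => γ (x + n * ℓ)) = γ := by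
    funext x
    exact hp2 x
  calc deriv γ (s + n * ℓ) = deriv (fun x => γ (x + n * ℓ)) s := by
        rw [deriv_comp_add_const]
    _ = deriv γ s := by rw [h1]

/-- the flight -/
theorem GC1_fly {γ : ℝ → ℂ} {s0 s1 L A B : ℝ} {b1 b2 : ℝ → ℝ}
    (hl : Local γ s0 s1 L A B b1 b2) {x t : ℝ} {p : ℝ × ℝ}
    (hp : |p.2| ≤ 1 / 10) (ht : IsHit L A B b2 p t) (hx' : x ∈ Ioo (-A) B)
    (hc : hx b1 x - hf b1 x * mm p.2 = p.1) :
    ∃ τ : ℝ, 0 < τ ∧ γ (s1 - t) = γ (s0 + x) +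
      τ * (deriv γ s0 * (p.2 + Real.sqrt (1 - p.2 ^ 2) * Complex.I)) := by
  obtain ⟨hS2, hS⟩ := GC1_sqrt hp
  obtain ⟨ht1, ht2⟩ := ht
  have hl1 := (hl.walls.low x ⟨hx'.1.le, hx'.2.le⟩).1
  have hl2 := (hl.walls.low t ⟨ht1.1.le, ht1.2.le⟩).2
  have hSpos : 0 < Real.sqrt (1 - p.2 ^ 2) := by linarith
  refine ⟨(L - hf b2 t - hf b1 x) / Real.sqrt (1 - p.2 ^ 2), div_pos (by linarith) hSpos, ?_⟩
  rw [hl.bot x, hl.top t]
  have hm : mm p.2 = p.2 / Real.sqrt (1 - p.2 ^ 2) := rfl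
  rw [hm] at ht2 hc
  set S := Real.sqrt (1 - p.2 ^ 2)
  have hSne : (S : ℂ) ≠ 0 := by
    exact_mod_cast hSpos.ne'
  have e : (hx b2 t : ℂ) = hx b1 x + (L - hf b2 t - hf b1 x) / S * p.2 := by
    have : hx b2 t = hx b1 x + (L - hf b2 t - hf b1 x) / S * p.2 := by
      rw [ht2, ← hc]
      ring
    rw [this]
    push_cast
    ring
  rw [e]
  push_cast
  field_simp
  ring

/-- upward flight: a state on the bottom wall whose line `(c, q)`, `|q| ≤ 1/10`, hits the top wall at the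
parameter `t ∈ (-A, B)` is followed exactly by the states of the top wall point of parameter `t` whose line is
the reflected line -/
theorem step_up {D : Set ℂ} {γ : ℝ → ℂ} {ℓ s0 s1 L A B : ℝ} {b1 b2 : ℝ → ℝ} (hD : SmoothTable D γ ℓ)
    (hl : Local γ s0 s1 L A B b1 b2) {x t θ : ℝ} (hx' : x ∈ Ioo (-A) B) (hθ : θ ∈ Ioo 0 Real.pi)
    (hq : |(Bot b1 x θ).2| ≤ 1 / 10) (ht : IsHit L A B b2 (Bot b1 x θ) t) (y : ℝ × ℝ)
    (hy : Step γ (s0 + x, θ) y) :
    (∃ n : ℤ, y.1 = s1 - t + n * ℓ) ∧ Topl b2 t y.2 = outLine b2 t (Bot b1 x θ).2 := by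
  obtain ⟨τ, hτ, hfl⟩ := GC1_fly hl hq ht hx' rfl
  obtain ⟨-, hy2, ⟨τ', hτ', hy3⟩, hy4⟩ := hy
  simp only at hy3 hy4
  have hsm := hl.walls.small x ⟨hx'.1.le, hx'.2.le⟩
  have hsin := GC1_sin hθ hsm.1 hq
  have hq2 : (Bot b1 x θ).2 = Real.cos (θ + b1 x) := rfl
  rw [hq2] at hfl hq ⊢
  set q := Real.cos (θ + b1 x) with hqd
  set S := Real.sqrt (1 - q ^ 2) with hSd
  have hv : Complex.exp (θ * Complex.I) * deriv γ (s0 + x) = deriv γ s0 * (q + S * Complex.I) := by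
    rw [hl.bot' x, ← GC1_v S q (z := θ + b1 x) rfl hsin]
    push_cast
    rw [add_mul, Complex.exp_add]
    ring
  have him : ((Complex.exp (θ * Complex.I) * deriv γ (s0 + x)) *
      (starRingEnd ℂ) (deriv γ (s0 + x))).im ≠ 0 := by
    rw [mul_assoc, GC1_unit hD, mul_one, Complex.exp_ofReal_mul_I_im]
    exact (Real.sin_pos_of_mem_Ioo hθ).ne'
  rw [← hv] at hfl
  have hττ := table_unique hD him hτ' hτ hy3 hfl
  have hpt : γ y.1 = γ (s1 - t) := by rw [hy3, hfl, hττ]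
  obtain ⟨n, hn⟩ := hD.simple _ _ hpt
  have hy1 : y.1 = s1 - t + ((-n : ℤ) : ℝ) * ℓ := by
    push_cast
    linarith
  refine ⟨⟨-n, hy1⟩, ?_⟩
  rw [hv] at hy4
  have hd : deriv γ y.1 = -(deriv γ s0 * Complex.exp (-(b2 t * Complex.I))) := by
    rw [hy1, GC1_per hD, hl.top' t]
  rw [hd] at hy4
  have hg := GC1_ne hD s0
  have h5 : Complex.exp (((-(y.2 + b2 t) : ℝ) : ℂ) * Complex.I) =
      ((-q : ℝ) : ℂ) + ((-S : ℝ) : ℂ) * Complex.I := by
    have h6 : deriv γ s0 * (q + S * Complex.I) =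
        deriv γ s0 * (-(Complex.exp (-(y.2 * Complex.I)) * Complex.exp (-(b2 t * Complex.I)))) := by
      rw [hy4]
      ring
    have h7 := mul_left_cancel₀ hg h6
    rw [← Complex.exp_add] at h7
    have h8 : (((-(y.2 + b2 t) : ℝ) : ℂ) * Complex.I) =
        -(y.2 * Complex.I) + -(b2 t * Complex.I) := by
      push_cast
      ring
    rw [h8]
    push_cast
    linear_combination h7
  obtain ⟨h6, h7⟩ := GC1_inj h5
  rw [Real.cos_neg] at h6
  rw [Real.sin_neg] at h7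
  have h8 : -Real.cos (y.2 - b2 t) = refl b2 t q := by
    have : y.2 - b2 t = (y.2 + b2 t) - 2 * b2 t := by ring
    rw [this, Real.cos_sub, h6, show Real.sin (y.2 + b2 t) = S by linarith]
    unfold refl
    rw [← hSd]
    ring
  unfold Topl outLine
  rw [h8]

/-- backwards from the top: if the outgoing line of the state `(s1 - t, θ')` is the reflected line of a line
`p`, `|p.2| ≤ 1/10`, hitting the top wall at `t`, then the previous state lies on the bottom wall and its line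
is `p`, provided `p` crosses the bottom wall in `(-A, B)` -/
theorem step_up_back {D : Set ℂ} {γ : ℝ → ℂ} {ℓ s0 s1 L A B : ℝ} {b1 b2 : ℝ → ℝ}
    (hD : SmoothTable D γ ℓ) (hl : Local γ s0 s1 L A B b1 b2) {x t θ' : ℝ} {p : ℝ × ℝ}
    (hp : |p.2| ≤ 1 / 10) (ht : IsHit L A B b2 p t) (hx' : x ∈ Ioo (-A) B)
    (hc : hx b1 x - hf b1 x * mm p.2 = p.1) (hθ : θ' ∈ Ioo 0 Real.pi)
    (ho : Topl b2 t θ' = outLine b2 t p.2) (y : ℝ × ℝ) (hy : Step γ y (s1 - t, θ')) :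
    (∃ n : ℤ, y.1 = s0 + x + n * ℓ) ∧ Bot b1 x y.2 = p := by
  obtain ⟨τ, hτ, hfl⟩ := GC1_fly hl hp ht hx' hc
  obtain ⟨hy2, -, ⟨τ', hτ', hy3⟩, hy4⟩ := hy
  simp only at hy3 hy4
  have hsm := hl.walls.small t ⟨ht.1.1.le, ht.1.2.le⟩
  have ho2 : -Real.cos (θ' - b2 t) = refl b2 t p.2 := congrArg Prod.snd ho
  unfold refl at ho2
  obtain ⟨hcos, hsin⟩ := GC1_back hθ hsm.2 hp ho2
  set q := p.2 with hqd
  set S := Real.sqrt (1 - q ^ 2) with hSd
  have hw : Complex.exp (-(θ' * Complex.I)) * deriv γ (s1 - t) =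
      deriv γ s0 * (q + S * Complex.I) := by
    rw [hl.top' t]
    have h1 := GC1_v (-S) (-q) (z := -(θ' + b2 t)) (by rw [Real.cos_neg, hcos])
      (by rw [Real.sin_neg, hsin])
    have h8 : (((-(θ' + b2 t) : ℝ) : ℂ) * Complex.I) =
        -(θ' * Complex.I) + -(b2 t * Complex.I) := by
      push_cast
      ring
    rw [h8, Complex.exp_add] at h1
    push_cast at h1
    linear_combination (-deriv γ s0) * h1
  have him : ((-(Complex.exp (-(θ' * Complex.I)) * deriv γ (s1 - t))) *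
      (starRingEnd ℂ) (deriv γ (s1 - t))).im ≠ 0 := by
    rw [neg_mul, mul_assoc, GC1_unit hD, mul_one]
    have h9 : -(θ' * Complex.I) = (((-θ' : ℝ) : ℂ) * Complex.I) := by
      push_cast
      ring
    rw [h9, Complex.neg_im, Complex.exp_ofReal_mul_I_im, Real.sin_neg, neg_neg]
    exact (Real.sin_pos_of_mem_Ioo hθ).ne'
  have e1 : γ y.1 = γ (s1 - t) + τ' * (-(Complex.exp (-(θ' * Complex.I)) * deriv γ (s1 - t))) := by
    rw [hy3, hy4]
    ring
  have e2 : γ (s0 + x) = γ (s1 - t) +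
      τ * (-(Complex.exp (-(θ' * Complex.I)) * deriv γ (s1 - t))) := by
    rw [hw, hfl]
    ring
  have hττ := table_unique hD him hτ' hτ e1 e2
  have hpt : γ y.1 = γ (s0 + x) := by rw [e1, e2, hττ]
  obtain ⟨n, hn⟩ := hD.simple _ _ hpt
  have hy1 : y.1 = s0 + x + ((-n : ℤ) : ℝ) * ℓ := by
    push_cast
    linarith
  refine ⟨⟨-n, hy1⟩, ?_⟩
  rw [hw, hy1, GC1_per hD, hl.bot' x] at hy4
  have hg := GC1_ne hD s0
  have h5 : Complex.exp (((y.2 + b1 x : ℝ) : ℂ) * Complex.I) = (q : ℂ) + (S : ℂ) * Complex.I := by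
    have h6 : deriv γ s0 * (Complex.exp (y.2 * Complex.I) * Complex.exp (b1 x * Complex.I)) =
        deriv γ s0 * (q + S * Complex.I) := by
      rw [← hy4]
      ring
    have h7 := mul_left_cancel₀ hg h6
    rw [← Complex.exp_add] at h7
    rw [← h7]
    congr 1
    push_cast
    ring
  obtain ⟨h6, -⟩ := GC1_inj h5
  unfold Bot
  rw [h6, hc]

end BB
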