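import Pool.Agent.Lib_helper6.BB.W.GP
import Pool.Agent.Lib_helper6.BB.W.TH

open Filter Topology Set MeasureTheory
open scoped ContDiff

namespace BB

/-- `sin u / u` -/
noncomputable def HA1_S (u : ℝ) : ℝ := ∫ t in (0 : ℝ)..1, Real.cos (t * u)

theorem HA1_S_sin (u : ℝ) : Real.sin u = u * HA1_S u := by
  unfold HA1_S
  rcases eq_or_ne u 0 with rfl | hu
  · simp
  · rw [intervalIntegral.integral_comp_mul_right (fun x => Real.cos x) hu, integral_cos]
    simp only [one_mul, zero_mul, Real.sin_zero, sub_zero, smul_eq_mul]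
    field_simp

theorem HA1_S_cos (u : ℝ) : Real.cos u = 1 - u ^ 2 / 2 * HA1_S (u / 2) ^ 2 := by
  have h1 := HA1_S_sin (u / 2)
  have h2 : Real.cos u = 1 - 2 * Real.sin (u / 2) ^ 2 := by
    have h3 := Real.cos_sq' (u / 2)
    have h4 := Real.cos_two_mul (u / 2)
    rw [show 2 * (u / 2) = u by ring] at h4
    rw [h4, h3]
    ring
  rw [h2, h1]
  ring

theorem HA1_S_cont : Continuous HA1_S := by
  unfold HA1_S
  refine intervalIntegral.continuous_parametric_intervalIntegral_of_continuous' ?_ _ _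
  fun_prop

theorem HA1_sinc {Ω : ℝ → Set ℝ} {v : ℝ → ℝ → ℝ} {C : ℝ}
    (hb : ∀ᶠ e in 𝓝[>] (0 : ℝ), ∀ x ∈ Ω e, |x| ≤ C) (hv : Tame Ω v) :
    Tame Ω (fun e x => HA1_S (v e x)) := by
  have hO : ∀ᶠ e in 𝓝[>] (0 : ℝ), IsOpen (Ω e ×ˢ Ioo (-1 : ℝ) 2) := by
    filter_upwards [hv.isOpen] with e he
    exact he.prod isOpen_Ioo
  have hb2 : ∀ η : ℝ, 0 < η → ∀ᶠ e in 𝓝[>] (0 : ℝ), ∀ p ∈ Ω e ×ˢ Ioo (-1 : ℝ) 2,
      ‖p‖ ≤ e ^ (-η) := by
    intro η hη
    filter_upwards [hb, Slow.const (max C 2) η hη] with e he1 he2 p hp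
    refine le_trans ?_ ((le_abs_self _).trans he2)
    rw [Prod.norm_def]
    refine max_le_max ?_ ?_
    · exact he1 _ hp.1
    · rw [Real.norm_eq_abs, abs_le]
      exact ⟨by linarith [hp.2.1], hp.2.2.le⟩
  have hfst : Tame (fun e => Ω e ×ˢ Ioo (-1 : ℝ) 2) (fun _ (p : ℝ × ℝ) => p.1) :=
    Tame.clm hO (ContinuousLinearMap.fst ℝ ℝ ℝ) hb2
  have hsnd : Tame (fun e => Ω e ×ˢ Ioo (-1 : ℝ) 2) (fun _ (p : ℝ × ℝ) => p.2) :=
    Tame.clm hO (ContinuousLinearMap.snd ℝ ℝ ℝ) hb2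
  have hvf : Tame (fun e => Ω e ×ˢ Ioo (-1 : ℝ) 2) (fun e (p : ℝ × ℝ) => v e p.1) :=
    Tame.comp hv hfst (Eventually.of_forall fun e p hp => hp.1)
  have h1 : Tame (fun e => Ω e ×ˢ Ioo (-1 : ℝ) 2)
      (fun e (p : ℝ × ℝ) => Real.cos (p.2 * v e p.1)) := (hsnd.mul hvf).cos
  exact Tame.integral h1

theorem HA1_prim {Ω : ℝ → Set ℝ} {u : ℝ → ℝ → ℝ} {C : ℝ}
    (hb : ∀ᶠ e in 𝓝[>] (0 : ℝ), ∀ x ∈ Ω e, |x| ≤ C)
    (hs : ∀ᶠ e in 𝓝[>] (0 : ℝ), ∀ x ∈ Ω e, uIcc 0 x ⊆ Ω e)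
    (hc : ∀ e, Continuous (u e)) (hu : Tame Ω u) :
    Tame Ω (fun e Y => ∫ y in (0 : ℝ)..Y, u e y) := by
  refine Tame.of_deriv (f' := u) (Eventually.of_forall fun e x _ =>
    ((hc e).integral_hasStrictDerivAt 0 x).hasDerivAt) hu ?_
  intro η hη
  have hpos : ∀ᶠ e in 𝓝[>] (0 : ℝ), 0 < e := eventually_mem_nhdsWithin
  filter_upwards [hb, hs, hu.bound0 (half_pos hη), Slow.const C (η / 2) (half_pos hη), hpos]
    with e h1 h2 h3 h4 h5 x hx
  have h6 := intervalIntegral.norm_integral_le_of_norm_le_const (a := (0:ℝ)) (b := x)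
    (f := u e) (C := e ^ (-(η / 2))) (fun y hy => h3 y (h2 x hx (uIoc_subset_uIcc hy)))
  rw [sub_zero] at h6
  refine h6.trans ?_
  have h7 : |x| ≤ e ^ (-(η / 2)) := (h1 x hx).trans ((le_abs_self C).trans h4)
  calc e ^ (-(η / 2)) * |x| ≤ e ^ (-(η / 2)) * e ^ (-(η / 2)) :=
        mul_le_mul_of_nonneg_left h7 (Real.rpow_nonneg h5.le _)
    _ = e ^ (-η) := by
        rw [← Real.rpow_add h5]
        congr 1
        ring

/-- wall coordinates of the scaled wall: `x (δ Y) / δ = Y + μ² κ₁`, `f (δ Y) / δ = μ² κ₂` -/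
theorem wall_expansion {L A B : ℝ} {b1 b2 δ b : ℝ → ℝ} (hW : Walls L A B b1 b2)
    (hS : Scale b1 b2 δ) (hb : b = b1 ∨ b = b2) (k : ℝ) :
    ∃ c1 c2 : ℝ → ℝ → ℝ, Tame (Iset b1 b2 δ k) c1 ∧ Tame (Iset b1 b2 δ k) c2 ∧
      ∀ᶠ e in 𝓝[>] (0 : ℝ), ∀ Y ∈ Iset b1 b2 δ k e,
        hx b (δ e * Y) / δ e = Y + (mu δ e) ^ 2 * c1 e Y ∧
        hf b (δ e * Y) / δ e = (mu δ e) ^ 2 * c2 e Y := by
  have hbc : Continuous b := by
    rcases hb with rfl | rfl
    · exact hW.smooth1.continuous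
    · exact hW.smooth2.continuous
  have hw : Tame (Iset b1 b2 δ k) (ww δ b) := by
    rcases hb with rfl | rfl
    · exact (ww_tame hW hS k).1
    · exact (ww_tame hW hS k).2
  have hpos : ∀ᶠ e in 𝓝[>] (0 : ℝ), 0 < e := eventually_mem_nhdsWithin
  have hmul : ∀ e, 0 < e → 0 < δ e → ∀ y,
      b (δ e * y) = Real.sqrt e * mu δ e * ww δ b e y := by
    intro e he hd y
    unfold mu ww
    have h1 : Real.sqrt e * Real.sqrt e = e := Real.mul_self_sqrt he.le
    field_simp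
    rw [sq, h1]
  -- bounds of the domain
  have hbd : ∀ᶠ e in 𝓝[>] (0 : ℝ), ∀ x ∈ Iset b1 b2 δ k e, |x| ≤ max k 1 := by
    filter_upwards [Iset_bound hW hS (le_max_right k 1)] with e he x hx
    exact he x (lt_of_lt_of_le hx (le_max_left k 1))
  have hseg : ∀ᶠ e in 𝓝[>] (0 : ℝ), ∀ x ∈ Iset b1 b2 δ k e,
      uIcc 0 x ⊆ Iset b1 b2 δ k e := by
    filter_upwards [hpos] with e he x hx
    have h0 : (0:ℝ) ∈ Iset b1 b2 δ k e := by
      show Wp δ b1 b2 e 0 < k
      rw [Wp_zero]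
      exact (Wp_nonneg hW he x).trans_lt hx
    exact (Iset_ordConnected hW k he).uIcc_subset h0 hx
  -- the family b (δ y) is tame
  have hmuslow : Slow (mu δ) := (mu_fast hS).slow
  have hsq : Slow (fun e => Real.sqrt e) := by
    refine Slow.of_bounded (C := 1) ?_
    have h1 : ∀ᶠ e in 𝓝[>] (0 : ℝ), e < 1 := eventually_nhdsWithin_of_eventually_nhds
      (gt_mem_nhds one_pos)
    filter_upwards [h1] with e he
    rw [abs_of_nonneg (Real.sqrt_nonneg e)]
    exact Real.sqrt_le_one.2 he.le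
  have hv : Tame (Iset b1 b2 δ k) (fun e y => b (δ e * y)) := by
    refine (Tame.slow_mul (hsq.mul hmuslow) hw).congr ?_
    filter_upwards [hpos, hS.pos] with e he hd x _
    exact hmul e he hd x
  have hv2 : Tame (Iset b1 b2 δ k) (fun e y => b (δ e * y) / 2) := by
    refine (Tame.slow_mul (Slow.const (1 / 2)) hv).congr
      (Eventually.of_forall fun e x _ => ?_)
    show b (δ e * x) / 2 = 1 / 2 * b (δ e * x)
    ring
  have hS1 := HA1_sinc hbd hv
  have hS2 := HA1_sinc hbd hv2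
  have he2 : Slow (fun e : ℝ => -(e / 2)) := by
    refine Slow.of_bounded (C := 1) ?_
    have h1 : ∀ᶠ e in 𝓝[>] (0 : ℝ), e < 1 := eventually_nhdsWithin_of_eventually_nhds
      (gt_mem_nhds one_pos)
    filter_upwards [h1, hpos] with e he h0
    rw [abs_neg, abs_of_pos (by positivity)]
    linarith
  have hwc : ∀ e, Continuous (ww δ b e) := by
    intro e
    unfold ww
    exact continuous_const.mul (hbc.comp (continuous_const.mul continuous_id))
  have hbd' : ∀ e, Continuous (fun y => b (δ e * y)) := fun e =>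
    hbc.comp (continuous_const.mul continuous_id)
  refine ⟨fun e Y => ∫ y in (0:ℝ)..Y,
      -(e / 2) * (ww δ b e y ^ 2 * HA1_S (b (δ e * y) / 2) ^ 2),
    fun e Y => ∫ y in (0:ℝ)..Y,
      Real.sqrt e / mu δ e * (ww δ b e y * HA1_S (b (δ e * y))), ?_, ?_, ?_⟩
  · refine HA1_prim hbd hseg (fun e => ?_) (Tame.slow_mul he2 ((hw.pow 2).mul (hS2.pow 2)))
    exact continuous_const.mul (((hwc e).pow 2).mul
      ((HA1_S_cont.comp ((hbd' e).div_const 2)).pow 2))
  · refine HA1_prim hbd hseg (fun e => ?_) (Tame.slow_mul (ratio_slow hS) (hw.mul hS1))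
    exact continuous_const.mul ((hwc e).mul (HA1_S_cont.comp (hbd' e)))
  · filter_upwards [hpos, hS.pos, mu_pos hS] with e he hd hm Y _
    have hmu0 : mu δ e ≠ 0 := hm.1.ne'
    have hsub : ∀ F : ℝ → ℝ, (∫ s in (0:ℝ)..(δ e * Y), F s) / δ e
        = ∫ y in (0:ℝ)..Y, F (δ e * y) := by
      intro F
      rw [intervalIntegral.integral_comp_mul_left F hd.ne', mul_zero, smul_eq_mul]
      field_simp
    have h1 : Real.sqrt e * Real.sqrt e = e := Real.mul_self_sqrt he.le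
    constructor
    · unfold hx
      rw [hsub (fun s => Real.cos (b s)), ← intervalIntegral.integral_const_mul]
      have h2 : ∀ y, Real.cos (b (δ e * y)) = 1 + mu δ e ^ 2 *
          (-(e / 2) * (ww δ b e y ^ 2 * HA1_S (b (δ e * y) / 2) ^ 2)) := by
        intro y
        rw [HA1_S_cos]
        have h3 := hmul e he hd y
        have h4 : b (δ e * y) ^ 2 = e * mu δ e ^ 2 * ww δ b e y ^ 2 := by
          rw [h3]
          linear_combination (mu δ e ^ 2 * ww δ b e y ^ 2) * h1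
        rw [h4]
        ring
      simp_rw [h2]
      rw [intervalIntegral.integral_add (by simp) ?_, intervalIntegral.integral_const, sub_zero,
        smul_eq_mul, mul_one]
      refine Continuous.intervalIntegrable ?_ _ _
      exact continuous_const.mul (continuous_const.mul (((hwc e).pow 2).mul
        ((HA1_S_cont.comp ((hbd' e).div_const 2)).pow 2)))
    · unfold hf
      rw [hsub (fun s => Real.sin (b s)), ← intervalIntegral.integral_const_mul]
      refine intervalIntegral.integral_congr fun y _ => ?_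
      show Real.sin (b (δ e * y)) = mu δ e ^ 2 *
        (Real.sqrt e / mu δ e * (ww δ b e y * HA1_S (b (δ e * y))))
      rw [HA1_S_sin]
      have h3 := hmul e he hd y
      nth_rewrite 1 [h3]
      field_simp

end BB
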