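import Pool.Agent.Lib_helper6.BB.W.SC
import Pool.Agent.Lib_helper6.BB.W.TC

open Filter Topology Set MeasureTheory
open scoped ContDiff

namespace BB

theorem HA2_open (r : ℝ) : ∀ᶠ _e in 𝓝[>] (0 : ℝ), IsOpen (Ioo (-r) r) :=
  Filter.Eventually.of_forall fun _ => isOpen_Ioo

theorem HA2_id (r : ℝ) : Tame (fun _ => Ioo (-r) r) (fun _ P => P) := by
  have h := Tame.clm (Ω := fun _ => Ioo (-r) r) (HA2_open r) (ContinuousLinearMap.id ℝ ℝ) (by
    intro η hη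
    filter_upwards [Slow.const r η hη] with e he x hx
    have h1 : |x| < r := abs_lt.mpr ⟨hx.1, hx.2⟩
    rw [Real.norm_eq_abs]
    exact h1.le.trans ((le_abs_self r).trans he))
  exact h

theorem HA2_slow_e : Slow (fun e => e) := by
  refine Slow.of_bounded (C := 1) ?_
  filter_upwards [Ioo_mem_nhdsGT (show (0:ℝ) < 1 by norm_num)] with e he
  rw [abs_of_pos he.1]
  exact he.2.le

theorem HA2_slow_sqrt : Slow (fun e => Real.sqrt e) := by
  refine Slow.of_bounded (C := 1) ?_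
  filter_upwards [Ioo_mem_nhdsGT (show (0:ℝ) < 1 by norm_num)] with e he
  rw [abs_of_nonneg (Real.sqrt_nonneg e)]
  exact Real.sqrt_le_one.mpr he.2.le

theorem HA2_small (r : ℝ) :
    ∀ᶠ e in 𝓝[>] (0 : ℝ), 0 < e ∧ ∀ P ∈ Ioo (-r) r, e * P ^ 2 ∈ Icc (0:ℝ) (1 / 4) := by
  have hpos : (0:ℝ) < 1 / (4 * (r ^ 2 + 1)) := by positivity
  filter_upwards [Ioo_mem_nhdsGT hpos] with e he
  refine ⟨he.1, ?_⟩
  intro P hP
  have h1 : |P| < r := abs_lt.mpr ⟨hP.1, hP.2⟩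
  have h2 : P ^ 2 ≤ r ^ 2 := by
    rw [← sq_abs P]
    exact pow_le_pow_left₀ (abs_nonneg P) h1.le 2
  have h3 : e * (4 * (r ^ 2 + 1)) < 1 := by
    have := he.2
    rwa [lt_div_iff₀ (by positivity)] at this
  have h4 : e * P ^ 2 ≤ e * r ^ 2 := mul_le_mul_of_nonneg_left h2 he.1.le
  have h5 := he.1
  refine ⟨mul_nonneg he.1.le (sq_nonneg P), ?_⟩
  nlinarith [h3, h4, h5]

theorem HA2_u (r : ℝ) : Tame (fun _ => Ioo (-r) r) (fun e P => e * P ^ 2) :=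
  Tame.slow_mul HA2_slow_e ((HA2_id r).pow 2)

theorem HA2_sqrt_smooth : ContDiffOn ℝ ∞ (fun u : ℝ => Real.sqrt (1 - u)) (Iio 1) := by
  refine ContDiffOn.sqrt (by fun_prop) ?_
  intro u hu
  have h : u < 1 := hu
  exact (sub_pos.mpr h).ne'

theorem HA2_sqrt_pos {u : ℝ} (hu : u ∈ Iio (1:ℝ)) : 0 < Real.sqrt (1 - u) :=
  Real.sqrt_pos.mpr (sub_pos.mpr hu)

theorem HA2_g4 : ContDiffOn ℝ ∞ (fun u : ℝ => (Real.sqrt (1 - u))⁻¹) (Iio 1) :=
  HA2_sqrt_smooth.inv fun _ hu => (HA2_sqrt_pos hu).ne'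

theorem HA2_g3 : ContDiffOn ℝ ∞
    (fun u : ℝ => (Real.sqrt (1 - u) * (1 + Real.sqrt (1 - u)))⁻¹) (Iio 1) := by
  refine (HA2_sqrt_smooth.mul (contDiffOn_const.add HA2_sqrt_smooth)).inv ?_
  intro u hu
  have := HA2_sqrt_pos hu
  positivity

theorem HA2_t4 (r : ℝ) :
    Tame (fun _ => Ioo (-r) r) (fun e P => (Real.sqrt (1 - e * P ^ 2))⁻¹) :=
  Tame.comp_fixed (K := Icc (0:ℝ) (1 / 4)) (O := Iio 1) isCompact_Icc isOpen_Iio
    (fun u hu => lt_of_le_of_lt hu.2 (by norm_num)) HA2_g4 (HA2_u r)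
    ((HA2_small r).mono fun _ h => h.2)

theorem HA2_t3 (r : ℝ) :
    Tame (fun _ => Ioo (-r) r)
      (fun e P => (Real.sqrt (1 - e * P ^ 2) * (1 + Real.sqrt (1 - e * P ^ 2)))⁻¹) :=
  Tame.comp_fixed (K := Icc (0:ℝ) (1 / 4)) (O := Iio 1) isCompact_Icc isOpen_Iio
    (fun u hu => lt_of_le_of_lt hu.2 (by norm_num)) HA2_g3 (HA2_u r)
    ((HA2_small r).mono fun _ h => h.2)

/-- slope of the line: `L / δ * mm (√e P) = μ L P + μ² κ₃`, `mm (√e P) = μ κ₄` -/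
theorem mm_expansion {b1 b2 δ : ℝ → ℝ} (hS : Scale b1 b2 δ) (L r : ℝ) :
    ∃ c3 c4 : ℝ → ℝ → ℝ, Tame (fun _ => Ioo (-r) r) c3 ∧ Tame (fun _ => Ioo (-r) r) c4 ∧
      ∀ᶠ e in 𝓝[>] (0 : ℝ), ∀ P ∈ Ioo (-r) r,
        L / δ e * mm (Real.sqrt e * P) = mu δ e * (L * P) + (mu δ e) ^ 2 * c3 e P ∧
        mm (Real.sqrt e * P) = mu δ e * c4 e P := by
  refine ⟨fun e P => (L * (Real.sqrt e * (Real.sqrt e / mu δ e))) * (P ^ 3 *
      (Real.sqrt (1 - e * P ^ 2) * (1 + Real.sqrt (1 - e * P ^ 2)))⁻¹),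
    fun e P => (Real.sqrt e / mu δ e) * (P * (Real.sqrt (1 - e * P ^ 2))⁻¹), ?_, ?_, ?_⟩
  · exact Tame.slow_mul ((Slow.const L).mul (HA2_slow_sqrt.mul (ratio_slow hS)))
      (((HA2_id r).pow 3).mul (HA2_t3 r))
  · exact Tame.slow_mul (ratio_slow hS) ((HA2_id r).mul (HA2_t4 r))
  · filter_upwards [HA2_small r, mu_pos hS, hS.pos] with e he hmu hδ P hP
    obtain ⟨he0, he1⟩ := he
    have hu := he1 P hP
    have hu1 : e * P ^ 2 < 1 := lt_of_le_of_lt hu.2 (by norm_num)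
    have hsq : Real.sqrt e ^ 2 = e := Real.sq_sqrt he0.le
    have hse : 0 < Real.sqrt e := Real.sqrt_pos.mpr he0
    obtain ⟨w, hw⟩ : ∃ w, w = Real.sqrt (1 - e * P ^ 2) := ⟨_, rfl⟩
    have hw0 : 0 < w := by rw [hw]; exact Real.sqrt_pos.mpr (sub_pos.mpr hu1)
    have hw2 : w ^ 2 = 1 - e * P ^ 2 := by rw [hw]; exact Real.sq_sqrt (sub_pos.mpr hu1).le
    have hmm : mm (Real.sqrt e * P) = Real.sqrt e * P / w := by
      unfold mm
      rw [mul_pow, hsq, hw]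
    have hmu0 := hmu.1
    have hmud : mu δ e = Real.sqrt e / δ e := rfl
    have hd0 : δ e ≠ 0 := hδ.ne'
    have hμδ : Real.sqrt e = mu δ e * δ e := by rw [hmud]; field_simp
    rw [hmm]
    simp only [← hw]
    constructor
    · have hm0 : mu δ e ≠ 0 := hmu0.ne'
      have h1w : (1 + w) ≠ 0 := by positivity
      have e1 : L / δ e * (Real.sqrt e * P / w) = mu δ e * L * P / w := by
        rw [hmud]; field_simp
      have e2 : (mu δ e) ^ 2 * ((L * (Real.sqrt e * (Real.sqrt e / mu δ e))) *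
          (P ^ 3 * (w * (1 + w))⁻¹)) = mu δ e * L * (Real.sqrt e ^ 2 * P ^ 2) * P /
            (w * (1 + w)) := by
        field_simp
      rw [e1, e2, hsq]
      have e3 : e * P ^ 2 = (1 - w) * (1 + w) := by linear_combination hw2
      rw [e3]
      field_simp
      ring
    · have hm0 : mu δ e ≠ 0 := hmu0.ne'
      field_simp

end BB
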