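import Pool.Agent.Lib_helper6.BB.W.GP
import Pool.Agent.Lib_helper6.BB.W.TH
import Pool.Agent.Lib_helper6.BB.W.TC

open Filter Topology Set MeasureTheory
open scoped ContDiff

namespace BB

/-- `sin u / u` -/
noncomputable def HA3_S (u : ℝ) : ℝ := ∫ t in (0 : ℝ)..1, Real.cos (t * u)

/-- `(1 - sin (2 u) / (2 u)) / (4 u ^ 2)` -/
noncomputable def HA3_J (u : ℝ) : ℝ := ∫ t in (0 : ℝ)..1, t ^ 2 / 2 * HA3_S (t * u) ^ 2

theorem HA3_S_sin (u : ℝ) : Real.sin u = u * HA3_S u := by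
  unfold HA3_S
  rcases eq_or_ne u 0 with rfl | hu
  · simp
  · rw [intervalIntegral.integral_comp_mul_right (fun x => Real.cos x) hu, integral_cos]
    simp only [one_mul, zero_mul, Real.sin_zero, sub_zero, smul_eq_mul]
    field_simp

theorem HA3_S_cos (u : ℝ) : Real.cos (2 * u) = 1 - 2 * u ^ 2 * HA3_S u ^ 2 := by
  have h1 := HA3_S_sin u
  have h2 : Real.cos (2 * u) = 1 - 2 * Real.sin u ^ 2 := by
    have h3 := Real.cos_sq' u
    have h4 := Real.cos_two_mul u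
    rw [h4, h3]
    ring
  rw [h2, h1]
  ring

theorem HA3_S_cont : Continuous HA3_S := by
  unfold HA3_S
  refine intervalIntegral.continuous_parametric_intervalIntegral_of_continuous' ?_ _ _
  fun_prop

theorem HA3_J_eq (u : ℝ) : HA3_S (2 * u) = 1 - 4 * u ^ 2 * HA3_J u := by
  have h1 : ∀ t : ℝ, Real.cos (t * (2 * u)) = 1 - 4 * u ^ 2 * (t ^ 2 / 2 * HA3_S (t * u) ^ 2) := by
    intro t
    rw [show t * (2 * u) = 2 * (t * u) by ring, HA3_S_cos]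
    ring
  have hc : Continuous fun t : ℝ => t ^ 2 / 2 * HA3_S (t * u) ^ 2 :=
    ((continuous_id.pow 2).div_const 2).mul
      ((HA3_S_cont.comp (continuous_id.mul continuous_const)).pow 2)
  unfold HA3_J
  rw [← intervalIntegral.integral_const_mul]
  rw [show HA3_S (2 * u) = ∫ t in (0 : ℝ)..1, Real.cos (t * (2 * u)) from rfl]
  simp_rw [h1]
  have h2 : IntervalIntegrable (fun t : ℝ => 4 * u ^ 2 * (t ^ 2 / 2 * HA3_S (t * u) ^ 2))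
      volume 0 1 := (continuous_const.mul hc).intervalIntegrable _ _
  have h3 : IntervalIntegrable (fun _ : ℝ => (1 : ℝ)) volume 0 1 :=
    continuous_const.intervalIntegrable _ _
  rw [intervalIntegral.integral_sub h3 h2]
  simp

theorem HA3_prod {V : Type} [NormedAddCommGroup V] [NormedSpace ℝ V] {Ω : ℝ → Set V}
    (hO : ∀ᶠ e in 𝓝[>] (0 : ℝ), IsOpen (Ω e)) {C : ℝ}
    (hb : ∀ᶠ e in 𝓝[>] (0 : ℝ), ∀ x ∈ Ω e, ‖x‖ ≤ C) :
    (∀ᶠ e in 𝓝[>] (0 : ℝ), IsOpen (Ω e ×ˢ Ioo (-1 : ℝ) 2)) ∧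
    (∀ᶠ e in 𝓝[>] (0 : ℝ), ∀ p ∈ Ω e ×ˢ Ioo (-1 : ℝ) 2, ‖p‖ ≤ max C 2) := by
  constructor
  · filter_upwards [hO] with e he
    exact he.prod isOpen_Ioo
  · filter_upwards [hb] with e he p hp
    rw [Prod.norm_def]
    refine max_le_max (he _ hp.1) ?_
    rw [Real.norm_eq_abs, abs_le]
    exact ⟨by linarith [hp.2.1], hp.2.2.le⟩

theorem HA3_projs {V : Type} [NormedAddCommGroup V] [NormedSpace ℝ V] {Ω : ℝ → Set V}
    (hO : ∀ᶠ e in 𝓝[>] (0 : ℝ), IsOpen (Ω e)) {C : ℝ}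
    (hb : ∀ᶠ e in 𝓝[>] (0 : ℝ), ∀ x ∈ Ω e, ‖x‖ ≤ C) :
    Tame (fun e => Ω e ×ˢ Ioo (-1 : ℝ) 2) (fun _ (p : V × ℝ) => p.1) ∧
    Tame (fun e => Ω e ×ˢ Ioo (-1 : ℝ) 2) (fun _ (p : V × ℝ) => p.2) := by
  obtain ⟨h1, h2⟩ := HA3_prod hO hb
  have h3 : ∀ η : ℝ, 0 < η → ∀ᶠ e in 𝓝[>] (0 : ℝ), ∀ p ∈ Ω e ×ˢ Ioo (-1 : ℝ) 2,
      ‖p‖ ≤ e ^ (-η) := by
    intro η hη
    filter_upwards [h2, Slow.const (max C 2) η hη] with e he1 he2 p hp
    exact (he1 p hp).trans ((le_abs_self _).trans he2)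
  exact ⟨Tame.clm h1 (ContinuousLinearMap.fst ℝ V ℝ) h3,
    Tame.clm h1 (ContinuousLinearMap.snd ℝ V ℝ) h3⟩

theorem HA3_sinc {V : Type} [NormedAddCommGroup V] [NormedSpace ℝ V] {Ω : ℝ → Set V}
    {v : ℝ → V → ℝ} {C : ℝ}
    (hb : ∀ᶠ e in 𝓝[>] (0 : ℝ), ∀ x ∈ Ω e, ‖x‖ ≤ C) (hv : Tame Ω v) :
    Tame Ω (fun e x => HA3_S (v e x)) := by
  obtain ⟨hfst, hsnd⟩ := HA3_projs hv.isOpen hb
  have hvf : Tame (fun e => Ω e ×ˢ Ioo (-1 : ℝ) 2) (fun e (p : V × ℝ) => v e p.1) :=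
    Tame.comp hv hfst (Eventually.of_forall fun e p hp => hp.1)
  have h1 : Tame (fun e => Ω e ×ˢ Ioo (-1 : ℝ) 2)
      (fun e (p : V × ℝ) => Real.cos (p.2 * v e p.1)) := (hsnd.mul hvf).cos
  exact Tame.integral h1

theorem HA3_tJ {V : Type} [NormedAddCommGroup V] [NormedSpace ℝ V] {Ω : ℝ → Set V}
    {v : ℝ → V → ℝ} {C : ℝ}
    (hb : ∀ᶠ e in 𝓝[>] (0 : ℝ), ∀ x ∈ Ω e, ‖x‖ ≤ C) (hv : Tame Ω v) :
    Tame Ω (fun e x => HA3_J (v e x)) := by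
  obtain ⟨hfst, hsnd⟩ := HA3_projs hv.isOpen hb
  obtain ⟨-, hb2⟩ := HA3_prod hv.isOpen hb
  have hvf : Tame (fun e => Ω e ×ˢ Ioo (-1 : ℝ) 2) (fun e (p : V × ℝ) => v e p.1) :=
    Tame.comp hv hfst (Eventually.of_forall fun e p hp => hp.1)
  have h1 : Tame (fun e => Ω e ×ˢ Ioo (-1 : ℝ) 2)
      (fun e (p : V × ℝ) => HA3_S (p.2 * v e p.1)) := HA3_sinc hb2 (hsnd.mul hvf)
  have h2 : Tame (fun e => Ω e ×ˢ Ioo (-1 : ℝ) 2)
      (fun e (p : V × ℝ) => p.2 ^ 2 / 2 * HA3_S (p.2 * v e p.1) ^ 2) := by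
    refine (Tame.slow_mul (Slow.const (1 / 2)) ((hsnd.pow 2).mul (h1.pow 2))).congr
      (Eventually.of_forall fun e p _ => ?_)
    show p.2 ^ 2 / 2 * HA3_S (p.2 * v e p.1) ^ 2 =
      1 / 2 * (p.2 ^ 2 * HA3_S (p.2 * v e p.1) ^ 2)
    ring
  exact Tame.integral h2

theorem HA3_slow_e : Slow (fun e => e) := by
  refine Slow.of_bounded (C := 1) ?_
  filter_upwards [Ioo_mem_nhdsGT (show (0:ℝ) < 1 by norm_num)] with e he
  rw [abs_of_pos he.1]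
  exact he.2.le

theorem HA3_slow_sqrt : Slow (fun e => Real.sqrt e) := by
  refine Slow.of_bounded (C := 1) ?_
  filter_upwards [Ioo_mem_nhdsGT (show (0:ℝ) < 1 by norm_num)] with e he
  rw [abs_of_nonneg (Real.sqrt_nonneg e)]
  exact Real.sqrt_le_one.mpr he.2.le

theorem HA3_sqrt_smooth : ContDiffOn ℝ ∞ (fun u : ℝ => Real.sqrt (1 - u)) (Iio 1) := by
  refine ContDiffOn.sqrt (by fun_prop) ?_
  intro u hu
  have h : u < 1 := hu
  exact (sub_pos.mpr h).ne'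

theorem HA3_inv_smooth : ContDiffOn ℝ ∞ (fun u : ℝ => (1 + Real.sqrt (1 - u))⁻¹) (Iio 1) := by
  refine (contDiffOn_const.add HA3_sqrt_smooth).inv ?_
  intro u _
  have := Real.sqrt_nonneg (1 - u)
  positivity

/-- reflection: `refl (δ Y) (√e P) / √e = P - 2 μ w(Y) + μ² κ₅` -/
theorem refl_expansion {L A B : ℝ} {b1 b2 δ b : ℝ → ℝ} (hW : Walls L A B b1 b2)
    (hS : Scale b1 b2 δ) (hb : b = b1 ∨ b = b2) (k r : ℝ) :
    ∃ c5 : ℝ → ℝ × ℝ → ℝ, Tame (Box b1 b2 δ k r) c5 ∧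
      ∀ᶠ e in 𝓝[>] (0 : ℝ), ∀ p ∈ Box b1 b2 δ k r e,
        refl b (δ e * p.1) (Real.sqrt e * p.2) / Real.sqrt e =
          p.2 - 2 * mu δ e * ww δ b e p.1 + (mu δ e) ^ 2 * c5 e p := by
  have hw0 : Tame (Iset b1 b2 δ k) (ww δ b) := by
    rcases hb with rfl | rfl
    · exact (ww_tame hW hS k).1
    · exact (ww_tame hW hS k).2
  have hpos : ∀ᶠ e in 𝓝[>] (0 : ℝ), 0 < e := eventually_mem_nhdsWithin
  have hmul : ∀ e, 0 < e → 0 < δ e → ∀ y,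
      b (δ e * y) = Real.sqrt e * mu δ e * ww δ b e y := by
    intro e he hd y
    unfold mu ww
    have h1 : Real.sqrt e * Real.sqrt e = e := Real.mul_self_sqrt he.le
    field_simp
    rw [sq, h1]
  obtain ⟨C, hC⟩ := GP_Box_bound hW hS k r
  have hid := id_tame_Box hW hS k r
  have hX : Tame (Box b1 b2 δ k r) (fun _ (p : ℝ × ℝ) => p.1) := hid.fst
  have hP : Tame (Box b1 b2 δ k r) (fun _ (p : ℝ × ℝ) => p.2) := hid.snd
  have hw : Tame (Box b1 b2 δ k r) (fun e (p : ℝ × ℝ) => ww δ b e p.1) :=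
    Tame.comp hw0 hX (Eventually.of_forall fun e p hp => hp.1)
  have hmuslow : Slow (mu δ) := (mu_fast hS).slow
  have hv : Tame (Box b1 b2 δ k r) (fun e (p : ℝ × ℝ) => b (δ e * p.1)) := by
    refine (Tame.slow_mul (HA3_slow_sqrt.mul hmuslow) hw).congr ?_
    filter_upwards [hpos, hS.pos] with e he hd x _
    exact hmul e he hd x.1
  have hSv := HA3_sinc hC hv
  have hJv := HA3_tJ hC hv
  have hu : Tame (Box b1 b2 δ k r) (fun e (p : ℝ × ℝ) => e * p.2 ^ 2) :=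
    Tame.slow_mul HA3_slow_e (hP.pow 2)
  have hsmall : ∀ᶠ e in 𝓝[>] (0 : ℝ), ∀ p ∈ Box b1 b2 δ k r e,
      e * p.2 ^ 2 ∈ Icc (0:ℝ) (1 / 4) := by
    have hp : (0:ℝ) < 1 / (4 * (r ^ 2 + 1)) := by positivity
    filter_upwards [Ioo_mem_nhdsGT hp] with e he p hp
    have h1 : |p.2| < r := abs_lt.mpr ⟨hp.2.1, hp.2.2⟩
    have h2 : p.2 ^ 2 ≤ r ^ 2 := by
      rw [← sq_abs p.2]
      exact pow_le_pow_left₀ (abs_nonneg p.2) h1.le 2
    have h3 : e * (4 * (r ^ 2 + 1)) < 1 := by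
      have := he.2
      rwa [lt_div_iff₀ (by positivity)] at this
    have h4 : e * p.2 ^ 2 ≤ e * r ^ 2 := mul_le_mul_of_nonneg_left h2 he.1.le
    have h5 := he.1
    refine ⟨mul_nonneg he.1.le (sq_nonneg _), ?_⟩
    nlinarith [h3, h4, h5]
  have hs1 : Tame (Box b1 b2 δ k r) (fun e (p : ℝ × ℝ) => Real.sqrt (1 - e * p.2 ^ 2)) :=
    Tame.comp_fixed (K := Icc (0:ℝ) (1 / 4)) (O := Iio 1) isCompact_Icc isOpen_Iio
      (fun u hu => lt_of_le_of_lt hu.2 (by norm_num)) HA3_sqrt_smooth hu hsmall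
  have hs2 : Tame (Box b1 b2 δ k r)
      (fun e (p : ℝ × ℝ) => (1 + Real.sqrt (1 - e * p.2 ^ 2))⁻¹) :=
    Tame.comp_fixed (K := Icc (0:ℝ) (1 / 4)) (O := Iio 1) isCompact_Icc isOpen_Iio
      (fun u hu => lt_of_le_of_lt hu.2 (by norm_num)) HA3_inv_smooth hu hsmall
  refine ⟨fun e p => (-2 * e) * (ww δ b e p.1 ^ 2 * p.2 * HA3_S (b (δ e * p.1)) ^ 2) +
      (2 * (Real.sqrt e * (Real.sqrt e / mu δ e))) *
        (ww δ b e p.1 * p.2 ^ 2 * (1 + Real.sqrt (1 - e * p.2 ^ 2))⁻¹) +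
      (8 * (e * mu δ e)) *
        (ww δ b e p.1 ^ 3 * Real.sqrt (1 - e * p.2 ^ 2) * HA3_J (b (δ e * p.1))), ?_, ?_⟩
  · refine Tame.add (Tame.add ?_ ?_) ?_
    · exact Tame.slow_mul ((Slow.const (-2)).mul HA3_slow_e) (((hw.pow 2).mul hP).mul (hSv.pow 2))
    · exact Tame.slow_mul ((Slow.const 2).mul (HA3_slow_sqrt.mul (ratio_slow hS)))
        ((hw.mul (hP.pow 2)).mul hs2)
    · exact Tame.slow_mul ((Slow.const 8).mul (HA3_slow_e.mul hmuslow))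
        (((hw.pow 3).mul hs1).mul hJv)
  · filter_upwards [hpos, hS.pos, mu_pos hS, hsmall] with e he hd hm hsm p hp
    have hmu0 : mu δ e ≠ 0 := hm.1.ne'
    have hu1 := hsm p hp
    have hu2 : e * p.2 ^ 2 < 1 := lt_of_le_of_lt hu1.2 (by norm_num)
    have hsq : Real.sqrt e ^ 2 = e := Real.sq_sqrt he.le
    have hse : 0 < Real.sqrt e := Real.sqrt_pos.mpr he
    have h3 := hmul e he hd p.1
    unfold refl
    rw [mul_pow, hsq, HA3_S_cos, HA3_S_sin (2 * b (δ e * p.1)), HA3_J_eq]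
    obtain ⟨q, hq⟩ : ∃ q, q = Real.sqrt (1 - e * p.2 ^ 2) := ⟨_, rfl⟩
    have hq0 : 0 < q := by rw [hq]; exact Real.sqrt_pos.mpr (sub_pos.mpr hu2)
    have hq2 : q ^ 2 = 1 - e * p.2 ^ 2 := by rw [hq]; exact Real.sq_sqrt (sub_pos.mpr hu2).le
    rw [← hq]
    generalize HA3_S (b (δ e * p.1)) = S0
    generalize HA3_J (b (δ e * p.1)) = J0
    rw [h3]
    generalize ww δ b e p.1 = w
    obtain ⟨m, hmdef⟩ : ∃ m, m = mu δ e := ⟨_, rfl⟩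
    rw [← hmdef] at hmu0 ⊢
    generalize hsdef : Real.sqrt e = s at hsq hse ⊢
    have h1q : (1 + q) ≠ 0 := by positivity
    have hs0 : s ≠ 0 := hse.ne'
    subst hsq
    have e3 : s ^ 2 * p.2 ^ 2 * (1 + q)⁻¹ = 1 - q := by
      have : s ^ 2 * p.2 ^ 2 = (1 - q) * (1 + q) := by linear_combination hq2
      rw [this]
      field_simp
    have e1 : (s * p.2 * (1 - 2 * (s * m * w) ^ 2 * S0 ^ 2) -
        q * (2 * (s * m * w) * (1 - 4 * (s * m * w) ^ 2 * J0))) / s =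
        p.2 * (1 - 2 * (s * m * w) ^ 2 * S0 ^ 2) - q * (2 * (m * w) *
          (1 - 4 * (s * m * w) ^ 2 * J0)) := by
      field_simp
    rw [e1]
    have e2 : m ^ 2 * (2 * (s * (s / m)) * (w * p.2 ^ 2 * (1 + q)⁻¹)) = 2 * m * w * (1 - q) := by
      rw [← e3]
      field_simp
    linear_combination -e2

end BB
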