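import Pool.Agent.Lib_helper6.BB.W.HA1
import Pool.Agent.Lib_helper6.BB.W.HA2
import Pool.Agent.Lib_helper6.BB.W.TJ

open Filter Topology Set MeasureTheory
open scoped ContDiff

namespace BB

theorem Nl_exp {L A B : ℝ} {b1 b2 δ b : ℝ → ℝ} (hW : Walls L A B b1 b2)
    (hS : Scale b1 b2 δ) (hb : b = b1 ∨ b = b2) (k r : ℝ) :
    Exp (mu δ) (Box b1 b2 δ k r) (Nl L δ b) (fun _ p => p) (fun _ p => (-(L * p.2), 0)) := by
  obtain ⟨c1, c2, hc1, hc2, h12⟩ := wall_expansion hW hS hb k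
  obtain ⟨c3, c4, hc3, hc4, h34⟩ := mm_expansion hS L r
  have hid := id_tame_Box hW hS k r
  have hop := hid.isOpen
  have hm1 : ∀ᶠ e in 𝓝[>] (0 : ℝ), MapsTo (fun p : ℝ × ℝ => p.1) (Box b1 b2 δ k r e)
      (Iset b1 b2 δ k e) := Eventually.of_forall fun e p hp => hp.1
  have hm2 : ∀ᶠ e in 𝓝[>] (0 : ℝ), MapsTo (fun p : ℝ × ℝ => p.2) (Box b1 b2 δ k r e)
      (Ioo (-r) r) := Eventually.of_forall fun e p hp => hp.2
  have t1 : Tame (Box b1 b2 δ k r) (fun e p => c1 e p.1) := hc1.comp hid.fst hm1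
  have t2 : Tame (Box b1 b2 δ k r) (fun e p => c2 e p.1) := hc2.comp hid.fst hm1
  have t3 : Tame (Box b1 b2 δ k r) (fun e p => c3 e p.2) := hc3.comp hid.snd hm2
  have t4 : Tame (Box b1 b2 δ k r) (fun e p => c4 e p.2) := hc4.comp hid.snd hm2
  have hf1 : Tame (Box b1 b2 δ k r) (fun _ p => (-(L * p.2), (0 : ℝ))) :=
    ((Tame.slow_mul (Slow.const L) hid.snd).neg).prodMk (Tame.constFix hop (0 : ℝ))
  have hr : Tame (Box b1 b2 δ k r) (fun e p =>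
      (c1 e p.1 - c3 e p.2 + mu δ e * (c2 e p.1 * c4 e p.2), (0 : ℝ))) :=
    ((t1.sub t3).add (Tame.slow_mul (mu_fast hS).slow (t2.mul t4))).prodMk
      (Tame.constFix hop (0 : ℝ))
  refine ⟨hid, hf1, _, hr, ?_⟩
  filter_upwards [h12, h34, hS.pos] with e h1 h2 hd p hp
  obtain ⟨a1, a2⟩ := h1 p.1 hp.1
  obtain ⟨a3, a4⟩ := h2 p.2 hp.2
  have hd' : δ e ≠ 0 := hd.ne'
  unfold Nl
  refine Prod.ext ?_ ?_
  · show (hx b (δ e * p.1) - (L - hf b (δ e * p.1)) * mm (Real.sqrt e * p.2)) / δ e =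
      p.1 + mu δ e * (-(L * p.2)) +
        (mu δ e) ^ 2 * (c1 e p.1 - c3 e p.2 + mu δ e * (c2 e p.1 * c4 e p.2))
    have e1 : (hx b (δ e * p.1) - (L - hf b (δ e * p.1)) * mm (Real.sqrt e * p.2)) / δ e =
        hx b (δ e * p.1) / δ e - L / δ e * mm (Real.sqrt e * p.2) +
          hf b (δ e * p.1) / δ e * mm (Real.sqrt e * p.2) := by
      field_simp
      ring
    rw [e1, a1, a3, a2, a4]
    ring
  · show p.2 = p.2 + mu δ e * 0 + (mu δ e) ^ 2 * 0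
    ring

end BB
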