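import Pool.Agent.Lib_helper6.BB.Defs

open Filter Topology Set MeasureTheory
open scoped ContDiff

namespace BB

theorem HB2_mm {q : ℝ} (hq : |q| ≤ 1 / 2) : |mm q| ≤ 3 / 5 := by
  have h1 := abs_le.1 hq
  have hq2 : q ^ 2 ≤ 1 / 4 := by nlinarith
  have h2 : (5 / 6 : ℝ) ≤ Real.sqrt (1 - q ^ 2) := by
    apply Real.le_sqrt_of_sq_le
    linarith
  unfold mm
  rw [abs_div, abs_of_pos (by linarith : (0 : ℝ) < Real.sqrt (1 - q ^ 2)),
    div_le_iff₀ (by linarith)]
  linarith

theorem HB2_hx {b : ℝ → ℝ} (hb : Continuous b) (t : ℝ) : HasDerivAt (hx b) (Real.cos (b t)) t :=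
  ((Real.continuous_cos.comp hb).integral_hasStrictDerivAt 0 t).hasDerivAt

theorem HB2_hf {b : ℝ → ℝ} (hb : Continuous b) (t : ℝ) : HasDerivAt (hf b) (Real.sin (b t)) t :=
  ((Real.continuous_sin.comp hb).integral_hasStrictDerivAt 0 t).hasDerivAt

/-- the hitting point is unique -/
theorem hit_unique {L A B : ℝ} {b1 b2 b : ℝ → ℝ} (hW : Walls L A B b1 b2) (hb : b = b1 ∨ b = b2)
    {p : ℝ × ℝ} {t t' : ℝ} (hp : |p.2| ≤ 1 / 2) (h : IsHit L A B b p t) (h' : IsHit L A B b p t') :
    t = t' := by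
  have hcont : Continuous b := by
    rcases hb with rfl | rfl
    · exact hW.smooth1.continuous
    · exact hW.smooth2.continuous
  have hsm : ∀ x ∈ Icc (-A) B, |b x| ≤ 1 / 10 := by
    intro x hx
    rcases hb with rfl | rfl
    · exact (hW.small x hx).1
    · exact (hW.small x hx).2
  have hm := HB2_mm hp
  have hder : ∀ x, HasDerivAt (fun x => hx b x + hf b x * mm p.2)
      (Real.cos (b x) + Real.sin (b x) * mm p.2) x := fun x =>
    (HB2_hx hcont x).add ((HB2_hf hcont x).mul_const _)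
  have hmono : StrictMonoOn (fun x => hx b x + hf b x * mm p.2) (Ioo (-A) B) := by
    apply strictMonoOn_of_deriv_pos (convex_Ioo _ _)
    · exact fun x _ => (hder x).continuousAt.continuousWithinAt
    · intro x hx'
      rw [interior_Ioo] at hx'
      rw [(hder x).deriv]
      have h1 := hsm x ⟨hx'.1.le, hx'.2.le⟩
      have h2 : |Real.sin (b x)| ≤ 1 / 10 := (Real.abs_sin_le_abs).trans h1
      have h3 : 1 - (b x) ^ 2 / 2 ≤ Real.cos (b x) := Real.one_sub_sq_div_two_le_cos
      have h4 : (b x) ^ 2 ≤ 1 / 100 := by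
        have := abs_le.1 h1
        nlinarith
      have h5 : |Real.sin (b x) * mm p.2| ≤ 1 / 10 * (3 / 5) := by
        rw [abs_mul]
        exact mul_le_mul h2 hm (abs_nonneg _) (by norm_num)
      have := (abs_le.1 h5).1
      linarith
  refine hmono.injOn h.1 h'.1 ?_
  have e1 := h.2
  have e2 := h'.2
  show hx b t + hf b t * mm p.2 = hx b t' + hf b t' * mm p.2
  linarith
end BB
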