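import Pool.Agent.Lib_helper6.BB.Tame
import Pool.Agent.Lib_helper6.BB.W.TG
import Pool.Agent.Lib_helper6.BB.W.TJ

/-!
# BB, block TK: the inverse of a near identity map
-/

open Filter Topology Set
open scoped ContDiff

namespace BB

theorem TK_pos : ∀ᶠ e in 𝓝[>] (0 : ℝ), 0 < e := self_mem_nhdsWithin

theorem TK_ins_subset {V : Type} [NormedAddCommGroup V] {Ω Ω' : ℝ → Set V} (hI : Ins Ω Ω') :
    ∀ᶠ e in 𝓝[>] (0 : ℝ), Ω e ⊆ Ω' e := by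
  filter_upwards [hI 1 one_pos, TK_pos] with e he hpos x hx
  exact he x hx (Metric.mem_ball_self (Real.rpow_pos_of_pos hpos 1))

/-- the determinant is at least `1/2` near the identity -/
theorem TK_det : ∃ ε : ℝ, 0 < ε ∧ ∀ A : (ℝ × ℝ) →L[ℝ] (ℝ × ℝ),
    ‖A - ContinuousLinearMap.id ℝ (ℝ × ℝ)‖ < ε → 1 / 2 ≤ |A.det| := by
  have hc : Continuous fun A : (ℝ × ℝ) →L[ℝ] (ℝ × ℝ) => |A.det| :=
    continuous_abs.comp ContinuousLinearMap.continuous_det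
  have h1 : |(ContinuousLinearMap.id ℝ (ℝ × ℝ)).det| = 1 := by
    have : (ContinuousLinearMap.id ℝ (ℝ × ℝ)).det = 1 := by
      unfold ContinuousLinearMap.det
      simp
    rw [this, abs_one]
  have h2 := Metric.continuous_iff.1 hc (ContinuousLinearMap.id ℝ (ℝ × ℝ)) (1 / 2) (by norm_num)
  obtain ⟨ε, hε, h⟩ := h2
  refine ⟨ε, hε, fun A hA => ?_⟩
  have h3 := h A (by rwa [dist_eq_norm])
  rw [h1, Real.dist_eq, abs_lt] at h3
  linarith [h3.1]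

theorem TK_rpow_le {η c : ℝ} (hη : 0 < η) (hc : 0 < c) :
    ∀ᶠ e in 𝓝[>] (0 : ℝ), e ^ η ≤ c := by
  have h : Tendsto (fun e : ℝ => e ^ η) (𝓝[>] 0) (𝓝 0) := by
    have h0 : ContinuousAt (fun e : ℝ => e ^ η) 0 :=
      Real.continuousAt_rpow_const 0 η (Or.inr hη.le)
    have h1 : Tendsto (fun e : ℝ => e ^ η) (𝓝 0) (𝓝 ((0 : ℝ) ^ η)) := h0
    rw [Real.zero_rpow hη.ne'] at h1
    exact h1.mono_left nhdsWithin_le_nhds
  exact (h.eventually (gt_mem_nhds hc)).mono fun e he => he.le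

/-- inverse of a near identity map: `N = id + m n + O(m ^ 2)` on `Ω'`, `Ω ⋐ Ω'`, `Ψ` the inverse of `N`
(`N e (Ψ e x) = x` and `Ψ e x ∈ Ω' e` for `x ∈ Ω e`, `N e` injective on `Ω' e`): then `Ψ = id - m n + O(m ^ 2)`. -/
theorem Exp.nearInverse {m : ℝ → ℝ} (hm : Fast m) {Ω Ω' : ℝ → Set (ℝ × ℝ)}
    {N n Ψ : ℝ → ℝ × ℝ → ℝ × ℝ} (hN : Exp m Ω' N (fun _ x => x) n)
    (hΩ : ∀ᶠ e in 𝓝[>] (0 : ℝ), IsOpen (Ω e)) (hI : Ins Ω Ω')
    (hinj : ∀ᶠ e in 𝓝[>] (0 : ℝ), InjOn (N e) (Ω' e))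
    (h1 : ∀ᶠ e in 𝓝[>] (0 : ℝ), ∀ x ∈ Ω e, Ψ e x ∈ Ω' e ∧ N e (Ψ e x) = x) :
    Exp m Ω Ψ (fun _ x => x) (fun e x => - n e x) := by
  have hNt : Tame Ω' N := hN.tame hm
  have hsub : ∀ᶠ e in 𝓝[>] (0 : ℝ), Ω e ⊆ Ω' e := TK_ins_subset hI
  have hmono : ∀ᶠ e in 𝓝[>] (0 : ℝ), IsOpen (Ω e) ∧ Ω e ⊆ Ω' e := hΩ.and hsub
  obtain ⟨hid, hn, r, hr, hNe⟩ := hN
  have hw : Tame Ω' (fun e x => n e x + m e • r e x) := hn.add (Tame.slow_smul hm.slow hr)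
  -- the domain on which the inverse function is applied
  set Ω1 : ℝ → Set (ℝ × ℝ) := fun e => Ω' e ∩ N e ⁻¹' Ω e with hΩ1
  have hopen1 : ∀ᶠ e in 𝓝[>] (0 : ℝ), IsOpen (Ω1 e) ∧ Ω1 e ⊆ Ω' e := by
    filter_upwards [hNt.1, hΩ] with e he hΩe
    exact ⟨he.2.continuousOn.isOpen_inter_preimage he.1 hΩe, inter_subset_left⟩
  have himage : ∀ᶠ e in 𝓝[>] (0 : ℝ), N e '' Ω1 e = Ω e := by
    filter_upwards [h1] with e he
    apply Subset.antisymm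
    · rintro _ ⟨y, hy, rfl⟩
      exact hy.2
    · intro x hx
      obtain ⟨hx1, hx2⟩ := he x hx
      refine ⟨Ψ e x, ⟨hx1, ?_⟩, hx2⟩
      change N e (Ψ e x) ∈ Ω e
      rwa [hx2]
  have hinv : ∀ᶠ e in 𝓝[>] (0 : ℝ), ∀ x ∈ Ω1 e, Ψ e (N e x) = x := by
    filter_upwards [h1, hinj] with e he hie x hx
    obtain ⟨hx1, hx2⟩ := he (N e x) hx.2
    exact hie hx1 hx.1 hx2
  -- the Jacobian
  have hfd : ∀ᶠ e in 𝓝[>] (0 : ℝ), ∀ x ∈ Ω' e,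
      fderiv ℝ (N e) x - ContinuousLinearMap.id ℝ (ℝ × ℝ) =
        m e • fderiv ℝ (fun y => n e y + m e • r e y) x := by
    filter_upwards [hNe, hw.1] with e he hwe x hx
    have hnhds : Ω' e ∈ 𝓝 x := hwe.1.mem_nhds hx
    have hEq : N e =ᶠ[𝓝 x] fun y => y + m e • (n e y + m e • r e y) := by
      filter_upwards [hnhds] with y hy
      rw [he y hy, smul_add, smul_smul, ← pow_two, add_assoc]
    have hdiff : DifferentiableAt ℝ (fun y => n e y + m e • r e y) x :=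
      (hwe.2.contDiffAt hnhds).differentiableAt (by simp)
    have hd : HasFDerivAt (fun y => y + m e • (n e y + m e • r e y))
        (ContinuousLinearMap.id ℝ (ℝ × ℝ) + m e • fderiv ℝ (fun y => n e y + m e • r e y) x) x :=
      (hasFDerivAt_id x).add (hdiff.hasFDerivAt.const_smul (m e))
    rw [hEq.fderiv_eq, hd.fderiv]
    abel
  obtain ⟨κ, hκ, hmκ⟩ := hm
  have hm' : Fast m := ⟨κ, hκ, hmκ⟩
  obtain ⟨ε, hε, hdetε⟩ := TK_det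
  have hhalf : ∀ᶠ e in 𝓝[>] (0 : ℝ), ∀ x ∈ Ω' e, 1 / 2 ≤ |(fderiv ℝ (N e) x).det| := by
    filter_upwards [hfd, hw.fd.bound0 (half_pos hκ), hmκ,
      TK_rpow_le (half_pos hκ) (half_pos hε), TK_pos] with e e1 e2 e3 e4 e5 x hx
    apply hdetε
    rw [e1 x hx, norm_smul]
    have h2 : ‖m e‖ ≤ e ^ κ := by
      rw [Real.norm_eq_abs]
      exact e3
    have h3 := e2 x hx
    have h4 : e ^ κ * e ^ (-(κ / 2)) = e ^ (κ / 2) := by
      rw [← Real.rpow_add e5]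
      congr 1
      ring
    have h5 : ‖m e‖ * ‖fderiv ℝ (fun y => n e y + m e • r e y) x‖ ≤ e ^ κ * e ^ (-(κ / 2)) :=
      mul_le_mul h2 h3 (norm_nonneg _) (Real.rpow_nonneg e5.le _)
    rw [h4] at h5
    linarith
  have hdet : ∀ η : ℝ, 0 < η → ∀ᶠ e in 𝓝[>] (0 : ℝ), ∀ x ∈ Ω1 e,
      e ^ η ≤ |(fderiv ℝ (N e) x).det| := by
    intro η hη
    filter_upwards [hhalf, TK_rpow_le hη (by norm_num : (0 : ℝ) < 1 / 2)] with e e1 e2 x hx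
    exact e2.trans (e1 x hx.1)
  have hb : ∀ η : ℝ, 0 < η → ∀ᶠ e in 𝓝[>] (0 : ℝ), ∀ x ∈ Ω1 e, ‖x‖ ≤ e ^ (-η) := by
    intro η hη
    filter_upwards [hid.bound0 hη] with e e1 x hx
    exact e1 x hx.1
  have hΨ1 : Tame (fun e => N e '' Ω1 e) Ψ :=
    Tame.inverse (hNt.mono hopen1) hinv hdet hb
  have hΨ : Tame Ω Ψ := by
    refine hΨ1.mono ?_
    filter_upwards [hΩ, himage] with e e1 e2
    exact ⟨e1, e2.symm.subset⟩
  -- `Ψ = id + m w`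
  have hmapsΨ : ∀ᶠ e in 𝓝[>] (0 : ℝ), MapsTo (Ψ e) (Ω e) (Ω' e) := by
    filter_upwards [h1] with e he x hx
    exact (he x hx).1
  have hnΨ : Tame Ω (fun e x => n e (Ψ e x)) := Tame.comp hn hΨ hmapsΨ
  have hrΨ : Tame Ω (fun e x => r e (Ψ e x)) := Tame.comp hr hΨ hmapsΨ
  have hwΨ : Tame Ω (fun e x => -(n e (Ψ e x) + m e • r e (Ψ e x))) :=
    (hnΨ.add (Tame.slow_smul hm'.slow hrΨ)).neg
  have hidΩ : Tame Ω (fun _ x => x) := hid.mono hmono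
  obtain ⟨k, hk, hk'⟩ := Tame.taylor1 hm' hn hidΩ hwΨ hI
  refine ⟨hidΩ, (hn.mono hmono).neg, fun e x => -k e x - r e (Ψ e x), hk.neg.sub hrΨ, ?_⟩
  filter_upwards [h1, hNe, hk'] with e e1 e2 e3 x hx
  obtain ⟨hx1, hx2⟩ := e1 x hx
  have h3 := e2 (Ψ e x) hx1
  rw [hx2] at h3
  have h4 : Ψ e x = x + m e • (-(n e (Ψ e x) + m e • r e (Ψ e x))) := by
    rw [smul_neg, smul_add, smul_smul, ← pow_two]
    nth_rewrite 2 [h3]
    abel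
  have h5 := e3 x hx
  rw [← h4] at h5
  rw [h5] at h4
  refine h4.trans ?_
  simp only [smul_neg, smul_add, smul_sub, smul_smul, pow_two]
  abel

end BB
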