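import Pool.Agent.Lib_helper6.BB.W.HB1
import Pool.Agent.Lib_helper6.BB.W.HB2
import Pool.Agent.Lib_helper6.BB.W.NI
import Pool.Agent.Lib_helper6.BB.W.TK

open Filter Topology Set MeasureTheory
open scoped ContDiff

namespace BB

/-- intermediate value theorem for a function close to the identity -/
theorem HB3_ivt {φ : ℝ → ℝ} {X s : ℝ} (hs : 0 < s) (hc : ContinuousOn φ (Icc (X - s) (X + s)))
    (h : ∀ Y ∈ Icc (X - s) (X + s), |φ Y - Y| < s) : ∃ Y ∈ Icc (X - s) (X + s), φ Y = X := by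
  have hle : X - s ≤ X + s := by linarith
  have h1 := h (X - s) ⟨le_rfl, hle⟩
  have h2 := h (X + s) ⟨hle, le_rfl⟩
  rw [abs_lt] at h1 h2
  have hmem : X ∈ Icc (φ (X - s)) (φ (X + s)) := ⟨by linarith, by linarith⟩
  obtain ⟨Y, hY, hYX⟩ := intermediate_value_Icc hle hc hmem
  exact ⟨Y, hY, hYX⟩

theorem HB3_pow_pos : ∀ᶠ e in 𝓝[>] (0 : ℝ), 0 < e ∧ e < 1 := by
  filter_upwards [self_mem_nhdsWithin, Ioo_mem_nhdsGT (show (0 : ℝ) < 1 by norm_num)] with e h1 h2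
  exact ⟨h1, h2.2⟩

/-- small powers are eventually small -/
theorem HB3_small {κ : ℝ} (hκ : 0 < κ) {c : ℝ} (hc : 0 < c) :
    ∀ᶠ e in 𝓝[>] (0 : ℝ), e ^ κ < c := by
  have h1 : Tendsto (fun e : ℝ => e ^ κ) (𝓝[>] 0) (𝓝 0) := by
    have h2 : ContinuousAt (fun e : ℝ => e ^ κ) 0 :=
      Real.continuousAt_rpow_const 0 κ (Or.inr hκ.le)
    have h3 := h2.tendsto
    rw [Real.zero_rpow hκ.ne'] at h3
    exact h3.mono_left nhdsWithin_le_nhds
  exact h1.eventually (eventually_lt_nhds hc)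

/-- existence of the scaled hitting point -/
theorem HB3_exists {L A B : ℝ} {b1 b2 δ b : ℝ → ℝ} (hW : Walls L A B b1 b2)
    (hS : Scale b1 b2 δ) (hb : b = b1 ∨ b = b2) (k : ℝ) :
    ∀ᶠ e in 𝓝[>] (0 : ℝ), ∀ p ∈ Reg L b1 b2 δ k e,
      ∃ Y : ℝ, (Y, p.2) ∈ Box b1 b2 δ (k / 2 + 1) (Real.sqrt (k / L) + 1) e ∧
        Nl L δ b e (Y, p.2) = p := by
  have hE := Nl_exp hW hS hb (k / 2 + 1) (Real.sqrt (k / L) + 1)
  have hT := hE.tame (mu_fast hS)
  obtain ⟨-, hf1, r, hr, hexp⟩ := hE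
  obtain ⟨κ, hκ, hmu⟩ := mu_fast hS
  have hI := Reg_ins_Box (k := k) (k' := k / 2 + 1) (r := Real.sqrt (k / L) + 1) hW hS
    (by linarith) (by linarith)
  have hb1 := hf1.bound0 (η := κ / 4) (by linarith)
  have hb2 := hr.bound0 (η := κ / 4) (by linarith)
  filter_upwards [hexp, hmu, hI (κ / 4) (by linarith), hb1, hb2, HB3_pow_pos, mu_pos hS,
    HB3_small (κ := κ / 4) (by linarith) (show (0 : ℝ) < 1 / 2 by norm_num), hT.1] with
    e h1 h2 h3 h4 h5 he hmp hsm hT1 p hp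
  obtain ⟨he0, he1⟩ := he
  have hs : 0 < e ^ (κ / 2) := Real.rpow_pos_of_pos he0 _
  have hlt : e ^ (κ / 2) < e ^ (κ / 4) :=
    Real.rpow_lt_rpow_of_exponent_gt he0 he1 (by linarith)
  have hin : ∀ Y ∈ Icc (p.1 - e ^ (κ / 2)) (p.1 + e ^ (κ / 2)),
      (Y, p.2) ∈ Box b1 b2 δ (k / 2 + 1) (Real.sqrt (k / L) + 1) e := by
    intro Y hY
    apply h3 p hp
    rw [Metric.mem_ball, Prod.dist_eq]
    have h6 : dist Y p.1 < e ^ (κ / 4) := by
      rw [Real.dist_eq, abs_lt]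
      constructor <;> linarith [hY.1, hY.2]
    have h7 : dist p.2 p.2 < e ^ (κ / 4) := by
      rw [dist_self]
      exact Real.rpow_pos_of_pos he0 _
    exact max_lt h6 h7
  have hc : ContinuousOn (fun Y : ℝ => (Nl L δ b e (Y, p.2)).1)
      (Icc (p.1 - e ^ (κ / 2)) (p.1 + e ^ (κ / 2))) := by
    have h6 := hT1.2.continuousOn
    have h7 : ContinuousOn (fun Y : ℝ => ((Y, p.2) : ℝ × ℝ))
        (Icc (p.1 - e ^ (κ / 2)) (p.1 + e ^ (κ / 2))) := by fun_prop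
    exact continuous_fst.comp_continuousOn (h6.comp h7 hin)
  have hclose : ∀ Y ∈ Icc (p.1 - e ^ (κ / 2)) (p.1 + e ^ (κ / 2)),
      |(Nl L δ b e (Y, p.2)).1 - Y| < e ^ (κ / 2) := by
    intro Y hY
    have hmem := hin Y hY
    have h6 := h1 _ hmem
    have h7 := h4 _ hmem
    have h8 := h5 _ hmem
    have h9 : (Nl L δ b e (Y, p.2)).1 - Y =
        mu δ e * (-(L * p.2)) + (mu δ e) ^ 2 * (r e (Y, p.2)).1 := by
      rw [h6]
      show Y + mu δ e * (-(L * p.2)) + (mu δ e) ^ 2 * (r e (Y, p.2)).1 - Y = _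
      ring
    have a1 : |-(L * p.2)| ≤ e ^ (-(κ / 4)) := by
      refine le_trans ?_ h7
      have := norm_fst_le ((-(L * p.2), 0) : ℝ × ℝ)
      simpa using this
    have a2 : |(r e (Y, p.2)).1| ≤ e ^ (-(κ / 4)) := by
      refine le_trans ?_ h8
      have := norm_fst_le (r e (Y, p.2))
      rwa [Real.norm_eq_abs] at this
    have a3 : |mu δ e| ≤ e ^ κ := h2
    have hK : 0 < e ^ κ := Real.rpow_pos_of_pos he0 _
    have hK1 : e ^ κ ≤ 1 := Real.rpow_le_one he0.le he1.le hκ.le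
    have hP : 0 < e ^ (-(κ / 4)) := Real.rpow_pos_of_pos he0 _
    rw [h9]
    have b1 : |mu δ e * (-(L * p.2)) + (mu δ e) ^ 2 * (r e (Y, p.2)).1| ≤
        e ^ κ * e ^ (-(κ / 4)) + e ^ κ * e ^ (-(κ / 4)) := by
      refine (abs_add_le _ _).trans (add_le_add ?_ ?_)
      · rw [abs_mul]
        exact mul_le_mul a3 a1 (abs_nonneg _) hK.le
      · rw [abs_mul, abs_pow]
        have h10 : |mu δ e| ^ 2 ≤ e ^ κ := by
          have h11 : 0 ≤ |mu δ e| := abs_nonneg _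
          nlinarith
        exact mul_le_mul h10 a2 (abs_nonneg _) hK.le
    have b2 : e ^ κ * e ^ (-(κ / 4)) = e ^ (κ / 2) * e ^ (κ / 4) := by
      rw [← Real.rpow_add he0, ← Real.rpow_add he0]
      congr 1
      ring
    rw [b2] at b1
    refine b1.trans_lt ?_
    nlinarith
  obtain ⟨Y, hY, hYX⟩ := HB3_ivt hs hc hclose
  exact ⟨Y, hin Y hY, Prod.ext hYX rfl⟩

/-- hits exist for the lines of `Reg k`; the scaled hitting point lies in `Box (k/2+1) (sqrt(k/L)+1)` -/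
theorem hit_scaled {L A B : ℝ} {b1 b2 δ b : ℝ → ℝ} (hW : Walls L A B b1 b2)
    (hS : Scale b1 b2 δ) (hb : b = b1 ∨ b = b2) (k : ℝ) :
    ∀ᶠ e in 𝓝[>] (0 : ℝ), ∀ p ∈ Reg L b1 b2 δ k e,
      IsHit L A B b (sc δ e p) (hit L A B b (sc δ e p)) ∧
      (hit L A B b (sc δ e p) / δ e, p.2) ∈ Box b1 b2 δ (k / 2 + 1) (Real.sqrt (k / L) + 1) e ∧
      Nl L δ b e (hit L A B b (sc δ e p) / δ e, p.2) = p := by
  set M := Real.sqrt (k / L) + 1 with hM
  have hM0 : 0 < M := by positivity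
  have hsm : ∀ᶠ e in 𝓝[>] (0 : ℝ), e ^ (1 / 2 : ℝ) < 1 / (2 * M) :=
    HB3_small (κ := 1 / 2) (by norm_num) (by positivity)
  filter_upwards [HB3_exists hW hS hb k, hS.pos, Iset_in (δ := δ) hW (k / 2 + 1), HB3_pow_pos,
    hsm] with e h1 hd h2 he h3 p hp
  obtain ⟨Y, hY1, hY2⟩ := h1 p hp
  have hd' : δ e ≠ 0 := hd.ne'
  have hhit : IsHit L A B b (sc δ e p) (δ e * Y) := by
    refine ⟨h2 Y hY1.1, ?_⟩
    have h4 := congrArg Prod.fst hY2
    have h5 : (hx b (δ e * Y) - (L - hf b (δ e * Y)) * mm (Real.sqrt e * p.2)) / δ e = p.1 := h4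
    rw [div_eq_iff hd'] at h5
    show hx b (δ e * Y) = δ e * p.1 + (L - hf b (δ e * Y)) * mm (Real.sqrt e * p.2)
    linarith
  have hex : ∃ t, IsHit L A B b (sc δ e p) t := ⟨_, hhit⟩
  have hch : IsHit L A B b (sc δ e p) (hit L A B b (sc δ e p)) := by
    unfold hit
    rw [dif_pos hex]
    exact hex.choose_spec
  have hsmall : |(sc δ e p).2| ≤ 1 / 2 := by
    show |Real.sqrt e * p.2| ≤ 1 / 2
    have h4 : |p.2| < M := by
      have := hY1.2
      rw [abs_lt]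
      exact this
    rw [abs_mul, abs_of_nonneg (Real.sqrt_nonneg e), Real.sqrt_eq_rpow]
    calc e ^ (1 / 2 : ℝ) * |p.2| ≤ (1 / (2 * M)) * M := by
          apply mul_le_mul h3.le h4.le (abs_nonneg _) (by positivity)
      _ = 1 / 2 := by field_simp
  have huniq := hit_unique hW hb hsmall hch hhit
  have hYe : hit L A B b (sc δ e p) / δ e = Y := by
    rw [huniq]
    field_simp
  rw [hYe]
  exact ⟨hch, hY1, hY2⟩

/-- expansion of the scaled hitting point -/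
theorem hit_exp {L A B : ℝ} {b1 b2 δ b : ℝ → ℝ} (hW : Walls L A B b1 b2)
    (hS : Scale b1 b2 δ) (hb : b = b1 ∨ b = b2) (k : ℝ) :
    Exp (mu δ) (Reg L b1 b2 δ k) (fun e p => (hit L A B b (sc δ e p) / δ e, p.2))
      (fun _ p => p) (fun _ p => (L * p.2, 0)) := by
  have hE := Nl_exp hW hS hb (k / 2 + 1) (Real.sqrt (k / L) + 1)
  have hI := Reg_ins_Box (k := k) (k' := k / 2 + 1) (r := Real.sqrt (k / L) + 1) hW hS
    (by linarith) (by linarith)
  have hconv : ∀ᶠ e in 𝓝[>] (0 : ℝ),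
      Convex ℝ (Box b1 b2 δ (k / 2 + 1) (Real.sqrt (k / L) + 1) e) := by
    filter_upwards [HB3_pow_pos] with e he
    exact (Iset_ordConnected hW (k / 2 + 1) he.1).convex.prod (convex_Ioo _ _)
  have hinj : ∀ᶠ e in 𝓝[>] (0 : ℝ),
      InjOn (Nl L δ b e) (Box b1 b2 δ (k / 2 + 1) (Real.sqrt (k / L) + 1) e) := by
    filter_upwards [near_id_injOn (mu_fast hS) hE hconv] with e h
    exact h.1
  have h1 := Exp.nearInverse (Ψ := fun e p => (hit L A B b (sc δ e p) / δ e, p.2))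
    (mu_fast hS) hE (Eventually.of_forall fun e => Reg_open hW k e) hI hinj
    (by
      filter_upwards [hit_scaled hW hS hb k] with e h p hp
      exact ⟨(h p hp).2.1, (h p hp).2.2⟩)
  refine h1.congr (Eventually.of_forall fun e p _ => rfl) (Eventually.of_forall fun e p _ => rfl)
    (Eventually.of_forall fun e p _ => ?_)
  show (L * p.2, (0 : ℝ)) = -(-(L * p.2), (0 : ℝ))
  rw [Prod.neg_mk, neg_neg, neg_zero]

end BB
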