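import Pool.Agent.Lib_helper6.BB.W.HB3
import Pool.Agent.Lib_helper6.BB.W.HA3

open Filter Topology Set MeasureTheory
open scoped ContDiff

namespace BB

/-- the outgoing scaled line as a function of the scaled wall point and the scaled direction -/
noncomputable def HC1_G (δ b : ℝ → ℝ) (e : ℝ) (p : ℝ × ℝ) : ℝ × ℝ :=
  ((hx b (δ e * p.1) - hf b (δ e * p.1) * mm (refl b (δ e * p.1) (Real.sqrt e * p.2))) / δ e,
    refl b (δ e * p.1) (Real.sqrt e * p.2) / Real.sqrt e)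

theorem HC1_pos : ∀ᶠ e in 𝓝[>] (0 : ℝ), 0 < e := eventually_mem_nhdsWithin

theorem HC1_small {η : ℝ} (hη : 0 < η) : ∀ᶠ e in 𝓝[>] (0 : ℝ), e ^ η < 1 := by
  filter_upwards [Ioo_mem_nhdsGT (show (0 : ℝ) < 1 by norm_num)] with e he
  exact Real.rpow_lt_one he.1.le he.2 hη

theorem HC1_ww {L A B : ℝ} {b1 b2 δ b : ℝ → ℝ} (hW : Walls L A B b1 b2)
    (hS : Scale b1 b2 δ) (hb : b = b1 ∨ b = b2) (k : ℝ) : Tame (Iset b1 b2 δ k) (ww δ b) := by
  rcases hb with h | h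
  · rw [h]; exact (ww_tame hW hS k).1
  · rw [h]; exact (ww_tame hW hS k).2

theorem HC1_G_exp {L A B : ℝ} {b1 b2 δ b : ℝ → ℝ} (hW : Walls L A B b1 b2)
    (hS : Scale b1 b2 δ) (hb : b = b1 ∨ b = b2) (k r : ℝ) :
    Exp (mu δ) (Box b1 b2 δ k r) (HC1_G δ b)
      (fun _ p => p) (fun e p => ((0 : ℝ), -(2 * ww δ b e p.1))) := by
  have hm : Fast (mu δ) := mu_fast hS
  obtain ⟨c1, c2, hc1, hc2, hc12⟩ := wall_expansion hW hS hb k
  obtain ⟨c5, hc5, hc5'⟩ := refl_expansion hW hS hb k r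
  obtain ⟨c3, c4, hc3, hc4, hc34⟩ := mm_expansion hS L (r + 1)
  have hid : Tame (Box b1 b2 δ k r) (fun _ p => p) := id_tame_Box hW hS k r
  have hfst : Tame (Box b1 b2 δ k r) (fun _ p => p.1) := hid.fst
  have hsnd : Tame (Box b1 b2 δ k r) (fun _ p => p.2) := hid.snd
  have hmaps : ∀ᶠ e in 𝓝[>] (0 : ℝ),
      MapsTo (fun p : ℝ × ℝ => p.1) (Box b1 b2 δ k r e) (Iset b1 b2 δ k e) :=
    Eventually.of_forall fun e p hp => hp.1
  have hwT : Tame (Box b1 b2 δ k r) (fun e p => ww δ b e p.1) :=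
    Tame.comp (HC1_ww hW hS hb k) hfst hmaps
  have hw2 : Tame (Box b1 b2 δ k r) (fun e p => -(2 * ww δ b e p.1)) :=
    (Tame.slow_mul (Slow.const 2) hwT).neg
  have hc1T : Tame (Box b1 b2 δ k r) (fun e p => c1 e p.1) := Tame.comp hc1 hfst hmaps
  have hc2T : Tame (Box b1 b2 δ k r) (fun e p => c2 e p.1) := Tame.comp hc2 hfst hmaps
  have h0T : Tame (Box b1 b2 δ k r) (fun _ _ => (0 : ℝ)) := Tame.constFix hid.isOpen 0
  have hρ : Exp (mu δ) (Box b1 b2 δ k r)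
      (fun e p => refl b (δ e * p.1) (Real.sqrt e * p.2) / Real.sqrt e)
      (fun _ p => p.2) (fun e p => -(2 * ww δ b e p.1)) := by
    refine ⟨hsnd, hw2, c5, hc5, ?_⟩
    filter_upwards [hc5'] with e he p hp
    rw [he p hp]
    simp only [smul_eq_mul]
    ring
  have hρT := hρ.tame hm
  have hIns : InsMap (fun (_ : ℝ) (p : ℝ × ℝ) => p.2) (Box b1 b2 δ k r)
      (fun _ => Ioo (-(r + 1)) (r + 1)) := by
    intro η hη
    filter_upwards [HC1_small hη] with e he p hp x hx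
    rw [Metric.mem_ball, Real.dist_eq, abs_lt] at hx
    have h2 := hp.2
    rw [mem_Ioo] at h2
    exact ⟨by linarith [hx.1], by linarith [hx.2]⟩
  have hρmaps := hρ.maps hm hIns
  have hc4T : Tame (Box b1 b2 δ k r)
      (fun e p => c4 e (refl b (δ e * p.1) (Real.sqrt e * p.2) / Real.sqrt e)) :=
    Tame.comp hc4 hρT hρmaps
  have hr1 : Tame (Box b1 b2 δ k r) (fun e p => c1 e p.1 - mu δ e * (c2 e p.1 *
      c4 e (refl b (δ e * p.1) (Real.sqrt e * p.2) / Real.sqrt e))) :=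
    hc1T.sub (Tame.slow_mul hm.slow (hc2T.mul hc4T))
  refine ⟨hid, h0T.prodMk hw2, _, hr1.prodMk hc5, ?_⟩
  filter_upwards [hc12, hc5', hc34, hρmaps, HC1_pos, hS.pos] with e h12 h5 h34 hmp he hd p hp
  have hsq : 0 < Real.sqrt e := Real.sqrt_pos.mpr he
  obtain ⟨a1, a2⟩ := h12 p.1 hp.1
  have a5 := h5 p hp
  have a4 := (h34 _ (hmp hp)).2
  have hre : Real.sqrt e * (refl b (δ e * p.1) (Real.sqrt e * p.2) / Real.sqrt e) =
      refl b (δ e * p.1) (Real.sqrt e * p.2) := by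
    field_simp
  rw [hre] at a4
  unfold HC1_G
  rw [Prod.ext_iff]
  constructor
  · simp only [Prod.fst_add, Prod.smul_fst, smul_eq_mul, mul_zero, add_zero]
    rw [a4, sub_div, a1]
    have h3 : hf b (δ e * p.1) * (mu δ e * c4 e
        (refl b (δ e * p.1) (Real.sqrt e * p.2) / Real.sqrt e)) / δ e =
        (hf b (δ e * p.1) / δ e) * (mu δ e * c4 e
          (refl b (δ e * p.1) (Real.sqrt e * p.2) / Real.sqrt e)) := by ring
    rw [h3, a2]
    ring
  · simp only [Prod.snd_add, Prod.smul_snd, smul_eq_mul]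
    rw [a5]
    ring

/-- expansion of the scaled one wall map -/
theorem Ss_exp {L A B : ℝ} {b1 b2 δ b : ℝ → ℝ} (hW : Walls L A B b1 b2)
    (hS : Scale b1 b2 δ) (hb : b = b1 ∨ b = b2) (k : ℝ) :
    Exp (mu δ) (Reg L b1 b2 δ k) (Ss L A B δ b)
      (fun _ p => p) (fun e p => (L * p.2, -(2 * ww δ b e p.1))) := by
  have hm : Fast (mu δ) := mu_fast hS
  have hG := HC1_G_exp hW hS hb (k / 2 + 1) (Real.sqrt (k / L) + 1)
  have hH := hit_exp hW hS hb k
  have hI : InsMap (fun (_ : ℝ) (p : ℝ × ℝ) => p) (Reg L b1 b2 δ k)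
      (Box b1 b2 δ (k / 2 + 1) (Real.sqrt (k / L) + 1)) :=
    Reg_ins_Box hW hS (by linarith) (by linarith)
  have h := Exp.comp hm hG hH hI
  refine h.congr ?_ ?_ ?_
  · filter_upwards [hS.pos] with e hd p _
    have h1 : δ e * (hit L A B b (sc δ e p) / δ e) = hit L A B b (sc δ e p) := by
      field_simp
    unfold Ss HC1_G Smap outLine sci
    simp only [h1]
    rfl
  · exact Eventually.of_forall fun e p _ => rfl
  · refine Eventually.of_forall fun e p _ => ?_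
    simp

end BB
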