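import Mathlib

open Filter Topology Set
open scoped ContDiff

namespace BB

/-- the coefficients of a polynomial are bounded by its values -/
theorem LK_coeff (m : ℕ) (hm : 1 ≤ m) : ∃ C : ℝ, 0 < C ∧ ∀ (c : Fin m → ℝ) (B : ℝ),
    (∀ k : Fin m, |∑ j : Fin m, (((k : ℕ) : ℝ) / m) ^ (j : ℕ) * c j| ≤ B) →
      ∀ j, |c j| ≤ C * B := by
  set v : Fin m → ℝ := fun k => ((k : ℕ) : ℝ) / m with hv
  have hm0 : (m : ℝ) ≠ 0 := by
    have : m ≠ 0 := by omega
    exact_mod_cast this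
  have hinj : Function.Injective v := by
    intro a b hab
    have h1 : ((a : ℕ) : ℝ) = ((b : ℕ) : ℝ) := by
      have := hab
      simp only [hv] at this
      field_simp at this
      exact this
    exact Fin.ext (by exact_mod_cast h1)
  set V : Matrix (Fin m) (Fin m) ℝ := Matrix.vandermonde v with hV
  have hdet : V.det ≠ 0 := Matrix.det_vandermonde_ne_zero_iff.2 hinj
  have hu : IsUnit V.det := isUnit_iff_ne_zero.2 hdet
  refine ⟨1 + ∑ i : Fin m, ∑ k : Fin m, |V⁻¹ i k|, by positivity, ?_⟩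
  intro c B hB j
  have hB0 : 0 ≤ B := (abs_nonneg _).trans (hB ⟨0, by omega⟩)
  have h1 : c = V⁻¹.mulVec (V.mulVec c) := by
    rw [Matrix.mulVec_mulVec, Matrix.nonsing_inv_mul V hu, Matrix.one_mulVec]
  have h2 : ∀ k, |V.mulVec c k| ≤ B := by
    intro k
    have : V.mulVec c k = ∑ j : Fin m, (((k : ℕ) : ℝ) / m) ^ (j : ℕ) * c j := by
      simp [Matrix.mulVec, dotProduct, hV, Matrix.vandermonde_apply, hv]
    rw [this]
    exact hB k
  have h3 : c j = ∑ k : Fin m, V⁻¹ j k * V.mulVec c k := by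
    conv_lhs => rw [h1]
    simp [Matrix.mulVec, dotProduct]
  rw [h3]
  calc |∑ k : Fin m, V⁻¹ j k * V.mulVec c k|
      ≤ ∑ k : Fin m, |V⁻¹ j k * V.mulVec c k| := Finset.abs_sum_le_sum_abs _ _
    _ ≤ ∑ k : Fin m, |V⁻¹ j k| * B := by
        refine Finset.sum_le_sum fun k _ => ?_
        rw [abs_mul]
        exact mul_le_mul_of_nonneg_left (h2 k) (abs_nonneg _)
    _ = (∑ k : Fin m, |V⁻¹ j k|) * B := by rw [Finset.sum_mul]
    _ ≤ (1 + ∑ i : Fin m, ∑ k : Fin m, |V⁻¹ i k|) * B := by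
        refine mul_le_mul_of_nonneg_right ?_ hB0
        have : ∑ k : Fin m, |V⁻¹ j k| ≤ ∑ i : Fin m, ∑ k : Fin m, |V⁻¹ i k| :=
          Finset.single_le_sum (f := fun i => ∑ k : Fin m, |V⁻¹ i k|)
            (fun i _ => Finset.sum_nonneg fun k _ => abs_nonneg _) (Finset.mem_univ j)
        linarith

/-- the same for smooth functions on `[0,1]` -/
theorem LK_unit (m : ℕ) (hm : 1 ≤ m) : ∃ C : ℝ, 0 < C ∧ ∀ (g : ℝ → ℝ) (A B : ℝ),
    ContDiff ℝ ∞ g → (∀ t ∈ Icc (0:ℝ) 1, |g t| ≤ A) →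
    (∀ t ∈ Icc (0:ℝ) 1, |iteratedDeriv m g t| ≤ B) →
    ∀ j, j < m → |iteratedDeriv j g 0| ≤ C * (A + B) := by
  obtain ⟨C, hC, h⟩ := LK_coeff m hm
  refine ⟨C * m.factorial, by positivity, ?_⟩
  intro g A B hg hA hB j hj
  obtain ⟨n, rfl⟩ : ∃ n, m = n + 1 := ⟨m - 1, by omega⟩
  have hB0 : 0 ≤ B := (abs_nonneg _).trans (hB 0 (by simp))
  have hA0 : 0 ≤ A := (abs_nonneg _).trans (hA 0 (by simp))
  have hw : ∀ (k : ℕ) (t : ℝ), t ∈ Icc (0:ℝ) 1 →
      iteratedDerivWithin k g (Icc 0 1) t = iteratedDeriv k g t := by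
    intro k t ht
    refine iteratedDerivWithin_eq_iteratedDeriv (uniqueDiffOn_Icc one_pos) ?_ ht
    exact (hg.contDiffAt (x := t)).of_le (by exact_mod_cast le_top)
  have hrem : ∀ t ∈ Icc (0:ℝ) 1,
      |g t - ∑ k ∈ Finset.range (n + 1), ((k.factorial : ℝ)⁻¹ * t ^ k) * iteratedDeriv k g 0| ≤
        B := by
    intro t ht
    have h0 := taylor_mean_remainder_bound (f := g) (a := 0) (b := 1) (C := B) (x := t) (n := n)
      zero_le_one ((hg.of_le (by exact_mod_cast le_top)).contDiffOn) ht (fun y hy => by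
        rw [hw _ y hy, Real.norm_eq_abs]; exact hB y hy)
    rw [taylor_within_apply, Real.norm_eq_abs] at h0
    have h1 : ∑ k ∈ Finset.range (n + 1), ((k.factorial : ℝ)⁻¹ * (t - 0) ^ k) •
        iteratedDerivWithin k g (Icc 0 1) 0 =
        ∑ k ∈ Finset.range (n + 1), ((k.factorial : ℝ)⁻¹ * t ^ k) * iteratedDeriv k g 0 := by
      refine Finset.sum_congr rfl fun k _ => ?_
      rw [hw k 0 (by simp), sub_zero, smul_eq_mul]
    rw [h1] at h0
    refine h0.trans ?_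
    have h2 : (t - 0) ^ (n + 1) ≤ 1 := by
      rw [sub_zero]
      exact pow_le_one₀ ht.1 ht.2
    have h3 : (1:ℝ) ≤ (n.factorial : ℝ) := by exact_mod_cast Nat.factorial_pos n
    rw [div_le_iff₀ (by linarith)]
    calc B * (t - 0) ^ (n + 1) ≤ B * 1 := mul_le_mul_of_nonneg_left h2 hB0
      _ ≤ B * n.factorial := mul_le_mul_of_nonneg_left h3 hB0
  have hval := h (fun j : Fin (n + 1) => ((j : ℕ).factorial : ℝ)⁻¹ * iteratedDeriv j g 0) (A + B)
    (by
      intro k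
      set t : ℝ := ((k : ℕ) : ℝ) / ((n + 1 : ℕ) : ℝ) with ht
      have hkn : (k : ℕ) ≤ n + 1 := k.2.le
      have ht01 : t ∈ Icc (0:ℝ) 1 := by
        refine ⟨by positivity, ?_⟩
        rw [ht, div_le_one (by positivity)]
        exact_mod_cast hkn
      have e1 : ∑ j : Fin (n + 1), t ^ (j : ℕ) *
          (((j : ℕ).factorial : ℝ)⁻¹ * iteratedDeriv j g 0) =
          ∑ k ∈ Finset.range (n + 1), ((k.factorial : ℝ)⁻¹ * t ^ k) * iteratedDeriv k g 0 := by
        rw [Fin.sum_univ_eq_sum_range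
          (fun j => t ^ j * ((j.factorial : ℝ)⁻¹ * iteratedDeriv j g 0))]
        refine Finset.sum_congr rfl fun k _ => ?_
        ring
      rw [e1]
      have a1 := hrem t ht01
      have a2 := hA t ht01
      have a3 := abs_le.1 a1
      have a4 := abs_le.1 a2
      rw [abs_le]
      constructor <;> linarith [a3.1, a3.2, a4.1, a4.2]) ⟨j, hj⟩
  simp only at hval
  rw [abs_mul, abs_of_nonneg (by positivity : (0:ℝ) ≤ ((j.factorial : ℝ))⁻¹)] at hval
  have hf : (0:ℝ) < (j.factorial : ℝ) := by exact_mod_cast Nat.factorial_pos j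
  have h4 : |iteratedDeriv j g 0| ≤ j.factorial * (C * (A + B)) := by
    rw [inv_mul_le_iff₀ hf] at hval
    exact hval
  refine h4.trans ?_
  have h5 : (j.factorial : ℝ) ≤ ((n + 1).factorial : ℝ) := by
    exact_mod_cast Nat.factorial_le hj.le
  have h6 : 0 ≤ C * (A + B) := by positivity
  calc (j.factorial : ℝ) * (C * (A + B)) ≤ ((n + 1).factorial : ℝ) * (C * (A + B)) :=
        mul_le_mul_of_nonneg_right h5 h6
    _ = C * (n + 1).factorial * (A + B) := by ring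

/-- Landau-Kolmogorov type bound at an end point of an interval -/
theorem lk_point (m j : ℕ) (hm : 1 ≤ m) (hj : j ≤ m) :
    ∃ C : ℝ, 0 < C ∧ ∀ (ρ s x0 M0 Mm : ℝ) (f : ℝ → ℝ), 0 < ρ → (s = 1 ∨ s = -1) →
      ContDiff ℝ ∞ f → (∀ t ∈ Icc 0 ρ, |f (x0 + s * t)| ≤ M0) →
      (∀ t ∈ Icc 0 ρ, |iteratedDeriv m f (x0 + s * t)| ≤ Mm) →
      |iteratedDeriv j f x0| ≤ C * (M0 / ρ ^ j + Mm * ρ ^ (m - j)) := by
  obtain ⟨C, hC, h⟩ := LK_unit m hm
  refine ⟨C + 1, by positivity, ?_⟩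
  intro ρ s x0 M0 Mm f hρ hs hf h0 hm'
  have hM0 : 0 ≤ M0 := (abs_nonneg _).trans (h0 0 ⟨le_rfl, hρ.le⟩)
  have hMm : 0 ≤ Mm := (abs_nonneg _).trans (hm' 0 ⟨le_rfl, hρ.le⟩)
  rcases eq_or_lt_of_le hj with rfl | hlt
  · have h1 := hm' 0 ⟨le_rfl, hρ.le⟩
    rw [mul_zero, add_zero] at h1
    rw [Nat.sub_self, pow_zero, mul_one]
    have h2 : 0 ≤ M0 / ρ ^ j := by positivity
    nlinarith [mul_nonneg hC.le h2, mul_nonneg hC.le hMm]
  · have hs1 : |s| = 1 := by rcases hs with rfl | rfl <;> simp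
    set g : ℝ → ℝ := fun t => f (x0 + (s * ρ) * t) with hg
    have hgd : ∀ k t, iteratedDeriv k g t = (s * ρ) ^ k * iteratedDeriv k f (x0 + (s * ρ) * t) := by
      intro k t
      have e1 : ContDiff ℝ k (fun z => f (x0 + z)) :=
        (hf.of_le (by exact_mod_cast le_top)).comp (contDiff_const.add contDiff_id)
      have e2 := iteratedDeriv_comp_const_mul (n := k) (f := fun z => f (x0 + z)) e1 (s * ρ)
      have e3 := congrFun e2 t
      rw [hg]
      rw [e3, iteratedDeriv_comp_const_add]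
    have hgs : ContDiff ℝ ∞ g := hf.comp (contDiff_const.add (contDiff_const.mul contDiff_id))
    have hmem : ∀ t ∈ Icc (0:ℝ) 1, ρ * t ∈ Icc 0 ρ := by
      intro t ht
      exact ⟨mul_nonneg hρ.le ht.1, by nlinarith [ht.2]⟩
    have hres := h g M0 (Mm * ρ ^ m) hgs (fun t ht => by
        rw [hg]
        simp only
        rw [mul_assoc]
        exact h0 _ (hmem t ht)) (fun t ht => by
        rw [hgd, abs_mul, abs_pow, abs_mul, hs1, one_mul, abs_of_pos hρ, mul_assoc s ρ t, mul_comm]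
        exact mul_le_mul_of_nonneg_right (hm' _ (hmem t ht)) (by positivity)) j hlt
    rw [hgd, abs_mul, abs_pow, abs_mul, hs1, one_mul, abs_of_pos hρ, mul_zero, add_zero] at hres
    have hp : 0 < ρ ^ j := by positivity
    have e4 : ρ ^ m = ρ ^ j * ρ ^ (m - j) := by
      rw [← pow_add]
      congr 1
      omega
    have h7 : |iteratedDeriv j f x0| ≤ C * (M0 / ρ ^ j + Mm * ρ ^ (m - j)) := by
      have h8 : C * (M0 / ρ ^ j + Mm * ρ ^ (m - j)) = (C * (M0 + Mm * ρ ^ m)) / ρ ^ j := by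
        rw [e4]
        field_simp
      rw [h8, le_div_iff₀ hp, mul_comm]
      exact hres
    refine h7.trans ?_
    refine mul_le_mul_of_nonneg_right (by linarith) (by positivity)

end BB
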