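import Pool.Agent.Lib_helper6.BB.W.PT

open Filter Topology Set MeasureTheory
open scoped ContDiff

namespace BB

/-- facts on the scaled potential, for `e > 0` and `δ e > 0` -/
theorem Wp_hasDerivAt {L A B : ℝ} {b1 b2 δ : ℝ → ℝ} (hW : Walls L A B b1 b2) (e X : ℝ) :
    HasDerivAt (Wp δ b1 b2 e) (ww δ b1 e X + ww δ b2 e X) X := by
  have h1 : HasDerivAt (fun X : ℝ => δ e * X) (δ e) X := by
    simpa using (hasDerivAt_id X).const_mul (δ e)
  have h2 := ((pot_hasDerivAt hW (δ e * X)).comp X h1).div_const e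
  have h3 : ww δ b1 e X + ww δ b2 e X = (b1 (δ e * X) + b2 (δ e * X)) * δ e / e := by
    unfold ww
    ring
  rw [h3]
  exact h2

theorem Wp_contDiff {L A B : ℝ} {b1 b2 δ : ℝ → ℝ} (hW : Walls L A B b1 b2) (e : ℝ) :
    ContDiff ℝ ∞ (Wp δ b1 b2 e) :=
  ((pot_contDiff hW).comp (contDiff_const.mul contDiff_id)).div_const e

theorem ww_contDiff {δ b : ℝ → ℝ} (hb : ContDiff ℝ ∞ b) (e : ℝ) :
    ContDiff ℝ ∞ (ww δ b e) :=
  contDiff_const.mul (hb.comp (contDiff_const.mul contDiff_id))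

theorem ww_mono {δ b : ℝ → ℝ} (hb : Monotone b) {e : ℝ} (he : 0 < e) (hd : 0 < δ e) :
    Monotone (ww δ b e) := by
  intro x y hxy
  unfold ww
  exact mul_le_mul_of_nonneg_left (hb (mul_le_mul_of_nonneg_left hxy hd.le)) (by positivity)

theorem Wp_zero (δ b1 b2 : ℝ → ℝ) (e : ℝ) : Wp δ b1 b2 e 0 = 0 := by
  unfold Wp
  rw [mul_zero, pot_zero, zero_div]

theorem Wp_nonneg {L A B : ℝ} {b1 b2 δ : ℝ → ℝ} (hW : Walls L A B b1 b2) {e : ℝ} (he : 0 < e)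
    (X : ℝ) : 0 ≤ Wp δ b1 b2 e X := div_nonneg (pot_nonneg hW _) he.le

theorem Wp_convex {L A B : ℝ} {b1 b2 δ : ℝ → ℝ} (hW : Walls L A B b1 b2) {e : ℝ} (he : 0 < e) :
    ConvexOn ℝ univ (Wp δ b1 b2 e) := by
  refine ⟨convex_univ, ?_⟩
  intro x _ y _ a b ha hb hab
  have h := (pot_convex hW).2 (mem_univ (δ e * x)) (mem_univ (δ e * y)) ha hb hab
  simp only [smul_eq_mul] at h ⊢
  unfold Wp
  rw [show a * (pot b1 b2 (δ e * x) / e) + b * (pot b1 b2 (δ e * y) / e) =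
    (a * pot b1 b2 (δ e * x) + b * pot b1 b2 (δ e * y)) / e by ring]
  rw [show δ e * (a * x + b * y) = a * (δ e * x) + b * (δ e * y) by ring]
  exact div_le_div_of_nonneg_right h he.le

theorem Wp_scale {L A B : ℝ} {b1 b2 δ : ℝ → ℝ} (hW : Walls L A B b1 b2) {e : ℝ} (he : 0 < e)
    {t : ℝ} (ht : t ∈ Icc (0 : ℝ) 1) (X : ℝ) : Wp δ b1 b2 e (t * X) ≤ t * Wp δ b1 b2 e X := by
  unfold Wp
  rw [show t * (pot b1 b2 (δ e * X) / e) = (t * pot b1 b2 (δ e * X)) / e by ring,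
    show δ e * (t * X) = t * (δ e * X) by ring]
  exact div_le_div_of_nonneg_right (pot_scale hW ht _) he.le

theorem Wp_mul_deriv {L A B : ℝ} {b1 b2 δ : ℝ → ℝ} (hW : Walls L A B b1 b2) {e : ℝ} (he : 0 < e)
    (X : ℝ) : Wp δ b1 b2 e X ≤ X * (ww δ b1 e X + ww δ b2 e X) := by
  have h := pot_mul_deriv hW (δ e * X)
  unfold Wp ww
  rw [show X * (δ e / e * b1 (δ e * X) + δ e / e * b2 (δ e * X)) =
    (δ e * X * (b1 (δ e * X) + b2 (δ e * X))) / e by ring]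
  exact div_le_div_of_nonneg_right h he.le

/-- sublevel sets -/
theorem Iset_open {L A B : ℝ} {b1 b2 δ : ℝ → ℝ} (hW : Walls L A B b1 b2) (k e : ℝ) :
    IsOpen (Iset b1 b2 δ k e) :=
  isOpen_lt (Wp_contDiff hW e).continuous continuous_const

theorem Iset_ordConnected {L A B : ℝ} {b1 b2 δ : ℝ → ℝ} (hW : Walls L A B b1 b2) (k : ℝ) {e : ℝ}
    (he : 0 < e) : (Iset b1 b2 δ k e).OrdConnected := by
  have h := (Wp_convex (δ := δ) hW he).convex_lt k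
  have h2 : {x ∈ (univ : Set ℝ) | Wp δ b1 b2 e x < k} = Iset b1 b2 δ k e := by
    ext x
    simp [Iset]
  rw [h2] at h
  exact h.ordConnected

/-- the arguments `δ X` stay in `(-A, B)` -/
theorem Iset_in {L A B : ℝ} {b1 b2 δ : ℝ → ℝ} (hW : Walls L A B b1 b2) (k : ℝ) :
    ∀ᶠ e in 𝓝[>] (0 : ℝ), ∀ X ∈ Iset b1 b2 δ k e, δ e * X ∈ Ioo (-A) B := by
  obtain ⟨c, hc, hbar⟩ := pot_barrier hW
  have h1 : Tendsto (fun e : ℝ => k * e) (𝓝[>] (0:ℝ)) (𝓝 0) := by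
    have : Tendsto (fun e : ℝ => k * e) (𝓝 0) (𝓝 (k * 0)) := (continuous_const_mul k).tendsto 0
    rw [mul_zero] at this
    exact this.mono_left nhdsWithin_le_nhds
  filter_upwards [h1.eventually_lt_const hc, self_mem_nhdsWithin] with e he1 he2 X hX
  have he : (0:ℝ) < e := he2
  apply hbar
  have h3 : Wp δ b1 b2 e X < k := hX
  unfold Wp at h3
  rw [div_lt_iff₀ he] at h3
  exact h3.trans he1

theorem Iset_bound {L A B : ℝ} {b1 b2 δ : ℝ → ℝ} (hW : Walls L A B b1 b2) (hS : Scale b1 b2 δ)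
    {k : ℝ} (hk : 1 ≤ k) : ∀ᶠ e in 𝓝[>] (0 : ℝ), ∀ X ∈ Iset b1 b2 δ k e, |X| ≤ k := by
  filter_upwards [hS.pos, hS.bound, self_mem_nhdsWithin] with e hd hb he2 X hX
  have he : (0:ℝ) < e := he2
  have hk0 : (0:ℝ) < k := by linarith
  have h3 : Wp δ b1 b2 e X < k := hX
  unfold Wp at h3
  rw [div_lt_iff₀ he] at h3
  have h4 : (1 / k : ℝ) ∈ Icc (0:ℝ) 1 := ⟨by positivity, by
    rw [div_le_one hk0]; exact hk⟩
  have h5 := pot_scale hW h4 (δ e * X)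
  have h6 : pot b1 b2 (1 / k * (δ e * X)) ≤ e := by
    refine h5.trans ?_
    rw [one_div, inv_mul_le_iff₀ hk0]
    exact h3.le
  have h7 := hb _ h6
  rw [abs_mul, abs_mul, abs_of_pos hd, abs_of_pos (by positivity : (0:ℝ) < 1 / k)] at h7
  have h8 : 1 / k * (δ e * |X|) = (|X| / k) * δ e := by ring
  rw [h8] at h7
  have h9 : |X| / k ≤ 1 := by
    by_contra hcon
    push Not at hcon
    nlinarith
  rwa [div_le_one hk0] at h9

/-- one of the two half intervals of length one is contained in the sublevel sets -/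
theorem Iset_reach {L A B : ℝ} {b1 b2 δ : ℝ → ℝ} (hW : Walls L A B b1 b2) (hS : Scale b1 b2 δ) :
    ∀ᶠ e in 𝓝[>] (0 : ℝ), ∃ s : ℝ, (s = 1 ∨ s = -1) ∧
      ∀ t ∈ Icc (0 : ℝ) 1, Wp δ b1 b2 e (s * t) ≤ t := by
  filter_upwards [hS.pos, hS.reach, self_mem_nhdsWithin] with e hd hr he2
  have he : (0:ℝ) < e := he2
  rcases hr with hr | hr
  · refine ⟨1, Or.inl rfl, fun t ht => ?_⟩
    have h1 := Wp_scale (δ := δ) hW he ht 1
    have h2 : Wp δ b1 b2 e 1 ≤ 1 := by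
      unfold Wp
      rw [div_le_one he, mul_one]
      exact hr _ ⟨hd.le, le_refl _⟩
    rw [one_mul]
    rw [mul_one] at h1
    exact h1.trans (by nlinarith [ht.1])
  · refine ⟨-1, Or.inr rfl, fun t ht => ?_⟩
    have h1 := Wp_scale (δ := δ) hW he ht (-1)
    have h2 : Wp δ b1 b2 e (-1) ≤ 1 := by
      unfold Wp
      rw [div_le_one he, mul_neg_one]
      exact hr _ ⟨le_refl _, by linarith⟩
    rw [mul_comm (-1:ℝ) t]
    exact h1.trans (by nlinarith [ht.1])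

/-- the scaled energy is convex, star shaped and smooth -/
theorem HH_convex {L A B : ℝ} {b1 b2 δ : ℝ → ℝ} (hW : Walls L A B b1 b2) {e : ℝ} (he : 0 < e) :
    ConvexOn ℝ univ (HH L b1 b2 δ e) := by
  refine ⟨convex_univ, ?_⟩
  intro x _ y _ a b ha hb hab
  have h := (Wp_convex (δ := δ) hW he).2 (mem_univ x.1) (mem_univ y.1) ha hb hab
  simp only [smul_eq_mul] at h
  have h2 : (a * x.2 + b * y.2) ^ 2 ≤ a * x.2 ^ 2 + b * y.2 ^ 2 := by
    have hb' : b = 1 - a := by linarith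
    subst hb'
    nlinarith [mul_nonneg ha hb, sq_nonneg (x.2 - y.2), mul_nonneg (mul_nonneg ha hb)
      (sq_nonneg (x.2 - y.2))]
  have h3 := mul_le_mul_of_nonneg_left h2 hW.L_pos.le
  simp only [HH, smul_eq_mul, Prod.fst_add, Prod.snd_add, Prod.smul_fst, Prod.smul_snd]
  linarith

theorem HH_scale {L A B : ℝ} {b1 b2 δ : ℝ → ℝ} (hW : Walls L A B b1 b2) {e : ℝ} (he : 0 < e)
    {t : ℝ} (ht : t ∈ Icc (0 : ℝ) 1) (p : ℝ × ℝ) :
    HH L b1 b2 δ e (t • p) ≤ t * HH L b1 b2 δ e p := by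
  have h := Wp_scale (δ := δ) hW he ht p.1
  have h2 : L * (t * p.2) ^ 2 ≤ t * (L * p.2 ^ 2) := by
    have h3 : 0 ≤ L * p.2 ^ 2 := mul_nonneg hW.L_pos.le (sq_nonneg _)
    have h4 : t ^ 2 ≤ t := by nlinarith [ht.1, ht.2]
    calc L * (t * p.2) ^ 2 = t ^ 2 * (L * p.2 ^ 2) := by ring
      _ ≤ t * (L * p.2 ^ 2) := mul_le_mul_of_nonneg_right h4 h3
  simp only [HH, smul_eq_mul, Prod.smul_fst, Prod.smul_snd]
  linarith

theorem HH_contDiff {L A B : ℝ} {b1 b2 δ : ℝ → ℝ} (hW : Walls L A B b1 b2) (e : ℝ) :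
    ContDiff ℝ ∞ (HH L b1 b2 δ e) := by
  unfold HH
  exact (contDiff_const.mul (contDiff_snd.pow 2)).add
    (contDiff_const.mul ((Wp_contDiff hW e).comp contDiff_fst))

theorem HH_zero (L : ℝ) (b1 b2 δ : ℝ → ℝ) (e : ℝ) : HH L b1 b2 δ e 0 = 0 := by
  simp [HH, Wp_zero]

theorem Reg_open {L A B : ℝ} {b1 b2 δ : ℝ → ℝ} (hW : Walls L A B b1 b2) (k e : ℝ) :
    IsOpen (Reg L b1 b2 δ k e) :=
  isOpen_lt (HH_contDiff hW e).continuous continuous_const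

theorem Reg_convex {L A B : ℝ} {b1 b2 δ : ℝ → ℝ} (hW : Walls L A B b1 b2) (k : ℝ) {e : ℝ}
    (he : 0 < e) : Convex ℝ (Reg L b1 b2 δ k e) := by
  have h := (HH_convex (δ := δ) hW he).convex_lt k
  have h2 : {x ∈ (univ : Set (ℝ × ℝ)) | HH L b1 b2 δ e x < k} = Reg L b1 b2 δ k e := by
    ext x
    simp [Reg]
  rwa [h2] at h

/-- `Reg k ⊆ Iset (k/2) × (|P| < sqrt (k / L))` -/
theorem Reg_sub {L A B : ℝ} {b1 b2 δ : ℝ → ℝ} (hW : Walls L A B b1 b2) {k e : ℝ} (he : 0 < e)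
    {p : ℝ × ℝ} (hp : p ∈ Reg L b1 b2 δ k e) :
    p.1 ∈ Iset b1 b2 δ (k / 2) e ∧ |p.2| < Real.sqrt (k / L) := by
  have h1 : HH L b1 b2 δ e p < k := hp
  have h2 := Wp_nonneg (δ := δ) hW he p.1
  have h3 : 0 ≤ L * p.2 ^ 2 := mul_nonneg hW.L_pos.le (sq_nonneg _)
  unfold HH at h1
  constructor
  · show Wp δ b1 b2 e p.1 < k / 2
    linarith
  · apply Real.lt_sqrt_of_sq_lt
    rw [sq_abs, lt_div_iff₀ hW.L_pos]
    linarith

end BB
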