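import Pool.Agent.Lib_helper6.BB.W.LK
import Pool.Agent.Lib_helper6.BB.W.PW
import Pool.Agent.Lib_helper6.BB.W.SC
import Pool.Agent.Lib_helper6.BB.W.TD

open Filter Topology Set MeasureTheory
open scoped ContDiff

namespace BB

/-- the primitive of the scaled angle function -/
noncomputable def LT_ff (δ b : ℝ → ℝ) (e X : ℝ) : ℝ := (∫ s in (0 : ℝ)..(δ e * X), b s) / e

theorem LT_hasDerivAt {δ b : ℝ → ℝ} (hb : Continuous b) (e X : ℝ) :
    HasDerivAt (LT_ff δ b e) (ww δ b e X) X := by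
  have h1 : HasDerivAt (fun u => ∫ s in (0 : ℝ)..u, b s) (b (δ e * X)) (δ e * X) :=
    intervalIntegral.integral_hasDerivAt_right (hb.intervalIntegrable _ _)
      (hb.stronglyMeasurableAtFilter _ _) hb.continuousAt
  have h2 : HasDerivAt (fun X : ℝ => δ e * X) (δ e) X := by
    simpa using (hasDerivAt_id X).const_mul (δ e)
  have h3 := (h1.comp X h2).div_const e
  have h4 : b (δ e * X) * δ e / e = ww δ b e X := by unfold ww; ring
  rw [h4] at h3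
  exact h3

theorem LT_deriv {δ b : ℝ → ℝ} (hb : Continuous b) (e : ℝ) :
    deriv (LT_ff δ b e) = ww δ b e :=
  funext fun X => (LT_hasDerivAt hb e X).deriv

theorem LT_contDiff {δ b : ℝ → ℝ} (hb : ContDiff ℝ ∞ b) (e : ℝ) :
    ContDiff ℝ ∞ (LT_ff δ b e) := by
  rw [contDiff_infty_iff_deriv, LT_deriv hb.continuous]
  exact ⟨fun X => (LT_hasDerivAt hb.continuous e X).differentiableAt, ww_contDiff hb e⟩

theorem LT_iter_ww {δ b : ℝ → ℝ} (hb : ContDiff ℝ ∞ b) (e : ℝ) (n : ℕ) (X : ℝ) :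
    iteratedDeriv n (ww δ b e) X = δ e / e * (δ e ^ n * iteratedDeriv n b (δ e * X)) := by
  have hbn : ContDiff ℝ n b := hb.of_le (mod_cast le_top)
  have h1 : ww δ b e = fun X => δ e / e * (fun X => b (δ e * X)) X := rfl
  rw [h1, iteratedDeriv_const_mul_field, iteratedDeriv_comp_const_mul hbn]

/-- bound of the derivatives of the primitive -/
theorem LT_iter_ff {A B : ℝ} {b1 b2 δ b : ℝ → ℝ} (hS : Scale b1 b2 δ)
    (hb : ContDiff ℝ ∞ b) (m : ℕ) : ∃ C : ℝ, 0 ≤ C ∧ ∀ᶠ e in 𝓝[>] (0 : ℝ), ∀ X : ℝ,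
      δ e * X ∈ Ioo (-A) B → |iteratedDeriv (m + 1) (LT_ff δ b e) X| ≤ C / e := by
  obtain ⟨C0, hC0⟩ := hS.upper
  have hc : Continuous (iteratedDeriv m b) :=
    ContDiff.continuous_iteratedDeriv' m (hb.of_le (mod_cast le_top))
  obtain ⟨D, hD⟩ := isCompact_Icc.exists_bound_of_continuousOn (s := Icc (-A) B)
    (f := iteratedDeriv m b) hc.continuousOn
  refine ⟨(max C0 0) ^ (m + 1) * max D 0, by positivity, ?_⟩
  filter_upwards [hC0, hS.pos, self_mem_nhdsWithin] with e h1 h2 h3 X hX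
  have he : 0 < e := h3
  rw [iteratedDeriv_succ', LT_deriv hb.continuous, LT_iter_ww hb]
  have h4 : |iteratedDeriv m b (δ e * X)| ≤ max D 0 :=
    (hD _ (Ioo_subset_Icc_self hX)).trans (le_max_left _ _)
  have h5 : δ e ^ (m + 1) ≤ (max C0 0) ^ (m + 1) :=
    pow_le_pow_left₀ h2.le (h1.trans (le_max_left _ _)) _
  have h6 : |δ e / e * (δ e ^ m * iteratedDeriv m b (δ e * X))| =
      δ e ^ (m + 1) * |iteratedDeriv m b (δ e * X)| / e := by
    rw [abs_mul, abs_mul, abs_div, abs_of_pos h2, abs_of_pos he, abs_of_pos (pow_pos h2 m)]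
    ring
  rw [h6]
  apply div_le_div_of_nonneg_right _ he.le
  exact mul_le_mul h5 h4 (abs_nonneg _) (by positivity)

/-- a half interval of length `1 / 4` -/
theorem LT_seg {S : Set ℝ} (hS : S.OrdConnected) (h0 : (0 : ℝ) ∈ S) {s : ℝ} (hs : s = 1 ∨ s = -1)
    (hh : s * (1 / 2) ∈ S) {X : ℝ} (hX : X ∈ S) :
    ∃ s' : ℝ, (s' = 1 ∨ s' = -1) ∧ ∀ t ∈ Icc (0 : ℝ) (1 / 4), X + s' * t ∈ S := by
  rcases hs with rfl | rfl
  · rcases le_or_gt X (1 / 4) with h | h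
    · refine ⟨1, Or.inl rfl, fun t ht => hS.out hX hh ⟨?_, ?_⟩⟩
      · linarith [ht.1]
      · linarith [ht.2]
    · refine ⟨-1, Or.inr rfl, fun t ht => hS.out h0 hX ⟨?_, ?_⟩⟩
      · linarith [ht.2]
      · linarith [ht.1]
  · rcases le_or_gt (-(1 / 4)) X with h | h
    · refine ⟨-1, Or.inr rfl, fun t ht => hS.out hh hX ⟨?_, ?_⟩⟩
      · linarith [ht.2]
      · linarith [ht.1]
    · refine ⟨1, Or.inl rfl, fun t ht => hS.out hX h0 ⟨?_, ?_⟩⟩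
      · linarith [ht.1]
      · linarith [ht.2]

theorem LT_zero_mem {b1 b2 δ : ℝ → ℝ} {K : ℝ} (hK : 1 ≤ K) (e : ℝ) :
    (0 : ℝ) ∈ Iset b1 b2 δ K e := by
  show Wp δ b1 b2 e 0 < K
  rw [Wp_zero]
  linarith

/-- the exponent: `ρ = e ^ (1 / m)` -/
theorem LT_rho {e : ℝ} (he : 0 < e) {n m : ℕ} (hm : 1 ≤ m) (hn : n ≤ m) :
    ((e ^ ((1 : ℝ) / m)) ^ n)⁻¹ = e ^ (-((n : ℝ) / m)) ∧
      e⁻¹ * (e ^ ((1 : ℝ) / m)) ^ (m - n) = e ^ (-((n : ℝ) / m)) := by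
  have hm0 : (m : ℝ) ≠ 0 := by
    have : 0 < m := hm
    positivity
  constructor
  · rw [← Real.rpow_natCast, ← Real.rpow_mul he.le, ← Real.rpow_neg he.le]
    congr 1
    field_simp
  · rw [← Real.rpow_natCast, ← Real.rpow_mul he.le, ← Real.rpow_neg_one, ← Real.rpow_add he,
      Nat.cast_sub hn]
    congr 1
    field_simp
    ring

theorem LT_main {L A B : ℝ} {b1 b2 δ b : ℝ → ℝ} (hW : Walls L A B b1 b2) (hS : Scale b1 b2 δ)
    (hb : ContDiff ℝ ∞ b)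
    (hp : ∀ x, 0 ≤ (∫ s in (0 : ℝ)..x, b s) ∧ (∫ s in (0 : ℝ)..x, b s) ≤ pot b1 b2 x)
    {K : ℝ} (hK : 1 ≤ K) : Tame (Iset b1 b2 δ K) (ww δ b) := by
  apply Tame.of_const_mul
  · exact Eventually.of_forall fun e => ⟨Iset_open hW K e, (ww_contDiff hb e).contDiffOn⟩
  intro n η hη
  -- choose m
  obtain ⟨m0, hm0⟩ := exists_nat_gt ((n + 1 : ℝ) / η)
  obtain ⟨m, hm⟩ : ∃ m : ℕ, m = m0 + n + 1 := ⟨_, rfl⟩
  have hm1 : 1 ≤ m + 1 := by omega
  have hnm : n + 1 ≤ m + 1 := by omega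
  have hmr : ((n : ℝ) + 1) / ((m : ℝ) + 1) ≤ η := by
    have h1 : (0 : ℝ) < (m : ℝ) + 1 := by positivity
    rw [div_le_iff₀ h1]
    rw [div_lt_iff₀ hη] at hm0
    have h2 : (m0 : ℝ) ≤ (m : ℝ) + 1 := by
      have : m0 ≤ m + 1 := by omega
      exact_mod_cast this
    nlinarith
  obtain ⟨C, hC, hlk⟩ := lk_point (m + 1) (n + 1) hm1 hnm
  obtain ⟨D, hD0, hD⟩ := LT_iter_ff (A := A) (B := B) hS hb m
  refine ⟨C * (K + D), ?_⟩
  have hρ : ∀ᶠ e in 𝓝[>] (0 : ℝ), e ^ ((1 : ℝ) / ((m + 1 : ℕ) : ℝ)) ≤ 1 / 4 := by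
    have h1 : (0 : ℝ) < (1 : ℝ) / ((m + 1 : ℕ) : ℝ) := by positivity
    have h2 : Tendsto (fun e : ℝ => e ^ ((1 : ℝ) / ((m + 1 : ℕ) : ℝ))) (𝓝[>] 0) (𝓝 0) := by
      have h3 : ContinuousAt (fun e : ℝ => e ^ ((1 : ℝ) / ((m + 1 : ℕ) : ℝ))) 0 :=
        Real.continuousAt_rpow_const _ _ (Or.inr h1.le)
      have h4 := h3.tendsto
      simp only [Real.zero_rpow h1.ne'] at h4
      exact h4.mono_left nhdsWithin_le_nhds
    exact (h2.eventually_lt_const (by norm_num : (0 : ℝ) < 1 / 4)).mono fun e he => he.le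
  have h1e : ∀ᶠ e in 𝓝[>] (0 : ℝ), e < 1 :=
    (eventually_lt_nhds (by norm_num : (0 : ℝ) < 1)).filter_mono nhdsWithin_le_nhds
  filter_upwards [hρ, h1e, hD, Iset_in hW K, Iset_reach hW hS, self_mem_nhdsWithin]
    with e hρe he1 hDe hin hreach he0 X hX
  have he : 0 < e := he0
  obtain ⟨s, hs, hs2⟩ := hreach
  have hh : s * (1 / 2) ∈ Iset b1 b2 δ K e := by
    show Wp δ b1 b2 e (s * (1 / 2)) < K
    have := hs2 (1 / 2) ⟨by norm_num, by norm_num⟩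
    linarith
  obtain ⟨s', hs', hseg⟩ := LT_seg (Iset_ordConnected hW K he) (LT_zero_mem hK e) hs hh hX
  set ρ : ℝ := e ^ ((1 : ℝ) / ((m + 1 : ℕ) : ℝ)) with hρdef
  have hρ0 : 0 < ρ := Real.rpow_pos_of_pos he _
  have hseg' : ∀ t ∈ Icc (0 : ℝ) ρ, X + s' * t ∈ Iset b1 b2 δ K e :=
    fun t ht => hseg t ⟨ht.1, ht.2.trans hρe⟩
  have key := hlk ρ s' X K (D / e) (LT_ff δ b e) hρ0 hs' (LT_contDiff hb e) ?_ ?_
  · -- conclusion
    rw [norm_iteratedFDeriv_eq_norm_iteratedDeriv, Real.norm_eq_abs]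
    have h1 : iteratedDeriv n (ww δ b e) X = iteratedDeriv (n + 1) (LT_ff δ b e) X := by
      rw [iteratedDeriv_succ', LT_deriv hb.continuous]
    rw [h1]
    refine key.trans ?_
    obtain ⟨h2, h3⟩ := LT_rho he hm1 hnm
    rw [← hρdef] at h2 h3
    have h4 : K / ρ ^ (n + 1) + D / e * ρ ^ (m + 1 - (n + 1)) =
        (K + D) * e ^ (-(((n + 1 : ℕ) : ℝ) / ((m + 1 : ℕ) : ℝ))) := by
      have h5 : D / e * ρ ^ (m + 1 - (n + 1)) = D * (e⁻¹ * ρ ^ (m + 1 - (n + 1))) := by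
        rw [div_eq_mul_inv]; ring
      rw [h5, h3, div_eq_mul_inv, h2]
      ring
    rw [h4]
    have h6 : e ^ (-(((n + 1 : ℕ) : ℝ) / ((m + 1 : ℕ) : ℝ))) ≤ e ^ (-η) := by
      apply Real.rpow_le_rpow_of_exponent_ge he he1.le
      push_cast
      linarith
    have h7 : 0 ≤ C * (K + D) := by
      have : 0 ≤ K + D := by linarith
      positivity
    calc C * ((K + D) * e ^ (-(((n + 1 : ℕ) : ℝ) / ((m + 1 : ℕ) : ℝ))))
        = C * (K + D) * e ^ (-(((n + 1 : ℕ) : ℝ) / ((m + 1 : ℕ) : ℝ))) := by ring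
      _ ≤ C * (K + D) * e ^ (-η) := mul_le_mul_of_nonneg_left h6 h7
  · intro t ht
    have h1 := hseg' t ht
    have h2 : Wp δ b1 b2 e (X + s' * t) < K := h1
    obtain ⟨h3, h4⟩ := hp (δ e * (X + s' * t))
    have h5 : LT_ff δ b e (X + s' * t) ≤ Wp δ b1 b2 e (X + s' * t) :=
      div_le_div_of_nonneg_right h4 he.le
    have h6 : 0 ≤ LT_ff δ b e (X + s' * t) := div_nonneg h3 he.le
    rw [abs_of_nonneg h6]
    linarith
  · intro t ht
    exact hDe _ (hin _ (hseg' t ht))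

theorem LT_mono {L A B : ℝ} {b1 b2 δ : ℝ → ℝ} {f : ℝ → ℝ → ℝ} (hW : Walls L A B b1 b2) {k K : ℝ}
    (hk : k ≤ K) (hf : Tame (Iset b1 b2 δ K) f) : Tame (Iset b1 b2 δ k) f :=
  hf.mono (Eventually.of_forall fun e => ⟨Iset_open hW k e, fun X (hX : Wp δ b1 b2 e X < k) =>
    lt_of_lt_of_le hX hk⟩)

/-- the scaled angle functions are tame on the sublevel sets of the potential -/
theorem ww_tame {L A B : ℝ} {b1 b2 δ : ℝ → ℝ} (hW : Walls L A B b1 b2) (hS : Scale b1 b2 δ)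
    (k : ℝ) : Tame (Iset b1 b2 δ k) (ww δ b1) ∧ Tame (Iset b1 b2 δ k) (ww δ b2) := by
  constructor
  · refine LT_mono hW (le_max_left k 1) (LT_main hW hS hW.smooth1 (fun x => ?_) (le_max_right k 1))
    obtain ⟨h1, h2, h3⟩ := part_nonneg hW x
    exact ⟨h1, by linarith⟩
  · refine LT_mono hW (le_max_left k 1) (LT_main hW hS hW.smooth2 (fun x => ?_) (le_max_right k 1))
    obtain ⟨h1, h2, h3⟩ := part_nonneg hW x
    exact ⟨h2, by linarith⟩

theorem Wp_tame {L A B : ℝ} {b1 b2 δ : ℝ → ℝ} (hW : Walls L A B b1 b2) (hS : Scale b1 b2 δ)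
    (k : ℝ) : Tame (Iset b1 b2 δ k) (Wp δ b1 b2) := by
  obtain ⟨h1, h2⟩ := ww_tame hW hS k
  refine Tame.of_deriv (f' := fun e X => ww δ b1 e X + ww δ b2 e X)
    (Eventually.of_forall fun e X _ => Wp_hasDerivAt hW e X) (h1.add h2) ?_
  intro η hη
  filter_upwards [Slow.const k η hη, self_mem_nhdsWithin] with e h3 h4 X hX
  have h5 : Wp δ b1 b2 e X < k := hX
  have h6 := Wp_nonneg hW (δ := δ) (e := e) h4 X
  rw [Real.norm_eq_abs, abs_of_nonneg h6]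
  have h7 := le_abs_self k
  linarith

end BB
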