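import Pool.Agent.Lib_helper6.BB.Polar
import Pool.Agent.Lib_helper6.BB.W.PW

open Filter Topology Set MeasureTheory
open scoped ContDiff

namespace BB

theorem PB1_pot_bound {L A B : ℝ} {b1 b2 : ℝ → ℝ} (hW : Walls L A B b1 b2) (k : ℝ) :
    ∃ M : ℝ, ∀ x : ℝ, pot b1 b2 x < k → |x| ≤ M := by
  obtain ⟨c, hc, hbar⟩ := pot_barrier hW
  have hA := hW.A_pos
  have hB := hW.B_pos
  refine ⟨(A + B) * (1 + |k| / c), fun x hx => ?_⟩
  have hk : 0 ≤ |k| / c := by positivity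
  have hkk : pot b1 b2 x ≤ |k| := hx.le.trans (le_abs_self k)
  have hBc : c ≤ pot b1 b2 B := by
    by_contra h
    exact absurd (hbar B (not_le.1 h)).2 (lt_irrefl _)
  have hAc : c ≤ pot b1 b2 (-A) := by
    by_contra h
    exact absurd (hbar (-A) (not_le.1 h)).1 (lt_irrefl _)
  rcases le_or_gt B x with h1 | h1
  · have hx0 : 0 < x := lt_of_lt_of_le hB h1
    have h2 := pot_scale hW (t := B / x) ⟨by positivity, (div_le_one hx0).2 h1⟩ x
    rw [div_mul_cancel₀ B hx0.ne'] at h2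
    have h3 : c ≤ B / x * |k| := hBc.trans (h2.trans (mul_le_mul_of_nonneg_left hkk (by positivity)))
    have h4 : x ≤ B * (|k| / c) := by
      rw [div_mul_eq_mul_div, le_div_iff₀ hx0] at h3
      rw [← mul_div_assoc, le_div_iff₀ hc]
      linarith
    rw [abs_of_pos hx0]
    nlinarith
  · rcases le_or_gt x (-A) with h5 | h5
    · have hx0 : x < 0 := by linarith
      have hx1 : 0 < -x := by linarith
      have h2 := pot_scale hW (t := A / (-x)) ⟨by positivity, (div_le_one hx1).2 (by linarith)⟩ x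
      have e1 : A / (-x) * x = -A := by
        have : x ≠ 0 := hx0.ne
        field_simp
      rw [e1] at h2
      have h3 : c ≤ A / (-x) * |k| :=
        hAc.trans (h2.trans (mul_le_mul_of_nonneg_left hkk (by positivity)))
      have h4 : -x ≤ A * (|k| / c) := by
        rw [div_mul_eq_mul_div, le_div_iff₀ hx1] at h3
        rw [← mul_div_assoc, le_div_iff₀ hc]
        linarith
      rw [abs_of_neg hx0]
      nlinarith
    · rw [abs_le]
      constructor <;> nlinarith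

theorem PB1_bounded {L A B : ℝ} {b1 b2 δ : ℝ → ℝ} (hW : Walls L A B b1 b2) {e : ℝ} (he : 0 < e)
    (hd : 0 < δ e) (h : ℝ) : Bornology.IsBounded (Reg L b1 b2 δ h e) := by
  obtain ⟨M, hM⟩ := PB1_pot_bound hW (h / 2 * e)
  rw [Metric.isBounded_iff_subset_closedBall (0 : ℝ × ℝ)]
  refine ⟨max (M / δ e) (Real.sqrt (h / L)), fun p hp => ?_⟩
  obtain ⟨h1, h2⟩ := Reg_sub hW he hp
  have h3 : pot b1 b2 (δ e * p.1) / e < h / 2 := h1
  rw [div_lt_iff₀ he] at h3
  have h4 := hM _ h3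
  rw [abs_mul, abs_of_pos hd, mul_comm, ← le_div_iff₀ hd] at h4
  rw [Metric.mem_closedBall, dist_zero_right, Prod.norm_def]
  exact max_le_max h4 h2.le

/-- the linear map `(x, y) ↦ (a x, c y)` -/
noncomputable def PB1_f (a c : ℝ) : (ℝ × ℝ) →ₗ[ℝ] (ℝ × ℝ) :=
  LinearMap.prodMap (a • LinearMap.id) (c • LinearMap.id)

theorem PB1_f_apply (a c : ℝ) (p : ℝ × ℝ) : PB1_f a c p = (a * p.1, c * p.2) := rfl

theorem PB1_det (a c : ℝ) : LinearMap.det (PB1_f a c) = a * c := by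
  rw [PB1_f, LinearMap.det_prodMap, LinearMap.det_smul, LinearMap.det_smul]
  simp

/-- scaling of the area -/
theorem areaS_scale {L A B : ℝ} {b1 b2 δ : ℝ → ℝ} (hW : Walls L A B b1 b2) {e : ℝ} (he : 0 < e)
    (hd : 0 < δ e) (h : ℝ) :
    areaS L b1 b2 δ e h = area L b1 b2 (e * h) / (δ e * Real.sqrt e) := by
  have hs : 0 < Real.sqrt e := Real.sqrt_pos.2 he
  have hdet : LinearMap.det (PB1_f (δ e) (Real.sqrt e)) ≠ 0 := by
    rw [PB1_det]; positivity
  have hset : Reg L b1 b2 δ h e = PB1_f (δ e) (Real.sqrt e) ⁻¹'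
      {p : ℝ × ℝ | L * p.2 ^ 2 + 2 * pot b1 b2 p.1 < e * h} := by
    ext p
    show L * p.2 ^ 2 + 2 * (pot b1 b2 (δ e * p.1) / e) < h ↔
      L * (Real.sqrt e * p.2) ^ 2 + 2 * pot b1 b2 (δ e * p.1) < e * h
    rw [mul_pow, Real.sq_sqrt he.le, ← mul_lt_mul_iff_of_pos_left he]
    have e1 : e * (L * p.2 ^ 2 + 2 * (pot b1 b2 (δ e * p.1) / e)) =
        L * (e * p.2 ^ 2) + 2 * pot b1 b2 (δ e * p.1) := by
      field_simp
    rw [e1]
  rw [areaS, area, hset, Measure.addHaar_preimage_linearMap _ hdet, PB1_det, ENNReal.toReal_mul,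
    ENNReal.toReal_ofReal (abs_nonneg _), abs_of_pos (by positivity)]
  rw [div_eq_inv_mul]

/-- comparison of areas at different energies -/
theorem areaS_mono {L A B : ℝ} {b1 b2 δ : ℝ → ℝ} (hW : Walls L A B b1 b2) {e : ℝ} (he : 0 < e)
    (hd : 0 < δ e) {h h' : ℝ} (hh : 0 < h) (h1 : h ≤ h') :
    Real.sqrt (h' / h) * areaS L b1 b2 δ e h ≤ areaS L b1 b2 δ e h' := by
  have hq : 1 ≤ h' / h := (one_le_div hh).2 h1
  have hsub : PB1_f 1 (Real.sqrt (h' / h)) '' Reg L b1 b2 δ h e ⊆ Reg L b1 b2 δ h' e := by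
    rintro _ ⟨p, hp, rfl⟩
    have hp' : L * p.2 ^ 2 + 2 * Wp δ b1 b2 e p.1 < h := hp
    show L * (Real.sqrt (h' / h) * p.2) ^ 2 + 2 * Wp δ b1 b2 e (1 * p.1) < h'
    have hw := Wp_nonneg (δ := δ) hW he p.1
    rw [one_mul, mul_pow, Real.sq_sqrt (by positivity)]
    have h2 : h' / h * (L * p.2 ^ 2 + 2 * Wp δ b1 b2 e p.1) < h' / h * h :=
      mul_lt_mul_of_pos_left hp' (by positivity)
    rw [div_mul_cancel₀ h' hh.ne'] at h2
    have h3 : Wp δ b1 b2 e p.1 ≤ h' / h * Wp δ b1 b2 e p.1 := le_mul_of_one_le_left hw hq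
    nlinarith
  have hfin : volume (Reg L b1 b2 δ h' e) ≠ ⊤ := (PB1_bounded hW he hd h').measure_lt_top.ne
  have h2 := ENNReal.toReal_mono hfin (measure_mono hsub)
  rw [Measure.addHaar_image_linearMap, PB1_det, ENNReal.toReal_mul,
    ENNReal.toReal_ofReal (abs_nonneg _), one_mul, abs_of_nonneg (Real.sqrt_nonneg _)] at h2
  exact h2

end BB
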