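import Pool.Agent.Lib_helper6.BB.W.PL3

open Filter Topology Set MeasureTheory
open scoped ContDiff

namespace BB

theorem PE2_pol_cont (R : ℝ) : Continuous (fun s : ℝ => pol (s, R)) := by
  unfold pol
  fun_prop

/-- the radius of an energy curve is continuous in the direction -/
theorem PE2_Rad_continuous {L A B : ℝ} {b1 b2 δ : ℝ → ℝ} (hW : Walls L A B b1 b2) {e : ℝ}
    (he : 0 < e) (hd : 0 < δ e) {h : ℝ} (hh : 0 < h) :
    Continuous (fun s : ℝ => Rad L b1 b2 δ e (s, h)) := by
  rw [continuous_iff_continuousAt]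
  intro s0
  have hHc : Continuous (HH L b1 b2 δ e) := (HH_contDiff (δ := δ) hW e).continuous
  have hc : ∀ R : ℝ, Continuous (fun s : ℝ => HH L b1 b2 δ e (pol (s, R))) :=
    fun R => hHc.comp (PE2_pol_cont R)
  refine tendsto_order.2 ⟨fun a ha => ?_, fun b hb => ?_⟩
  · rcases lt_or_ge a 0 with ha0 | ha0
    · filter_upwards with s
      exact ha0.trans (Rad_spec hW he hd (q := (s, h)) hh).1
    · have h1 : HH L b1 b2 δ e (pol (s0, a)) < h :=
        (Rad_lt_iff hW he hd (q := (s0, h)) hh ha0).2 ha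
      have h2 : ∀ᶠ s in 𝓝 s0, HH L b1 b2 δ e (pol (s, a)) < h :=
        (hc a).continuousAt.eventually_lt continuousAt_const h1
      filter_upwards [h2] with s hs
      exact (Rad_lt_iff hW he hd (q := (s, h)) hh ha0).1 hs
  · have hR0 := (Rad_spec hW he hd (q := (s0, h)) hh).1
    have hb' : Rad L b1 b2 δ e (s0, h) < b := hb
    set c : ℝ := (Rad L b1 b2 δ e (s0, h) + b) / 2 with hcdef
    have hc1 : Rad L b1 b2 δ e (s0, h) < c := by rw [hcdef]; linarith
    have hc2 : c < b := by rw [hcdef]; linarith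
    have hc0 : 0 < c := hR0.trans hc1
    have h1 : ¬ HH L b1 b2 δ e (pol (s0, c)) < h := by
      intro hlt
      exact absurd ((Rad_lt_iff hW he hd (q := (s0, h)) hh hc0.le).1 hlt) (not_lt.2 hc1.le)
    have h2 : h < HH L b1 b2 δ e (pol (s0, c)) := by
      rcases lt_or_eq_of_le (not_lt.1 h1) with h3 | h3
      · exact h3
      · exact absurd (Rad_unique hW he hd (q := (s0, h)) hh hc0 h3.symm) hc1.ne'
    have h3 : ∀ᶠ s in 𝓝 s0, h < HH L b1 b2 δ e (pol (s, c)) :=
      continuousAt_const.eventually_lt (hc c).continuousAt h2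
    filter_upwards [h3] with s hs
    have h4 : ¬ c < Rad L b1 b2 δ e (s, h) := by
      intro hlt
      exact absurd ((Rad_lt_iff hW he hd (q := (s, h)) hh hc0.le).2 hlt) (not_lt.2 hs.le)
    exact (not_lt.1 h4).trans_lt hc2

/-- inner integral -/
theorem PE2_inner (ρ : ℝ) (hρ : 0 < ρ) :
    ∫⁻ r in Ioi (0:ℝ), ENNReal.ofReal r * (Iio ρ).indicator (fun _ => (1:ENNReal)) r =
      ENNReal.ofReal (ρ ^ 2 / 2) := by
  have h1 : ∀ r, ENNReal.ofReal r * (Iio ρ).indicator (fun _ => (1:ENNReal)) r =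
      (Iio ρ).indicator (fun r => ENNReal.ofReal r) r := by
    intro r
    by_cases hr : r ∈ Iio ρ
    · simp [hr]
    · simp [hr]
  simp_rw [h1]
  rw [lintegral_indicator measurableSet_Iio, Measure.restrict_restrict measurableSet_Iio]
  have h2 : Iio ρ ∩ Ioi (0:ℝ) = Ioo 0 ρ := by
    ext x; simp [and_comm]
  rw [h2]
  have h3 : ∫ r in (0:ℝ)..ρ, r = ρ ^ 2 / 2 := by
    rw [integral_id]; ring
  rw [← h3, intervalIntegral.integral_of_le hρ.le, integral_Ioc_eq_integral_Ioo,
    ofReal_integral_eq_lintegral_ofReal]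
  · exact (continuous_id.integrableOn_Icc (a := 0) (b := ρ)).mono_set Ioo_subset_Icc_self
  · exact (ae_restrict_iff' measurableSet_Ioo).2 (Eventually.of_forall fun x hx => hx.1.le)

/-- area in polar coordinates -/
theorem areaS_eq {L A B : ℝ} {b1 b2 δ : ℝ → ℝ} (hW : Walls L A B b1 b2) {e : ℝ} (he : 0 < e)
    (hd : 0 < δ e) {h : ℝ} (hh : 0 < h) :
    areaS L b1 b2 δ e h = 1 / 2 * ∫ s in (0 : ℝ)..(2 * Real.pi), Rad L b1 b2 δ e (s, h) ^ 2 := by
  have hRc := PE2_Rad_continuous (δ := δ) hW he hd hh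
  have hRpos : ∀ s, 0 < Rad L b1 b2 δ e (s, h) := fun s =>
    (Rad_spec hW he hd (q := (s, h)) hh).1
  have hopen : IsOpen (Reg L b1 b2 δ h e) := Reg_open hW h e
  set S : Set (ℝ × ℝ) := Prod.swap ⁻¹' (Reg L b1 b2 δ h e) with hS
  have hSopen : IsOpen S := hopen.preimage continuous_swap
  have hvol : volume (Reg L b1 b2 δ h e) = volume S := by
    have := (Measure.measurePreserving_swap (μ := (volume : Measure ℝ))
      (ν := (volume : Measure ℝ))).measure_preimage
      (s := Reg L b1 b2 δ h e) hopen.measurableSet.nullMeasurableSet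
    exact this.symm
  have h1 : volume S = ∫⁻ p : ℝ × ℝ, S.indicator (fun _ => (1:ENNReal)) p := by
    rw [lintegral_indicator hSopen.measurableSet]
    simp
  have h2 := lintegral_comp_polarCoord_symm (S.indicator (fun _ => (1:ENNReal)))
  have h3 : ∀ r θ : ℝ, 0 < r → S.indicator (fun _ => (1:ENNReal)) (polarCoord.symm (r, θ)) =
      (Iio (Rad L b1 b2 δ e (θ, h))).indicator (fun _ => (1:ENNReal)) r := by
    intro r θ hr
    have e1 : polarCoord.symm (r, θ) = (r * Real.cos θ, r * Real.sin θ) := rfl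
    have e2 : (polarCoord.symm (r, θ) ∈ S) ↔ r ∈ Iio (Rad L b1 b2 δ e (θ, h)) := by
      rw [e1, hS, mem_preimage, Prod.swap_prod_mk]
      exact Rad_lt_iff hW he hd (q := (θ, h)) hh hr.le
    by_cases hm : polarCoord.symm (r, θ) ∈ S
    · rw [indicator_of_mem hm, indicator_of_mem (e2.1 hm)]
    · rw [indicator_of_notMem hm, indicator_of_notMem (fun hc => hm (e2.2 hc))]
  have hmeas : Measurable (fun p : ℝ × ℝ => ENNReal.ofReal p.1 •
      S.indicator (fun _ => (1:ENNReal)) (polarCoord.symm p)) := by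
    have e1 : Measurable (fun p : ℝ × ℝ => polarCoord.symm p) := by
      have : (fun p : ℝ × ℝ => polarCoord.symm p) =
          fun p : ℝ × ℝ => (p.1 * Real.cos p.2, p.1 * Real.sin p.2) := rfl
      rw [this]
      fun_prop
    have e2 : Measurable (S.indicator (fun _ => (1:ENNReal))) :=
      measurable_const.indicator hSopen.measurableSet
    exact (ENNReal.measurable_ofReal.comp measurable_fst).smul (e2.comp e1)
  have h4 : volume S = ∫⁻ θ in Ioo (-Real.pi) Real.pi,
      ENNReal.ofReal (Rad L b1 b2 δ e (θ, h) ^ 2 / 2) := by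
    rw [h1, ← h2]
    have e1 : polarCoord.target = Ioi (0 : ℝ) ×ˢ Ioo (-Real.pi) Real.pi := rfl
    rw [e1, Measure.volume_eq_prod, ← Measure.prod_restrict,
      lintegral_prod_symm _ hmeas.aemeasurable]
    refine lintegral_congr fun θ => ?_
    rw [← PE2_inner _ (hRpos θ)]
    refine setLIntegral_congr_fun measurableSet_Ioi fun r hr => ?_
    simp only [smul_eq_mul]
    rw [h3 r θ hr]
  have h5 : (volume S).toReal = ∫ θ in Ioo (-Real.pi) Real.pi,
      Rad L b1 b2 δ e (θ, h) ^ 2 / 2 := by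
    rw [h4, integral_eq_lintegral_of_nonneg_ae]
    · exact Eventually.of_forall fun θ => by positivity
    · exact ((hRc.pow 2).div_const 2).aestronglyMeasurable
  have hper : Function.Periodic (fun s : ℝ => Rad L b1 b2 δ e (s, h) ^ 2) (2 * Real.pi) := by
    intro s
    have := Rad_periodic hW he hd (q := (s, h)) hh
    simp only at this ⊢
    rw [this]
  have h6 : ∫ s in (0 : ℝ)..(2 * Real.pi), Rad L b1 b2 δ e (s, h) ^ 2 =
      ∫ s in (-Real.pi)..Real.pi, Rad L b1 b2 δ e (s, h) ^ 2 := by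
    have := hper.intervalIntegral_add_eq 0 (-Real.pi)
    rw [zero_add] at this
    rw [this]
    congr 1
    ring
  unfold areaS
  rw [hvol, h5, h6, intervalIntegral.integral_of_le (by linarith [Real.pi_pos]),
    integral_Ioc_eq_integral_Ioo, integral_div]
  ring

end BB
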