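import Pool.Agent.Lib_helper6.BB.Polar
import Pool.Agent.Lib_helper6.BB.W.PW

open Filter Topology Set MeasureTheory
open scoped ContDiff

namespace BB

private theorem PL1_pot_pos {L A B : ℝ} {b1 b2 : ℝ → ℝ} (hW : Walls L A B b1 b2) :
    0 < pot b1 b2 B ∧ 0 < pot b1 b2 (-A) := by
  have hc : Continuous fun s => b1 s + b2 s := hW.smooth1.continuous.add hW.smooth2.continuous
  have hm : Monotone fun s => b1 s + b2 s := hW.mono1.add hW.mono2
  have h0 : b1 0 + b2 0 = 0 := by rw [hW.zero1, hW.zero2, add_zero]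
  have hA := hW.A_pos
  constructor
  · unfold pot
    refine intervalIntegral.integral_pos hW.B_pos hc.continuousOn ?_ ?_
    · intro x hx
      have h1 : b1 0 + b2 0 ≤ b1 x + b2 x := hm hx.1.le
      linarith
    · exact ⟨B, ⟨hW.B_pos.le, le_rfl⟩, hW.posB⟩
  · have h1 : 0 < ∫ s in (-A)..0, -(b1 s + b2 s) := by
      refine intervalIntegral.integral_pos (by linarith) hc.neg.continuousOn ?_ ?_
      · intro x hx
        have h1 : b1 x + b2 x ≤ b1 0 + b2 0 := hm hx.2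
        linarith
      · refine ⟨-A, ⟨le_rfl, by linarith⟩, ?_⟩
        have := hW.posA
        linarith
    rw [intervalIntegral.integral_neg] at h1
    unfold pot
    rw [intervalIntegral.integral_symm]
    exact h1

private theorem PL1_nonneg {L A B : ℝ} {b1 b2 δ : ℝ → ℝ} (hW : Walls L A B b1 b2) {e : ℝ}
    (he : 0 < e) (p : ℝ × ℝ) : 0 ≤ HH L b1 b2 δ e p := by
  unfold HH
  have h1 := Wp_nonneg (δ := δ) hW he p.1
  have h2 := mul_nonneg hW.L_pos.le (sq_nonneg p.2)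
  linarith

/-- the energy along a ray -/
private theorem PL1_ray {L A B : ℝ} {b1 b2 δ : ℝ → ℝ} (hW : Walls L A B b1 b2) {e : ℝ}
    (he : 0 < e) (ψ : ℝ) {t R : ℝ} (ht : t ∈ Icc (0 : ℝ) 1) :
    HH L b1 b2 δ e (pol (ψ, t * R)) ≤ t * HH L b1 b2 δ e (pol (ψ, R)) := by
  have h1 : pol (ψ, t * R) = t • pol (ψ, R) := by
    unfold pol
    ext
    · simp only [Prod.smul_mk, smul_eq_mul]; ring
    · simp only [Prod.smul_mk, smul_eq_mul]; ring
  rw [h1]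
  exact HH_scale hW he ht _

private theorem PL1_cont {L A B : ℝ} {b1 b2 δ : ℝ → ℝ} (hW : Walls L A B b1 b2) (e ψ : ℝ) :
    Continuous fun R : ℝ => HH L b1 b2 δ e (pol (ψ, R)) := by
  have h1 : Continuous fun R : ℝ => pol (ψ, R) := by
    unfold pol
    fun_prop
  exact (HH_contDiff (δ := δ) hW e).continuous.comp h1

private theorem PL1_zero (L : ℝ) (b1 b2 δ : ℝ → ℝ) (e ψ : ℝ) :
    HH L b1 b2 δ e (pol (ψ, 0)) = 0 := by
  have h1 : pol (ψ, 0) = 0 := by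
    unfold pol
    ext <;> simp
  rw [h1]
  exact HH_zero L b1 b2 δ e

/-- the energy is positive somewhere on every ray -/
private theorem PL1_some {L A B : ℝ} {b1 b2 δ : ℝ → ℝ} (hW : Walls L A B b1 b2) {e : ℝ}
    (he : 0 < e) (hd : 0 < δ e) (ψ : ℝ) : ∃ R : ℝ, 0 < R ∧ 0 < HH L b1 b2 δ e (pol (ψ, R)) := by
  by_cases hcos : Real.cos ψ = 0
  · obtain ⟨hB, hA⟩ := PL1_pot_pos hW
    have hs : Real.sin ψ ^ 2 = 1 := by
      have := Real.sin_sq_add_cos_sq ψ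
      rw [hcos] at this
      linarith
    have hs' : Real.sin ψ = 1 ∨ Real.sin ψ = -1 := sq_eq_one_iff.1 hs
    rcases hs' with h1 | h1
    · refine ⟨B / δ e, div_pos hW.B_pos hd, ?_⟩
      have h2 : Wp δ b1 b2 e (B / δ e * 1) = pot b1 b2 B / e := by
        unfold Wp
        rw [mul_one, mul_div_cancel₀ _ hd.ne']
      unfold HH pol
      simp only [h1, hcos]
      rw [h2]
      have := div_pos hB he
      nlinarith
    · refine ⟨A / δ e, div_pos hW.A_pos hd, ?_⟩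
      have h2 : Wp δ b1 b2 e (A / δ e * -1) = pot b1 b2 (-A) / e := by
        unfold Wp
        congr 2
        field_simp
      unfold HH pol
      simp only [h1, hcos]
      rw [h2]
      have := div_pos hA he
      nlinarith
  · refine ⟨1, one_pos, ?_⟩
    unfold HH pol
    have h1 := Wp_nonneg (δ := δ) hW he (1 * Real.sin ψ)
    have h2 : 0 < L * (1 * Real.cos ψ) ^ 2 := by
      rw [one_mul]
      exact mul_pos hW.L_pos (by positivity)
    simp only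
    linarith

private theorem PL1_exists {L A B : ℝ} {b1 b2 δ : ℝ → ℝ} (hW : Walls L A B b1 b2) {e : ℝ}
    (he : 0 < e) (hd : 0 < δ e) {q : ℝ × ℝ} (hq : 0 < q.2) :
    ∃ R : ℝ, 0 < R ∧ HH L b1 b2 δ e (pol (q.1, R)) = q.2 := by
  obtain ⟨R0, hR0, hF⟩ := PL1_some hW he hd q.1
  set F := HH L b1 b2 δ e (pol (q.1, R0)) with hFdef
  -- a larger radius
  set t : ℝ := max 1 (q.2 / F) with ht
  have ht1 : 1 ≤ t := le_max_left _ _
  have ht0 : 0 < t := by linarith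
  have h1 := PL1_ray (δ := δ) hW he q.1 (t := t⁻¹) (R := t * R0)
    ⟨(inv_pos.2 ht0).le, inv_le_one_of_one_le₀ ht1⟩
  rw [← mul_assoc, inv_mul_cancel₀ ht0.ne', one_mul] at h1
  have h2 : q.2 ≤ HH L b1 b2 δ e (pol (q.1, t * R0)) := by
    have h3 : t * F ≤ HH L b1 b2 δ e (pol (q.1, t * R0)) := by
      calc t * F ≤ t * (t⁻¹ * HH L b1 b2 δ e (pol (q.1, t * R0))) :=
            mul_le_mul_of_nonneg_left h1 ht0.le
        _ = _ := by rw [← mul_assoc, mul_inv_cancel₀ ht0.ne', one_mul]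
    have h4 : q.2 ≤ t * F := by
      have h5 : q.2 / F ≤ t := le_max_right _ _
      rwa [div_le_iff₀ hF] at h5
    exact h4.trans h3
  have hivt := intermediate_value_Icc (mul_pos ht0 hR0).le
    (PL1_cont (δ := δ) hW e q.1).continuousOn
  obtain ⟨R, hR, hR'⟩ := hivt ⟨by
    show HH L b1 b2 δ e (pol (q.1, 0)) ≤ q.2
    rw [PL1_zero]
    exact hq.le, h2⟩
  refine ⟨R, lt_of_le_of_ne hR.1 ?_, hR'⟩
  rintro rfl
  have h6 : HH L b1 b2 δ e (pol (q.1, 0)) = q.2 := hR'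
  rw [PL1_zero] at h6
  linarith

/-- the radius function: existence, uniqueness, comparison, periodicity -/
theorem Rad_spec {L A B : ℝ} {b1 b2 δ : ℝ → ℝ} (hW : Walls L A B b1 b2) {e : ℝ} (he : 0 < e)
    (hd : 0 < δ e) {q : ℝ × ℝ} (hq : 0 < q.2) :
    0 < Rad L b1 b2 δ e q ∧ HH L b1 b2 δ e (pol (q.1, Rad L b1 b2 δ e q)) = q.2 := by
  have h := PL1_exists hW he hd hq
  unfold Rad
  rw [dif_pos h]
  exact h.choose_spec

theorem Rad_lt_iff {L A B : ℝ} {b1 b2 δ : ℝ → ℝ} (hW : Walls L A B b1 b2) {e : ℝ} (he : 0 < e)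
    (hd : 0 < δ e) {q : ℝ × ℝ} (hq : 0 < q.2) {R : ℝ} (hR : 0 ≤ R) :
    HH L b1 b2 δ e (pol (q.1, R)) < q.2 ↔ R < Rad L b1 b2 δ e q := by
  obtain ⟨h1, h2⟩ := Rad_spec hW he hd hq
  set R1 := Rad L b1 b2 δ e q with hR1
  constructor
  · intro h
    by_contra hcon
    push Not at hcon
    have hRpos : 0 < R := h1.trans_le hcon
    have h3 := PL1_ray (δ := δ) hW he q.1 (t := R1 / R) (R := R)
      ⟨(div_pos h1 hRpos).le, (div_le_one hRpos).2 hcon⟩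
    rw [div_mul_cancel₀ _ hRpos.ne', h2] at h3
    have h4 := PL1_nonneg (δ := δ) hW he (pol (q.1, R))
    have h5 : R1 / R * HH L b1 b2 δ e (pol (q.1, R)) ≤ HH L b1 b2 δ e (pol (q.1, R)) :=
      mul_le_of_le_one_left h4 ((div_le_one hRpos).2 hcon)
    linarith
  · intro h
    have h3 := PL1_ray (δ := δ) hW he q.1 (t := R / R1) (R := R1)
      ⟨div_nonneg hR h1.le, (div_le_one h1).2 h.le⟩
    rw [div_mul_cancel₀ _ h1.ne', h2] at h3
    have h5 : R / R1 * q.2 < q.2 := mul_lt_of_lt_one_left hq ((div_lt_one h1).2 h)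
    linarith

theorem Rad_unique {L A B : ℝ} {b1 b2 δ : ℝ → ℝ} (hW : Walls L A B b1 b2) {e : ℝ} (he : 0 < e)
    (hd : 0 < δ e) {q : ℝ × ℝ} (hq : 0 < q.2) {R : ℝ} (hR : 0 < R)
    (h : HH L b1 b2 δ e (pol (q.1, R)) = q.2) : R = Rad L b1 b2 δ e q := by
  obtain ⟨h1, h2⟩ := Rad_spec hW he hd hq
  set R1 := Rad L b1 b2 δ e q with hR1
  rcases lt_trichotomy R R1 with h3 | h3 | h3
  · have h4 := (Rad_lt_iff hW he hd hq hR.le).2 h3
    rw [h] at h4
    exact absurd h4 (lt_irrefl _)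
  · exact h3
  · exfalso
    have h4 := PL1_ray (δ := δ) hW he q.1 (t := R1 / R) (R := R)
      ⟨(div_pos h1 hR).le, (div_le_one hR).2 h3.le⟩
    rw [div_mul_cancel₀ _ hR.ne', h2, h] at h4
    have h5 : R1 / R * q.2 < q.2 := mul_lt_of_lt_one_left hq ((div_lt_one hR).2 h3)
    linarith

private theorem PL1_pol_periodic (ψ R : ℝ) : pol (ψ + 2 * Real.pi, R) = pol (ψ, R) := by
  unfold pol
  simp only [Real.sin_add_two_pi, Real.cos_add_two_pi]

theorem Rad_periodic {L A B : ℝ} {b1 b2 δ : ℝ → ℝ} (hW : Walls L A B b1 b2) {e : ℝ} (he : 0 < e)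
    (hd : 0 < δ e) {q : ℝ × ℝ} (hq : 0 < q.2) :
    Rad L b1 b2 δ e (q.1 + 2 * Real.pi, q.2) = Rad L b1 b2 δ e q := by
  obtain ⟨h1, h2⟩ := Rad_spec (δ := δ) hW he hd (q := (q.1 + 2 * Real.pi, q.2)) hq
  simp only at h2
  rw [PL1_pol_periodic] at h2
  exact Rad_unique hW he hd hq h1 h2

theorem Kp_periodic {L A B : ℝ} {b1 b2 δ : ℝ → ℝ} (hW : Walls L A B b1 b2) {e : ℝ} (he : 0 < e)
    (hd : 0 < δ e) {q : ℝ × ℝ} (hq : 0 < q.2) :
    Kp L b1 b2 δ e (q.1 + 2 * Real.pi, q.2) = Kp L b1 b2 δ e q := by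
  unfold Kp
  rw [Rad_periodic hW he hd hq]
  exact PL1_pol_periodic _ _

theorem Om_periodic {L A B : ℝ} {b1 b2 δ : ℝ → ℝ} (hW : Walls L A B b1 b2) {e : ℝ} (he : 0 < e)
    (hd : 0 < δ e) {q : ℝ × ℝ} (hq : 0 < q.2) :
    Om L b1 b2 δ e (q.1 + 2 * Real.pi, q.2) = Om L b1 b2 δ e q := by
  unfold Om
  rw [Rad_periodic hW he hd hq, Kp_periodic hW he hd hq]

private theorem PL1_polar (p : ℝ × ℝ) (hp : p ≠ 0) :
    ∃ s R : ℝ, 0 < R ∧ pol (s, R) = p := by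
  set z : ℂ := ⟨p.2, p.1⟩ with hz
  have hz0 : z ≠ 0 := by
    intro h
    apply hp
    have h1 : z.re = 0 := by rw [h]; rfl
    have h2 : z.im = 0 := by rw [h]; rfl
    exact Prod.ext h2 h1
  refine ⟨z.arg, ‖z‖, norm_pos_iff.2 hz0, ?_⟩
  unfold pol
  exact Prod.ext (Complex.norm_mul_sin_arg z) (Complex.norm_mul_cos_arg z)

/-- every point `≠ 0` has polar coordinates -/
theorem Kp_surj {L A B : ℝ} {b1 b2 δ : ℝ → ℝ} (hW : Walls L A B b1 b2) {e : ℝ} (he : 0 < e)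
    (hd : 0 < δ e) {p : ℝ × ℝ} (hp : 0 < HH L b1 b2 δ e p) :
    ∃ s : ℝ, Kp L b1 b2 δ e (s, HH L b1 b2 δ e p) = p := by
  have hp0 : p ≠ 0 := by
    rintro rfl
    rw [HH_zero] at hp
    exact lt_irrefl _ hp
  obtain ⟨s, R, hR, hs⟩ := PL1_polar p hp0
  refine ⟨s, ?_⟩
  have h1 : R = Rad L b1 b2 δ e (s, HH L b1 b2 δ e p) := by
    refine Rad_unique hW he hd (q := (s, HH L b1 b2 δ e p)) hp hR ?_
    simp only
    rw [hs]
  unfold Kp
  simp only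
  rw [← h1]
  exact hs

theorem HH_Kp {L A B : ℝ} {b1 b2 δ : ℝ → ℝ} (hW : Walls L A B b1 b2) {e : ℝ} (he : 0 < e)
    (hd : 0 < δ e) {q : ℝ × ℝ} (hq : 0 < q.2) : HH L b1 b2 δ e (Kp L b1 b2 δ e q) = q.2 :=
  (Rad_spec hW he hd hq).2

theorem Kp_inj {L A B : ℝ} {b1 b2 δ : ℝ → ℝ} (hW : Walls L A B b1 b2) {e : ℝ} (he : 0 < e)
    (hd : 0 < δ e) {q q' : ℝ × ℝ} (hq : 0 < q.2) (hq' : 0 < q'.2)
    (h : Kp L b1 b2 δ e q = Kp L b1 b2 δ e q') :
    q.2 = q'.2 ∧ ∃ n : ℤ, q'.1 = q.1 + n * (2 * Real.pi) := by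
  refine ⟨?_, ?_⟩
  · rw [← HH_Kp (δ := δ) hW he hd hq, h, HH_Kp hW he hd hq']
  · obtain ⟨h1, -⟩ := Rad_spec (δ := δ) hW he hd hq
    obtain ⟨h2, -⟩ := Rad_spec (δ := δ) hW he hd hq'
    unfold Kp pol at h
    simp only [Prod.mk.injEq] at h
    obtain ⟨h3, h4⟩ := h
    set R := Rad L b1 b2 δ e q with hR
    set R' := Rad L b1 b2 δ e q' with hR'
    have h5 : R ^ 2 = R' ^ 2 := by
      have e1 : R ^ 2 = (R * Real.sin q.1) ^ 2 + (R * Real.cos q.1) ^ 2 := by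
        rw [mul_pow, mul_pow, ← mul_add, Real.sin_sq_add_cos_sq, mul_one]
      have e2 : R' ^ 2 = (R' * Real.sin q'.1) ^ 2 + (R' * Real.cos q'.1) ^ 2 := by
        rw [mul_pow, mul_pow, ← mul_add, Real.sin_sq_add_cos_sq, mul_one]
      rw [e1, e2, h3, h4]
    have h6 : R = R' := (pow_left_inj₀ h1.le h2.le two_ne_zero).1 h5
    rw [h6] at h3 h4
    have h7 : Real.sin q.1 = Real.sin q'.1 := mul_left_cancel₀ h2.ne' h3
    have h8 : Real.cos q.1 = Real.cos q'.1 := mul_left_cancel₀ h2.ne' h4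
    have h9 := Real.Angle.cos_sin_inj h8.symm h7.symm
    rw [Real.Angle.angle_eq_iff_two_pi_dvd_sub] at h9
    obtain ⟨n, hn⟩ := h9
    exact ⟨n, by linarith⟩

/-- `Vir ≥ HH` -/
theorem Vir_ge {L A B : ℝ} {b1 b2 δ : ℝ → ℝ} (hW : Walls L A B b1 b2) {e : ℝ} (he : 0 < e)
    (p : ℝ × ℝ) : HH L b1 b2 δ e p ≤ Vir L b1 b2 δ e p := by
  unfold HH Vir
  have h1 := Wp_mul_deriv (δ := δ) hW he p.1
  have h2 := mul_nonneg hW.L_pos.le (sq_nonneg p.2)
  linarith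

theorem Om_pos {L A B : ℝ} {b1 b2 δ : ℝ → ℝ} (hW : Walls L A B b1 b2) {e : ℝ} (he : 0 < e)
    (hd : 0 < δ e) {q : ℝ × ℝ} (hq : 0 < q.2) : 0 < Om L b1 b2 δ e q := by
  have h1 := Vir_ge (δ := δ) hW he (Kp L b1 b2 δ e q)
  rw [HH_Kp hW he hd hq] at h1
  obtain ⟨h2, -⟩ := Rad_spec (δ := δ) hW he hd hq
  unfold Om
  exact div_pos (hq.trans_le h1) (by positivity)

end BB
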