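import Pool.Agent.Lib_helper6.BB.W.PL1

open Filter Topology Set MeasureTheory
open scoped ContDiff

namespace BB

/-- determinant of a linear map of the plane -/
theorem PL3_det (A : ℝ × ℝ →L[ℝ] ℝ × ℝ) :
    A.det = (A (1, 0)).1 * (A (0, 1)).2 - (A (0, 1)).1 * (A (1, 0)).2 := by
  have h := LinearMap.det_toMatrix (Module.Basis.finTwoProd ℝ) (A : ℝ × ℝ →ₗ[ℝ] ℝ × ℝ)
  rw [Matrix.det_fin_two] at h
  simp only [LinearMap.toMatrix_apply, Module.Basis.finTwoProd_zero, Module.Basis.finTwoProd_one,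
    ContinuousLinearMap.coe_coe, Module.Basis.coe_finTwoProd_repr, Matrix.cons_val_zero,
    Matrix.cons_val_one] at h
  change LinearMap.det (A : ℝ × ℝ →ₗ[ℝ] ℝ × ℝ) = _
  rw [← h]

/-- derivative of polar coordinates -/
noncomputable def PL3_dpol (q : ℝ × ℝ) : ℝ × ℝ →L[ℝ] ℝ × ℝ :=
  ((q.2 * Real.cos q.1) • ContinuousLinearMap.fst ℝ ℝ ℝ +
      Real.sin q.1 • ContinuousLinearMap.snd ℝ ℝ ℝ).prod
    ((-(q.2 * Real.sin q.1)) • ContinuousLinearMap.fst ℝ ℝ ℝ +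
      Real.cos q.1 • ContinuousLinearMap.snd ℝ ℝ ℝ)

theorem PL3_pol_hasFDerivAt (q : ℝ × ℝ) : HasFDerivAt pol (PL3_dpol q) q := by
  unfold pol PL3_dpol
  refine HasFDerivAt.prodMk ?_ ?_
  · have h1 : HasFDerivAt (fun q : ℝ × ℝ => q.2) (ContinuousLinearMap.snd ℝ ℝ ℝ) q :=
      hasFDerivAt_snd
    have h0 : HasFDerivAt (fun q : ℝ × ℝ => q.1) (ContinuousLinearMap.fst ℝ ℝ ℝ) q :=
      hasFDerivAt_fst
    refine (h1.mul h0.sin).congr_fderiv ?_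
    ext <;> simp
  · have h1 : HasFDerivAt (fun q : ℝ × ℝ => q.2) (ContinuousLinearMap.snd ℝ ℝ ℝ) q :=
      hasFDerivAt_snd
    have h0 : HasFDerivAt (fun q : ℝ × ℝ => q.1) (ContinuousLinearMap.fst ℝ ℝ ℝ) q :=
      hasFDerivAt_fst
    refine (h1.mul h0.cos).congr_fderiv ?_
    ext <;> simp

theorem PL3_dpol_det (q : ℝ × ℝ) : (PL3_dpol q).det = q.2 := by
  rw [PL3_det]
  simp [PL3_dpol]
  linear_combination q.2 * Real.sin_sq_add_cos_sq q.1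

/-- the map `(ψ, R) ↦ (ψ, HH (pol (ψ, R)))` -/
noncomputable def PL3_G (L : ℝ) (b1 b2 δ : ℝ → ℝ) (e : ℝ) (q : ℝ × ℝ) : ℝ × ℝ :=
  (q.1, HH L b1 b2 δ e (pol q))

theorem PL3_HH_hasFDerivAt {L A B : ℝ} {b1 b2 δ : ℝ → ℝ} (hW : Walls L A B b1 b2) (e : ℝ)
    (p : ℝ × ℝ) : HasFDerivAt (HH L b1 b2 δ e)
      ((2 * (ww δ b1 e p.1 + ww δ b2 e p.1)) • ContinuousLinearMap.fst ℝ ℝ ℝ +
        (2 * L * p.2) • ContinuousLinearMap.snd ℝ ℝ ℝ) p := by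
  unfold HH
  have h1 : HasFDerivAt (fun q : ℝ × ℝ => q.2) (ContinuousLinearMap.snd ℝ ℝ ℝ) p :=
    hasFDerivAt_snd
  have h0 : HasFDerivAt (fun q : ℝ × ℝ => q.1) (ContinuousLinearMap.fst ℝ ℝ ℝ) p :=
    hasFDerivAt_fst
  have h2 := (Wp_hasDerivAt (δ := δ) hW e p.1).comp_hasFDerivAt p h0
  have h3 := ((h1.pow 2).const_mul L).add (h2.const_mul 2)
  refine h3.congr_fderiv ?_
  ext
  · simp
  · simp
    ring

theorem PL3_G_hasFDerivAt {L A B : ℝ} {b1 b2 δ : ℝ → ℝ} (hW : Walls L A B b1 b2) (e : ℝ)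
    (q : ℝ × ℝ) : HasFDerivAt (PL3_G L b1 b2 δ e)
      ((ContinuousLinearMap.fst ℝ ℝ ℝ).prod
        (((2 * (ww δ b1 e (pol q).1 + ww δ b2 e (pol q).1)) • ContinuousLinearMap.fst ℝ ℝ ℝ +
        (2 * L * (pol q).2) • ContinuousLinearMap.snd ℝ ℝ ℝ).comp (PL3_dpol q))) q := by
  unfold PL3_G
  refine HasFDerivAt.prodMk hasFDerivAt_fst ?_
  exact (PL3_HH_hasFDerivAt (δ := δ) hW e (pol q)).comp q (PL3_pol_hasFDerivAt q)

theorem PL3_G_det {L : ℝ} {b1 b2 δ : ℝ → ℝ} (e : ℝ)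
    (q : ℝ × ℝ) (hq : q.2 ≠ 0) :
      ((ContinuousLinearMap.fst ℝ ℝ ℝ).prod
        (((2 * (ww δ b1 e (pol q).1 + ww δ b2 e (pol q).1)) • ContinuousLinearMap.fst ℝ ℝ ℝ +
        (2 * L * (pol q).2) • ContinuousLinearMap.snd ℝ ℝ ℝ).comp (PL3_dpol q))).det =
      Vir L b1 b2 δ e (pol q) / q.2 := by
  rw [PL3_det]
  simp [PL3_dpol, Vir, pol]
  field_simp
  ring

theorem PL3_lt_Rad {L A B : ℝ} {b1 b2 δ : ℝ → ℝ} (hW : Walls L A B b1 b2) {e : ℝ} (he : 0 < e)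
    (hd : 0 < δ e) {q : ℝ × ℝ} (hq : 0 < q.2) {R : ℝ} (hR : 0 < R) :
    Rad L b1 b2 δ e q < R ↔ q.2 < HH L b1 b2 δ e (pol (q.1, R)) := by
  have h1 := Rad_lt_iff (δ := δ) hW he hd hq hR.le
  constructor
  · intro h
    rcases lt_trichotomy (HH L b1 b2 δ e (pol (q.1, R))) q.2 with h2 | h2 | h2
    · exact absurd (h1.1 h2) (not_lt.2 h.le)
    · exact absurd (Rad_unique (δ := δ) hW he hd hq hR h2) (ne_of_gt h)
    · exact h2
  · intro h
    rcases lt_trichotomy (Rad L b1 b2 δ e q) R with h2 | h2 | h2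
    · exact h2
    · exfalso
      have := (Rad_spec (δ := δ) hW he hd hq).2
      rw [h2] at this
      linarith
    · exact absurd (h1.2 h2) (not_lt.2 h.le)

theorem PL3_Rad_continuousAt {L A B : ℝ} {b1 b2 δ : ℝ → ℝ} (hW : Walls L A B b1 b2) {e : ℝ}
    (he : 0 < e) (hd : 0 < δ e) {q : ℝ × ℝ} (hq : 0 < q.2) :
    ContinuousAt (Rad L b1 b2 δ e) q := by
  have hc : Continuous (HH L b1 b2 δ e) := (HH_contDiff (δ := δ) hW e).continuous
  have hp : ∀ R : ℝ, Continuous (fun x : ℝ × ℝ => HH L b1 b2 δ e (pol (x.1, R))) := by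
    intro R
    refine hc.comp ?_
    unfold pol
    fun_prop
  have hpos : ∀ᶠ x : ℝ × ℝ in 𝓝 q, 0 < x.2 :=
    (continuous_snd.tendsto q).eventually (lt_mem_nhds hq)
  have hRq := (Rad_spec (δ := δ) hW he hd hq).1
  rw [ContinuousAt, tendsto_order]
  constructor
  · intro R hR
    rcases lt_or_ge R 0 with h0 | h0
    · filter_upwards [hpos] with x hx
      exact h0.trans (Rad_spec (δ := δ) hW he hd hx).1
    · have h1 := (Rad_lt_iff (δ := δ) hW he hd hq h0).2 hR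
      have h2 : ∀ᶠ x : ℝ × ℝ in 𝓝 q, HH L b1 b2 δ e (pol (x.1, R)) < x.2 :=
        ((hp R).tendsto q).eventually_lt (continuous_snd.tendsto q) h1
      filter_upwards [hpos, h2] with x hx hx2
      exact (Rad_lt_iff (δ := δ) hW he hd hx h0).1 hx2
  · intro R hR
    have h0 : 0 < R := hRq.trans hR
    have h1 := (PL3_lt_Rad (δ := δ) hW he hd hq h0).1 hR
    have h2 : ∀ᶠ x : ℝ × ℝ in 𝓝 q, x.2 < HH L b1 b2 δ e (pol (x.1, R)) :=
      (continuous_snd.tendsto q).eventually_lt ((hp R).tendsto q) h1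
    filter_upwards [hpos, h2] with x hx hx2
    exact (PL3_lt_Rad (δ := δ) hW he hd hx h0).2 hx2

/-- radial derivative: `∂R/∂h = R / Vir` -/
theorem Rad_hasDerivAt {L A B : ℝ} {b1 b2 δ : ℝ → ℝ} (hW : Walls L A B b1 b2) {e : ℝ} (he : 0 < e)
    (hd : 0 < δ e) {q : ℝ × ℝ} (hq : 0 < q.2) :
    HasDerivAt (fun h => Rad L b1 b2 δ e (q.1, h))
      (Rad L b1 b2 δ e q / Vir L b1 b2 δ e (Kp L b1 b2 δ e q)) q.2 := by
  have hR := (Rad_spec (δ := δ) hW he hd hq).1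
  have hV : 0 < Vir L b1 b2 δ e (Kp L b1 b2 δ e q) := by
    have h1 := Vir_ge (δ := δ) hW he (Kp L b1 b2 δ e q)
    rw [HH_Kp (δ := δ) hW he hd hq] at h1
    linarith
  have hcont : ContinuousAt (fun h => Rad L b1 b2 δ e (q.1, h)) q.2 := by
    have h1 : ContinuousAt (Rad L b1 b2 δ e) (q.1, q.2) := PL3_Rad_continuousAt (δ := δ) hW he hd hq
    exact ContinuousAt.comp (f := fun h : ℝ => (q.1, h)) h1 (by fun_prop)
  have hder : HasDerivAt (fun R => HH L b1 b2 δ e (pol (q.1, R)))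
      (Vir L b1 b2 δ e (Kp L b1 b2 δ e q) / Rad L b1 b2 δ e q)
      ((fun h => Rad L b1 b2 δ e (q.1, h)) q.2) := by
    have h1 := (PL3_HH_hasFDerivAt (δ := δ) hW e (pol (q.1, Rad L b1 b2 δ e q))).comp
      (q.1, Rad L b1 b2 δ e q) (PL3_pol_hasFDerivAt (q.1, Rad L b1 b2 δ e q))
    have h2 : HasDerivAt (fun R : ℝ => (q.1, R)) (0, 1) (Rad L b1 b2 δ e q) :=
      (hasDerivAt_const _ _).prodMk (hasDerivAt_id _)
    have h3 := h1.comp_hasDerivAt (Rad L b1 b2 δ e q) h2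
    refine h3.congr_deriv ?_
    simp [PL3_dpol, Vir, Kp, pol]
    field_simp
    ring
  have h4 : ∀ᶠ y in 𝓝 q.2, (fun R => HH L b1 b2 δ e (pol (q.1, R)))
      ((fun h => Rad L b1 b2 δ e (q.1, h)) y) = y := by
    filter_upwards [lt_mem_nhds hq] with y hy
    exact (Rad_spec (δ := δ) hW he hd (q := (q.1, y)) hy).2
  have h5 := HasDerivAt.of_local_left_inverse hcont hder (by positivity) h4
  rwa [inv_div] at h5

/-- Jacobian of `(ψ, h) ↦ (X, P)` -/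
theorem Kp_det {L A B : ℝ} {b1 b2 δ : ℝ → ℝ} (hW : Walls L A B b1 b2) {e : ℝ} (he : 0 < e)
    (hd : 0 < δ e) {q : ℝ × ℝ} (hq : 0 < q.2) :
    (fderiv ℝ (Kp L b1 b2 δ e) q).det = 1 / Om L b1 b2 δ e q := by
  have hR := (Rad_spec (δ := δ) hW he hd hq).1
  have hV : 0 < Vir L b1 b2 δ e (Kp L b1 b2 δ e q) := by
    have h1 := Vir_ge (δ := δ) hW he (Kp L b1 b2 δ e q)
    rw [HH_Kp (δ := δ) hW he hd hq] at h1
    linarith
  set g : ℝ × ℝ → ℝ × ℝ := fun x => (x.1, Rad L b1 b2 δ e x) with hg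
  have hgc : ContinuousAt g q :=
    ContinuousAt.prodMk continuousAt_fst (PL3_Rad_continuousAt (δ := δ) hW he hd hq)
  have hG := PL3_G_hasFDerivAt (δ := δ) hW e (g q)
  have hGd := PL3_G_det (L := L) (b1 := b1) (b2 := b2) (δ := δ) e (g q) (ne_of_gt hR)
  set G' := ((ContinuousLinearMap.fst ℝ ℝ ℝ).prod
        (((2 * (ww δ b1 e (pol (g q)).1 + ww δ b2 e (pol (g q)).1)) • ContinuousLinearMap.fst ℝ ℝ ℝ +
        (2 * L * (pol (g q)).2) • ContinuousLinearMap.snd ℝ ℝ ℝ).comp (PL3_dpol (g q)))) with hG'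
  have hne : G'.det ≠ 0 := by
    rw [hGd]
    exact ne_of_gt (div_pos hV hR)
  have hleft : ∀ᶠ y in 𝓝 q, PL3_G L b1 b2 δ e (g y) = y := by
    have hpos : ∀ᶠ x : ℝ × ℝ in 𝓝 q, 0 < x.2 :=
      (continuous_snd.tendsto q).eventually (lt_mem_nhds hq)
    filter_upwards [hpos] with y hy
    exact Prod.ext rfl (Rad_spec (δ := δ) hW he hd hy).2
  have hG2 : HasFDerivAt (PL3_G L b1 b2 δ e)
      ((G'.toContinuousLinearEquivOfDetNeZero hne : (ℝ × ℝ) ≃L[ℝ] (ℝ × ℝ)) : ℝ × ℝ →L[ℝ] ℝ × ℝ)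
      (g q) := by
    rw [ContinuousLinearMap.coe_toContinuousLinearEquivOfDetNeZero]
    exact hG
  have hgd := HasFDerivAt.of_local_left_inverse hgc hG2 hleft
  have hK : HasFDerivAt (Kp L b1 b2 δ e) ((PL3_dpol (g q)).comp
      (((G'.toContinuousLinearEquivOfDetNeZero hne).symm : (ℝ × ℝ) ≃L[ℝ] (ℝ × ℝ)) :
        ℝ × ℝ →L[ℝ] ℝ × ℝ)) q :=
    (PL3_pol_hasFDerivAt (g q)).comp q hgd
  rw [hK.fderiv]
  have hmul : ((PL3_dpol (g q)).comp
      (((G'.toContinuousLinearEquivOfDetNeZero hne).symm : (ℝ × ℝ) ≃L[ℝ] (ℝ × ℝ)) :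
        ℝ × ℝ →L[ℝ] ℝ × ℝ)).comp G' = PL3_dpol (g q) := by
    refine ContinuousLinearMap.ext fun x => ?_
    have h1 : (G'.toContinuousLinearEquivOfDetNeZero hne).symm (G' x) = x := by
      have := (G'.toContinuousLinearEquivOfDetNeZero hne).symm_apply_apply x
      simpa using this
    simp [h1]
  have hdet : ((PL3_dpol (g q)).comp
      (((G'.toContinuousLinearEquivOfDetNeZero hne).symm : (ℝ × ℝ) ≃L[ℝ] (ℝ × ℝ)) :
        ℝ × ℝ →L[ℝ] ℝ × ℝ)).det * G'.det = (PL3_dpol (g q)).det := by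
    conv_rhs => rw [← hmul]
    simp only [ContinuousLinearMap.det]
    rw [← LinearMap.det_comp]
    rfl
  rw [hGd, PL3_dpol_det] at hdet
  have h6 : (pol (g q)) = Kp L b1 b2 δ e q := rfl
  rw [h6] at hdet
  have h7 : (g q).2 = Rad L b1 b2 δ e q := rfl
  rw [h7] at hdet
  unfold Om
  rw [one_div, inv_div]
  rw [eq_div_iff hV.ne']
  have h8 : ∀ x : ℝ, x * (Vir L b1 b2 δ e (Kp L b1 b2 δ e q) / Rad L b1 b2 δ e q) =
      Rad L b1 b2 δ e q → x * Vir L b1 b2 δ e (Kp L b1 b2 δ e q) = Rad L b1 b2 δ e q ^ 2 := by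
    intro x hx
    rw [mul_div_assoc', div_eq_iff hR.ne'] at hx
    rw [hx]
    ring
  exact h8 _ hdet

end BB
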