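import Pool.Agent.Lib_helper6.BB.W.ZC
import Pool.Agent.Lib_helper6.BB.W.HC2

/-! # BB, block TM1 (helper73): expansion of the map in action angle coordinates -/

open Filter Topology Set MeasureTheory
open scoped ContDiff

namespace BB

theorem TM1_slow {C : ℝ} {η : ℝ} (hη : 0 < η) : ∀ᶠ e in 𝓝[>] (0 : ℝ), C ≤ e ^ (-η) := by
  have h : Tendsto (fun e : ℝ => e ^ (-η)) (𝓝[>] (0 : ℝ)) atTop := by
    have h1 : Tendsto (fun e : ℝ => (e⁻¹) ^ η) (𝓝[>] (0 : ℝ)) atTop :=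
      (tendsto_rpow_atTop hη).comp tendsto_inv_nhdsGT_zero
    refine h1.congr' ?_
    filter_upwards [self_mem_nhdsWithin] with e he
    rw [Real.inv_rpow (le_of_lt he), Real.rpow_neg (le_of_lt he)]
  exact h.eventually_ge_atTop C

theorem TM1_fast {C : ℝ} (hC : 0 < C) {η : ℝ} (hη : 0 < η) : ∀ᶠ e in 𝓝[>] (0 : ℝ), e ^ η ≤ C := by
  filter_upwards [TM1_slow (C := C⁻¹) hη, self_mem_nhdsWithin] with e he hp
  have hp' : (0:ℝ) < e := hp
  rw [Real.rpow_neg hp'.le] at he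
  exact (inv_le_inv₀ hC (Real.rpow_pos_of_pos hp' _)).1 he

theorem TM1_open (w a b : ℝ) : ∀ᶠ e in 𝓝[>] (0 : ℝ), IsOpen (Win w a b e) :=
  Eventually.of_forall fun _ => isOpen_Ioo.prod isOpen_Ioo

theorem TM1_norm (w a b : ℝ) (η : ℝ) (hη : 0 < η) : ∀ᶠ e in 𝓝[>] (0 : ℝ),
    ∀ x ∈ Win w a b e, ‖x‖ ≤ e ^ (-η) := by
  filter_upwards [TM1_slow (C := max |w| (max |a| |b|)) hη] with e he x hx
  refine le_trans ?_ he
  rw [Prod.norm_def]
  refine max_le (le_max_of_le_left ?_) (le_max_of_le_right ?_)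
  · rw [Real.norm_eq_abs, abs_le]
    constructor
    · linarith [hx.1.1, le_abs_self w]
    · linarith [hx.1.2, le_abs_self w]
  · rw [Real.norm_eq_abs, abs_le]
    constructor
    · have h1 := hx.2.1
      have h2 := neg_abs_le a
      have h3 := le_max_left |a| |b|
      linarith
    · have h1 := hx.2.2
      have h2 := le_abs_self b
      have h3 := le_max_right |a| |b|
      linarith

theorem TM1_fst (w a b : ℝ) : Tame (Win w a b) (fun _ q => q.1) :=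
  Tame.clm (TM1_open w a b) (ContinuousLinearMap.fst ℝ ℝ ℝ) (TM1_norm w a b)

theorem TM1_snd (w a b : ℝ) : Tame (Win w a b) (fun _ q => q.2) :=
  Tame.clm (TM1_open w a b) (ContinuousLinearMap.snd ℝ ℝ ℝ) (TM1_norm w a b)

/-- the energy as function of the action variable -/
theorem TM1_Hy {L A B : ℝ} {b1 b2 δ : ℝ → ℝ} (hW : Walls L A B b1 b2) (hS : Scale b1 b2 δ)
    {lam : ℝ} (hl : GoodLam L b1 b2 δ lam) {h0 : ℝ → ℝ} (hh0 : ∀ e, h0 e ∈ Icc (3 / 4 : ℝ) (5 / 4))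
    (w : ℝ) : Tame (Win w (-3 / 8) (3 / 8)) (fun e q => Hy L b1 b2 δ lam h0 e q.2) := by
  refine Tame.comp (Hy_tame hW hS hl hh0) (TM1_snd _ _ _) ?_
  refine Eventually.of_forall fun e q hq => ?_
  exact ⟨by linarith [hq.2.1], by linarith [hq.2.2]⟩

/-- bounds of the energy -/
theorem TM1_bd {L A B : ℝ} {b1 b2 δ : ℝ → ℝ} (hW : Walls L A B b1 b2) (hS : Scale b1 b2 δ)
    {lam : ℝ} (hl : GoodLam L b1 b2 δ lam) {h0 : ℝ → ℝ} (hh0 : ∀ e, h0 e ∈ Icc (3 / 4 : ℝ) (5 / 4))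
    (w : ℝ) : ∀ᶠ e in 𝓝[>] (0 : ℝ), ∀ q ∈ Win w (-3 / 8) (3 / 8) e,
      Hy L b1 b2 δ lam h0 e q.2 ∈ Ioo (1 / 2 : ℝ) (3 / 2) ∧
      Act L b1 b2 δ lam h0 e (Hy L b1 b2 δ lam h0 e q.2) = q.2 := by
  filter_upwards [Hy_spec hW hS hl hh0] with e h q hq
  obtain ⟨h1, h2⟩ := h q.2 ⟨by linarith [hq.2.1], by linarith [hq.2.2]⟩
  exact ⟨⟨by linarith [h1.1, (hh0 e).1], by linarith [h1.2, (hh0 e).2]⟩, h2⟩

theorem TM1_Psi {L A B : ℝ} {b1 b2 δ : ℝ → ℝ} (hW : Walls L A B b1 b2) (hS : Scale b1 b2 δ)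
    {lam : ℝ} (hl : GoodLam L b1 b2 δ lam) {h0 : ℝ → ℝ} (hh0 : ∀ e, h0 e ∈ Icc (3 / 4 : ℝ) (5 / 4))
    (w : ℝ) : Tame (Win w (-3 / 8) (3 / 8))
      (fun e q => Psi L b1 b2 δ e (q.1, Hy L b1 b2 δ lam h0 e q.2)) := by
  refine Tame.comp (Psi_tame hW hS w 3 (a := 1 / 4) (by norm_num))
    (Tame.prodMk (TM1_fst _ _ _) (TM1_Hy hW hS hl hh0 w)) ?_
  filter_upwards [TM1_bd hW hS hl hh0 w] with e h q hq
  obtain ⟨h1, _⟩ := h q hq
  exact ⟨hq.1, by linarith [h1.1], by linarith [h1.2]⟩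

/-- the derivative of the energy -/
theorem TM1_HH {L A B : ℝ} {b1 b2 δ : ℝ → ℝ} (hW : Walls L A B b1 b2) (e : ℝ) (p v : ℝ × ℝ) :
    fderiv ℝ (HH L b1 b2 δ e) p v =
      2 * L * p.2 * v.2 + 2 * (ww δ b1 e p.1 + ww δ b2 e p.1) * v.1 := by
  have h1 : HasFDerivAt (fun p : ℝ × ℝ => Wp δ b1 b2 e p.1)
      ((ww δ b1 e p.1 + ww δ b2 e p.1) • ContinuousLinearMap.fst ℝ ℝ ℝ) p :=
    (Wp_hasDerivAt hW e p.1).comp_hasFDerivAt p hasFDerivAt_fst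
  have h2 : HasFDerivAt (fun p : ℝ × ℝ => p.2 ^ 2)
      ((2 * p.2) • ContinuousLinearMap.snd ℝ ℝ ℝ) p := by
    have h := (hasDerivAt_pow 2 p.2).comp_hasFDerivAt p (hasFDerivAt_snd (𝕜 := ℝ) (p := p))
    have e : ((2:ℕ):ℝ) * p.2 ^ (2 - 1) = 2 * p.2 := by norm_num
    rw [e] at h
    exact h
  have h3 := (h2.const_mul L).add (h1.const_mul 2)
  have h4 : HasFDerivAt (HH L b1 b2 δ e) _ p := h3
  rw [h4.fderiv]
  simp
  ring

/-- the flow field is tangent to the energy curves -/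
theorem TM1_tangent {L A B : ℝ} {b1 b2 δ : ℝ → ℝ} (hW : Walls L A B b1 b2) (e : ℝ) (p : ℝ × ℝ) :
    fderiv ℝ (HH L b1 b2 δ e) p (2 * L * p.2, -(2 * (ww δ b1 e p.1 + ww δ b2 e p.1))) = 0 := by
  rw [TM1_HH hW]
  ring

theorem TM1_ins {L A B : ℝ} {b1 b2 δ : ℝ → ℝ} (hW : Walls L A B b1 b2) (hS : Scale b1 b2 δ)
    {lam : ℝ} (hl : GoodLam L b1 b2 δ lam) {h0 : ℝ → ℝ} (hh0 : ∀ e, h0 e ∈ Icc (3 / 4 : ℝ) (5 / 4))
    (w : ℝ) : InsMap (Zc L b1 b2 δ lam h0) (Win w (-3 / 8) (3 / 8)) (Reg L b1 b2 δ 3) := by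
  intro η hη
  filter_upwards [Reg_ins hW hS (k := 2) (k' := 3) (by norm_num) η hη, TM1_bd hW hS hl hh0 w,
    Zc_spec hW hS hl hh0] with e h1 h2 h3 q hq
  refine h1 _ ?_
  have hq' : q ∈ Str := ⟨mem_univ _, by linarith [hq.2.1], by linarith [hq.2.2]⟩
  show HH L b1 b2 δ e (Zc L b1 b2 δ lam h0 e q) < 2
  rw [h3.1 q hq']
  linarith [(h2 q hq).1.2]

theorem TM1_Zc {L A B : ℝ} {b1 b2 δ : ℝ → ℝ} (hW : Walls L A B b1 b2) (hS : Scale b1 b2 δ)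
    {lam : ℝ} (hl : GoodLam L b1 b2 δ lam) {h0 : ℝ → ℝ} (hh0 : ∀ e, h0 e ∈ Icc (3 / 4 : ℝ) (5 / 4))
    (w : ℝ) : Tame (Win w (-3 / 8) (3 / 8)) (Zc L b1 b2 δ lam h0) := by
  refine Tame.mono (Zc_tame hW hS hl hh0 w) ?_
  refine Eventually.of_forall fun e => ⟨isOpen_Ioo.prod isOpen_Ioo, fun q hq => ?_⟩
  exact ⟨hq.1, by linarith [hq.2.1], by linarith [hq.2.2]⟩

/-- the image point -/
theorem TM1_P {L A B : ℝ} {b1 b2 δ : ℝ → ℝ} (hW : Walls L A B b1 b2) (hS : Scale b1 b2 δ)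
    {lam : ℝ} (hl : GoodLam L b1 b2 δ lam) {h0 : ℝ → ℝ} (hh0 : ∀ e, h0 e ∈ Icc (3 / 4 : ℝ) (5 / 4))
    (w : ℝ) : Exp (mu δ) (Win w (-3 / 8) (3 / 8))
      (fun e q => Fs L A B b1 b2 δ e (Zc L b1 b2 δ lam h0 e q)) (Zc L b1 b2 δ lam h0)
      (fun e q => (2 * L * (Zc L b1 b2 δ lam h0 e q).2,
        -(2 * (ww δ b1 e (Zc L b1 b2 δ lam h0 e q).1 + ww δ b2 e (Zc L b1 b2 δ lam h0 e q).1)))) := by
  have h := Exp.comp (mu_fast hS) (Fs_exp hW hS 3) (Exp.const (TM1_Zc hW hS hl hh0 w))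
    (TM1_ins hW hS hl hh0 w)
  refine Exp.congr h ?_ ?_ ?_
  · exact Eventually.of_forall fun e x _ => rfl
  · exact Eventually.of_forall fun e x _ => rfl
  · refine Eventually.of_forall fun e x _ => ?_
    simp

/-- the energy of the image point -/
theorem TM1_E {L A B : ℝ} {b1 b2 δ : ℝ → ℝ} (hW : Walls L A B b1 b2) (hS : Scale b1 b2 δ)
    {lam : ℝ} (hl : GoodLam L b1 b2 δ lam) {h0 : ℝ → ℝ} (hh0 : ∀ e, h0 e ∈ Icc (3 / 4 : ℝ) (5 / 4))
    (w : ℝ) : Exp (mu δ) (Win w (-3 / 8) (3 / 8))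
      (fun e q => HH L b1 b2 δ e (Fs L A B b1 b2 δ e (Zc L b1 b2 δ lam h0 e q)))
      (fun e q => Hy L b1 b2 δ lam h0 e q.2) (fun _ _ => 0) := by
  have h := Exp.comp (mu_fast hS) (Exp.const (m := mu δ) (HH_tame hW hS 3))
    (TM1_P hW hS hl hh0 w) (TM1_ins hW hS hl hh0 w)
  refine Exp.congr h ?_ ?_ ?_
  · exact Eventually.of_forall fun e x _ => rfl
  · filter_upwards [Zc_spec hW hS hl hh0] with e h3 q hq
    have hq' : q ∈ Str := ⟨mem_univ _, by linarith [hq.2.1], by linarith [hq.2.2]⟩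
    exact (h3.1 q hq').symm
  · refine Eventually.of_forall fun e x _ => ?_
    simp only [add_zero]
    exact (TM1_tangent hW e _).symm

/-- the square of the radius -/
theorem TM1_rad {L : ℝ} {b1 b2 δ : ℝ → ℝ} {lam : ℝ} {h0 : ℝ → ℝ} (e : ℝ)
    (q : ℝ × ℝ) : (Zc L b1 b2 δ lam h0 e q).1 ^ 2 + (Zc L b1 b2 δ lam h0 e q).2 ^ 2 =
      Rad L b1 b2 δ e (Psi L b1 b2 δ e (q.1, Hy L b1 b2 δ lam h0 e q.2),
        Hy L b1 b2 δ lam h0 e q.2) ^ 2 := by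
  unfold Zc Kp pol
  have := Real.sin_sq_add_cos_sq (Psi L b1 b2 δ e (q.1, Hy L b1 b2 δ lam h0 e q.2))
  simp only
  rw [mul_pow, mul_pow, ← mul_add, this, mul_one]

/-- lower bound for the square of the radius -/
theorem TM1_rad_low {L A B : ℝ} {b1 b2 δ : ℝ → ℝ} (hW : Walls L A B b1 b2) (hS : Scale b1 b2 δ)
    {lam : ℝ} (hl : GoodLam L b1 b2 δ lam) {h0 : ℝ → ℝ} (hh0 : ∀ e, h0 e ∈ Icc (3 / 4 : ℝ) (5 / 4))
    (w : ℝ) (η : ℝ) (hη : 0 < η) : ∀ᶠ e in 𝓝[>] (0 : ℝ), ∀ q ∈ Win w (-3 / 8) (3 / 8) e,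
      e ^ η ≤ (Zc L b1 b2 δ lam h0 e q).1 ^ 2 + (Zc L b1 b2 δ lam h0 e q).2 ^ 2 := by
  filter_upwards [Rad_lower hW hS (a := 1 / 4) (by norm_num) 3 (half_pos hη),
    TM1_bd hW hS hl hh0 w, self_mem_nhdsWithin] with e h1 h2 he q hq
  have he' : (0:ℝ) < e := he
  rw [TM1_rad]
  have h3 := h1 (Psi L b1 b2 δ e (q.1, Hy L b1 b2 δ lam h0 e q.2), Hy L b1 b2 δ lam h0 e q.2)
    (by show 1 / 4 < Hy L b1 b2 δ lam h0 e q.2; linarith [(h2 q hq).1.1])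
    (by show Hy L b1 b2 δ lam h0 e q.2 < 3; linarith [(h2 q hq).1.2])
  have h4 : e ^ η = (e ^ (η / 2)) ^ 2 := by
    rw [← Real.rpow_natCast, ← Real.rpow_mul he'.le]
    congr 1
    push_cast
    ring
  rw [h4]
  exact pow_le_pow_left₀ (Real.rpow_nonneg he'.le _) h3 2

/-- a family which differs from one with a slow lower bound by a fast family times a tame one has a
slow lower bound -/
theorem TM1_low {V : Type} [NormedAddCommGroup V] [NormedSpace ℝ V] {Ω : ℝ → Set V} {m : ℝ → ℝ}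
    (hm : Fast m) {R D d : ℝ → V → ℝ}
    (hR : ∀ η : ℝ, 0 < η → ∀ᶠ e in 𝓝[>] (0 : ℝ), ∀ x ∈ Ω e, e ^ η ≤ R e x) (hd : Tame Ω d)
    (hD : ∀ᶠ e in 𝓝[>] (0 : ℝ), ∀ x ∈ Ω e, D e x = R e x + m e * d e x) (η : ℝ) (hη : 0 < η) :
    ∀ᶠ e in 𝓝[>] (0 : ℝ), ∀ x ∈ Ω e, e ^ η ≤ |D e x| := by
  obtain ⟨κ, hκ, hmκ⟩ := hm
  obtain ⟨θ, hθ, hθη, hθκ⟩ : ∃ θ : ℝ, 0 < θ ∧ 2 * θ ≤ η ∧ 2 * θ ≤ κ / 2 := by
    refine ⟨min η (κ / 2) / 2, by positivity, ?_, ?_⟩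
    · linarith [min_le_left η (κ / 2)]
    · linarith [min_le_right η (κ / 2)]
  filter_upwards [hR θ hθ, hd.bound0 (half_pos hκ), hD, hmκ, self_mem_nhdsWithin,
    TM1_fast (C := 1 / 2) (by norm_num) hθ, TM1_fast (C := 1) one_pos hη] with
    e h1 h2 h3 h4 he h5 h6 x hx
  have he' : (0:ℝ) < e := he
  have h7 : |m e * d e x| ≤ e ^ (2 * θ) := by
    rw [abs_mul]
    have h8 : |d e x| ≤ e ^ (-(κ / 2)) := h2 x hx
    have h9 : e ^ κ * e ^ (-(κ / 2)) = e ^ (κ / 2) := by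
      rw [← Real.rpow_add he']
      congr 1
      ring
    have h10 : |m e| * |d e x| ≤ e ^ (κ / 2) := by
      rw [← h9]
      exact mul_le_mul h4 h8 (abs_nonneg _) (Real.rpow_nonneg he'.le _)
    have he1 : e ≤ 1 := by
      by_contra hc
      push Not at hc
      have := Real.one_lt_rpow hc hη
      linarith
    exact h10.trans (Real.rpow_le_rpow_of_exponent_ge he' he1 hθκ)
  have h8 : e ^ (2 * θ) = e ^ θ * e ^ θ := by
    rw [← Real.rpow_add he']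
    congr 1
    ring
  have h9 : 0 < e ^ θ := Real.rpow_pos_of_pos he' _
  have he1 : e ≤ 1 := by
    by_contra hc
    push Not at hc
    have := Real.one_lt_rpow hc hη
    linarith
  have h10 : e ^ η ≤ e ^ (2 * θ) := Real.rpow_le_rpow_of_exponent_ge he' he1 hθη
  rw [h3 x hx]
  refine le_trans ?_ (le_abs_self _)
  have h11 := (abs_le.1 h7).1
  have h12 := h1 x hx
  nlinarith

/-- quotients -/
theorem TM1_quot {V : Type} [NormedAddCommGroup V] [NormedSpace ℝ V] {Ω : ℝ → Set V} {m : ℝ → ℝ}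
    (hm : Fast m) {N D v R d k : ℝ → V → ℝ}
    (hR : ∀ η : ℝ, 0 < η → ∀ᶠ e in 𝓝[>] (0 : ℝ), ∀ x ∈ Ω e, e ^ η ≤ R e x)
    (hRt : Tame Ω R) (hDt : Tame Ω D) (hvt : Tame Ω v) (hdt : Tame Ω d) (hkt : Tame Ω k)
    (hD : ∀ᶠ e in 𝓝[>] (0 : ℝ), ∀ x ∈ Ω e, D e x = R e x + m e * d e x)
    (hN : ∀ᶠ e in 𝓝[>] (0 : ℝ), ∀ x ∈ Ω e, N e x = m e * v e x + m e ^ 2 * k e x) :
    Exp m Ω (fun e x => N e x * (D e x)⁻¹) (fun _ _ => 0) (fun e x => v e x * (R e x)⁻¹) := by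
  have hDl := TM1_low hm hR hdt hD
  have hRi : Tame Ω (fun e x => (R e x)⁻¹) := by
    refine Tame.inv hRt fun η hη => ?_
    filter_upwards [hR η hη] with e h x hx
    exact (h x hx).trans (le_abs_self _)
  have hDi : Tame Ω (fun e x => (D e x)⁻¹) := Tame.inv hDt hDl
  refine ⟨Tame.constFix hRt.isOpen 0, Tame.mul hvt hRi,
    fun e x => (k e x - v e x * d e x * (R e x)⁻¹) * (D e x)⁻¹,
    Tame.mul (Tame.sub hkt (Tame.mul (Tame.mul hvt hdt) hRi)) hDi, ?_⟩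
  filter_upwards [hR 1 one_pos, hDl 1 one_pos, hD, hN, self_mem_nhdsWithin] with e h1 h2 h3 h4 he x hx
  have he' : (0:ℝ) < e := he
  have h5 : 0 < e ^ (1:ℝ) := Real.rpow_pos_of_pos he' _
  have h6 : R e x ≠ 0 := (lt_of_lt_of_le h5 (h1 x hx)).ne'
  have h7 : D e x ≠ 0 := abs_pos.1 (lt_of_lt_of_le h5 (h2 x hx))
  simp only [smul_eq_mul, zero_add]
  have h8 := h3 x hx
  rw [h4 x hx]
  field_simp
  rw [h8]
  ring

theorem TM1_arctan : Tame (fun _ => Ioo (-1 : ℝ) 1) (fun (_ : ℝ) (x : ℝ) => Real.arctan x) := by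
  have hid : Tame (fun _ => Ioo (-1 : ℝ) 1) (fun (_ : ℝ) (x : ℝ) => x) := by
    refine Tame.clm (Eventually.of_forall fun _ => isOpen_Ioo) (ContinuousLinearMap.id ℝ ℝ) ?_
    intro η hη
    filter_upwards [TM1_slow (C := 1) hη] with e he x hx
    refine le_trans ?_ he
    rw [Real.norm_eq_abs, abs_le]
    exact ⟨hx.1.le, hx.2.le⟩
  refine Tame.comp_fixed (K := Icc (-1 : ℝ) 1) (O := univ) isCompact_Icc isOpen_univ
    (subset_univ _) Real.contDiff_arctan.contDiffOn hid ?_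
  exact Eventually.of_forall fun e x hx => ⟨hx.1.le, hx.2.le⟩

/-- the increment of the angle -/
theorem TM1_dang {L A B : ℝ} {b1 b2 δ : ℝ → ℝ} (hW : Walls L A B b1 b2) (hS : Scale b1 b2 δ)
    {lam : ℝ} (hl : GoodLam L b1 b2 δ lam) {h0 : ℝ → ℝ} (hh0 : ∀ e, h0 e ∈ Icc (3 / 4 : ℝ) (5 / 4))
    (w : ℝ) : Exp (mu δ) (Win w (-3 / 8) (3 / 8))
      (fun e q => dang (Zc L b1 b2 δ lam h0 e q) (Fs L A B b1 b2 δ e (Zc L b1 b2 δ lam h0 e q)))
      (fun _ _ => 0)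
      (fun e q => Om L b1 b2 δ e (Psi L b1 b2 δ e (q.1, Hy L b1 b2 δ lam h0 e q.2),
        Hy L b1 b2 δ lam h0 e q.2)) := by
  have hm := mu_fast hS
  have hZ := TM1_Zc hW hS hl hh0 w
  have hP := TM1_P hW hS hl hh0 w
  have hx : Exp (mu δ) _ _ _ _ := Exp.const (m := mu δ) hZ.fst
  have hy : Exp (mu δ) _ _ _ _ := Exp.const (m := mu δ) hZ.snd
  have hnx : Exp (mu δ) _ _ _ _ := Exp.const (m := mu δ) hZ.fst.neg
  obtain ⟨_, hv, k, hk, hnum⟩ := Exp.add (Exp.mul hm hy hP.fst) (Exp.mul hm hnx hP.snd)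
  obtain ⟨hR0, hd1, rd, hrd, hden⟩ := Exp.add (Exp.mul hm hx hP.fst) (Exp.mul hm hy hP.snd)
  -- the remainder of the denominator
  have hd2 := Tame.add hd1 (Tame.slow_mul (mu_fast hS).slow hrd)
  have hdenT := Exp.tame hm (Exp.add (Exp.mul hm hx hP.fst) (Exp.mul hm hy hP.snd))
  have hq := TM1_quot hm (N := fun e q => (Zc L b1 b2 δ lam h0 e q).2 *
      (Fs L A B b1 b2 δ e (Zc L b1 b2 δ lam h0 e q)).1 +
      -(Zc L b1 b2 δ lam h0 e q).1 * (Fs L A B b1 b2 δ e (Zc L b1 b2 δ lam h0 e q)).2)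
    (R := fun e q => (Zc L b1 b2 δ lam h0 e q).1 * (Zc L b1 b2 δ lam h0 e q).1 +
      (Zc L b1 b2 δ lam h0 e q).2 * (Zc L b1 b2 δ lam h0 e q).2)
    (fun η hη => by
      filter_upwards [TM1_rad_low hW hS hl hh0 w η hη] with e h x hx
      have := h x hx
      rw [sq, sq] at this
      exact this)
    hR0 hdenT hv hd2 hk (by
      filter_upwards [hden] with e h x hx
      rw [h x hx]
      simp only [smul_eq_mul]
      ring) (by
      filter_upwards [hnum] with e h x hx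
      rw [h x hx]
      simp only [smul_eq_mul]
      ring)
  have ha := Exp.comp (Ω' := fun _ => Ioo (-1 : ℝ) 1) hm (Exp.const (m := mu δ) TM1_arctan) hq (by
    intro η hη
    filter_upwards [TM1_fast (C := 1) one_pos hη] with e he x hx y hy
    rw [Metric.mem_ball, Real.dist_eq, sub_zero] at hy
    have := abs_lt.1 (lt_of_lt_of_le hy he)
    exact ⟨this.1, this.2⟩)
  refine Exp.congr ha ?_ ?_ ?_
  · refine Eventually.of_forall fun e q _ => ?_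
    simp only [dang]
    congr 1
    rw [div_eq_mul_inv]
    ring
  · refine Eventually.of_forall fun e q _ => ?_
    simp
  · refine Eventually.of_forall fun e q _ => ?_
    have h1 : fderiv ℝ Real.arctan 0 = ContinuousLinearMap.toSpanSingleton ℝ (1 / (1 + 0 ^ 2)) :=
      (Real.hasDerivAt_arctan 0).hasFDerivAt.fderiv
    simp only [add_zero]
    rw [h1]
    simp only [ContinuousLinearMap.toSpanSingleton_apply, smul_eq_mul]
    unfold Om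
    have h2 := TM1_rad (L := L) (b1 := b1) (b2 := b2) (δ := δ) (lam := lam) (h0 := h0) e q
    rw [sq, sq] at h2
    rw [← h2]
    have h3 : Kp L b1 b2 δ e (Psi L b1 b2 δ e (q.1, Hy L b1 b2 δ lam h0 e q.2),
      Hy L b1 b2 δ lam h0 e q.2) = Zc L b1 b2 δ lam h0 e q := rfl
    rw [h3]
    unfold Vir
    rw [div_eq_mul_inv]
    ring

/-- the derivative of the normalised time -/
theorem TM1_Th {L A B : ℝ} {b1 b2 δ : ℝ → ℝ} (hW : Walls L A B b1 b2) {e : ℝ} (he : 0 < e)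
    (hd : 0 < δ e) {h : ℝ} (hh : 0 < h) (s : ℝ)
    (hdiff : DifferentiableAt ℝ (Th L b1 b2 δ e) (s, h)) :
    fderiv ℝ (Th L b1 b2 δ e) (s, h) (Om L b1 b2 δ e (s, h), 0) = 1 / Per L b1 b2 δ e h := by
  have h1 : HasDerivAt (fun t : ℝ => (t, h)) ((1:ℝ), (0:ℝ)) s :=
    (hasDerivAt_id s).prodMk (hasDerivAt_const s h)
  have h2 : HasFDerivAt (Th L b1 b2 δ e) (fderiv ℝ (Th L b1 b2 δ e) (s, h))
      ((fun t : ℝ => (t, h)) s) := hdiff.hasFDerivAt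
  have h3 := h2.comp_hasDerivAt s h1
  have h4 := Th_hasDerivAt hW he hd hh s
  have h5 : fderiv ℝ (Th L b1 b2 δ e) (s, h) (1, 0) =
      1 / (Om L b1 b2 δ e (s, h) * Per L b1 b2 δ e h) := h3.unique h4
  have h6 : (Om L b1 b2 δ e (s, h), (0:ℝ)) = Om L b1 b2 δ e (s, h) • ((1:ℝ), (0:ℝ)) := by
    simp
  rw [h6, map_smul, h5, smul_eq_mul]
  have h7 : Om L b1 b2 δ e (s, h) ≠ 0 := (Om_pos hW he hd (q := (s, h)) hh).ne'
  have h8 : Per L b1 b2 δ e h ≠ 0 := (Per_pos hW he hd hh).ne'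
  field_simp

/-- expansion of the map in action angle coordinates -/
theorem Tm_exp {L A B : ℝ} {b1 b2 δ : ℝ → ℝ} (hW : Walls L A B b1 b2) (hS : Scale b1 b2 δ)
    {lam : ℝ} (hl : GoodLam L b1 b2 δ lam) {h0 : ℝ → ℝ} (hh0 : ∀ e, h0 e ∈ Icc (3 / 4 : ℝ) (5 / 4))
    (w : ℝ) : Exp (mu δ) (Win w (-3 / 8) (3 / 8)) (Tm L A B b1 b2 δ lam h0) (fun _ q => q)
      (fun e q => (1 / Per L b1 b2 δ e (Hy L b1 b2 δ lam h0 e q.2), 0)) := by
  have hm := mu_fast hS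
  have hE := TM1_E hW hS hl hh0 w
  have hang := Exp.add (Exp.const (m := mu δ) (TM1_Psi hW hS hl hh0 w)) (TM1_dang hW hS hl hh0 w)
  have hpair := Exp.prodMk hang hE
  have hThT := Th_tame hW hS (2 * Real.pi * (|w| + 1) + 1) 3 (a := 1 / 4) (by norm_num)
  have hT := Exp.comp hm (Exp.const (m := mu δ) hThT) hpair (by
    intro η hη
    filter_upwards [TM1_fast (C := 1 / 8) (by norm_num) hη, TM1_bd hW hS hl hh0 w, hS.pos,
      self_mem_nhdsWithin] with e h1 h2 hd he q hq y hy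
    rw [Metric.mem_ball, Prod.dist_eq] at hy
    obtain ⟨h3, h4⟩ := max_lt_iff.1 (lt_of_lt_of_le hy h1)
    rw [Real.dist_eq, abs_lt] at h3 h4
    have h5 := h2 q hq
    have h6 := Psi_abs hW he hd (h := Hy L b1 b2 δ lam h0 e q.2) (by linarith [h5.1.1]) q.1
    have h7 : |q.1| ≤ |w| := by
      have h8 : |q.1| < w := abs_lt.2 ⟨by linarith [hq.1.1], hq.1.2⟩
      exact h8.le.trans (le_abs_self w)
    have h9 : 2 * Real.pi * (|q.1| + 1) ≤ 2 * Real.pi * (|w| + 1) := by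
      have := Real.pi_pos
      gcongr
    have h10 := abs_le.1 (h6.trans h9)
    simp only [add_zero] at h3 h4
    refine ⟨⟨by linarith [h10.1, h3.1], by linarith [h10.2, h3.2]⟩,
      by linarith [h4.1, h5.1.1], by linarith [h4.2, h5.1.2]⟩)
  have hA := Exp.comp (Ω' := fun _ => Ioo (1 / 4 : ℝ) 3) hm
    (Exp.const (m := mu δ) (Act_tame hW hS hl hh0)) hE (by
    intro η hη
    filter_upwards [TM1_fast (C := 1 / 8) (by norm_num) hη, TM1_bd hW hS hl hh0 w] with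
      e h1 h2 q hq y hy
    rw [Metric.mem_ball, Real.dist_eq] at hy
    have h3 := abs_lt.1 (lt_of_lt_of_le hy h1)
    have h5 := h2 q hq
    exact ⟨by linarith [h3.1, h5.1.1], by linarith [h3.2, h5.1.2]⟩)
  refine Exp.congr (Exp.prodMk hT hA) ?_ ?_ ?_
  · exact Eventually.of_forall fun e q _ => rfl
  · filter_upwards [TM1_bd hW hS hl hh0 w, hS.pos, self_mem_nhdsWithin] with e h2 hd he q hq
    have h5 := h2 q hq
    simp only [add_zero]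
    rw [Th_Psi hW he hd (by linarith [h5.1.1]), h5.2]
  · filter_upwards [TM1_bd hW hS hl hh0 w, hS.pos, self_mem_nhdsWithin, hThT.1] with
      e h2 hd he h6 q hq
    have h5 := h2 q hq
    simp only [add_zero, map_zero, zero_add]
    rw [TM1_Th hW he hd (by linarith [h5.1.1])]
    have h6' : (2:ℝ) * Real.pi * (|q.1| + 1) ≤ 2 * Real.pi * (|w| + 1) := by
      have h7 : |q.1| ≤ |w| := by
        have h8 : |q.1| < w := abs_lt.2 ⟨by linarith [hq.1.1], hq.1.2⟩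
        exact h8.le.trans (le_abs_self w)
      have := Real.pi_pos
      gcongr
    have h7 := Psi_abs hW he hd (h := Hy L b1 b2 δ lam h0 e q.2) (by linarith [h5.1.1]) q.1
    have h10 := abs_le.1 (h7.trans h6')
    have hmem : (Psi L b1 b2 δ e (q.1, Hy L b1 b2 δ lam h0 e q.2), Hy L b1 b2 δ lam h0 e q.2) ∈
        Win (2 * Real.pi * (|w| + 1) + 1) (1 / 4) 3 e :=
      ⟨⟨by linarith [h10.1], by linarith [h10.2]⟩, by linarith [h5.1.1], by linarith [h5.1.2]⟩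
    exact (h6.2.contDiffAt (h6.1.mem_nhds hmem)).differentiableAt (by simp)

end BB
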