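import Pool.Agent.Lib_helper6.BB.Top

open Filter Topology Set MeasureTheory
open scoped ContDiff

namespace BB

theorem TOP1_per {Y : ℝ → ℝ} (hY : GoodY Y) (x : ℝ) (n : ℤ) : Y (x + n) = Y x := by
  have h1 : Function.Periodic Y 1 := hY.2.1
  have h2 := h1.int_mul n x
  rwa [mul_one] at h2

theorem TOP1_mem {Y : ℝ → ℝ} (hY : GoodY Y) (x : ℝ) : -(1 / 8) ≤ Y x ∧ Y x ≤ 1 / 8 :=
  abs_le.1 (hY.2.2 x)

theorem TOP1_Ioo {Y : ℝ → ℝ} (hY : GoodY Y) (x : ℝ) : Y x ∈ Ioo (-1 / 2 : ℝ) (1 / 2) := by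
  have := TOP1_mem hY x
  constructor <;> linarith [this.1, this.2]

theorem TOP1_q : (-1 / 4 : ℝ) ∈ Ioo (-1 / 2 : ℝ) (1 / 2) := by constructor <;> norm_num

theorem TOP1_U_sub {Y : ℝ → ℝ} (hY : GoodY Y) :
    {q : ℝ × ℝ | -1 / 2 < q.2 ∧ q.2 < Y q.1} ⊆ univ ×ˢ Ioo (-1 / 2 : ℝ) (1 / 2) := by
  intro q hq
  exact ⟨mem_univ _, hq.1, hq.2.trans (TOP1_Ioo hY q.1).2⟩

theorem TOP1_fract {Z : ℝ × ℝ → ℝ × ℝ} {H : ℝ × ℝ → ℝ} {F : ℝ × ℝ → ℝ × ℝ} {hh : ℝ → ℝ}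
    (hT : TopData H F Z hh) (x : ℝ) {y : ℝ} (hy : y ∈ Ioo (-1 / 2 : ℝ) (1 / 2)) :
    Z (Int.fract x, y) = Z (x, y) := by
  have h1 := hT.Zper (Int.fract x) y hy ⌊x⌋
  rw [Int.fract_add_floor] at h1
  exact h1.symm

theorem TOP1_Yfract {Y : ℝ → ℝ} (hY : GoodY Y) (x : ℝ) : Y (Int.fract x) = Y x := by
  have h1 := TOP1_per hY (Int.fract x) ⌊x⌋
  rw [Int.fract_add_floor] at h1
  exact h1.symm

theorem DY_open {H : ℝ × ℝ → ℝ} {F Z : ℝ × ℝ → ℝ × ℝ} {hh Y : ℝ → ℝ} (hT : TopData H F Z hh)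
    (hY : GoodY Y) : IsOpen (DY H Z hh Y) := by
  refine (isOpen_lt hT.Hcont continuous_const).union (hT.Zopen _ ?_ (TOP1_U_sub hY))
  exact (isOpen_lt continuous_const continuous_snd).inter
    (isOpen_lt continuous_snd (hY.1.comp continuous_fst))

theorem DY_zero {H : ℝ × ℝ → ℝ} {F Z : ℝ × ℝ → ℝ × ℝ} {hh Y : ℝ → ℝ} (hT : TopData H F Z hh) :
    (0 : ℝ × ℝ) ∈ DY H Z hh Y := by
  left
  show H 0 < hh (-1 / 4)
  rw [hT.H0]
  have := (hT.hrange _ TOP1_q).1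
  linarith

theorem DY_preconnected {H : ℝ × ℝ → ℝ} {F Z : ℝ × ℝ → ℝ × ℝ} {hh Y : ℝ → ℝ}
    (hT : TopData H F Z hh) (hY : GoodY Y) : IsPreconnected (DY H Z hh Y) := by
  have h1 : IsPreconnected {p : ℝ × ℝ | H p < hh (-1 / 4)} := by
    have h2 := hT.Hconv.convex_lt (hh (-1 / 4))
    have h3 : {p : ℝ × ℝ | H p < hh (-1 / 4)} = {p ∈ univ | H p < hh (-1 / 4)} := by
      ext p
      simp
    rw [h3]
    exact h2.isPreconnected
  have h4 : IsPreconnected {q : ℝ × ℝ | -1 / 2 < q.2 ∧ q.2 < Y q.1} := by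
    have h5 : {q : ℝ × ℝ | -1 / 2 < q.2 ∧ q.2 < Y q.1} =
        (fun p : ℝ × ℝ => (p.1, -1 / 2 + p.2 * (Y p.1 + 1 / 2))) '' (univ ×ˢ Ioo (0 : ℝ) 1) := by
      ext ⟨x, y⟩
      have hpos : 0 < Y x + 1 / 2 := by
        have := (TOP1_Ioo hY x).1
        linarith
      constructor
      · rintro ⟨hq1, hq2⟩
        refine ⟨(x, (y + 1 / 2) / (Y x + 1 / 2)), ⟨mem_univ _, ?_, ?_⟩, ?_⟩
        · show 0 < (y + 1 / 2) / (Y x + 1 / 2)
          have : (0 : ℝ) < y + 1 / 2 := by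
            have : -1 / 2 < y := hq1
            linarith
          positivity
        · show (y + 1 / 2) / (Y x + 1 / 2) < 1
          rw [div_lt_one hpos]
          have : y < Y x := hq2
          linarith
        · show (x, -1 / 2 + (y + 1 / 2) / (Y x + 1 / 2) * (Y x + 1 / 2)) = (x, y)
          rw [div_mul_cancel₀ _ hpos.ne']
          congr 1
          ring
      · rintro ⟨⟨x', s⟩, ⟨_, hs1, hs2⟩, h⟩
        have e1 : x' = x := congrArg Prod.fst h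
        subst e1
        have e2 : -1 / 2 + s * (Y x' + 1 / 2) = y := congrArg Prod.snd h
        have hs1' : 0 < s := hs1
        have hs2' : s < 1 := hs2
        constructor
        · show -1 / 2 < y
          have := mul_pos hs1' hpos
          linarith
        · show y < Y x'
          have := mul_lt_of_lt_one_left hpos hs2'
          linarith
    rw [h5]
    refine ((isPreconnected_univ).prod isPreconnected_Ioo).image _ (Continuous.continuousOn ?_)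
    have := hY.1
    fun_prop
  have h6 : IsPreconnected (Z '' {q : ℝ × ℝ | -1 / 2 < q.2 ∧ q.2 < Y q.1}) :=
    h4.image _ (hT.Zcont.mono (TOP1_U_sub hY))
  have h7 : (-3 / 8 : ℝ) ∈ Ioo (-1 / 2 : ℝ) (1 / 2) := by constructor <;> norm_num
  refine h1.union (Z (0, -3 / 8)) ?_ ?_ h6
  · show H (Z (0, -3 / 8)) < hh (-1 / 4)
    rw [hT.ZH 0 _ h7]
    exact hT.hmono h7 TOP1_q (by norm_num)
  · refine ⟨(0, -3 / 8), ⟨h7.1, ?_⟩, rfl⟩
    show (-3 / 8 : ℝ) < Y 0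
    have := (TOP1_mem hY 0).1
    linarith

theorem DY_sub {H : ℝ × ℝ → ℝ} {F Z : ℝ × ℝ → ℝ × ℝ} {hh Y : ℝ → ℝ} (hT : TopData H F Z hh)
    (hY : GoodY Y) : DY H Z hh Y ⊆ {p | H p < 3 / 2} ∧ GY Z Y ⊆ {p | H p < 3 / 2} := by
  constructor
  · rintro p (hp | ⟨⟨x, y⟩, hq, rfl⟩)
    · exact lt_trans hp (hT.hrange _ TOP1_q).2
    · have hy := (TOP1_U_sub hY hq).2
      show H (Z (x, y)) < 3 / 2
      rw [hT.ZH x y hy]
      exact (hT.hrange _ hy).2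
  · rintro p ⟨⟨x, y⟩, hq, rfl⟩
    have hq' : y = Y x := hq
    subst hq'
    show H (Z (x, Y x)) < 3 / 2
    rw [hT.ZH x _ (TOP1_Ioo hY x)]
    exact (hT.hrange _ (TOP1_Ioo hY x)).2

theorem GY_compact {H : ℝ × ℝ → ℝ} {F Z : ℝ × ℝ → ℝ × ℝ} {hh Y : ℝ → ℝ} (hT : TopData H F Z hh)
    (hY : GoodY Y) : IsCompact (GY Z Y) := by
  have h1 : GY Z Y = (fun x : ℝ => Z (x, Y x)) '' Icc 0 1 := by
    ext p
    constructor
    · rintro ⟨⟨x, y⟩, hq, rfl⟩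
      have hq' : y = Y x := hq
      subst hq'
      refine ⟨Int.fract x, ⟨Int.fract_nonneg x, (Int.fract_lt_one x).le⟩, ?_⟩
      show Z (Int.fract x, Y (Int.fract x)) = Z (x, Y x)
      rw [TOP1_Yfract hY, TOP1_fract hT x (TOP1_Ioo hY x)]
    · rintro ⟨x, _, rfl⟩
      exact ⟨(x, Y x), rfl, rfl⟩
  rw [h1]
  refine isCompact_Icc.image_of_continuousOn ?_
  have h2 : ContinuousOn (fun x : ℝ => ((x, Y x) : ℝ × ℝ)) (Icc 0 1) :=
    (continuous_id.prodMk hY.1).continuousOn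
  exact hT.Zcont.comp h2 fun x _ => ⟨mem_univ _, TOP1_Ioo hY x⟩

theorem DY_GY_compact {H : ℝ × ℝ → ℝ} {F Z : ℝ × ℝ → ℝ × ℝ} {hh Y : ℝ → ℝ}
    (hT : TopData H F Z hh) (hY : GoodY Y) : IsCompact (DY H Z hh Y ∪ GY Z Y) := by
  set K : Set (ℝ × ℝ) := {q | q.1 ∈ Icc (0 : ℝ) 1 ∧ -1 / 4 ≤ q.2 ∧ q.2 ≤ Y q.1} with hK
  have hKA : K ⊆ univ ×ˢ Ioo (-1 / 2 : ℝ) (1 / 2) := by
    rintro q ⟨_, h2, h3⟩
    refine ⟨mem_univ _, ?_, h3.trans_lt (TOP1_Ioo hY q.1).2⟩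
    show (-1 / 2 : ℝ) < q.2
    linarith
  have hKc : IsCompact K := by
    have h1 : IsCompact (Icc (0 : ℝ) 1 ×ˢ Icc (-1 / 4 : ℝ) (1 / 8)) :=
      isCompact_Icc.prod isCompact_Icc
    refine h1.of_isClosed_subset ?_ ?_
    · refine (isClosed_Icc.preimage continuous_fst).inter ?_
      exact (isClosed_le continuous_const continuous_snd).inter
        (isClosed_le continuous_snd (hY.1.comp continuous_fst))
    · rintro q ⟨h2, h3, h4⟩
      exact ⟨h2, h3, h4.trans (TOP1_mem hY q.1).2⟩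
  have h1 : DY H Z hh Y ∪ GY Z Y = {p | H p ≤ hh (-1 / 4)} ∪ Z '' K := by
    apply Subset.antisymm
    · rintro p ((hp | ⟨⟨x, y⟩, ⟨hq1, hq2⟩, rfl⟩) | ⟨⟨x, y⟩, hq, rfl⟩)
      · left
        have hp' : H p < hh (-1 / 4) := hp
        exact hp'.le
      · have hy : y ∈ Ioo (-1 / 2 : ℝ) (1 / 2) := (TOP1_U_sub hY (a := (x, y)) ⟨hq1, hq2⟩).2
        rcases le_or_gt y (-1 / 4) with h2 | h2
        · left
          show H (Z (x, y)) ≤ hh (-1 / 4)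
          rw [hT.ZH x y hy]
          exact hT.hmono.monotoneOn hy TOP1_q h2
        · right
          refine ⟨(Int.fract x, y), ⟨⟨Int.fract_nonneg x, (Int.fract_lt_one x).le⟩, h2.le, ?_⟩,
            TOP1_fract hT x hy⟩
          show y ≤ Y (Int.fract x)
          rw [TOP1_Yfract hY]
          exact le_of_lt hq2
      · have hq' : y = Y x := hq
        subst hq'
        right
        refine ⟨(Int.fract x, Y x), ⟨⟨Int.fract_nonneg x, (Int.fract_lt_one x).le⟩, ?_, ?_⟩,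
          TOP1_fract hT x (TOP1_Ioo hY x)⟩
        · show (-1 / 4 : ℝ) ≤ Y x
          have := (TOP1_mem hY x).1
          linarith
        · show Y x ≤ Y (Int.fract x)
          rw [TOP1_Yfract hY]
    · rintro p (hp | ⟨⟨x, y⟩, ⟨_, h3, h4⟩, rfl⟩)
      · have hp' : H p ≤ hh (-1 / 4) := hp
        rcases hp'.lt_or_eq with h2 | h2
        · exact Or.inl (Or.inl h2)
        · obtain ⟨x, hx⟩ := hT.Zsurj p _ TOP1_q h2
          refine Or.inl (Or.inr ⟨(x, -1 / 4), ⟨TOP1_q.1, ?_⟩, hx⟩)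
          show (-1 / 4 : ℝ) < Y x
          have := (TOP1_mem hY x).1
          linarith
      · have h3' : (-1 / 4 : ℝ) ≤ y := h3
        have h4' : y ≤ Y x := h4
        rcases h4'.lt_or_eq with h5 | h5
        · refine Or.inl (Or.inr ⟨(x, y), ⟨?_, h5⟩, rfl⟩)
          show (-1 / 2 : ℝ) < y
          linarith
        · exact Or.inr ⟨(x, y), h5, rfl⟩
  rw [h1]
  refine IsCompact.union ?_ (hKc.image_of_continuousOn (hT.Zcont.mono hKA))
  refine Metric.isCompact_of_isClosed_isBounded (isClosed_le hT.Hcont continuous_const)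
    (hT.Hbdd.subset ?_)
  intro p hp
  have hp' : H p ≤ hh (-1 / 4) := hp
  show H p < 3
  have := (hT.hrange _ TOP1_q).2
  linarith

theorem DY_GY_disjoint {H : ℝ × ℝ → ℝ} {F Z : ℝ × ℝ → ℝ × ℝ} {hh Y : ℝ → ℝ}
    (hT : TopData H F Z hh) (hY : GoodY Y) : Disjoint (DY H Z hh Y) (GY Z Y) := by
  rw [Set.disjoint_left]
  rintro p hp ⟨⟨x', y'⟩, hq, rfl⟩
  have hq' : y' = Y x' := hq
  subst hq'
  rcases hp with hp | ⟨⟨x, y⟩, ⟨hq1, hq2⟩, h⟩
  · have hp' : H (Z (x', Y x')) < hh (-1 / 4) := hp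
    rw [hT.ZH x' _ (TOP1_Ioo hY x')] at hp'
    have h1 : (-1 / 4 : ℝ) < Y x' := by
      have := (TOP1_mem hY x').1
      linarith
    have h2 := hT.hmono TOP1_q (TOP1_Ioo hY x') h1
    linarith
  · have hy : y ∈ Ioo (-1 / 2 : ℝ) (1 / 2) := (TOP1_U_sub hY (a := (x, y)) ⟨hq1, hq2⟩).2
    obtain ⟨e1, n, e2⟩ := hT.Zinj x x' y hy (Y x') (TOP1_Ioo hY x') h
    rw [e2, TOP1_per hY] at e1
    have hq2' : y < Y x := hq2
    linarith

end BB
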