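import Pool.Agent.Lib_helper6.BB.W.TOP1

/-! # BB, block TOP2: invariant discs -/

open Filter Topology Set MeasureTheory
open scoped ContDiff

namespace BB

theorem TOP2_per {Y : ℝ → ℝ} (hY : GoodY Y) (x : ℝ) (n : ℤ) : Y (x + n) = Y x := by
  have h : Function.Periodic Y 1 := hY.2.1
  have h2 := h.int_mul n x
  rwa [mul_one] at h2

theorem TOP2_sub3 {H : ℝ × ℝ → ℝ} {F Z : ℝ × ℝ → ℝ × ℝ} {hh Y : ℝ → ℝ} (hT : TopData H F Z hh)
    (hY : GoodY Y) : DY H Z hh Y ∪ GY Z Y ⊆ {p | H p < 3} := by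
  obtain ⟨h1, h2⟩ := DY_sub hT hY
  rintro p (hp | hp)
  · have := h1 hp
    simp only [mem_ofPred_eq] at this ⊢
    linarith
  · have := h2 hp
    simp only [mem_ofPred_eq] at this ⊢
    linarith

theorem TOP2_disj {H : ℝ × ℝ → ℝ} {F Z : ℝ × ℝ → ℝ × ℝ} {hh Y Y' : ℝ → ℝ}
    (hT : TopData H F Z hh) (hY : GoodY Y) (h : F '' GY Z Y = GY Z Y') {p : ℝ × ℝ}
    (hp : p ∈ F '' DY H Z hh Y) (hp' : p ∈ GY Z Y') : False := by
  rw [← h] at hp'
  obtain ⟨d, hd, rfl⟩ := hp
  obtain ⟨g, hg, he⟩ := hp'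
  have h1 := hT.Finj (TOP2_sub3 hT hY (Or.inr hg)) (TOP2_sub3 hT hY (Or.inl hd)) he
  rw [h1] at hg
  exact Set.disjoint_left.1 (DY_GY_disjoint hT hY) hd hg

/-- the disc below a curve is mapped onto the disc below the image curve -/
theorem F_DY {H : ℝ × ℝ → ℝ} {F Z : ℝ × ℝ → ℝ × ℝ} {hh Y Y' : ℝ → ℝ} (hT : TopData H F Z hh)
    (hY : GoodY Y) (hY' : GoodY Y') (h : F '' GY Z Y = GY Z Y') :
    F '' DY H Z hh Y = DY H Z hh Y' := by
  have hsub := TOP2_sub3 hT hY
  have hFD : IsOpen (F '' DY H Z hh Y) :=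
    hT.Fopen _ (DY_open hT hY) (subset_union_left.trans hsub)
  have hFK : IsCompact (F '' (DY H Z hh Y ∪ GY Z Y)) :=
    (DY_GY_compact hT hY).image_of_continuousOn (hT.Fcont.mono hsub)
  have h0 : (0 : ℝ × ℝ) ∈ F '' DY H Z hh Y := ⟨0, DY_zero hT, hT.F0⟩
  have h0' : (0 : ℝ × ℝ) ∈ DY H Z hh Y' := DY_zero hT
  apply Subset.antisymm
  · have hpre : IsPreconnected (F '' DY H Z hh Y) :=
      (DY_preconnected hT hY).image F (hT.Fcont.mono (subset_union_left.trans hsub))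
    refine IsPreconnected.subset_left_of_subset_union (DY_open hT hY')
      (DY_GY_compact hT hY').isClosed.isOpen_compl ?_ ?_ ⟨0, h0, h0'⟩ hpre
    · rw [Set.disjoint_left]
      intro p hp hp'
      exact hp' (Or.inl hp)
    · intro p hp
      by_cases hp' : p ∈ DY H Z hh Y'
      · exact Or.inl hp'
      · refine Or.inr ?_
        rintro (h1 | h1)
        · exact hp' h1
        · exact TOP2_disj hT hY h hp h1
  · refine IsPreconnected.subset_left_of_subset_union hFD hFK.isClosed.isOpen_compl ?_ ?_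
      ⟨0, h0', h0⟩ (DY_preconnected hT hY')
    · rw [Set.disjoint_left]
      intro p hp hp'
      exact hp' (image_mono subset_union_left hp)
    · intro p hp
      by_cases hp' : p ∈ F '' DY H Z hh Y
      · exact Or.inl hp'
      · refine Or.inr ?_
        intro h1
        rw [image_union, h] at h1
        rcases h1 with h1 | h1
        · exact hp' h1
        · exact Set.disjoint_left.1 (DY_GY_disjoint hT hY') hp h1

theorem TOP2_lt {H : ℝ × ℝ → ℝ} {F Z : ℝ × ℝ → ℝ × ℝ} {hh Y Y' : ℝ → ℝ} (hT : TopData H F Z hh)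
    (hY : GoodY Y) (hY' : GoodY Y') (hlt : ∀ x, Y x < Y' x) :
    volume (DY H Z hh Y) < volume (DY H Z hh Y') := by
  have hK := DY_GY_compact hT hY
  have hYb : ∀ x, -(1 / 8) ≤ Y x ∧ Y x ≤ 1 / 8 := fun x => abs_le.1 (hY.2.2 x)
  have hYb' : ∀ x, -(1 / 8) ≤ Y' x ∧ Y' x ≤ 1 / 8 := fun x => abs_le.1 (hY'.2.2 x)
  have hsub : DY H Z hh Y ⊆ DY H Z hh Y' := by
    rintro p (hp | ⟨q, hq, rfl⟩)
    · exact Or.inl hp
    · refine Or.inr ⟨q, ?_, rfl⟩
      simp only [mem_ofPred_eq] at hq ⊢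
      exact ⟨hq.1, hq.2.trans (hlt _)⟩
  have hop : IsOpen (DY H Z hh Y' \ (DY H Z hh Y ∪ GY Z Y)) :=
    (DY_open hT hY').sdiff hK.isClosed
  have hne : (DY H Z hh Y' \ (DY H Z hh Y ∪ GY Z Y)).Nonempty := by
    have hm := hlt 0
    have a1 := hYb 0
    have a2 := hYb' 0
    have hmem : (Y 0 + Y' 0) / 2 ∈ Ioo (-1 / 2 : ℝ) (1 / 2) := by
      constructor <;> linarith
    refine ⟨Z (0, (Y 0 + Y' 0) / 2), Or.inr ⟨(0, (Y 0 + Y' 0) / 2), ?_, rfl⟩, ?_⟩
    · simp only [mem_ofPred_eq]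
      constructor <;> linarith
    · rintro ((h1 | ⟨q, hq, he⟩) | ⟨q, hq, he⟩)
      · simp only [mem_ofPred_eq] at h1
        rw [hT.ZH 0 _ hmem] at h1
        have := hT.hmono (a := -1 / 4) (b := (Y 0 + Y' 0) / 2) (by constructor <;> norm_num) hmem
          (by linarith)
        linarith
      · simp only [mem_ofPred_eq] at hq
        have b1 := hYb q.1
        obtain ⟨h3, n, h4⟩ := hT.Zinj q.1 0 q.2 ⟨hq.1, by linarith⟩ _ hmem he
        have h5 := TOP2_per hY q.1 n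
        rw [← h4] at h5
        linarith [hq.2]
      · simp only [mem_ofPred_eq] at hq
        have b1 := hYb q.1
        obtain ⟨h3, n, h4⟩ := hT.Zinj q.1 0 q.2 ⟨by linarith, by linarith⟩ _ hmem he
        have h5 := TOP2_per hY q.1 n
        rw [← h4] at h5
        linarith
  have h1 := measure_inter_add_sdiff (μ := volume) (DY H Z hh Y') hK.isClosed.measurableSet
  have h2 : volume (DY H Z hh Y) ≤ volume (DY H Z hh Y' ∩ (DY H Z hh Y ∪ GY Z Y)) :=
    measure_mono (fun p hp => ⟨hsub hp, Or.inl hp⟩)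
  have h3 := hop.measure_pos volume hne
  have h4 : volume (DY H Z hh Y) ≠ ⊤ :=
    ((measure_mono subset_union_left).trans_lt hK.measure_lt_top).ne
  calc volume (DY H Z hh Y) < volume (DY H Z hh Y) +
        volume (DY H Z hh Y' \ (DY H Z hh Y ∪ GY Z Y)) := ENNReal.lt_add_right h4 h3.ne'
    _ ≤ volume (DY H Z hh Y' ∩ (DY H Z hh Y ∪ GY Z Y)) +
        volume (DY H Z hh Y' \ (DY H Z hh Y ∪ GY Z Y)) := by gcongr
    _ = volume (DY H Z hh Y') := h1

/-- a translated curve of an area preserving map is invariant -/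
theorem translation_zero {H : ℝ × ℝ → ℝ} {F Z : ℝ × ℝ → ℝ × ℝ} {hh Y : ℝ → ℝ} {lam : ℝ}
    (hT : TopData H F Z hh) (hY : GoodY Y) (hY' : GoodY (fun x => Y x + lam))
    (h : F '' GY Z Y = GY Z (fun x => Y x + lam)) : lam = 0 := by
  have h1 := F_DY hT hY hY' h
  have h2 : volume (DY H Z hh (fun x => Y x + lam)) = volume (DY H Z hh Y) := by
    rw [← h1]
    exact hT.Fvol _ (DY_open hT hY).measurableSet (subset_union_left.trans (TOP2_sub3 hT hY))
  rcases lt_trichotomy lam 0 with h3 | h3 | h3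
  · have := TOP2_lt hT hY' hY (fun x => by linarith)
    rw [h2] at this
    exact absurd this (lt_irrefl _)
  · exact h3
  · have := TOP2_lt hT hY hY' (fun x => by linarith)
    rw [h2] at this
    exact absurd this (lt_irrefl _)

end BB
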