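import Pool.Agent.Lib_helper6.BB.W.TOP2

open Filter Topology Set MeasureTheory
open scoped ContDiff

namespace BB

/-- `x ↦ x + u x` is an increasing homeomorphism -/
theorem TOP3_homeo {u : ℝ → ℝ} (hu : Continuous u) (hu1 : ∀ x, u (x + 1) = u x)
    (hul : ∀ x x', |u x - u x'| ≤ |x - x'| / 2) :
    ∃ h : ℝ → ℝ, Continuous h ∧ (∀ x, h (x + u x) = x) ∧ (∀ s, h s + u (h s) = s) ∧
      ∀ s, h (s + 1) = h s + 1 := by
  have hmono : StrictMono fun x => x + u x := by
    intro x y hxy
    have h1 := abs_le.1 (hul x y)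
    have h2 : |x - y| = y - x := by rw [abs_of_neg (by linarith)]; ring
    rw [h2] at h1
    show x + u x < y + u y
    linarith [h1.2]
  have hcont : Continuous fun x => x + u x := continuous_id.add hu
  have hsurj : Function.Surjective fun x => x + u x := by
    apply hcont.surjective
    · have h1 : Tendsto (fun x : ℝ => x / 2 + u 0) atTop atTop :=
        tendsto_atTop_add_const_right _ _ (tendsto_id.atTop_div_const two_pos)
      refine tendsto_atTop_mono' _ ?_ h1
      filter_upwards [eventually_ge_atTop 0] with x hx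
      have h2 := abs_le.1 (hul x 0)
      rw [sub_zero, abs_of_nonneg hx] at h2
      linarith [h2.1]
    · have h1 : Tendsto (fun x : ℝ => x / 2 + u 0) atBot atBot :=
        tendsto_atBot_add_const_right _ _ (tendsto_id.atBot_div_const two_pos)
      refine tendsto_atBot_mono' _ ?_ h1
      filter_upwards [eventually_le_atBot 0] with x hx
      have h2 := abs_le.1 (hul x 0)
      rw [sub_zero, abs_of_nonpos hx] at h2
      linarith [h2.2]
  let e := StrictMono.orderIsoOfSurjective _ hmono hsurj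
  have he : ∀ x, e x = x + u x := fun x => rfl
  have h1 : ∀ x, e.symm (x + u x) = x := fun x => by rw [← he, OrderIso.symm_apply_apply]
  have h2 : ∀ s, e.symm s + u (e.symm s) = s := fun s => by rw [← he, OrderIso.apply_symm_apply]
  refine ⟨e.symm, e.symm.continuous, h1, h2, fun s => ?_⟩
  have h3 := h1 (e.symm s + 1)
  rw [hu1] at h3
  have h4 : e.symm s + 1 + u (e.symm s) = s + 1 := by
    have := h2 s
    linarith
  rw [h4] at h3
  exact h3

/-- from the translated curve to the invariant disc -/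
theorem invariant_disc {H : ℝ × ℝ → ℝ} {F Z T : ℝ × ℝ → ℝ × ℝ} {hh u v : ℝ → ℝ} {al lam : ℝ}
    (hT : TopData H F Z hh)
    (hTZ : ∀ x : ℝ, ∀ y ∈ Ioo (-1 / 4 : ℝ) (1 / 4), (T (x, y)).2 ∈ Ioo (-1 / 2 : ℝ) (1 / 2) ∧
      Z (T (x, y)) = F (Z (x, y)))
    (hu : Continuous u) (hv : Continuous v) (hu1 : ∀ x, u (x + 1) = u x)
    (hv1 : ∀ x, v (x + 1) = v x) (hvb : ∀ x, |v x| ≤ 1 / 16) (hlam : |lam| ≤ 1 / 16)
    (hul : ∀ x x', |u x - u x'| ≤ |x - x'| / 2)
    (hc : ∀ x, T (x + u x, v x) = (x + al + u (x + al), v (x + al) + lam)) :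
    ∃ D : Set (ℝ × ℝ), IsOpen D ∧ (0 : ℝ × ℝ) ∈ D ∧ D ⊆ {p | H p < 3 / 2} ∧ F '' D = D := by
  obtain ⟨h, hcont, h1, h2, h3⟩ := TOP3_homeo hu hu1 hul
  set Y : ℝ → ℝ := fun s => v (h s) with hY
  have hYg : GoodY Y := by
    refine ⟨hv.comp hcont, fun x => ?_, fun x => ?_⟩
    · simp only [hY]
      rw [h3, hv1]
    · have := hvb (h x)
      simp only [hY]
      linarith
  have hYl : GoodY (fun x => Y x + lam) := by
    refine ⟨hYg.1.add continuous_const, fun x => ?_, fun x => ?_⟩
    · simp only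
      rw [hYg.2.1]
    · have h4 := hvb (h x)
      have h5 := abs_add_le (Y x) lam
      simp only [hY] at h5 ⊢
      linarith
  have hFZ : ∀ x, F (Z (x + u x, v x)) = Z (x + al + u (x + al), v (x + al) + lam) := by
    intro x
    have h4 := abs_le.1 (hvb x)
    obtain ⟨-, h5⟩ := hTZ (x + u x) (v x) ⟨by linarith [h4.1], by linarith [h4.2]⟩
    rw [← h5, hc]
  have himg : F '' GY Z Y = GY Z (fun x => Y x + lam) := by
    ext p
    constructor
    · rintro ⟨_, ⟨⟨s, y⟩, hs, rfl⟩, rfl⟩
      have hs' : y = v (h s) := hs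
      have h4 := hFZ (h s)
      rw [h2 s] at h4
      rw [hs', h4]
      refine ⟨_, ?_, rfl⟩
      show v (h s + al) + lam = v (h (h s + al + u (h s + al))) + lam
      rw [h1]
    · rintro ⟨⟨s, y⟩, hs, rfl⟩
      have hs' : y = v (h s) + lam := hs
      refine ⟨Z (h s - al + u (h s - al), v (h s - al)), ⟨_, ?_, rfl⟩, ?_⟩
      · show v (h s - al) = v (h (h s - al + u (h s - al)))
        rw [h1]
      · rw [hFZ, sub_add_cancel, h2, hs']
  have hl0 : lam = 0 := translation_zero hT hYg hYl himg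
  have himg' : F '' GY Z Y = GY Z Y := by
    rw [himg, hl0]
    simp only [add_zero]
  exact ⟨DY H Z hh Y, DY_open hT hYg, DY_zero hT, (DY_sub hT hYg).1, F_DY hT hYg hYg himg'⟩

end BB
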